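import Pool.Agent.Work.MP_d4a230_co.U.SDefs
import Pool.Agent.Work.MP_d4a230_co.HMain
import Pool.Agent.Work.MP_d4a230_co.KCount0

-- merged part: Pool.Agent.Work.MP_d4a230_co.V.Model
section
-- merged part: Pool.Agent.Work.MP_d4a230_co.U.Ov
section
-- merged part: Pool.Agent.Work.MP_d4a230_co.U.Defs
section
/-!
Definitions for the universality theorem (paper proof: h96_d4a230_univ.md in the team store).
`E p`, `Ex p`, `ind`, `copies`, `img`, `aut`, `HBal` come from the landed library.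
-/

namespace Pool.Agent.Work.MP_d4a230_co.U

open Finset Filter Topology Pool.Agent.Work.MP_07f1b5_pr
open scoped BigOperators

section kernels

variable {V : Type} [Fintype V] [DecidableEq V]

/-- A symmetric kernel read on ordered pairs. -/
def ord (w : Sym2 V → ℝ) (e : V × V) : ℝ := w s(e.1, e.2)

/-- Values in the unit interval. -/
def Unit01 {X : Type} (w : X → ℝ) : Prop := ∀ e, 0 ≤ w e ∧ w e ≤ 1

/-- Cut test. -/
noncomputable def ct (t : Finset V × Finset V) (e : V × V) : ℝ :=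
  ind (e.1 ∈ t.1) * ind (e.2 ∈ t.2)

/-- Cut norm. -/
noncomputable def cut (f : V × V → ℝ) : ℝ :=
  univ.sup' univ_nonempty fun t : Finset V × Finset V => |𝔼 e, f e * ct t e|

/-- Multiplicity with which the unordered pair `p` covers the ordered pair `e`. -/
noncomputable def hit (p : Sym2 V) (e : V × V) : ℝ :=
  ind (p = s(e.1, e.2)) * (1 + ind (e.1 = e.2))

/-- Normalised density of the variables in `R`. -/
noncomputable def den {I : Type} [Fintype I] (sp : I → Sym2 V) (R : Finset I) (e : V × V) : ℝ :=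
  (Fintype.card V : ℝ) ^ 2 / (2 * Fintype.card I) * ∑ i ∈ R, hit (sp i) e

/-- Degree irregularity of a function on ordered pairs. -/
noncomputable def irr (f : V × V → ℝ) : ℝ :=
  𝔼 a : V, |(𝔼 b : V, f (a, b)) - 𝔼 e : V × V, f e|

/-- Truncation to the unit interval. -/
noncomputable def clip (x : ℝ) : ℝ := max 0 (min x 1)

/-- A signed sum of `2 m ^ 2 + 1` tests with step `1 / m`. -/
noncomputable def bsum {X T : Type} (m : ℕ) (φ : T → X → ℝ)
    (c : Fin (2 * m ^ 2 + 1) → Bool × T) (e : X) : ℝ :=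
  1 / (m : ℝ) * ∑ j, if (c j).1 then φ (c j).2 e else -φ (c j).2 e

/-- Index type of the class of model kernels. -/
abbrev CI (V : Type) (m : ℕ) : Type := Fin (2 * m ^ 2 + 1) → Bool × (Finset V × Finset V)

/-- The model kernel with index `c`. -/
noncomputable def ck (m : ℕ) (c : CI V m) : Sym2 V → ℝ :=
  Sym2.lift ⟨fun a b => (clip (bsum m ct c (a, b)) + clip (bsum m ct c (b, a))) / 2,
    fun _ _ => congrArg (· / 2) (add_comm _ _)⟩

/-- Index of a model kernel closest to `f` in cut norm. -/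
noncomputable def best (m : ℕ) (f : V × V → ℝ) : CI V m :=
  Classical.choose (Finite.exists_min fun c : CI V m => cut fun e => f e - ord (ck m c) e)

lemma best_le (m : ℕ) (f : V × V → ℝ) (c : CI V m) :
    cut (fun e => f e - ord (ck m (best m f)) e) ≤ cut fun e => f e - ord (ck m c) e :=
  Classical.choose_spec (Finite.exists_min fun c : CI V m => cut fun e => f e - ord (ck m c) e) c

/-- The best model kernel. -/
noncomputable def bk (m : ℕ) (f : V × V → ℝ) : Sym2 V → ℝ := ck m (best m f)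

variable {W : Type} [Fintype W] [DecidableEq W] (H : SimpleGraph W) [DecidableRel H.Adj]

/-- Homomorphism density. -/
noncomputable def tH (w : Sym2 V → ℝ) : ℝ := 𝔼 x : W → V, ∏ f ∈ H.edgeFinset, w (f.map x)

/-- Density of `H` minus the edge of the dart `d`, rooted at `(a, b)`. -/
noncomputable def rt (w : Sym2 V → ℝ) (d : H.Dart) (a b : V) : ℝ :=
  𝔼 x : W → V, ∏ f ∈ H.edgeFinset.erase d.edge,
    w (f.map (Function.update (Function.update x d.fst a) d.snd b))

/-- Average rooted density. -/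
noncomputable def psi (w : Sym2 V → ℝ) : Sym2 V → ℝ :=
  Sym2.lift ⟨fun a b => ((𝔼 d : H.Dart, rt H w d a b) + 𝔼 d : H.Dart, rt H w d b a) / 2,
    fun _ _ => congrArg (· / 2) (add_comm _ _)⟩

/-- The tangent inequality on every finite set. -/
def Tangent : Prop :=
  ∀ (n : ℕ) (w u : Sym2 (Fin n) → ℝ), (∀ e, 0 ≤ w e) → (∀ e, 0 ≤ u e) →
    (H.edgeFinset.card : ℝ) * (𝔼 e, ord u e * ord (psi H w) e) -
      ((H.edgeFinset.card : ℝ) - 1) * tH H w ≤ tH H u

end kernels

section structures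

variable {V VB EB : Type} [Fintype V] [DecidableEq V] [Fintype VB] [DecidableEq VB] [Fintype EB]
  [DecidableEq EB] (eb : EB → VB × VB)

/-- Image of an oriented edge. -/
def exf (x : VB → V) (f : EB) : V × V := (x (eb f).1, x (eb f).2)

/-- Put the endpoints of `f` at `e`. -/
def upd (f : EB) (x : VB → V) (e : V × V) : VB → V :=
  Function.update (Function.update x (eb f).1 e.1) (eb f).2 e.2

/-- Multilinear counting form. -/
noncomputable def Lam (D : (VB → V) → ℝ) (a : EB → V × V → ℝ) : ℝ :=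
  𝔼 x : VB → V, D x * ∏ f, a f (exf eb x f)

/-- The counting form with the edge `f` removed and its ends put at `e`. -/
noncomputable def cnv (f : EB) (D : (VB → V) → ℝ) (a : EB → V × V → ℝ) (e : V × V) : ℝ :=
  𝔼 x : VB → V, D (upd eb f x e) * ∏ g ∈ univ.erase f, a g (exf eb (upd eb f x e) g)

/-- Empirical measure of `K` sample points per edge. -/
noncomputable def smp (Q : ℝ) (K : ℕ) (T : EB → Fin K → Option (V × V)) (g : EB) (e : V × V) : ℝ :=
  Q * (Fintype.card V : ℝ) ^ 2 / K * ∑ j, ind (T g j = some e)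

/-- Truncated test built from sample points. -/
noncomputable def nt (Q Mx : ℝ) (K : ℕ) (f : EB) (D : (VB → V) → ℝ)
    (T : EB → Fin K → Option (V × V)) (e : V × V) : ℝ :=
  min (cnv eb f D (smp Q K T) e) Mx / Mx

/-- All tests used for the edge `f`: truncated sampled tests and cut tests. -/
noncomputable def tests (Q Mx : ℝ) (K : ℕ) (f : EB) (D : (VB → V) → ℝ) :
    (EB → Fin K → Option (V × V)) ⊕ (Finset V × Finset V) → V × V → ℝ :=
  Sum.elim (nt eb Q Mx K f D) ct

/-- Second moment functional. -/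
noncomputable def S2 (f : EB) (ν : EB → V × V → ℝ) (κ : ℝ) : ℝ :=
  𝔼 e : V × V, 𝔼 x : VB → V, 𝔼 x' : VB → V, ν f e * ∏ g ∈ univ.erase f,
    (ν g (exf eb (upd eb f x e) g) * ν g (exf eb (upd eb f x' e) g) +
      κ * ν g (exf eb (upd eb f x e) g) * ind (exf eb (upd eb f x e) g = exf eb (upd eb f x' e) g))

/-- Vertices covered by a set of edges. -/
def vset (F : Finset EB) : Finset VB := F.biUnion fun g => {(eb g).1, (eb g).2}

/-- Density condition with polynomial room (`v` vertices and `k` edges in `H`). -/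
def DC (v k : ℕ) : Prop :=
  (∀ f, (eb f).1 ≠ (eb f).2) ∧ ∀ (f : EB) (F : Finset EB), f ∉ F → F.Nonempty →
    (v - 2) * F.card < (k - 1) * (vset eb F \ vset eb {f}).card

/-- A weight in the unit interval that ignores one end of every edge. -/
def RootFn (D : (VB → V) → ℝ) : Prop :=
  Unit01 D ∧ ∀ f, (∀ x a, D (Function.update x (eb f).1 a) = D x) ∨
    ∀ x a, D (Function.update x (eb f).2 a) = D x

/-- Normalised count of the structure with variables in distinct components. -/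
noncomputable def Cnt {G β : Type} [Fintype G] [DecidableEq G] [Fintype β] [DecidableEq β]
    (sp : G × β → Sym2 V) (D : (VB → V) → ℝ) (T : EB → Finset (G × β)) : ℝ :=
  ((Fintype.card V : ℝ) ^ 2 / (2 * Fintype.card (G × β))) ^ Fintype.card EB *
    𝔼 x : VB → V, D x * ∑ ι : EB → G × β, ind (Function.Injective fun f => (ι f).1) *
      ∏ f, ind (ι f ∈ T f) * hit (sp (ι f)) (exf eb x f)

end structures

section gibbs

/-- Gibbs average over `r` replicas. -/
noncomputable def gib {S : Type} [Fintype S] (r : ℕ) (w : S → ℝ) (F : (Fin r → S) → ℝ) : ℝ :=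
  (∑ σ : Fin r → S, (∏ l, w (σ l)) * F σ) / (∑ s, w s) ^ r

variable {I : Type} [Fintype I] [DecidableEq I]

/-- Intersection of the replicas. -/
def cap {r : ℕ} (σ : Fin r → Finset I) : Finset I := univ.inf σ

/-- Weight of the active constraints `A` with supports `sup`. -/
noncomputable def cw {X : Type} (θ : ℝ) (sup : X → Finset I) (A : Finset X) (σ : Finset I) : ℝ :=
  ∏ c ∈ A, (1 - θ * ind (sup c ⊆ σ))

/-- Free energy of position-free constraints with probabilities `p`. -/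
noncomputable def FV {X : Type} [Fintype X] [DecidableEq X] (θ : ℝ) (p : X → ℝ)
    (sup : X → Finset I) (U : Finset I → ℝ) : ℝ :=
  Ex p fun A => Real.log (∑ σ, U σ * cw θ sup A σ)

/-- Admissible background weight. -/
def Good (lam : ℝ) (U : Finset I → ℝ) : Prop :=
  (∀ σ, 0 ≤ U σ) ∧ 0 < U ∅ ∧ ∀ σ i, U (insert i σ) ≤ lam * U (σ.erase i)

/-- Plain fugacity weight. -/
noncomputable def fug (lam : ℝ) (σ : Finset I) : ℝ := lam ^ σ.card

/-- Free energy of the binomial `k`-uniform hypergraph on `N` vertices with mean degree `L`. -/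
noncomputable def FU (k : ℕ) (L lam θ : ℝ) (N : ℕ) : ℝ :=
  FV θ (fun C : Finset (Fin N) => L / ((N - 1).choose (k - 1) : ℝ) * ind (C.card = k)) id (fug lam)

variable {V G : Type} [Fintype V] [DecidableEq V] [DecidableEq G]
  {W : Type} [Fintype W] [DecidableEq W] (H : SimpleGraph W) [DecidableRel H.Adj]

/-- `C` is a set of variables in distinct components whose positions form a copy of `H`. -/
def Acd (sp : I → Sym2 V) (cp : I → G) (C : Finset I) : Prop :=
  C.image sp ∈ copies H V ∧ C.card = H.edgeFinset.card ∧ Set.InjOn cp C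

/-- Weight of the active accidental constraints. -/
noncomputable def aw (θ : ℝ) (sp : I → Sym2 V) (cp : I → G) (act : Finset (Finset I))
    (σ : Finset I) : ℝ :=
  ∏ C ∈ act, (1 - θ * ind (Acd H sp cp C ∧ C ⊆ σ))

/-- Free energy for fixed positions. -/
noncomputable def LZ (θ τ : ℝ) (sp : I → Sym2 V) (cp : I → G) (U : Finset I → ℝ) : ℝ :=
  E τ fun act => Real.log (∑ σ, U σ * aw H θ sp cp act σ)

/-- Mean number of constraints at a variable. -/
noncomputable def rate (n N : ℕ) (τ : ℝ) : ℝ :=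
  τ * (2 * H.edgeFinset.card / aut H) * (n : ℝ) ^ (Fintype.card W - 2) *
    (2 * (N : ℝ) / (n : ℝ) ^ 2) ^ (H.edgeFinset.card - 1)

end gibbs

section model

variable {V G α β : Type} [Fintype V] [DecidableEq V] [Fintype G] [DecidableEq G] [Fintype α]
  [DecidableEq α] [Fintype β] [DecidableEq β]
  {W : Type} [Fintype W] [DecidableEq W] (H : SimpleGraph W) [DecidableRel H.Adj]

/-- Position of the slot `j` of a component placed by `z`. -/
def sl (ep : β → α × α) (z : α → V) (j : β) : Sym2 V := s(z (ep j).1, z (ep j).2)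

/-- Positions of all variables. -/
def sp (ep : β → α × α) (y : G → α → V) (i : G × β) : Sym2 V := sl ep (y i.1) i.2

/-- The layer of colour `q`. -/
def lay {Q : Type} [DecidableEq Q] (β : Type) [Fintype β] (l : G → Q) (q : Q) : Finset (G × β) :=
  univ.filter fun i => l i.1 = q

/-- `C` has a variable in the component `g`. -/
def Tch (g : G) (C : Finset (G × β)) : Prop := ∃ j, (g, j) ∈ C

/-- Weight of a configuration. -/
noncomputable def Wt (θ : ℝ) (ep : β → α × α) (U : Finset (G × β) → ℝ) (y : G → α → V)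
    (act : Finset (Finset (G × β))) (σ : Finset (G × β)) : ℝ :=
  U σ * aw H θ (sp ep y) Prod.fst act σ

/-- Weight of the active accidental constraints that touch the component `g`. -/
noncomputable def awg (θ : ℝ) (ep : β → α × α) (g : G) (y : G → α → V)
    (act : Finset (Finset (G × β))) (σ : Finset (G × β)) : ℝ :=
  ∏ C ∈ act, (1 - θ * ind (Acd H (sp ep y) Prod.fst C ∧ Tch g C ∧ C ⊆ σ))

/-- Free energy of the pattern model on `V`. -/
noncomputable def FE (V : Type) [Fintype V] [DecidableEq V] (θ τ : ℝ) (ep : β → α × α)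
    (U : Finset (G × β) → ℝ) : ℝ :=
  𝔼 y : G → α → V, LZ H θ τ (sp ep y) Prod.fst U

/-- Disorder average of a Gibbs average. -/
noncomputable def EG (θ τ : ℝ) (ep : β → α × α) (U : Finset (G × β) → ℝ) (r : ℕ)
    (F : (G → α → V) → Finset (Finset (G × β)) → (Fin r → Finset (G × β)) → ℝ) : ℝ :=
  𝔼 y : G → α → V, E τ fun act => gib r (Wt H θ ep U y act) (F y act)

/-- The accidental term of the derivative of the interpolated free energy. -/
noncomputable def AccR (V : Type) [Fintype V] [DecidableEq V] (θ τ t : ℝ) (ep : β → α × α)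
    (U : Finset (G × β) → ℝ) (r : ℕ) : ℝ :=
  EG H θ (t * τ) ep U r fun (y : G → α → V) act σ => ∑ C : Finset (G × β),
    τ / (1 - t * τ) * ind (Acd H (sp ep y) Prod.fst C ∧ C ∉ act ∧ C ⊆ cap σ)

/-- Weighted number of accidental constraints at the component `g`. -/
noncomputable def XT (τ : ℝ) (ep : β → α × α) (g : G) (y : G → α → V) : ℝ :=
  ∑ C : Finset (G × β), τ * ind (Acd H (sp ep y) Prod.fst C ∧ Tch g C)

/-- Multilinear mark of a constraint at the component `g`. -/
noncomputable def mrk {S : Type} [Fintype S] (ep : β → α × α) (g : G) (η : β → S → ℝ)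
    (T : S → Finset (G × β)) (y : G → α → V) (C : Finset (G × β)) : ℝ :=
  ind (Acd H (sp ep y) Prod.fst C) *
    ∑ j, ind ((g, j) ∈ C) * ∑ s, η j s * ind (C.erase (g, j) ⊆ T s)

/-- Dense intensity of the marks. -/
noncomputable def inten {S : Type} [Fintype S] (ep : β → α × α) (η : β → S → ℝ)
    (w : S → Sym2 V → ℝ) (z : α → V) : ℝ :=
  ∑ j, ∑ s, η j s * psi H (w s) (sl ep z j)

/-- Background weight with virtual constraints. -/
noncomputable def UV {I X : Type} [DecidableEq I] (lam θ : ℝ) (sup : X → Finset I) (A : Finset X)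
    (σ : Finset I) : ℝ :=
  fug lam σ * cw θ sup A σ

/-- Interpolated free energy. -/
noncomputable def FI (V : Type) [Fintype V] [DecidableEq V] {X : Type} [Fintype X] [DecidableEq X]
    (lam θ τ : ℝ) (ep : β → α × α) (π : X → ℝ) (sup : X → Finset (G × β)) (t : ℝ) : ℝ :=
  Ex (fun c => (1 - t) * π c) fun A => FE H V θ (t * τ) ep (UV lam θ sup A)

/-- Accidental minus virtual statistic of order `r`. -/
noncomputable def DR (V : Type) [Fintype V] [DecidableEq V] {X : Type} [Fintype X] [DecidableEq X]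
    (lam θ τ : ℝ) (ep : β → α × α) (π : X → ℝ) (sup : X → Finset (G × β)) (t : ℝ) (r : ℕ) : ℝ :=
  Ex (fun c => (1 - t) * π c) fun A => AccR H V θ τ t ep (UV lam θ sup A) r -
    EG H θ (t * τ) ep (UV lam θ sup A) r fun (_ : G → α → V) _ σ =>
      ∑ c, π c * ind (sup c ⊆ cap σ)

/-- The pattern of a single free pair. -/
def ep1 : Unit → Bool × Bool := fun _ => (false, true)

/-- The pattern of parallel variables. -/
def epP (β : Type) : β → Bool × Bool := fun _ => (false, true)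

/-- The matching pattern. -/
def epM (β : Type) : β → (β × Bool) × (β × Bool) := fun j => ((j, false), (j, true))

/-- A pattern together with a matching pattern of the same size. -/
def epS (ep : β → α × α) : β ⊕ β → (α ⊕ β × Bool) × (α ⊕ β × Bool) :=
  Sum.elim (fun j => (Sum.inl (ep j).1, Sum.inl (ep j).2))
    fun j => (Sum.inr (j, false), Sum.inr (j, true))

/-- Strict balance measured against a virtual number `K` of edges. -/
structure KBal (K : ℕ) : Prop where
  h3 : 3 ≤ Fintype.card W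
  hk : Fintype.card W ≤ H.edgeFinset.card
  hK : H.edgeFinset.card ≤ K
  vs_eq : vs H.edgeFinset = univ
  bal : ∀ U : Finset W, 3 ≤ U.card → U.card < Fintype.card W →
    ((ein H.edgeFinset U : ℤ) - 1) * ((Fintype.card W : ℤ) - 2) <
      ((K : ℤ) - 1) * ((U.card : ℤ) - 2)

/-- The asymptotic regime. -/
structure Reg (ep : β → α × α) (n M : ℕ → ℕ) (τ : ℕ → ℝ) : Prop where
  kb : ∃ K, KBal H K ∧ ∃ c : ℝ, 0 < c ∧ ∀ᶠ j in atTop, c ≤ (n j : ℝ) ^ (Fintype.card W - 2) *
    (2 * ((M j * Fintype.card β : ℕ) : ℝ) / (n j : ℝ) ^ 2) ^ (K - 1)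
  md : HBal H ∨ Tendsto τ atTop (𝓝 0)
  nb : Nonempty β
  ne : ∀ j, (ep j).1 ≠ (ep j).2
  hn : Tendsto n atTop atTop
  t01 : ∀ᶠ j in atTop, 0 ≤ τ j ∧ τ j ≤ 1
  hi : ∃ c : ℝ, ∀ᶠ j in atTop, rate H (n j) (M j * Fintype.card β) (τ j) ≤ c
  sm : (Function.Injective fun j => s((ep j).1, (ep j).2)) ∨ Tendsto τ atTop (𝓝 0)

/-- The gadget inequality. -/
def GadI (ep : β → α × α) (π : Finset β → ℝ) (L ε : ℝ) : Prop :=
  ∀ (n : ℕ) (w : Sym2 (Fin n) → ℝ), 0 < n → Unit01 w →
    (𝔼 z : α → Fin n, univ.sup' univ_nonempty fun R : Finset β =>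
      L * ∑ j ∈ R, psi H w (sl ep z j) - ∑ C, π C * ind (C ⊆ R)) ≤
    L * Fintype.card β * ((H.edgeFinset.card : ℝ) - 1) / H.edgeFinset.card * tH H w +
      ε * Fintype.card β

/-- Vertex map of a piece of a bunch: the ends of the dart go to the ends of the slot. -/
def vm {m : ℕ} (ep : β → α × α) (j : Fin m → β) (d : Fin m → H.Dart) (l : Fin m) (u : W) :
    α ⊕ Fin m × W :=
  if u = (d l).fst then Sum.inl (ep (j l)).1 else if u = (d l).snd then Sum.inl (ep (j l)).2
    else Sum.inr (l, u)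

/-- Edges of a bunch. -/
abbrev BE {m : ℕ} (d : Fin m → H.Dart) : Type :=
  Σ l : Fin m, {f : Sym2 W // f ∈ H.edgeFinset.erase (d l).edge}

/-- Endpoints of the edges of a bunch. -/
noncomputable def beb {m : ℕ} (ep : β → α × α) (j : Fin m → β) (d : Fin m → H.Dart)
    (f : BE H d) : (α ⊕ Fin m × W) × (α ⊕ Fin m × W) :=
  (vm H ep j d f.1 f.2.1.out.1, vm H ep j d f.1 f.2.1.out.2)

/-- Tuples of accidental constraints at given slots of `g` that share no other component. -/
noncomputable def DT {m : ℕ} (ep : β → α × α) (g : G) (j : Fin m → β)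
    (T : Fin m → Finset (G × β)) (y : G → α → V) : ℝ :=
  ∑ c : Fin m → Finset (G × β),
    ind (∀ l, Acd H (sp ep y) Prod.fst (c l) ∧ (g, j l) ∈ c l ∧ (c l).erase (g, j l) ⊆ T l) *
      ind (∀ l l', l ≠ l' → ∀ i ∈ c l, ∀ i' ∈ c l', i.1 = i'.1 → i.1 = g)

/-- Model kernel of the part of `R` in the layer `true`. -/
noncomputable def wl (m : ℕ) (ep : β → α × α) (y : G → α → V) (l : G → Bool)
    (R : Finset (G × β)) : Sym2 V → ℝ :=
  bk m fun e => 2 * den (sp ep y) (R ∩ lay β l true) e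

/-- Weight felt by the variable `i`. -/
noncomputable def Xi (θ : ℝ) (ep : β → α × α) (i : G × β) (y : G → α → V)
    (act : Finset (Finset (G × β))) (σ : Finset (G × β)) : ℝ :=
  ∏ C ∈ act, (1 - θ * ind (Acd H (sp ep y) Prod.fst C ∧ i ∈ C ∧ C.erase i ⊆ σ))

/-- Dense version of a product of `r` weights `Xi`. -/
noncomputable def zeta (θ ρ : ℝ) {r : ℕ} (w : Finset (Fin r) → Sym2 V → ℝ) (p : Sym2 V) : ℝ :=
  Real.exp (-(ρ * ∑ S : Finset (Fin r),
    ind S.Nonempty * (-1) ^ (S.card + 1) * θ ^ S.card * psi H (w S) p))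

/-- Elementary symmetric sum. -/
noncomputable def es {X : Type} [Fintype X] (m : ℕ) (a : X → ℝ) : ℝ :=
  (∑ c : Fin m → X, ind (Function.Injective c) * ∏ l, a (c l)) / m.factorial

/-- The positions of single variables are distinct proper pairs. -/
def Inj {N : ℕ} (y : Fin N → Bool → V) : Prop :=
  Function.Injective (sp ep1 y) ∧ ∀ g, y g false ≠ y g true

/-- Largest value of size minus `K` times irregularity over constraint-free sets of variables. -/
noncomputable def fK (K : ℝ) {N : ℕ} (y : Fin N → Bool → V) : ℝ :=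
  univ.sup' univ_nonempty fun R : Finset (Fin N × Unit) =>
    ind (∀ C, Acd H (sp ep1 y) Prod.fst C → ¬ C ⊆ R) *
      ((R.card : ℝ) / N - K * irr (den (sp ep1 y) R))

end model

end Pool.Agent.Work.MP_d4a230_co.U
end

-- merged part: Pool.Agent.Work.MP_d4a230_co.U.P1
section
/-!
Uniform averages over product spaces, and the basic facts on hit and den.
PLAN. ex_resample: the map (y, y') to (S.piecewise y y', S.piecewise y' y) is an involution of
pairs (Fintype.expect_equiv, expect_product). ex_update: similar with (y, a) to (update y i a, y i).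
ex_comp_inj: split B into the range of e and its complement (Equiv.piEquivPiSubtypeProd,
Equiv.ofInjective) or induct. ex_prod_indep: induction on s with ex_resample for S j.
ex_prod_coord: Finset.prod_univ_sum and Fintype.card_pi. sum_hit: induct on the pair p = s(a,b);
if a = b only e = (a,a) counts with factor 2, otherwise (a,b) and (b,a).
-/

namespace Pool.Agent.Work.MP_d4a230_co.U

open Finset Filter Topology Pool.Agent.Work.MP_07f1b5_pr
open scoped BigOperators


variable {ι κ : Type} [Fintype ι] [DecidableEq ι] [Fintype κ]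

lemma ex_mono {X : Type} [Fintype X] {f g : X → ℝ} (h : ∀ x, f x ≤ g x) :
    𝔼 x, f x ≤ 𝔼 x, g x := by
  exact expect_le_expect fun x _ => h x

lemma ex_le {X : Type} [Fintype X] {f : X → ℝ} {c : ℝ} (hc : 0 ≤ c) (h : ∀ x, f x ≤ c) :
    𝔼 x, f x ≤ c := by
  rcases (univ : Finset X).eq_empty_or_nonempty with h0 | h0
  · rw [h0, expect_empty]; exact hc
  · exact expect_le h0 fun x _ => h x

lemma ex_abs {X : Type} [Fintype X] (f : X → ℝ) : |𝔼 x, f x| ≤ 𝔼 x, |f x| := by
  exact abs_expect_le _ _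

lemma ex_markov {X : Type} [Fintype X] {f : X → ℝ} (hf : ∀ x, 0 ≤ f x) {a : ℝ} (ha : 0 < a) :
    𝔼 x, ind (a ≤ f x) ≤ (𝔼 x, f x) / a := by
  rw [expect_div]
  refine ex_mono fun x => ?_
  by_cases h : a ≤ f x
  · rw [ind_pos h, le_div_iff₀ ha, one_mul]; exact h
  · rw [ind_neg h]; exact div_nonneg (hf x) ha.le

lemma ex_prod {X Y : Type} [Fintype X] [Fintype Y] (f : X × Y → ℝ) :
    𝔼 p, f p = 𝔼 x, 𝔼 y, f (x, y) := by
  rw [← univ_product_univ, expect_product]

lemma P1_fst {X Y : Type} [Fintype X] [Fintype Y] [Nonempty Y] (f : X → ℝ) :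
    𝔼 x, f x = 𝔼 p : X × Y, f p.1 := by
  rw [ex_prod]
  exact expect_congr rfl fun x _ => (Fintype.expect_const _).symm

lemma ex_resample (S : Finset ι) (f : (ι → κ) → ℝ) :
    𝔼 y, f y = 𝔼 y : ι → κ, 𝔼 y2 : ι → κ, f (S.piecewise y y2) := by
  rcases isEmpty_or_nonempty (ι → κ) with h0 | h0
  · simp only [univ_eq_empty, expect_empty]
  have hinv : Function.Involutive fun p : (ι → κ) × (ι → κ) =>
      ((S.piecewise p.1 p.2, S.piecewise p.2 p.1) : (ι → κ) × (ι → κ)) := by
    rintro ⟨y, y2⟩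
    refine Prod.ext (funext fun i => ?_) (funext fun i => ?_) <;>
      by_cases h : i ∈ S <;> simp [piecewise, h]
  rw [P1_fst (Y := ι → κ) f, ← ex_prod fun p : (ι → κ) × (ι → κ) => f (S.piecewise p.1 p.2)]
  exact (Fintype.expect_bijective _ hinv.bijective _ _ fun _ => rfl).symm

lemma ex_update (i : ι) (f : (ι → κ) → ℝ) :
    𝔼 y, f y = 𝔼 y : ι → κ, 𝔼 a : κ, f (Function.update y i a) := by
  rcases isEmpty_or_nonempty (ι → κ) with h0 | h0
  · simp only [univ_eq_empty, expect_empty]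
  have : Nonempty κ := ⟨Classical.choice h0 i⟩
  have hinv : Function.Involutive fun p : (ι → κ) × κ =>
      ((Function.update p.1 i p.2, p.1 i) : (ι → κ) × κ) := by
    rintro ⟨y, a⟩
    simp
  rw [P1_fst (Y := κ) f, ← ex_prod fun p : (ι → κ) × κ => f (Function.update p.1 i p.2)]
  exact (Fintype.expect_bijective _ hinv.bijective _ _ fun _ => rfl).symm

lemma ex_comp_inj [Nonempty κ] {A : Type} [Fintype A] [DecidableEq A] (e : A → ι)
    (he : Function.Injective e) (f : (A → κ) → ℝ) :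
    𝔼 y : ι → κ, f (fun a => y (e a)) = 𝔼 z, f z := by
  classical
  let q : ι → Prop := fun i => i ∈ Set.range e
  let E : (ι → κ) ≃ (A → κ) × ({i // ¬ q i} → κ) :=
    (Equiv.piEquivPiSubtypeProd q fun _ => κ).trans
      (Equiv.prodCongr (Equiv.arrowCongr (Equiv.ofInjective e he).symm (Equiv.refl κ))
        (Equiv.refl _))
  rw [P1_fst (Y := {i // ¬ q i} → κ) f]
  exact Fintype.expect_equiv E _ _ fun _ => rfl

lemma ex_curry {A : Type} [Fintype A] [DecidableEq A] (f : (ι → A → κ) → ℝ) :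
    𝔼 y : ι × A → κ, f (fun i a => y (i, a)) = 𝔼 y, f y := by
  exact Fintype.expect_equiv (Equiv.curry ι A κ) _ _ fun _ => rfl

lemma ex_sum_type {A : Type} [Fintype A] [DecidableEq A] (f : (ι ⊕ A → κ) → ℝ) :
    𝔼 x, f x = 𝔼 z : ι → κ, 𝔼 u : A → κ, f (Sum.elim z u) := by
  rw [← ex_prod fun p : (ι → κ) × (A → κ) => f (Sum.elim p.1 p.2)]
  exact (Fintype.expect_equiv (Equiv.sumArrowEquivProdArrow ι A κ).symm _ _ fun _ => rfl).symm

lemma ex_prod_coord (F : ι → κ → ℝ) : 𝔼 y : ι → κ, ∏ i, F i (y i) = ∏ i, 𝔼 a, F i a := by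
  simp only [Fintype.expect_eq_sum_div_card]
  rw [prod_div_distrib, prod_const, Fintype.prod_sum, Fintype.card_fun, Nat.cast_pow, card_univ]

lemma ex_prod_indep [Nonempty κ] {J : Type} (s : Finset J) (S : J → Finset ι)
    (hd : ∀ j ∈ s, ∀ j2 ∈ s, j ≠ j2 → Disjoint (S j) (S j2)) (F : J → (ι → κ) → ℝ)
    (hF : ∀ j ∈ s, ∀ y y2, (∀ i ∈ S j, y i = y2 i) → F j y = F j y2) :
    𝔼 y, ∏ j ∈ s, F j y = ∏ j ∈ s, 𝔼 y, F j y := by
  classical
  induction s using Finset.induction_on with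
  | empty => simp only [prod_empty]; exact Fintype.expect_const _
  | insert j s hj ih =>
    simp only [prod_insert hj]
    rw [← ih (fun a ha b hb => hd a (mem_insert_of_mem ha) b (mem_insert_of_mem hb))
      (fun a ha => hF a (mem_insert_of_mem ha)), Fintype.expect_mul_expect, ex_resample (S j)]
    refine expect_congr rfl fun y _ => expect_congr rfl fun y2 _ => ?_
    rw [hF j (mem_insert_self _ _) ((S j).piecewise y y2) y
      (fun i hi => piecewise_eq_of_mem _ _ _ hi)]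
    refine congrArg (F j y * ·) (prod_congr rfl fun a ha => ?_)
    refine hF a (mem_insert_of_mem ha) _ _ fun i hi => piecewise_eq_of_notMem _ _ _ ?_
    exact disjoint_left.1 (hd a (mem_insert_of_mem ha) j (mem_insert_self _ _)
      fun h => hj (h ▸ ha)) hi

lemma P1_sum_mem {X : Type} [Fintype X] (A : Finset X) : ∑ a, ind (a ∈ A) = (A.card : ℝ) := by
  classical
  have : ∀ a, ind (a ∈ A) = if a ∈ A then (1 : ℝ) else 0 := fun a => by
    split_ifs with h
    · exact ind_pos h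
    · exact ind_neg h
  simp only [this]
  rw [sum_ite_mem, univ_inter, sum_const, nsmul_eq_mul, mul_one]

/-- The chance that all coordinates in `S` fall into a given set. -/
lemma ex_mem_le (S : Finset ι) (A : Finset κ) :
    𝔼 y : ι → κ, ind (∀ i ∈ S, y i ∈ A) ≤ ((A.card : ℝ) / Fintype.card κ) ^ S.card := by
  classical
  have h1 : ∀ y : ι → κ, ind (∀ i ∈ S, y i ∈ A) =
      ∏ i, (if i ∈ S then ind (y i ∈ A) else 1) := by
    intro y
    by_cases h : ∀ i ∈ S, y i ∈ A
    · rw [ind_pos h]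
      refine (prod_eq_one fun i _ => ?_).symm
      split_ifs with hi
      · exact ind_pos (h i hi)
      · rfl
    · rw [ind_neg h]
      obtain ⟨i, hi⟩ := not_forall.1 h
      obtain ⟨hi, hA⟩ := Classical.not_imp.1 hi
      exact (prod_eq_zero (mem_univ i) (by rw [if_pos hi, ind_neg hA])).symm
  have h2 : 𝔼 a : κ, ind (a ∈ A) = (A.card : ℝ) / Fintype.card κ := by
    rw [Fintype.expect_eq_sum_div_card, P1_sum_mem]
  simp only [h1]
  rw [ex_prod_coord fun i a => if i ∈ S then ind (a ∈ A) else 1]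
  calc ∏ i, 𝔼 a : κ, (if i ∈ S then ind (a ∈ A) else 1)
      ≤ ∏ i, (if i ∈ S then (A.card : ℝ) / Fintype.card κ else 1) := by
        refine prod_le_prod (fun i _ => expect_nonneg fun a _ => ?_) fun i _ => ?_
        · split_ifs
          · exact ind_nonneg _
          · exact zero_le_one
        · split_ifs
          · exact h2.le
          · exact ex_le zero_le_one fun _ => le_rfl
    _ = _ := by rw [prod_ite_mem, univ_inter, prod_const]

lemma ex_not_inj (S : Finset ι) :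
    𝔼 y : ι → κ, ind (¬ Set.InjOn y S) ≤ (S.card : ℝ) ^ 2 / Fintype.card κ := by
  classical
  have h1 : ∀ y : ι → κ, ind (¬ Set.InjOn y S) ≤ ∑ p ∈ S.offDiag, ind (y p.1 = y p.2) := by
    intro y
    refine (ind_mono fun h => ?_).trans (ind_exists_le S.offDiag fun p => y p.1 = y p.2)
    by_contra h2
    refine h fun a ha b hb hab => ?_
    by_contra hne
    exact h2 ⟨(a, b), mem_offDiag.2 ⟨ha, hb, hne⟩, hab⟩
  have hc : (0 : ℝ) ≤ 1 / Fintype.card κ := by positivity
  have h2 : ∀ p ∈ S.offDiag, 𝔼 y : ι → κ, ind (y p.1 = y p.2) ≤ 1 / (Fintype.card κ : ℝ) := by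
    intro p hp
    have hne : p.2 ≠ p.1 := (mem_offDiag.1 hp).2.2.symm
    rw [ex_update p.1]
    refine ex_le hc fun y => ?_
    simp only [Function.update_self, Function.update_of_ne hne]
    rw [Fintype.expect_eq_sum_div_card]
    have := P1_sum_mem ({y p.2} : Finset κ)
    simp only [mem_singleton, card_singleton, Nat.cast_one] at this
    rw [this]
  refine (ex_mono h1).trans ?_
  rw [expect_sum_comm]
  refine (sum_le_sum h2).trans ?_
  rw [sum_const, nsmul_eq_mul, mul_one_div]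
  refine div_le_div_of_nonneg_right ?_ (Nat.cast_nonneg _)
  have : S.offDiag.card ≤ S.card ^ 2 := by rw [offDiag_card, sq]; exact Nat.sub_le _ _
  exact_mod_cast this

variable {V I : Type} [Fintype V] [DecidableEq V] [Fintype I] [DecidableEq I]

lemma hit_nonneg (p : Sym2 V) (e : V × V) : 0 ≤ hit p e := by
  exact mul_nonneg (ind_nonneg _) (add_nonneg zero_le_one (ind_nonneg _))

lemma hit_le_two (p : Sym2 V) (e : V × V) : hit p e ≤ 2 := by
  unfold hit
  nlinarith [ind_nonneg (p = s(e.1, e.2)), ind_le_one (p = s(e.1, e.2)), ind_nonneg (e.1 = e.2),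
    ind_le_one (e.1 = e.2)]

lemma hit_swap (p : Sym2 V) (e : V × V) : hit p e.swap = hit p e := by
  unfold hit
  rw [Prod.fst_swap, Prod.snd_swap, Sym2.eq_swap, ind_congr (eq_comm (a := e.2))]

lemma hit_of_ne (p : Sym2 V) {e : V × V} (h : e.1 ≠ e.2) : hit p e = ind (p = s(e.1, e.2)) := by
  unfold hit
  rw [ind_neg h, add_zero, mul_one]

lemma sum_hit_mul (p : Sym2 V) (w : Sym2 V → ℝ) : ∑ e, hit p e * ord w e = 2 * w p := by
  induction p using Sym2.ind with
  | h a b =>
  have h1 : ∀ e : V × V, hit s(a, b) e * ord w e =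
      (if (a, b) = e then w s(a, b) else 0) + if (b, a) = e then w s(a, b) else 0 := by
    rintro ⟨c, d⟩
    unfold hit ord
    by_cases h : s(a, b) = s(c, d)
    · rw [ind_pos h, ← h]
      by_cases hcd : c = d
      · subst hcd
        have hac : a = c ∧ b = c := by simpa using h
        rw [ind_pos rfl, hac.1, hac.2, if_pos rfl]
        ring
      · rw [ind_neg hcd]
        rcases Sym2.eq_iff.1 h with ⟨rfl, rfl⟩ | ⟨rfl, rfl⟩
        · rw [if_pos rfl, if_neg fun h2 => hcd (Prod.ext_iff.1 h2).2]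
          ring
        · rw [if_pos rfl, if_neg fun h2 => hcd (Prod.ext_iff.1 h2).1.symm]
          ring
    · have n1 : (a, b) ≠ (c, d) := fun h2 => h (by
        rw [show a = c from (Prod.ext_iff.1 h2).1, show b = d from (Prod.ext_iff.1 h2).2])
      have n2 : (b, a) ≠ (c, d) := fun h2 => h (by
        rw [show b = c from (Prod.ext_iff.1 h2).1, show a = d from (Prod.ext_iff.1 h2).2,
          Sym2.eq_swap])
      rw [ind_neg h, if_neg n1, if_neg n2]
      ring
  simp only [h1, sum_add_distrib, sum_ite_eq, mem_univ, if_true]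
  ring

lemma sum_hit (p : Sym2 V) : ∑ e, hit p e = 2 := by
  have := sum_hit_mul p fun _ => 1
  simpa only [ord, mul_one] using this

lemma P1_ord {a b : ι} (h : a ≠ b) (w : Sym2 V → ℝ) :
    𝔼 z : ι → V, w s(z a, z b) = 𝔼 e, ord w e := by
  rcases isEmpty_or_nonempty V with h0 | h0
  · have : IsEmpty (ι → V) := ⟨fun z => h0.false (z a)⟩
    simp only [univ_eq_empty, expect_empty]
  have he : Function.Injective ![a, b] := by
    intro i j hij
    fin_cases i <;> fin_cases j
    · rfl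
    · exact absurd hij h
    · exact absurd hij.symm h
    · rfl
  refine (ex_comp_inj ![a, b] he fun z : Fin 2 → V => w s(z 0, z 1)).trans ?_
  exact Fintype.expect_equiv (finTwoArrowEquiv V) _ _ fun _ => rfl

lemma ex_hit {a b : ι} (h : a ≠ b) (e : V × V) :
    𝔼 z : ι → V, hit s(z a, z b) e = 2 / (Fintype.card V : ℝ) ^ 2 := by
  rw [P1_ord h fun p => hit p e, Fintype.expect_eq_sum_div_card]
  have h1 : ∀ e2 : V × V, ord (fun p => hit p e) e2 = hit s(e.1, e.2) e2 := by
    intro e2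
    unfold ord hit
    dsimp only
    by_cases h2 : s(e2.1, e2.2) = s(e.1, e.2)
    · have h3 : e.1 = e.2 ↔ e2.1 = e2.2 := by
        rw [← Sym2.mk_isDiag_iff, ← h2, Sym2.mk_isDiag_iff]
      rw [ind_pos h2, ind_pos h2.symm, ind_congr h3]
    · rw [ind_neg h2, ind_neg (Ne.symm h2), zero_mul, zero_mul]
  simp only [h1]
  rw [sum_hit, Fintype.card_prod, Nat.cast_mul, sq]

lemma ex_ord {a b : ι} (h : a ≠ b) (w : Sym2 V → ℝ) :
    𝔼 z : ι → V, w s(z a, z b) = 𝔼 e, ord w e := by
  exact P1_ord h w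

lemma den_nonneg (q : I → Sym2 V) (R : Finset I) (e : V × V) : 0 ≤ den q R e := by
  exact mul_nonneg (by positivity) (sum_nonneg fun _ _ => hit_nonneg _ _)

lemma den_mono (q : I → Sym2 V) {R R2 : Finset I} (h : R ⊆ R2) (e : V × V) :
    den q R e ≤ den q R2 e := by
  exact mul_le_mul_of_nonneg_left
    (sum_le_sum_of_subset_of_nonneg h fun _ _ _ => hit_nonneg _ _) (by positivity)

lemma den_swap (q : I → Sym2 V) (R : Finset I) (e : V × V) : den q R e.swap = den q R e := by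
  unfold den
  simp only [hit_swap]

lemma den_congr {q q2 : I → Sym2 V} {R : Finset I} (h : ∀ i ∈ R, q i = q2 i) :
    den q R = den q2 R := by
  funext e
  unfold den
  rw [sum_congr rfl fun i hi => by rw [h i hi]]

lemma den_ord [Nonempty V] (q : I → Sym2 V) (R : Finset I) (w : Sym2 V → ℝ) :
    𝔼 e, den q R e * ord w e = (∑ i ∈ R, w (q i)) / Fintype.card I := by
  have hV : (Fintype.card V : ℝ) ≠ 0 := Nat.cast_ne_zero.2 Fintype.card_ne_zero
  rw [Fintype.expect_eq_sum_div_card]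
  unfold den
  simp only [mul_assoc, sum_mul]
  rw [← mul_sum, sum_comm]
  simp only [sum_hit_mul]
  rw [← mul_sum, Fintype.card_prod, Nat.cast_mul]
  rcases eq_or_ne (Fintype.card I : ℝ) 0 with hI | hI
  · simp [hI]
  · field_simp

lemma ex_den [Nonempty V] (q : I → Sym2 V) (R : Finset I) :
    𝔼 e, den q R e = (R.card : ℝ) / Fintype.card I := by
  have := den_ord q R fun _ => 1
  simpa only [ord, mul_one, sum_const, nsmul_eq_mul] using this

lemma ex_den_le (q : I → Sym2 V) (R : Finset I) : 𝔼 e, den q R e ≤ 1 := by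
  rcases isEmpty_or_nonempty V with h0 | h0
  · simp only [univ_eq_empty, expect_empty, zero_le_one]
  · rw [ex_den]
    exact div_le_one_of_le₀ (Nat.cast_le.2 (card_le_univ R)) (Nat.cast_nonneg _)

end Pool.Agent.Work.MP_d4a230_co.U
end

-- merged part: Pool.Agent.Work.MP_d4a230_co.U.Boost
section
/-!
Dense model theorem by boosting.
PLAN. G x = 0, x^2/2, x - 1/2 on x <= 0, [0,1], x >= 1 (G x = clip x * x - clip x ^ 2 / 2). Then
G (x + h) <= G x + h * clip x + h^2/2 and G x >= max x 0 - 1/2. Potential Φ s = mean (G s) - mean (a s).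
Suppose every c has a bad test. Build by induction on j <= 2m^2+1 a choice c whose entries from j on
are (true, t0) and with Φ (bsum c) <= - j / (2 m^2) strictly for j > 0 (update entry j by the bad test
with the right sign). At j = 2m^2+1 this is below -1, but
Φ s >= mean (max s 0) - 1/2 - mean (ν * max s 0) >= -1.
-/

namespace Pool.Agent.Work.MP_d4a230_co.U

open Finset Filter Topology Pool.Agent.Work.MP_07f1b5_pr
open scoped BigOperators


lemma Boost_clip (x : ℝ) : 0 ≤ clip x ∧ clip x ≤ 1 :=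
  ⟨le_max_left _ _, max_le zero_le_one (min_le_right _ _)⟩

lemma Boost_proj (x u : ℝ) (h0 : 0 ≤ u) (h1 : u ≤ 1) : (u - clip x) * (x - clip x) ≤ 0 := by
  unfold clip
  rcases le_total x 0 with h | h
  · rw [min_eq_left (h.trans zero_le_one), max_eq_left h]; nlinarith
  · rcases le_total x 1 with h' | h'
    · rw [min_eq_left h', max_eq_right h]; simp
    · rw [min_eq_right h', max_eq_right zero_le_one]; nlinarith

/-- The primitive of `clip`. -/
noncomputable def Boost_G (x : ℝ) : ℝ := clip x * x - clip x ^ 2 / 2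

lemma Boost_G1 (x h : ℝ) : Boost_G (x + h) ≤ Boost_G x + h * clip x + h ^ 2 / 2 := by
  have := Boost_proj x (clip (x + h)) (Boost_clip _).1 (Boost_clip _).2
  unfold Boost_G
  nlinarith [sq_nonneg (clip (x + h) - clip x - h)]

lemma Boost_G2 (x : ℝ) : max x 0 - 1 / 2 ≤ Boost_G x := by
  have h0 := Boost_proj x 0 le_rfl zero_le_one
  have h1 := Boost_proj x 1 zero_le_one le_rfl
  unfold Boost_G
  rcases le_total x 0 with h | h
  · rw [max_eq_right h]; nlinarith [sq_nonneg (clip x)]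
  · rw [max_eq_left h]; nlinarith [sq_nonneg (clip x - 1)]

lemma Boost_upd {X T : Type} (m : ℕ) (φ : T → X → ℝ) (t0 : T) (h0 : ∀ e, φ t0 e = 0)
    (c : Fin (2 * m ^ 2 + 1) → Bool × T) (j : Fin (2 * m ^ 2 + 1)) (hj : c j = (true, t0))
    (p : Bool × T) (e : X) : bsum m φ (Function.update c j p) e =
      bsum m φ c e + 1 / (m : ℝ) * (if p.1 then φ p.2 e else -φ p.2 e) := by
  unfold bsum
  rw [← Finset.add_sum_erase _ _ (mem_univ j), ← Finset.add_sum_erase _ _ (mem_univ j),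
    Function.update_self, hj,
    Finset.sum_congr rfl fun i hi => by rw [Function.update_of_ne (ne_of_mem_erase hi)]]
  simp only [h0, if_true]
  ring

lemma Boost_step {X : Type} [Fintype X] [Nonempty X] (m : ℝ) (hm : 0 < m) (a s ψ : X → ℝ)
    (hψ : ∀ e, |ψ e| ≤ 1) (h : 1 / m ≤ 𝔼 e, (a e - clip (s e)) * ψ e) :
    𝔼 e, (Boost_G (s e + 1 / m * ψ e) - a e * (s e + 1 / m * ψ e)) ≤
      𝔼 e, (Boost_G (s e) - a e * s e) - 1 / (2 * m ^ 2) := by
  have h1 : 𝔼 e, (Boost_G (s e + 1 / m * ψ e) - a e * (s e + 1 / m * ψ e)) ≤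
      𝔼 e, ((Boost_G (s e) - a e * s e) - 1 / m * ((a e - clip (s e)) * ψ e) +
        1 / (2 * m ^ 2)) := by
    refine Finset.expect_le_expect fun e _ => ?_
    have k1 := Boost_G1 (s e) (1 / m * ψ e)
    have k2 : ψ e ^ 2 ≤ 1 := by have := abs_le.1 (hψ e); nlinarith
    have k3 : (1 / m * ψ e) ^ 2 / 2 ≤ 1 / (2 * m ^ 2) := by
      have : (1 / m * ψ e) ^ 2 / 2 = 1 / (2 * m ^ 2) * ψ e ^ 2 := by field_simp
      rw [this]
      exact mul_le_of_le_one_right (by positivity) k2
    nlinarith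
  rw [Finset.expect_add_distrib,
    Finset.expect_sub_distrib _ (fun e => Boost_G (s e) - a e * s e), ← Finset.mul_expect,
    Finset.expect_const univ_nonempty] at h1
  have h2 : 1 / m * (1 / m) ≤ 1 / m * 𝔼 e, (a e - clip (s e)) * ψ e :=
    mul_le_mul_of_nonneg_left h (by positivity)
  have h3 : 1 / m * (1 / m) = 2 * (1 / (2 * m ^ 2)) := by field_simp
  linarith

theorem boost {X T : Type} [Fintype X] (m : ℕ) (hm : 0 < m) (φ : T → X → ℝ)
    (hφ : ∀ t e, |φ t e| ≤ 1) (t0 : T) (h0 : ∀ e, φ t0 e = 0) (ν a : X → ℝ)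
    (ha : ∀ e, 0 ≤ a e ∧ a e ≤ ν e)
    (hP : ∀ c, 𝔼 e, (ν e - 1) * max (bsum m φ c e) 0 ≤ 1 / 2) :
    ∃ c, ∀ t, |𝔼 e, (a e - clip (bsum m φ c e)) * φ t e| ≤ 1 / m := by
  have hm' : (0 : ℝ) < m := by exact_mod_cast hm
  rcases isEmpty_or_nonempty X with hX | hX
  · exact ⟨fun _ => (true, t0), fun t => by simp⟩
  by_contra hc
  push Not at hc
  have key : ∀ j : ℕ, j ≤ 2 * m ^ 2 + 1 → ∃ c : Fin (2 * m ^ 2 + 1) → Bool × T,
      (∀ i : Fin (2 * m ^ 2 + 1), j ≤ i.1 → c i = (true, t0)) ∧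
      𝔼 e, (Boost_G (bsum m φ c e) - a e * bsum m φ c e) ≤ -(j * (1 / (2 * (m : ℝ) ^ 2))) := by
    intro j
    induction j with
    | zero =>
      refine fun _ => ⟨fun _ => (true, t0), fun _ _ => rfl, ?_⟩
      simp [bsum, h0, Boost_G, clip]
    | succ j ih =>
      intro hj
      obtain ⟨c, hc1, hc2⟩ := ih (by omega)
      obtain ⟨t, ht⟩ := hc c
      have hb : ∃ b : Bool, 1 / (m : ℝ) ≤
          𝔼 e, (a e - clip (bsum m φ c e)) * (if b then φ t e else -φ t e) := by
        rcases lt_abs.1 ht with h | h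
        · exact ⟨true, by simpa using h.le⟩
        · refine ⟨false, ?_⟩
          simp only [Bool.false_eq_true, if_false, mul_neg, Finset.expect_neg_distrib]
          exact h.le
      obtain ⟨b, hb⟩ := hb
      refine ⟨Function.update c ⟨j, by omega⟩ (b, t), fun i hi => ?_, ?_⟩
      · rw [Function.update_of_ne (fun h => by rw [h] at hi; simp at hi), hc1 i (by omega)]
      · simp only [Boost_upd m φ t0 h0 c ⟨j, by omega⟩ (hc1 _ le_rfl)]
        have := Boost_step m hm' a (bsum m φ c) (fun e => if b then φ t e else -φ t e)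
          (fun e => by cases b <;> simpa using hφ t e) hb
        push_cast
        linarith
  obtain ⟨c, -, h1⟩ := key _ le_rfl
  have h2 : 𝔼 e, (-(1 / 2) - (ν e - 1) * max (bsum m φ c e) 0) ≤
      𝔼 e, (Boost_G (bsum m φ c e) - a e * bsum m φ c e) := by
    refine Finset.expect_le_expect fun e _ => ?_
    have k1 := Boost_G2 (bsum m φ c e)
    have k2 := mul_le_mul_of_nonneg_left (le_max_left (bsum m φ c e) 0) (ha e).1
    have k3 := mul_le_mul_of_nonneg_right (ha e).2 (le_max_right (bsum m φ c e) 0)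
    linarith
  rw [Finset.expect_sub_distrib, Finset.expect_const univ_nonempty] at h2
  have h3 : ((2 * m ^ 2 + 1 : ℕ) : ℝ) * (1 / (2 * (m : ℝ) ^ 2)) = 1 + 1 / (2 * (m : ℝ) ^ 2) := by
    push_cast; field_simp
  have h4 : 0 < 1 / (2 * (m : ℝ) ^ 2) := by positivity
  linarith [hP c]

lemma bsum_le {X T : Type} (m : ℕ) (hm : 0 < m) (φ : T → X → ℝ) (hφ : ∀ t e, |φ t e| ≤ 1)
    (c : Fin (2 * m ^ 2 + 1) → Bool × T) (e : X) : |bsum m φ c e| ≤ 3 * m := by
  have hm' : (1 : ℝ) ≤ m := by exact_mod_cast hm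
  unfold bsum
  have h : |∑ j, if (c j).1 then φ (c j).2 e else -φ (c j).2 e| ≤ 2 * (m : ℝ) ^ 2 + 1 := by
    refine (Finset.abs_sum_le_sum_abs _ _).trans ((Finset.sum_le_sum (g := fun _ => (1 : ℝ))
      fun j _ => ?_).trans (by simp))
    split_ifs
    · exact hφ _ _
    · rw [abs_neg]; exact hφ _ _
  rw [abs_mul, abs_of_pos (by positivity : (0 : ℝ) < 1 / m), one_div, inv_mul_le_iff₀ (by linarith)]
  nlinarith

end Pool.Agent.Work.MP_d4a230_co.U
end

-- merged part: Pool.Agent.Work.MP_d4a230_co.U.Mom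
section
/-!
Expected second moment functional.
PLAN. (1) den_pair: for L2 ⊆ univ, the average over y of den L2 e * den L2 e2 is at most
1 + b n^2/N * ind (e2.1, e2.2 ∈ {e.1, e.2}) + 2 b n/N: expand; pairs of variables in different
components contribute (2/n^2)^2 (ex_prod_indep or ex_update, ex_hit); for a pair in the same
component either both ends of the second slot are ends of the first (then hit * hit vanishes unless
the indicator holds, and hit <= 2), or some end is fresh and hits e2.1 or e2.2 with chance <= 2/n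
(ex_update on that coordinate). The average of den L2 e is <= 1. (2) Move the average over y inside
S2, factorise over edges with ex_prod_indep (S g = components of colour col g), each factor for
g ≠ f is <= C1 (1 + κ ind(...)), using n^2/N <= κ and n <= N. (3) Expand the product of
(1 + κ ind) over subsets F (Finset.prod_one_add); for fixed e and x the chance over x2 that all
edges of F match is <= (card VB / n)^c with c = card (vset F \ vset {f}) (ex_mem_le with A = range
of upd f x e); use hκ with a = card F. So C = (Q+1) * C1^card EB * 2^card EB * (card VB+1)^card VB.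
-/

namespace Pool.Agent.Work.MP_d4a230_co.U

open Finset Filter Topology Pool.Agent.Work.MP_07f1b5_pr
open scoped BigOperators


/-- Both ends of `e2` are ends of `e`. -/
def Mom_M {V : Type} (e e2 : V × V) : Prop :=
  (e2.1 = e.1 ∨ e2.1 = e.2) ∧ (e2.2 = e.1 ∨ e2.2 = e.2)

lemma Mom_coord {ι κ : Type} [Fintype ι] [DecidableEq ι] [Fintype κ] [Nonempty κ] (i : ι)
    (F : κ → ℝ) : 𝔼 y : ι → κ, F (y i) = 𝔼 a, F a := by
  rw [ex_update i]
  simp only [Function.update_self, Fintype.expect_const]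

lemma Mom_two {ι κ : Type} [Fintype ι] [DecidableEq ι] [Fintype κ] [Nonempty κ] {i j : ι}
    (h : i ≠ j) (F G : κ → ℝ) :
    𝔼 y : ι → κ, F (y i) * G (y j) = (𝔼 a, F a) * 𝔼 a, G a := by
  rw [ex_update j]
  simp only [Function.update_self, Function.update_of_ne h, ← mul_expect, ← expect_mul, Mom_coord]

lemma Mom_hit_eq {V : Type} [Fintype V] [DecidableEq V] {p : Sym2 V} {e : V × V}
    (h : hit p e ≠ 0) : p = s(e.1, e.2) := by
  by_contra h1
  exact h (by rw [hit, ind_neg h1, zero_mul])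

lemma Mom_same {V α : Type} [Fintype V] [DecidableEq V] [Nonempty V] [Fintype α] [DecidableEq α]
    {a b : α} (h : a ≠ b) (c d : α) (e e2 : V × V) :
    𝔼 z : α → V, hit s(z a, z b) e * hit s(z c, z d) e2 ≤
      2 / (Fintype.card V : ℝ) ^ 2 * (2 * ind (Mom_M e e2) + 4 / Fintype.card V) := by
  have hV : (0 : ℝ) < Fintype.card V := by exact_mod_cast Fintype.card_pos
  have hi := ind_nonneg (Mom_M e e2)
  have fresh : ∀ u, u ≠ a → u ≠ b → (u = c ∨ u = d) →
      𝔼 z : α → V, hit s(z a, z b) e * hit s(z c, z d) e2 ≤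
        2 / (Fintype.card V : ℝ) ^ 2 * (2 * ind (Mom_M e e2) + 4 / Fintype.card V) := by
    intro u ua ub hu
    have h1 : ∀ z : α → V, hit s(z a, z b) e * hit s(z c, z d) e2 ≤
        hit s(z a, z b) e * (2 * ind (z u ∈ ({e2.1, e2.2} : Finset V))) := fun z => by
      refine mul_le_mul_of_nonneg_left ?_ (hit_nonneg _ _)
      by_cases h0 : hit s(z c, z d) e2 = 0
      · rw [h0]; exact mul_nonneg zero_le_two (ind_nonneg _)
      · have h2 : z u ∈ s(z c, z d) := by rcases hu with rfl | rfl <;> simp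
        rw [Mom_hit_eq h0, Sym2.mem_iff] at h2
        rw [ind_pos (by simpa using h2), mul_one]
        exact hit_le_two _ _
    refine (ex_mono h1).trans ?_
    rw [ex_update u]
    simp only [Function.update_self, Function.update_of_ne ua.symm, Function.update_of_ne ub.symm,
      ← mul_expect, ← expect_mul, ex_hit h]
    refine mul_le_mul_of_nonneg_left ?_ (by positivity)
    rw [Fintype.expect_eq_sum_div_card, P1_sum_mem]
    have h3 : (((({e2.1, e2.2} : Finset V)).card : ℕ) : ℝ) ≤ 2 := by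
      exact_mod_cast card_le_two
    have h4 : (((({e2.1, e2.2} : Finset V)).card : ℕ) : ℝ) / Fintype.card V ≤
      2 / Fintype.card V := by gcongr
    have h5 : (4 : ℝ) / Fintype.card V = 2 * (2 / Fintype.card V) := by ring
    linarith
  by_cases hc : c = a ∨ c = b
  · by_cases hd : d = a ∨ d = b
    · have h1 : ∀ z : α → V, hit s(z a, z b) e * hit s(z c, z d) e2 ≤
          hit s(z a, z b) e * (2 * ind (Mom_M e e2) + 4 / Fintype.card V) := fun z => by
        by_cases h0 : hit s(z a, z b) e = 0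
        · rw [h0, zero_mul, zero_mul]
        refine mul_le_mul_of_nonneg_left ?_ (hit_nonneg _ _)
        by_cases h2 : hit s(z c, z d) e2 = 0
        · rw [h2]; positivity
        have h3 : ∀ w, w ∈ s(e2.1, e2.2) → w = e.1 ∨ w = e.2 := fun w hw => by
          rw [← Mom_hit_eq h2, Sym2.mem_iff] at hw
          rw [← Sym2.mem_iff, ← Mom_hit_eq h0, Sym2.mem_iff]
          rcases hc with rfl | rfl <;> rcases hd with rfl | rfl <;> tauto
        rw [ind_pos (show Mom_M e e2 from ⟨h3 _ (by simp), h3 _ (by simp)⟩)]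
        have := hit_le_two s(z c, z d) e2
        have : (0 : ℝ) ≤ 4 / Fintype.card V := by positivity
        linarith
      refine (ex_mono h1).trans ?_
      rw [← expect_mul, ex_hit h]
    · exact fresh d (fun e => hd (Or.inl e)) (fun e => hd (Or.inr e)) (Or.inr rfl)
  · exact fresh c (fun e => hc (Or.inl e)) (fun e => hc (Or.inr e)) (Or.inl rfl)

section
variable {V G α β : Type} [Fintype V] [DecidableEq V] [Nonempty V] [Fintype G] [DecidableEq G]
  [Fintype α] [DecidableEq α] [Fintype β] [DecidableEq β] {ep : β → α × α}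
  (hne : ∀ j, (ep j).1 ≠ (ep j).2)
include hne

lemma Mom_one (i : G × β) (e : V × V) :
    𝔼 y : G → α → V, hit (sp ep y i) e = 2 / (Fintype.card V : ℝ) ^ 2 :=
  (Mom_coord i.1 fun z : α → V => hit (sl ep z i.2) e).trans (ex_hit (hne _) e)

lemma Mom_pair (i j : G × β) (e e2 : V × V) :
    𝔼 y : G → α → V, hit (sp ep y i) e * hit (sp ep y j) e2 ≤ (2 / (Fintype.card V : ℝ) ^ 2) ^ 2 +
      ind (j.1 = i.1) *
        (2 / (Fintype.card V : ℝ) ^ 2 * (2 * ind (Mom_M e e2) + 4 / Fintype.card V)) := by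
  by_cases h : j.1 = i.1
  · rw [ind_pos h, one_mul]
    have h1 := Mom_coord i.1 fun z : α → V => hit (sl ep z i.2) e * hit (sl ep z j.2) e2
    have h2 := Mom_same (hne i.2) (ep j.2).1 (ep j.2).2 e e2
    simp only [sp, h]
    rw [h1]
    exact h2.trans (le_add_of_nonneg_left (by positivity))
  · rw [ind_neg h, zero_mul, add_zero, sq]
    exact ((Mom_two (Ne.symm h) (fun z : α → V => hit (sl ep z i.2) e)
      fun z : α → V => hit (sl ep z j.2) e2).trans
        (congrArg₂ _ (ex_hit (hne _) e) (ex_hit (hne _) e2))).le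

lemma Mom_den (R : Finset (G × β)) (e : V × V) : 𝔼 y : G → α → V, den (sp ep y) R e ≤ 1 := by
  have hV : (0 : ℝ) < Fintype.card V := by exact_mod_cast Fintype.card_pos
  simp only [den, ← mul_expect, expect_sum_comm, Mom_one hne, sum_const, nsmul_eq_mul]
  have h1 : (R.card : ℝ) ≤ Fintype.card (G × β) := by exact_mod_cast card_le_univ R
  calc _ = (R.card : ℝ) / Fintype.card (G × β) := by field_simp
    _ ≤ 1 := div_le_one_of_le₀ h1 (Nat.cast_nonneg _)

lemma Mom_den2 (R : Finset (G × β)) (e e2 : V × V) {κ : ℝ}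
    (h1 : Fintype.card V ≤ Fintype.card (G × β))
    (h2 : (Fintype.card V : ℝ) ^ 2 ≤ κ * Fintype.card (G × β)) :
    𝔼 y : G → α → V, den (sp ep y) R e * den (sp ep y) R e2 ≤
      1 + Fintype.card β * (κ * ind (Mom_M e e2) + 2) := by
  have hV : (0 : ℝ) < Fintype.card V := by exact_mod_cast Fintype.card_pos
  have h1' : (Fintype.card V : ℝ) ≤ Fintype.card (G × β) := by exact_mod_cast h1
  have hN : (0 : ℝ) < Fintype.card (G × β) := hV.trans_le h1'
  have hi := ind_nonneg (Mom_M e e2)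
  have h3 : ∀ i : G × β, ∑ j : G × β, ind (j.1 = i.1) = (Fintype.card β : ℝ) := fun i => by
    rw [Fintype.sum_prod_type, Finset.sum_eq_single i.1]
    · simp [ind_pos]
    · intro b _ hb; simp [ind_neg hb]
    · simp
  simp only [den, mul_mul_mul_comm _ (∑ i ∈ R, _), ← mul_expect, sum_mul_sum, expect_sum_comm]
  set n : ℝ := ((Fintype.card V : ℕ) : ℝ)
  set N : ℝ := ((Fintype.card (G × β) : ℕ) : ℝ) with hNd
  set t : ℝ := 2 / n ^ 2 * (2 * ind (Mom_M e e2) + 4 / n) with ht
  have ht0 : 0 ≤ t := by positivity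
  have h4 : ∑ i ∈ R, ∑ j ∈ R, 𝔼 y : G → α → V, hit (sp ep y i) e * hit (sp ep y j) e2 ≤
      N * (N * (2 / n ^ 2) ^ 2 + Fintype.card β * t) := by
    calc _ ≤ ∑ i ∈ R, ∑ j : G × β, ((2 / n ^ 2) ^ 2 + ind (j.1 = i.1) * t) :=
          sum_le_sum fun i _ => (sum_le_sum fun j _ => Mom_pair hne i j e e2).trans
            (sum_le_univ_sum_of_nonneg fun j => by have := ind_nonneg (j.1 = i.1); positivity)
      _ ≤ ∑ i : G × β, ∑ j : G × β, ((2 / n ^ 2) ^ 2 + ind (j.1 = i.1) * t) :=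
          sum_le_univ_sum_of_nonneg fun i => sum_nonneg fun j _ => by
            have := ind_nonneg (j.1 = i.1); positivity
      _ = _ := by
          simp only [sum_add_distrib, ← sum_mul, h3, sum_const, card_univ, nsmul_eq_mul, ← hNd]
          ring
  refine (mul_le_mul_of_nonneg_left h4 (by positivity)).trans ?_
  have h5 : n ^ 2 / N ≤ κ := by rwa [div_le_iff₀ hN]
  have h6 : n / N ≤ 1 := div_le_one_of_le₀ h1' hN.le
  calc _ = 1 + Fintype.card β * (n ^ 2 / N * ind (Mom_M e e2) + 2 * (n / N)) := by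
        rw [ht]; field_simp; ring
    _ ≤ _ := by gcongr; linarith

lemma Mom_fac (R : Finset (G × β)) (e e2 : V × V) {κ Q : ℝ} (hQ : 1 ≤ Q) (hκ : 0 ≤ κ)
    (h1 : Fintype.card V ≤ Fintype.card (G × β))
    (h2 : (Fintype.card V : ℝ) ^ 2 ≤ κ * Fintype.card (G × β)) :
    𝔼 y : G → α → V, ((Q * den (sp ep y) R e + 1) * (Q * den (sp ep y) R e2 + 1) +
      κ * (Q * den (sp ep y) R e + 1) * ind (e = e2)) ≤
      Q ^ 2 * (4 + 2 * Fintype.card β) * (1 + κ * ind (Mom_M e e2)) := by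
  have e1 : ∀ y : G → α → V, (Q * den (sp ep y) R e + 1) * (Q * den (sp ep y) R e2 + 1) +
      κ * (Q * den (sp ep y) R e + 1) * ind (e = e2) =
      Q ^ 2 * (den (sp ep y) R e * den (sp ep y) R e2) + (Q + κ * ind (e = e2) * Q) *
        den (sp ep y) R e + Q * den (sp ep y) R e2 + (1 + κ * ind (e = e2)) := fun y => by ring
  simp only [e1, expect_add_distrib, ← mul_expect, Fintype.expect_const]
  have a1 := Mom_den2 hne R e e2 h1 h2
  have a2 := Mom_den hne R e
  have a3 := Mom_den hne R e2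
  have a4 : ind (e = e2) ≤ ind (Mom_M e e2) := ind_mono fun h => h ▸ ⟨Or.inl rfl, Or.inr rfl⟩
  have a5 := ind_nonneg (e = e2)
  have hb : (0 : ℝ) ≤ Fintype.card β := Nat.cast_nonneg _
  have hQ2 : Q ≤ Q ^ 2 := by nlinarith
  set s := κ * ind (Mom_M e e2)
  have a6 : κ * ind (e = e2) ≤ s := mul_le_mul_of_nonneg_left a4 hκ
  have a7 : 0 ≤ κ * ind (e = e2) := mul_nonneg hκ a5
  calc _ ≤ Q ^ 2 * (1 + Fintype.card β * (s + 2)) + (Q ^ 2 + s * Q ^ 2) * 1 + Q ^ 2 * 1 +
        (Q ^ 2 + s * Q ^ 2) := by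
        have : 0 ≤ s := a7.trans a6
        have : 0 ≤ 𝔼 y : G → α → V, den (sp ep y) R e := expect_nonneg fun y _ => den_nonneg _ _ _
        have : 0 ≤ 𝔼 y : G → α → V, den (sp ep y) R e2 := expect_nonneg fun y _ => den_nonneg _ _ _
        have : κ * ind (e = e2) ≤ s * Q ^ 2 := by nlinarith
        gcongr
        linarith
    _ ≤ _ := by
        have : 0 ≤ Q ^ 2 * s * (2 + Fintype.card β) := by have := a7.trans a6; positivity
        nlinarith

end

lemma Mom_match {V VB EB : Type} [Fintype V] [DecidableEq V] [Nonempty V] [Fintype VB]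
    [DecidableEq VB] [Fintype EB] [DecidableEq EB] (eb : EB → VB × VB) {v k : ℕ} (hDC : DC eb v k)
    {κ : ℝ} (h0 : 0 ≤ κ)
    (hκ : ∀ a c : ℕ, a ≤ Fintype.card EB → c ≤ Fintype.card VB → (v - 2) * a < (k - 1) * c →
      κ ^ a ≤ (Fintype.card V : ℝ) ^ c) (f : EB) (e : V × V) (x : VB → V) :
    𝔼 x' : VB → V, ∏ g ∈ univ.erase f,
      (1 + κ * ind (Mom_M (exf eb (upd eb f x e) g) (exf eb (upd eb f x' e) g))) ≤
      2 ^ Fintype.card EB * (Fintype.card VB + 1) ^ Fintype.card VB := by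
  have hV : (0 : ℝ) < Fintype.card V := by exact_mod_cast Fintype.card_pos
  have hB : (1 : ℝ) ≤ Fintype.card VB + 1 := le_add_of_nonneg_left (Nat.cast_nonneg _)
  simp only [prod_one_add, expect_sum_comm]
  refine (sum_le_card_nsmul _ _ (((Fintype.card VB : ℝ) + 1) ^ Fintype.card VB)
    fun F hF => ?_).trans ?_
  · rcases F.eq_empty_or_nonempty with rfl | hne
    · simpa using one_le_pow₀ hB
    have hf : f ∉ F := fun h => by simpa using mem_powerset.1 hF h
    set S := vset eb F \ vset eb {f} with hS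
    set A := univ.image (upd eb f x e)
    have h1 : ∀ x' : VB → V, ∏ g ∈ F,
        κ * ind (Mom_M (exf eb (upd eb f x e) g) (exf eb (upd eb f x' e) g)) ≤
        κ ^ F.card * ind (∀ u ∈ S, x' u ∈ A) := fun x' => by
      by_cases hM : ∀ g ∈ F, Mom_M (exf eb (upd eb f x e) g) (exf eb (upd eb f x' e) g)
      · rw [prod_congr rfl fun g hg => by rw [ind_pos (hM g hg), mul_one], prod_const, ind_pos,
          mul_one]
        intro u hu
        simp only [hS, vset, Finset.mem_sdiff, Finset.mem_biUnion, Finset.mem_singleton,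
          exists_eq_left, Finset.mem_insert, not_or] at hu
        obtain ⟨⟨g, hg, hu⟩, u1, u2⟩ := hu
        have h2 : upd eb f x' e u = x' u := by
          rw [upd, Function.update_of_ne u2, Function.update_of_ne u1]
        obtain ⟨m1, m2⟩ := hM g hg
        rw [← h2]
        rcases hu with rfl | rfl
        · rcases m1 with m | m <;> exact mem_image.2 ⟨_, mem_univ _, m.symm⟩
        · rcases m2 with m | m <;> exact mem_image.2 ⟨_, mem_univ _, m.symm⟩
      · push Not at hM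
        obtain ⟨g, hg, hM⟩ := hM
        rw [prod_eq_zero hg (by rw [ind_neg hM, mul_zero])]
        exact mul_nonneg (pow_nonneg h0 _) (ind_nonneg _)
    refine (ex_mono h1).trans ?_
    rw [← mul_expect]
    have h3 : (A.card : ℝ) ≤ Fintype.card VB + 1 := by
      have : A.card ≤ Fintype.card VB := card_image_le
      exact_mod_cast this.trans (Nat.le_succ _)
    calc _ ≤ (Fintype.card V : ℝ) ^ S.card * ((A.card : ℝ) / Fintype.card V) ^ S.card :=
          mul_le_mul (hκ _ _ (card_le_univ _) (card_le_univ _) (hDC.2 f F hf hne)) (ex_mem_le S A)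
            (expect_nonneg fun _ _ => ind_nonneg _) (by positivity)
      _ = (A.card : ℝ) ^ S.card := by rw [← mul_pow, mul_div_cancel₀ _ hV.ne']
      _ ≤ ((Fintype.card VB : ℝ) + 1) ^ S.card := by gcongr
      _ ≤ _ := pow_le_pow_right₀ hB (card_le_univ _)
  · rw [nsmul_eq_mul, card_powerset]
    push_cast
    gcongr
    · norm_num
    · exact card_le_univ _

theorem mom_S2 {VB EB α β : Type} [Fintype VB] [DecidableEq VB] [Fintype EB] [DecidableEq EB]
    [Fintype α] [DecidableEq α] [Fintype β] [DecidableEq β] (eb : EB → VB × VB) {v k : ℕ}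
    (hDC : DC eb v k) (ep : β → α × α) (hne : ∀ j, (ep j).1 ≠ (ep j).2) {Q : ℝ} (hQ : 1 ≤ Q) :
    ∃ C : ℝ, 0 ≤ C ∧ ∀ (n M : ℕ) (L : Type) [DecidableEq L] (l : Fin M → L) (col : EB → L)
      (κ : ℝ), Function.Injective col → 0 < n → n ≤ M * Fintype.card β →
      (n : ℝ) ^ 2 ≤ κ * (M * Fintype.card β : ℕ) →
      (∀ a c : ℕ, a ≤ Fintype.card EB → c ≤ Fintype.card VB → (v - 2) * a < (k - 1) * c →
        κ ^ a ≤ (n : ℝ) ^ c) →
      ∀ f, 𝔼 y : Fin M → α → Fin n,
        S2 eb f (fun g e => Q * den (sp ep y) (lay β l (col g)) e + 1) κ ≤ C := by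
  have hb : (0 : ℝ) ≤ Fintype.card β := Nat.cast_nonneg _
  have hQ0 : 0 ≤ Q := zero_le_one.trans hQ
  set C1 : ℝ := Q ^ 2 * (4 + 2 * Fintype.card β) with hC1
  have hC : 1 ≤ C1 := by nlinarith [mul_nonneg (sq_nonneg Q) hb]
  refine ⟨(Q + 1) * C1 ^ Fintype.card EB *
    (2 ^ Fintype.card EB * (Fintype.card VB + 1) ^ Fintype.card VB), by positivity,
    fun n M L _ l col κ hcol hn hM h2 hκ f => ?_⟩
  have : Nonempty (Fin n) := ⟨⟨0, hn⟩⟩
  have hn' : (0 : ℝ) < n := by exact_mod_cast hn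
  have h0 : 0 ≤ κ := by
    have : (0 : ℝ) < (M * Fintype.card β : ℕ) := by exact_mod_cast hn.trans_le hM
    exact nonneg_of_mul_nonneg_left ((sq_nonneg _).trans h2) this
  simp only [S2]
  rw [expect_comm]
  refine ex_le (by positivity) fun e => ?_
  rw [expect_comm]
  refine ex_le (by positivity) fun x => ?_
  rw [expect_comm]
  refine le_trans (ex_mono fun x' => ?_) (((mul_expect _ _ _).symm.trans_le
    (mul_le_mul_of_nonneg_left (Mom_match eb hDC h0 (by simpa using hκ) f e x) (by positivity))))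
  let D : EB → (Fin M → α → Fin n) → Fin n × Fin n → ℝ := fun g y e =>
    Q * den (sp ep y) (lay β l (col g)) e + 1
  let F : EB → (Fin M → α → Fin n) → ℝ := fun g y => if g = f then D f y e else
    D g y (exf eb (upd eb f x e) g) * D g y (exf eb (upd eb f x' e) g) +
      κ * D g y (exf eb (upd eb f x e) g) * ind (exf eb (upd eb f x e) g = exf eb (upd eb f x' e) g)
  have hD : ∀ g y e, 0 ≤ D g y e := fun g y e => by
    have := den_nonneg (sp ep y) (lay β l (col g)) e
    positivity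
  have h3 := ex_prod_indep univ (fun g => univ.filter fun c => l c = col g)
    (fun g _ g2 _ h => disjoint_filter.2 fun c _ h1 h2 => h (hcol (h1.symm.trans h2))) F
    fun g _ y y2 h => by
      have : D g y = D g y2 := by
        simp only [D]
        rw [den_congr (q2 := sp ep y2) fun i hi => by
          rw [sp, sp, h i.1 (by simpa [lay] using hi)]]
      by_cases hg : g = f
      · subst hg; simp only [F, this, if_true]
      · simp only [F, this, if_neg hg]
  simp only [← mul_prod_erase univ _ (mem_univ f)] at h3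
  have h4 : ∀ g ∈ univ.erase f, ∀ y, F g y = _ := fun g hg y => if_neg (ne_of_mem_erase hg)
  have h5 : ∀ y, F f y = D f y e := fun y => if_pos rfl
  simp only [prod_congr rfl fun g hg => h4 g hg _, h5] at h3
  refine h3.trans_le ?_
  rw [mul_assoc]
  refine mul_le_mul ?_ ?_ (prod_nonneg fun g hg => expect_nonneg fun y _ => ?_) (by positivity)
  · simp only [D, expect_add_distrib, ← mul_expect, Fintype.expect_const]
    have := mul_le_mul_of_nonneg_left (Mom_den hne (lay β l (col f)) e) hQ0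
    linarith
  · calc _ ≤ ∏ g ∈ univ.erase f, C1 *
          (1 + κ * ind (Mom_M (exf eb (upd eb f x e) g) (exf eb (upd eb f x' e) g))) := by
          refine prod_le_prod (fun g hg => expect_nonneg fun y _ => ?_) fun g hg => ?_
          · rw [h4 g hg]
            exact add_nonneg (mul_nonneg (hD _ _ _) (hD _ _ _))
              (mul_nonneg (mul_nonneg h0 (hD _ _ _)) (ind_nonneg _))
          · simp only [h4 g hg]
            exact Mom_fac hne _ _ _ hQ h0 (by simpa using hM) (by simpa using h2)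
      _ ≤ _ := by
          rw [prod_mul_distrib, prod_const]
          exact mul_le_mul_of_nonneg_right (pow_le_pow_right₀ hC (card_le_univ _))
            (prod_nonneg fun g _ => by have := ind_nonneg (Mom_M (exf eb (upd eb f x e) g)
              (exf eb (upd eb f x' e) g)); positivity)
  · rw [h4 g hg]
    exact add_nonneg (mul_nonneg (hD _ _ _) (hD _ _ _))
      (mul_nonneg (mul_nonneg h0 (hD _ _ _)) (ind_nonneg _))

end Pool.Agent.Work.MP_d4a230_co.U
end

-- merged part: Pool.Agent.Work.MP_d4a230_co.U.P2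
section
/-!
Bounded differences.
PLAN. mgf_bd: for S : Finset ι let g S y be the average over y2 of f (S.piecewise y y2); prove the
bound for g S with S.card by induction on S. Step: g S y is the average over a of
g (insert i S) (update y i a), these values are within c of each other, and a mean zero variable X
with |X| <= c has average of exp (s X) at most cosh (s c) <= exp (s^2 c^2 / 2) (convexity of exp on
[-c, c], Real.cosh_le_exp_half_sq). Use ex_update. mcdiarmid: Markov with s = a / (c^2 card).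
maxineq: err y = sup over ω of the deviation; exp (s err) <= sum over ω of exp (s X) + exp (-s X);
Jensen (or exp x >= exp m * (1 + x - m)); take s = δ / c.
-/

namespace Pool.Agent.Work.MP_d4a230_co.U

open Finset Filter Topology Pool.Agent.Work.MP_07f1b5_pr
open scoped BigOperators


variable {ι κ : Type} [Fintype ι] [DecidableEq ι] [Fintype κ] [Nonempty κ]

lemma P2_hoef (X : κ → ℝ) (c s : ℝ) (h0 : 𝔼 a, X a = 0) (h : ∀ a, |X a| ≤ c) :
    𝔼 a, Real.exp (s * X a) ≤ Real.exp (s ^ 2 * c ^ 2 / 2) := by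
  refine (ex_mono (g := fun a => Real.cosh (s * c) + X a * (Real.sinh (s * c) / c))
    fun a => ?_).trans ?_
  · rcases ((abs_nonneg _).trans (h a)).eq_or_lt with hc | hc
    · have := h a
      rw [← hc, abs_nonpos_iff] at this
      simp [this, ← hc]
    · have := Real.exp_mul_le_cosh_add_mul_sinh (t := X a / c)
        (by rw [abs_div, abs_of_pos hc, div_le_one hc]; exact h a) (s * c)
      rwa [show X a / c * (s * c) = s * X a by field_simp, div_mul_eq_mul_div, mul_div_assoc] at this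
  · rw [expect_add_distrib, ← expect_mul, h0, zero_mul, add_zero, Fintype.expect_const, ← mul_pow]
    exact Real.cosh_le_exp_half_sq _

lemma P2_ind (c s : ℝ) (S : Finset ι) : ∀ f : (ι → κ) → ℝ,
    (∀ y i a, |f (Function.update y i a) - f y| ≤ c) →
    (∀ y y2, (∀ i ∈ S, y i = y2 i) → f y = f y2) →
    𝔼 y, Real.exp (s * (f y - 𝔼 y2, f y2)) ≤ Real.exp (s ^ 2 * c ^ 2 * S.card / 2) := by
  induction S using Finset.induction_on with
  | empty =>
    intro f _ h
    refine ex_le (Real.exp_nonneg _) fun y => ?_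
    rw [expect_congr rfl fun y2 _ => h y2 y (by simp), Fintype.expect_const]
    simp
  | insert i S hi ih =>
    intro f hf h
    have h1 := ih (fun y => 𝔼 a, f (Function.update y i a)) (fun y j b => by
      rw [← expect_sub_distrib]
      refine (ex_abs _).trans (expect_le univ_nonempty fun a _ => ?_)
      by_cases e : j = i
      · rw [e, Function.update_idem, sub_self, abs_zero]
        exact (abs_nonneg _).trans (hf y i a)
      · rw [Function.update_comm e]
        exact hf _ _ _) (fun y y2 e => expect_congr rfl fun a _ => h _ _ fun j hj => by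
      by_cases e2 : j = i
      · rw [e2, Function.update_self, Function.update_self]
      · rw [Function.update_of_ne e2, Function.update_of_ne e2,
          e j ((mem_insert.1 hj).resolve_left e2)])
    rw [← ex_update] at h1
    rw [ex_update i, card_insert_of_notMem hi, Nat.cast_succ, mul_add, add_div, Real.exp_add, mul_one]
    refine le_trans (ex_mono fun y => ?_)
      ((expect_mul _ _ _).ge.trans (mul_le_mul_of_nonneg_right h1 (Real.exp_nonneg _)))
    have h2 := P2_hoef (fun a => f (Function.update y i a) - 𝔼 b, f (Function.update y i b)) c s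
      (by rw [expect_sub_distrib, Fintype.expect_const, sub_self]) fun a => by
        rw [← Fintype.expect_const (ι := κ) (f (Function.update y i a)), ← expect_sub_distrib]
        refine (ex_abs _).trans (expect_le univ_nonempty fun b _ => ?_)
        have := hf (Function.update y i b) i a
        rwa [Function.update_idem] at this
    refine le_trans (Eq.le ?_) (mul_le_mul_of_nonneg_left h2 (Real.exp_nonneg _))
    rw [mul_expect]
    refine expect_congr rfl fun a _ => ?_
    rw [← Real.exp_add, ← mul_add, sub_add_sub_cancel']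

theorem mgf_bd (f : (ι → κ) → ℝ) (c : ℝ)
    (hf : ∀ y i a, |f (Function.update y i a) - f y| ≤ c) (s : ℝ) :
    𝔼 y, Real.exp (s * (f y - 𝔼 y2, f y2)) ≤ Real.exp (s ^ 2 * c ^ 2 * Fintype.card ι / 2) := by
  exact P2_ind c s univ f hf fun y y2 h => congrArg f (funext fun i => h i (mem_univ i))

lemma P2_abs (f : (ι → κ) → ℝ) (c : ℝ)
    (hf : ∀ y i a, |f (Function.update y i a) - f y| ≤ c) (s : ℝ) :
    𝔼 y, Real.exp (s * |f y - 𝔼 y2, f y2|) ≤
      2 * Real.exp (s ^ 2 * c ^ 2 * Fintype.card ι / 2) := by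
  have h1 := mgf_bd f c hf s
  have h2 := mgf_bd f c hf (-s)
  rw [neg_sq] at h2
  rw [two_mul]
  refine le_trans ((ex_mono fun y => ?_).trans_eq (expect_add_distrib _ _ _)) (add_le_add h1 h2)
  rcases abs_choice (f y - 𝔼 y2, f y2) with e | e <;> rw [e]
  · exact le_add_of_nonneg_right (Real.exp_nonneg _)
  · rw [mul_neg, neg_mul]
    exact le_add_of_nonneg_left (Real.exp_nonneg _)

theorem mcdiarmid (f : (ι → κ) → ℝ) {c a : ℝ} (hc : 0 < c) (ha : 0 ≤ a)
    (hf : ∀ y i b, |f (Function.update y i b) - f y| ≤ c) :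
    𝔼 y, ind (a ≤ |f y - 𝔼 y2, f y2|) ≤
      2 * Real.exp (-(a ^ 2 / (2 * c ^ 2 * Fintype.card ι))) := by
  have h := P2_abs f c hf (a / (c ^ 2 * Fintype.card ι))
  have e : -(a ^ 2 / (2 * c ^ 2 * Fintype.card ι)) = (a / (c ^ 2 * Fintype.card ι)) ^ 2 * c ^ 2 *
      Fintype.card ι / 2 + -(a / (c ^ 2 * Fintype.card ι) * a) := by
    by_cases h0 : (Fintype.card ι : ℝ) = 0
    · simp [h0]
    · field_simp
      ring
  have hs : 0 ≤ a / (c ^ 2 * Fintype.card ι) := by positivity
  generalize a / (c ^ 2 * Fintype.card ι) = s at h e hs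
  rw [e, Real.exp_add, ← mul_assoc]
  refine le_trans (ex_mono fun y => ?_)
    ((expect_mul _ _ _).ge.trans (mul_le_mul_of_nonneg_right h (Real.exp_nonneg _)))
  by_cases h1 : a ≤ |f y - 𝔼 y2, f y2|
  · rw [ind_pos h1, ← Real.exp_add, ← mul_neg, ← mul_add]
    exact Real.one_le_exp (mul_nonneg hs (by linarith))
  · rw [ind_neg h1]
    positivity

theorem maxineq {Ω : Type} [Fintype Ω] (f : Ω → (ι → κ) → ℝ) {c δ : ℝ} (hc : 0 < c) (hδ : 0 < δ)
    (hf : ∀ ω y i a, |f ω (Function.update y i a) - f ω y| ≤ c)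
    (hΩ : Real.log (2 * Fintype.card Ω) ≤ δ ^ 2 * Fintype.card ι) :
    ∃ err : (ι → κ) → ℝ, (∀ y, 0 ≤ err y) ∧ 𝔼 y, err y ≤ 2 * δ * c * Fintype.card ι ∧
      ∀ y ω, |f ω y - 𝔼 y2, f ω y2| ≤ err y := by
  rcases isEmpty_or_nonempty Ω with h0 | h0
  · exact ⟨fun _ => 0, fun _ => le_rfl, ex_le (by positivity) fun _ => by positivity,
      fun _ ω => h0.elim ω⟩
  choose w hw using fun y => Finite.exists_max fun ω => |f ω y - 𝔼 y2, f ω y2|
  refine ⟨fun y => |f (w y) y - 𝔼 y2, f (w y) y2|, fun _ => abs_nonneg _, ?_, hw⟩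
  have hN : (0 : ℝ) < 2 * Fintype.card Ω := by positivity
  rw [Real.log_le_iff_le_exp hN] at hΩ
  generalize hm : δ ^ 2 * Fintype.card ι = m at hΩ
  have h1 : 𝔼 y, Real.exp (δ / c * |f (w y) y - 𝔼 y2, f (w y) y2|) ≤ Real.exp (m + m / 2) := by
    refine (ex_mono fun y => single_le_sum
      (f := fun ω => Real.exp (δ / c * |f ω y - 𝔼 y2, f ω y2|)) (fun _ _ => Real.exp_nonneg _)
      (mem_univ (w y))).trans ?_
    rw [expect_sum_comm]
    refine (sum_le_sum fun ω _ => P2_abs (f ω) c (hf ω) _).trans ?_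
    rw [sum_const, card_univ, nsmul_eq_mul, ← mul_assoc, mul_comm _ (2 : ℝ), Real.exp_add,
      ← mul_pow, div_mul_cancel₀ _ hc.ne', hm]
    exact mul_le_mul_of_nonneg_right hΩ (Real.exp_nonneg _)
  have h2 : 𝔼 y, δ / c * |f (w y) y - 𝔼 y2, f (w y) y2| ≤ m + m / 2 := by
    refine (ex_mono (g := fun y => Real.exp (δ / c * |f (w y) y - 𝔼 y2, f (w y) y2|) /
      Real.exp (m + m / 2) + (m + m / 2 - 1)) fun y => ?_).trans ?_
    · rw [← Real.exp_sub]
      linarith [Real.add_one_le_exp (δ / c * |f (w y) y - 𝔼 y2, f (w y) y2| - (m + m / 2))]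
    · rw [expect_add_distrib, Fintype.expect_const, ← expect_div]
      linarith [(div_le_one (Real.exp_pos _)).2 h1]
  rw [← mul_expect, ← le_div_iff₀' (by positivity), ← hm] at h2
  refine h2.trans ?_
  rw [div_le_iff₀ (by positivity)]
  have : 2 * δ * c * Fintype.card ι * (δ / c) = 2 * (δ ^ 2 * Fintype.card ι) := by field_simp
  have h3 : 0 ≤ δ ^ 2 * Fintype.card ι := by positivity
  linarith

end Pool.Agent.Work.MP_d4a230_co.U
end

-- merged part: Pool.Agent.Work.MP_d4a230_co.U.RegK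
section
/-!
Numerical consequences of the regime. Notation v = card W, k = card edges, b = card β >= 1,
N = M b, P = 2N/n^2, so c <= n^(v-2) P^(k-1) eventually and 3 <= v <= k (R.bal.h3, R.bal.hk).
PLAN. From c <= n^(v-2) P^(k-1) and v-2 <= k-2: (nP)^(k-1) >= c n, hence nP / (log n)^j tends to
infinity for every j (Real.isLittleO_pow_log_id_atTop or log x <= x^s / s). This gives lin.
net: K = ceil (M / (log n)^2); (n^2/K) <= b (n^2/N) (log n)^2; raise to the power a (k-1) and use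
(v-2) a + 1 <= (k-1) c; finish with pow_le_pow_left contrapositive (pow_le_pow_iff_left).
wk, st: X = τ n^(v-c) P^(k-a) satisfies X * n^(c-2) P^(a-1) = τ n^(v-2) P^(k-1) = rate * aut / (2k)
which is bounded, and (n^(c-2) P^(a-1))^(k-1) >= n^gap * c0^(a-1) with gap >= 0 or >= 1; finitely
many (a, c). mono: rate and the lower bound change by the factor (N2/N)^(k-1).
-/

namespace Pool.Agent.Work.MP_d4a230_co.U

open Finset Filter Topology Pool.Agent.Work.MP_07f1b5_pr
open scoped BigOperators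

variable {α β : Type} [Fintype α] [DecidableEq α] [Fintype β] [DecidableEq β]
  {W : Type} [Fintype W] [DecidableEq W] {H : SimpleGraph W} [DecidableRel H.Adj]
  {ep : β → α × α} {n M : ℕ → ℕ} {τ : ℕ → ℝ}

/-- The virtual number of edges of a regime. -/
noncomputable def Reg.K (R : Reg H ep n M τ) : ℕ := R.kb.choose

lemma Reg.bal (R : Reg H ep n M τ) : KBal H R.K := R.kb.choose_spec.1

lemma Reg.lo (R : Reg H ep n M τ) : ∃ c : ℝ, 0 < c ∧ ∀ᶠ j in atTop,
    c ≤ (n j : ℝ) ^ (Fintype.card W - 2) *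
      (2 * ((M j * Fintype.card β : ℕ) : ℝ) / (n j : ℝ) ^ 2) ^ (R.K - 1) := R.kb.choose_spec.2

lemma kb_of (B : HBal H) : KBal H H.edgeFinset.card := ⟨B.h3, B.hk, le_rfl, B.vs_eq, B.bal⟩

section kbal

variable {K : ℕ} {V : Type} [Fintype V] [DecidableEq V]

omit [Fintype V] in
lemma KBal.vs_img (B : KBal H K) (f : W ↪ V) : vs (img H f) = univ.map f := by
  ext x
  rw [mem_vs, Finset.mem_map]
  constructor
  · rintro ⟨e, he, hx⟩
    obtain ⟨g, -, rfl⟩ := Finset.mem_image.1 he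
    obtain ⟨a, -, rfl⟩ := Sym2.mem_map.1 hx
    exact ⟨a, mem_univ a, rfl⟩
  · rintro ⟨a, ha, rfl⟩
    obtain ⟨e, he, hx⟩ := mem_vs.1 (B.vs_eq ▸ ha)
    exact ⟨_, Finset.mem_image_of_mem _ he, Sym2.mem_map.2 ⟨a, hx, rfl⟩⟩

lemma KBal.fiber (B : KBal H K) (f0 : W ↪ V) :
    (univ.filter fun f : W ↪ V => img H f = img H f0).card = Nat.card (H ≃g H) := by
  rw [← Fintype.card_coe, ← Nat.card_eq_fintype_card, eq_comm]
  refine Nat.card_congr (Equiv.ofBijective (fun φ => ⟨φ.toEquiv.toEmbedding.trans f0, ?_⟩) ⟨?_, ?_⟩)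
  · refine Finset.mem_filter.2 ⟨mem_univ _, Finset.eq_of_subset_of_card_le (fun e he => ?_)
      (by rw [card_img, card_img])⟩
    obtain ⟨g, hg, rfl⟩ := Finset.mem_image.1 he
    induction g using Sym2.ind with
    | _ a b => exact mem_img.2 (φ.map_adj_iff.2 (by simpa using hg))
  · intro φ ψ h
    ext w
    exact f0.injective (DFunLike.congr_fun (congrArg Subtype.val h) w)
  · rintro ⟨f, hf⟩
    have hf' := (Finset.mem_filter.1 hf).2
    have hex : ∀ w, ∃ w', f0 w' = f w := fun w => by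
      have : f w ∈ vs (img H f0) := by rw [← hf', B.vs_img]; exact Finset.mem_map_of_mem _ (mem_univ w)
      rw [B.vs_img] at this
      obtain ⟨w', -, h⟩ := Finset.mem_map.1 this
      exact ⟨w', h⟩
    choose φ hφ using hex
    have hinj : Function.Injective φ := fun a b h => f.injective (by rw [← hφ, ← hφ, h])
    refine ⟨⟨Equiv.ofBijective φ hinj.bijective_of_finite, fun {a b} => ?_⟩, Subtype.ext ?_⟩
    · show H.Adj (φ a) (φ b) ↔ H.Adj a b
      rw [← mem_img (f := f0), hφ, hφ, ← hf', mem_img]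
    · ext w
      exact hφ w

lemma KBal.sum_copies (B : KBal H K) (F : Finset (Sym2 V) → ℝ) :
    aut H * ∑ T ∈ copies H V, F T = ∑ f : W ↪ V, F (img H f) := by
  rw [← Finset.sum_fiberwise_of_maps_to (s := univ) (t := copies H V) (g := img H)
    (fun f hf => Finset.mem_image_of_mem _ hf), Finset.mul_sum]
  refine Finset.sum_congr rfl fun T hT => ?_
  obtain ⟨f0, -, rfl⟩ := Finset.mem_image.1 hT
  rw [Finset.sum_congr rfl (g := fun _ => F (img H f0)) fun f hf => by
    rw [(Finset.mem_filter.1 hf).2], Finset.sum_const, B.fiber f0, nsmul_eq_mul, aut]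

lemma RegK_vk (B : KBal H K) : Fintype.card W - 2 + 1 ≤ H.edgeFinset.card - 1 ∧
    H.edgeFinset.card ≤ K := by
  have := B.h3
  have := B.hk
  have := B.hK
  omega

end kbal

lemma RegK_cast (hn : Tendsto n atTop atTop) : Tendsto (fun j => (n j : ℝ)) atTop atTop :=
  tendsto_natCast_atTop_atTop.comp hn

lemma RegK_b (R : Reg H ep n M τ) : (1 : ℝ) ≤ Fintype.card β := by
  have := R.nb
  exact_mod_cast Fintype.card_pos

lemma RegK_Y {x p c B : ℝ} {v k a d g : ℕ} (hx : 1 ≤ x) (hp : 0 ≤ p) (hc : 0 ≤ c) (hc1 : c ≤ 1)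
    (h : c ≤ x ^ v * p ^ k) (hk : k ≠ 0) (ha : a ≤ k) (hg : a * v + g ≤ k * d)
    (hB : B ^ k ≤ x ^ g * c ^ k) : B ≤ x ^ d * p ^ a := by
  refine le_of_pow_le_pow_left₀ hk (by positivity) (hB.trans ?_)
  calc x ^ g * c ^ k ≤ x ^ g * (x ^ v * p ^ k) ^ a :=
        mul_le_mul_of_nonneg_left ((pow_le_pow_of_le_one hc hc1 ha).trans
          (pow_le_pow_left₀ hc h a)) (by positivity)
    _ = x ^ (a * v + g) * p ^ (a * k) := by ring
    _ ≤ x ^ (k * d) * p ^ (a * k) :=
        mul_le_mul_of_nonneg_right (pow_le_pow_right₀ hx hg) (by positivity)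
    _ = (x ^ d * p ^ a) ^ k := by ring

lemma RegK_lo (R : Reg H ep n M τ) : ∃ c : ℝ, 0 < c ∧ c ≤ 1 ∧ ∀ᶠ j in atTop, (1 : ℝ) ≤ n j ∧
    c ≤ (n j : ℝ) ^ (Fintype.card W - 2) *
      (2 * ((M j * Fintype.card β : ℕ) : ℝ) / (n j : ℝ) ^ 2) ^ (R.K - 1) := by
  obtain ⟨c, hc, h⟩ := R.lo
  refine ⟨min c 1, lt_min hc one_pos, min_le_right _ _, ?_⟩
  filter_upwards [h, (RegK_cast R.hn).eventually_ge_atTop 1] with j h1 h2
  exact ⟨h2, (min_le_left _ _).trans h1⟩

lemma RegK_ev (hn : Tendsto n atTop atTop) (B : ℝ) {c : ℝ} (hc : 0 < c) :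
    ∀ᶠ j in atTop, B ≤ (n j : ℝ) ^ 1 * c := by
  filter_upwards [(RegK_cast hn).eventually_ge_atTop (B / c)] with j hj
  rwa [pow_one, ← div_le_iff₀ hc]

lemma RegK_nP (R : Reg H ep n M τ) (A : ℝ) : ∀ᶠ j in atTop, A * (n j : ℝ) ≤ M j := by
  obtain ⟨c, hc, hc1, h⟩ := RegK_lo R
  have hvk := RegK_vk R.bal
  have hb := RegK_b R
  filter_upwards [h, RegK_ev R.hn ((2 * Fintype.card β * A) ^ (R.K - 1))
    (pow_pos hc (R.K - 1))] with j ⟨h1, h2⟩ h3
  have h4 := RegK_Y (a := 1) (d := 1) h1 (by positivity) hc.le hc1 h2 (by omega) (by omega)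
    (by omega) h3
  have h0 : (0 : ℝ) < n j := by linarith
  have e : (n j : ℝ) ^ 1 * (2 * ((M j * Fintype.card β : ℕ) : ℝ) / (n j : ℝ) ^ 2) ^ 1 =
      2 * Fintype.card β * (M j / n j) := by
    push_cast
    field_simp
  rw [e] at h4
  exact (le_div_iff₀ h0).1 (le_of_mul_le_mul_left h4 (by linarith))


theorem Reg.lin (R : Reg H ep n M τ) (C : ℝ) {δ : ℝ} (hδ : 0 < δ) :
    ∀ᶠ j in atTop, C * ((n j : ℝ) + 1) ≤ δ * M j := by
  filter_upwards [RegK_nP R (2 * |C| / δ), (RegK_cast R.hn).eventually_ge_atTop 1] with j h1 h2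
  rw [div_mul_eq_mul_div, div_le_iff₀ hδ] at h1
  have h3 := le_abs_self C
  have h4 := abs_nonneg C
  nlinarith

theorem Reg.top (R : Reg H ep n M τ) : Tendsto M atTop atTop := by
  refine tendsto_atTop_mono' atTop ?_ R.hn
  filter_upwards [RegK_nP R 1] with j hj
  rw [one_mul] at hj
  exact_mod_cast hj

theorem Reg.pos (R : Reg H ep n M τ) : ∀ᶠ j in atTop, 0 < n j ∧ n j ≤ M j := by
  filter_upwards [RegK_nP R 1, R.hn.eventually_gt_atTop 0] with j hj h0
  rw [one_mul] at hj
  exact ⟨h0, by exact_mod_cast hj⟩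

omit [DecidableEq W] in
lemma RegK_aut : 0 < aut H := lt_of_lt_of_le one_pos one_le_aut


theorem Reg.rate_bd (R : Reg H ep n M τ) : ∃ c : ℝ, 0 ≤ c ∧ ∀ᶠ j in atTop,
    0 ≤ rate H (n j) (M j * Fintype.card β) (τ j) ∧
      rate H (n j) (M j * Fintype.card β) (τ j) ≤ c := by
  obtain ⟨c, hc⟩ := R.hi
  refine ⟨|c|, abs_nonneg c, ?_⟩
  filter_upwards [hc, R.t01] with j h1 h2
  refine ⟨?_, h1.trans (le_abs_self c)⟩
  have := h2.1
  have := RegK_aut (H := H)
  unfold rate
  positivity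

lemma RegK_log (hn : Tendsto n atTop atTop) (A : ℝ) (i : ℕ) :
    ∀ᶠ j in atTop, A * Real.log (n j) ^ i ≤ n j := by
  have h := (Real.isLittleO_pow_log_id_atTop (n := i)).const_mul_left A
  filter_upwards [(RegK_cast hn).eventually (h.bound one_pos)] with j hj
  simp only [id, one_mul, Real.norm_eq_abs, Nat.abs_cast] at hj
  exact (le_abs_self _).trans hj


theorem Reg.net (R : Reg H ep n M τ) : ∃ K : ℕ → ℕ, (∀ᶠ j in atTop, 0 < K j ∧ K j ≤ M j) ∧
    (∀ δ : ℝ, 0 < δ → ∀ᶠ j in atTop, K j * Real.log ((n j : ℝ) ^ 2 + 1) ≤ δ * M j) ∧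
    ∀ (Q : ℝ) (a c : ℕ), 0 < Q → (Fintype.card W - 2) * a < (R.K - 1) * c →
      ∀ᶠ j in atTop, (Q * (n j : ℝ) ^ 2 / K j) ^ a ≤ (n j : ℝ) ^ c := by
  have hlog : Tendsto (fun j => Real.log (n j)) atTop atTop :=
    Real.tendsto_log_atTop.comp (RegK_cast R.hn)
  have hb := RegK_b R
  have hK : ∀ᶠ j in atTop, (0 : ℝ) < M j / Real.log (n j) ^ 2 := by
    filter_upwards [hlog.eventually_gt_atTop 0, R.top.eventually_gt_atTop 0] with j h1 h2
    positivity
  refine ⟨fun j => ⌈(M j : ℝ) / Real.log (n j) ^ 2⌉₊, ?_, fun δ hδ => ?_, fun Q a c hQ hac => ?_⟩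
  · filter_upwards [hK, hlog.eventually_ge_atTop 1] with j h1 h2
    exact ⟨Nat.ceil_pos.2 h1, Nat.ceil_le.2 (div_le_self (by positivity) (one_le_pow₀ h2))⟩
  · filter_upwards [hK, hlog.eventually_ge_atTop (6 / δ), hlog.eventually_gt_atTop 0,
      R.lin 3 (half_pos hδ), (RegK_cast R.hn).eventually_ge_atTop 2] with j h1 h2 h3 h4 h5
    have h6 : Real.log ((n j : ℝ) ^ 2 + 1) ≤ 3 * Real.log (n j) := by
      have := Real.log_pow (n j : ℝ) 3
      push_cast at this
      rw [← this]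
      exact Real.log_le_log (by positivity) (by nlinarith [sq_nonneg (n j : ℝ)])
    have h7 := (Nat.ceil_lt_add_one h1.le).le
    have h8 := Real.log_le_sub_one_of_pos (show (0 : ℝ) < n j by linarith)
    have h9 : (M j : ℝ) / Real.log (n j) ^ 2 * (3 * Real.log (n j)) ≤ δ / 2 * M j := by
      have e : (M j : ℝ) / Real.log (n j) ^ 2 * (3 * Real.log (n j)) =
          3 / Real.log (n j) * M j := by field_simp
      rw [e]
      refine mul_le_mul_of_nonneg_right ?_ (by positivity)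
      rw [div_le_iff₀ hδ] at h2
      rw [div_le_iff₀ h3]
      linarith
    calc _ ≤ ((M j : ℝ) / Real.log (n j) ^ 2 + 1) * (3 * Real.log (n j)) :=
          mul_le_mul h7 h6 (Real.log_nonneg (by nlinarith [sq_nonneg (n j : ℝ)])) (by positivity)
      _ ≤ _ := by linarith
  · obtain ⟨c0, hc, hc1, h⟩ := RegK_lo R
    have hvk := RegK_vk R.bal
    set k := R.K - 1
    set v := Fintype.card W - 2
    filter_upwards [h, hK, hlog.eventually_gt_atTop 0, R.top.eventually_gt_atTop 0,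
      RegK_log R.hn ((2 * Q * Fintype.card β) ^ (a * k) / c0 ^ a) (2 * (a * k))]
      with j ⟨h1, h2⟩ h3 h4 h5 h6
    have h0 : (0 : ℝ) < n j := by linarith
    have hM : (0 : ℝ) < M j := by exact_mod_cast h5
    set p := 2 * ((M j * Fintype.card β : ℕ) : ℝ) / (n j : ℝ) ^ 2 with hp
    have hp0 : 0 < p := by
      rw [hp]
      push_cast
      positivity
    have h7 : Q * (n j : ℝ) ^ 2 / (⌈(M j : ℝ) / Real.log (n j) ^ 2⌉₊ : ℝ) ≤
        2 * Q * Fintype.card β * Real.log (n j) ^ 2 / p := by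
      refine (div_le_div_of_nonneg_left (by positivity) h3 (Nat.le_ceil _)).trans (le_of_eq ?_)
      rw [hp]
      push_cast
      field_simp
    refine (pow_le_pow_left₀ (by positivity) h7 a).trans ?_
    refine le_of_pow_le_pow_left₀ (n := k) (by omega) (by positivity) ?_
    rw [← pow_mul, div_pow, div_le_iff₀ (by positivity)]
    rw [div_mul_eq_mul_div, div_le_iff₀ (by positivity)] at h6
    calc _ = (2 * Q * Fintype.card β) ^ (a * k) * Real.log (n j) ^ (2 * (a * k)) := by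
          rw [mul_pow, ← pow_mul]
      _ ≤ n j * c0 ^ a := h6
      _ ≤ n j * ((n j : ℝ) ^ v * p ^ k) ^ a :=
          mul_le_mul_of_nonneg_left (pow_le_pow_left₀ hc.le h2 a) h0.le
      _ = (n j : ℝ) ^ (v * a + 1) * p ^ (a * k) := by ring
      _ ≤ (n j : ℝ) ^ (k * c) * p ^ (a * k) :=
          mul_le_mul_of_nonneg_right (pow_le_pow_right₀ h1 hac) (by positivity)
      _ = _ := by ring

lemma RegK_X (R : Reg H ep n M τ) : ∃ T : ℝ, 0 ≤ T ∧ ∀ᶠ j in atTop, ∀ a c : ℕ, 1 ≤ a →
    a ≤ H.edgeFinset.card → 2 ≤ c → c ≤ Fintype.card W → ∀ B : ℝ, 0 < B →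
    B ≤ (n j : ℝ) ^ (c - 2) *
      (2 * ((M j * Fintype.card β : ℕ) : ℝ) / (n j : ℝ) ^ 2) ^ (a - 1) →
    τ j * (n j : ℝ) ^ (Fintype.card W - c) *
      (2 * ((M j * Fintype.card β : ℕ) : ℝ) / (n j : ℝ) ^ 2) ^ (H.edgeFinset.card - a) ≤
        T / B := by
  obtain ⟨c0, hc0, h⟩ := R.rate_bd
  have ha := RegK_aut (H := H)
  have hk : (0 : ℝ) < H.edgeFinset.card := by
    have := RegK_vk R.bal
    exact_mod_cast (show 0 < H.edgeFinset.card by omega)
  have hr : 0 < 2 * H.edgeFinset.card / aut H := by positivity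
  refine ⟨c0 / (2 * H.edgeFinset.card / aut H), by positivity, ?_⟩
  filter_upwards [h, R.t01] with j h1 h2 a c a1 a2 c1 c2 B hB hY
  have ht := h2.1
  rw [le_div_iff₀ hB]
  refine (mul_le_mul_of_nonneg_left hY (by positivity)).trans ?_
  rw [le_div_iff₀ hr]
  refine le_trans (le_of_eq ?_) h1.2
  unfold rate
  rw [show Fintype.card W - 2 = Fintype.card W - c + (c - 2) by omega,
    show H.edgeFinset.card - 1 = H.edgeFinset.card - a + (a - 1) by omega, pow_add, pow_add]
  ring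


theorem Reg.wk (R : Reg H ep n M τ) : ∃ C : ℝ, 0 ≤ C ∧ ∀ᶠ j in atTop, ∀ a c : ℕ, 1 ≤ a →
    a ≤ H.edgeFinset.card → 2 ≤ c → c ≤ Fintype.card W →
    (a - 1) * (Fintype.card W - 2) ≤ (R.K - 1) * (c - 2) →
    τ j * (n j : ℝ) ^ (Fintype.card W - c) *
      (2 * ((M j * Fintype.card β : ℕ) : ℝ) / (n j : ℝ) ^ 2) ^ (H.edgeFinset.card - a) ≤ C := by
  obtain ⟨T, hT, h⟩ := RegK_X R
  obtain ⟨c0, hc, hc1, h'⟩ := RegK_lo R
  have hvk := RegK_vk R.bal
  refine ⟨T / c0, by positivity, ?_⟩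
  filter_upwards [h, h'] with j h1 ⟨h2, h3⟩ a c a1 a2 c1 c2 hg
  exact h1 a c a1 a2 c1 c2 c0 hc (RegK_Y (g := 0) h2 (by positivity) hc.le hc1 h3 (by omega)
    (by omega) hg (by simp))

theorem Reg.st (R : Reg H ep n M τ) {ε : ℝ} (hε : 0 < ε) : ∀ᶠ j in atTop, ∀ a c : ℕ, 1 ≤ a →
    a ≤ H.edgeFinset.card → 2 ≤ c → c ≤ Fintype.card W →
    (a - 1) * (Fintype.card W - 2) < (R.K - 1) * (c - 2) →
    τ j * (n j : ℝ) ^ (Fintype.card W - c) *
      (2 * ((M j * Fintype.card β : ℕ) : ℝ) / (n j : ℝ) ^ 2) ^ (H.edgeFinset.card - a) ≤ ε := by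
  obtain ⟨T, hT, h⟩ := RegK_X R
  obtain ⟨c0, hc, hc1, h'⟩ := RegK_lo R
  have hvk := RegK_vk R.bal
  filter_upwards [h, h', RegK_ev R.hn ((T / ε + 1) ^ (R.K - 1))
    (pow_pos hc (R.K - 1))] with j h1 ⟨h2, h3⟩ h4 a c a1 a2 c1 c2 hg
  refine (h1 a c a1 a2 c1 c2 (T / ε + 1) (by positivity) (RegK_Y h2 (by positivity) hc.le hc1 h3
    (by omega) (by omega) hg h4)).trans ?_
  rw [div_le_iff₀ (by positivity), mul_add, mul_div_cancel₀ _ hε.ne']
  linarith

lemma RegK_dbl {N N2 : ℕ} (h : N ≤ 2 * N2) (x : ℝ) (k : ℕ) :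
    (2 * (N : ℝ) / x ^ 2) ^ k ≤ 2 ^ k * (2 * (N2 : ℝ) / x ^ 2) ^ k := by
  have h' : (N : ℝ) ≤ 2 * N2 := by exact_mod_cast h
  rw [← mul_pow, ← mul_div_assoc]
  gcongr


/-- Change of pattern: the number of variables changes by a bounded factor. -/
theorem Reg.change (R : Reg H ep n M τ) {α2 β2 : Type} [Fintype β2] [Nonempty β2]
    {ep2 : β2 → α2 × α2} {M2 : ℕ → ℕ} (hne : ∀ j, (ep2 j).1 ≠ (ep2 j).2)
    (hs : (Function.Injective fun j => s((ep2 j).1, (ep2 j).2)) ∨ Tendsto τ atTop (𝓝 0))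
    (hM : ∀ᶠ j in atTop, M j * Fintype.card β ≤ 2 * (M2 j * Fintype.card β2) ∧
      M2 j * Fintype.card β2 ≤ 2 * (M j * Fintype.card β)) : Reg H ep2 n M2 τ := by
  refine ⟨⟨_, R.bal, ?_⟩, R.md, inferInstance, hne, R.hn, R.t01, ?_, hs⟩
  · obtain ⟨c, hc, h⟩ := R.lo
    refine ⟨c / 2 ^ (R.K - 1), by positivity, ?_⟩
    filter_upwards [h, hM] with j h1 h2
    rw [div_le_iff₀ (by positivity)]
    refine h1.trans ((mul_le_mul_of_nonneg_left (RegK_dbl h2.1 _ _) (by positivity)).trans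
      (le_of_eq ?_))
    ring
  · obtain ⟨c, h⟩ := R.hi
    refine ⟨2 ^ (H.edgeFinset.card - 1) * c, ?_⟩
    filter_upwards [h, hM, R.t01] with j h1 h2 h3
    have ht := h3.1
    have ha := RegK_aut (H := H)
    refine le_trans ?_ (mul_le_mul_of_nonneg_left h1 (by positivity))
    unfold rate
    refine (mul_le_mul_of_nonneg_left (RegK_dbl h2.2 _ _) (by positivity)).trans (le_of_eq ?_)
    ring

/-- Rounding the number of variables down to a multiple of `b` does not change the limit rate. -/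
theorem rate_div {N : ℕ → ℕ} (hN : Tendsto N atTop atTop) {L : ℝ} {b : ℕ} (hb : 0 < b)
    (h : Tendsto (fun j => rate H (n j) (N j) (τ j)) atTop (𝓝 L)) :
    Tendsto (fun j => rate H (n j) (N j / b * b) (τ j)) atTop (𝓝 L) := by
  have hN' := RegK_cast hN
  have h1 : Tendsto (fun j => ((N j / b * b : ℕ) : ℝ) / N j) atTop (𝓝 1) := by
    have h2 : Tendsto (fun j => 1 - (b : ℝ) / N j) atTop (𝓝 (1 - 0)) :=
      tendsto_const_nhds.sub (tendsto_const_nhds.div_atTop hN')
    rw [sub_zero] at h2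
    refine tendsto_of_tendsto_of_tendsto_of_le_of_le' h2 tendsto_const_nhds ?_ ?_
    · filter_upwards [hN'.eventually_gt_atTop 0] with j hj
      have h3 : ((N j : ℕ) : ℝ) ≤ ((N j / b * b : ℕ) : ℝ) + b := by
        exact_mod_cast (Nat.lt_div_mul_add hb).le
      rw [le_div_iff₀ hj, sub_mul, div_mul_cancel₀ _ hj.ne']
      linarith
    · filter_upwards [hN'.eventually_gt_atTop 0] with j hj
      rw [div_le_one hj]
      exact_mod_cast Nat.div_mul_le_self _ _
  have h4 := h.mul (h1.pow (H.edgeFinset.card - 1))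
  rw [one_pow, mul_one] at h4
  refine h4.congr' ?_
  filter_upwards [hN'.eventually_gt_atTop 0] with j hj
  unfold rate
  rw [mul_assoc _ (_ ^ _), ← mul_pow]
  congr 2
  field_simp

/-- A thinned regime with prescribed rate and bounded density. -/
theorem reg_thin {K : ℕ} (B : KBal H K) {N : ℕ → ℕ} {L q : ℝ} (hL : 0 ≤ L) (hq : 0 < q)
    (hn : Tendsto n atTop atTop) (hN : ∀ᶠ j in atTop, q * (n j : ℝ) ^ 2 ≤ 2 * N j) :
    ∃ τ : ℕ → ℝ, Reg H ep1 n N τ ∧ Tendsto τ atTop (𝓝 0) ∧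
      ∀ᶠ j in atTop, rate H (n j) (N j) (τ j) = L := by
  have ha := RegK_aut (H := H)
  have hvk := RegK_vk B
  have h3 := B.h3
  have hk : (0 : ℝ) < H.edgeFinset.card := by
    exact_mod_cast (show 0 < H.edgeFinset.card by omega)
  have hlo : ∀ k : ℕ, ∀ᶠ j in atTop, (n j : ℝ) * q ^ k ≤
      (n j : ℝ) ^ (Fintype.card W - 2) * (2 * (N j : ℝ) / (n j : ℝ) ^ 2) ^ k := fun k => by
    filter_upwards [hN, (RegK_cast hn).eventually_ge_atTop 1] with j h1 h2
    refine mul_le_mul (le_self_pow₀ h2 (by omega)) (pow_le_pow_left₀ hq.le ?_ _) (by positivity)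
      (by positivity)
    rwa [le_div_iff₀ (by positivity)]
  have hD : Tendsto (fun j => rate H (n j) (N j) 1) atTop atTop := by
    refine tendsto_atTop_mono' atTop ?_ (((RegK_cast hn).atTop_mul_const
      (pow_pos hq (H.edgeFinset.card - 1))).const_mul_atTop
        (show 0 < 2 * H.edgeFinset.card / aut H by positivity))
    filter_upwards [hlo _] with j hj
    unfold rate
    rw [one_mul, mul_assoc _ (_ ^ _)]
    exact mul_le_mul_of_nonneg_left hj (by positivity)
  have ht : Tendsto (fun j => L / rate H (n j) (N j) 1) atTop (𝓝 0) :=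
    tendsto_const_nhds.div_atTop hD
  have hr : ∀ᶠ j in atTop, rate H (n j) (N j) (L / rate H (n j) (N j) 1) = L := by
    filter_upwards [hD.eventually_gt_atTop 0] with j hj
    have e : ∀ t : ℝ, rate H (n j) (N j) t = t * rate H (n j) (N j) 1 := fun t => by
      unfold rate
      ring
    rw [e, div_mul_cancel₀ _ hj.ne']
  refine ⟨_, ⟨⟨K, B, ?_⟩, Or.inr ht, inferInstance, fun _ => by simp [ep1], hn, ?_, ?_, Or.inr ht⟩,
    ht, hr⟩
  · refine ⟨q ^ (K - 1), by positivity, ?_⟩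
    filter_upwards [hlo _, (RegK_cast hn).eventually_ge_atTop 1] with j h1 h2
    rw [Fintype.card_unit, mul_one]
    exact (le_mul_of_one_le_left (by positivity) h2).trans h1
  · filter_upwards [hD.eventually_gt_atTop 0, ht.eventually (eventually_le_nhds one_pos)]
      with j h1 h2
    exact ⟨by positivity, h2⟩
  · refine ⟨L, ?_⟩
    filter_upwards [hr] with j hj
    rw [Fintype.card_unit, mul_one, hj]

end Pool.Agent.Work.MP_d4a230_co.U
end

-- merged part: Pool.Agent.Work.MP_d4a230_co.U.Ext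
section
/-!
Extension bounds.
PLAN. Let y2 = K.piecewise y0 y. A set C with Acd has a labelling ι : edges → variables with distinct
components and an embedding φ with sp (ι f) = f.map φ, so the sum over C is at most the sum over
(φ, ι) of the indicator. Split by the set A of edges f with (ι f).1 ∈ K (nonempty since C touches
g ∈ K). For fixed A and ι on A (at most (κ b)^|A| choices) φ on the vertices U covered by A takes
values among the at most 2k ends of the known positions: at most (2k)^|U| n^(v-|U|) maps φ. The other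
k - |A| variables lie in distinct components outside K: the sum over them of the average is at most
(N * 2/n^2)^(k-|A|) (ex_prod_indep, ex_hit, ind <= hit). Weak balance (Sys.wbal for B.sys, or B.bal,
|A| <= ein U) gives the hypothesis of R.wk; if 2 <= |A| < k the strict one of R.st (|U| >= 3; if
U = univ because |A| < k). State one deterministic bound and derive ext and ext_strict. ext_pow:
induction on m for all κ: XT^(m+1) = sum_C τ ind * XT^m, resample outside K ∪ components of C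
(ex_resample, Acd_congr is in Gib but easy to redo).
-/

namespace Pool.Agent.Work.MP_d4a230_co.U

open Finset Filter Topology Pool.Agent.Work.MP_07f1b5_pr
open scoped BigOperators

variable {α β : Type} [Fintype α] [DecidableEq α] [Fintype β] [DecidableEq β]
  {W : Type} [Fintype W] [DecidableEq W] {H : SimpleGraph W} [DecidableRel H.Adj]
  {ep : β → α × α} {n M : ℕ → ℕ} {τ : ℕ → ℝ}

section det

variable {G V : Type} [Fintype G] [DecidableEq G] [Fintype V] [DecidableEq V]

lemma Ext_cnt {ι κ : Type} [Fintype ι] [DecidableEq ι] [Fintype κ] [DecidableEq κ] (S : Finset ι)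
    (A : Finset κ) : ∑ y : ι → κ, ind (∀ i ∈ S, y i ∈ A) =
      (A.card : ℝ) ^ S.card * (Fintype.card κ : ℝ) ^ (Fintype.card ι - S.card) := by
  have e : (univ.filter fun y : ι → κ => ∀ i ∈ S, y i ∈ A) =
      Fintype.piFinset (S.piecewise (fun _ => A) fun _ => univ) := by
    ext y
    simp only [mem_filter, mem_univ, true_and, Fintype.mem_piFinset]
    refine forall_congr' fun i => ?_
    by_cases h : i ∈ S <;> simp [h]
  rw [sum_ind, e, Fintype.card_piFinset, ← prod_mul_prod_compl S,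
    prod_congr rfl fun i hi => by rw [piecewise_eq_of_mem _ _ _ hi],
    prod_congr (s₁ := Sᶜ) rfl fun i hi => by rw [piecewise_eq_of_notMem _ _ _ (mem_compl.1 hi)],
    prod_const, prod_const, card_compl, card_univ]
  push_cast
  rfl

lemma Ext_pt (hne : ∀ j, (ep j).1 ≠ (ep j).2) (i : G × β) (p : Sym2 V) :
    𝔼 y : G → α → V, ind (sp ep y i = p) ≤ 2 / (Fintype.card V : ℝ) ^ 2 := by
  induction p using Sym2.ind with | _ a b => ?_
  rw [ex_update i.1]
  refine ex_le (by positivity) fun y => ?_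
  rw [← ex_hit (hne i.2) (a, b)]
  refine ex_mono fun z => ?_
  simp only [sp, Function.update_self]
  exact le_mul_of_one_le_right (ind_nonneg _) (le_add_of_nonneg_right (ind_nonneg _))

lemma Ext_lab {q : G × β → Sym2 V} {C : Finset (G × β)} (h : Acd H q Prod.fst C) :
    ∃ x : (W → V) × (H.edgeFinset → G × β), univ.image x.2 = C ∧
      (Function.Injective fun f => (x.2 f).1) ∧ ∀ f, q (x.2 f) = f.1.map x.1 := by
  obtain ⟨h1, h2, h3⟩ := h
  obtain ⟨φ, -, hφ⟩ := mem_image.1 h1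
  have : ∀ f : H.edgeFinset, ∃ i ∈ C, q i = f.1.map φ := fun f =>
    mem_image.1 (hφ ▸ mem_image_of_mem _ f.2)
  choose ι i1 i2 using this
  have hi : Function.Injective ι := fun f f' e =>
    Subtype.ext (Sym2.map.injective φ.injective (by rw [← i2, ← i2, e]))
  exact ⟨(φ, ι), eq_of_subset_of_card_le (image_subset_iff.2 fun f _ => i1 f)
    (by rw [card_image_of_injective _ hi, card_univ, Fintype.card_coe, h2]),
    fun f f' e => hi (h3 (i1 f) (i1 f') e), i2⟩

/-- Vertices covered by a set of edges. -/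
def Ext_U (A : Finset H.edgeFinset) : Finset W := A.biUnion fun f => f.1.toFinset

lemma Ext_one [Nonempty V] (hne : ∀ j, (ep j).1 ≠ (ep j).2) (K : Finset G) (y0 : G → α → V)
    (A : Finset H.edgeFinset) (φ : W → V) (ι : H.edgeFinset → G × β) :
    𝔼 y, ind ((Function.Injective fun f => (ι f).1) ∧
      (∀ f, sp ep (K.piecewise y0 y) (ι f) = f.1.map φ) ∧ ∀ f, f ∈ A ↔ (ι f).1 ∈ K) ≤
    ind (∀ u ∈ Ext_U A, φ u ∈ (K ×ˢ univ).image fun p : G × α => y0 p.1 p.2) *
      (ind (∀ f ∈ A, ι f ∈ K ×ˢ univ) *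
        (2 / (Fintype.card V : ℝ) ^ 2) ^ (H.edgeFinset.card - A.card)) := by
  by_cases h : (Function.Injective fun f => (ι f).1) ∧ (∀ f ∈ A, sp ep y0 (ι f) = f.1.map φ) ∧
      ∀ f, f ∈ A ↔ (ι f).1 ∈ K
  swap
  · refine ex_le (mul_nonneg (ind_nonneg _) (mul_nonneg (ind_nonneg _) (by positivity))) fun y => ?_
    rw [ind_neg]
    · exact mul_nonneg (ind_nonneg _) (mul_nonneg (ind_nonneg _) (by positivity))
    refine fun ⟨a, b, c⟩ => h ⟨a, fun f hf => ?_, c⟩
    rw [← b f, sp, sp, piecewise_eq_of_mem _ _ _ ((c f).1 hf)]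
  obtain ⟨h1, h2, h3⟩ := h
  rw [ind_pos, ind_pos fun f hf => mem_product.2 ⟨(h3 f).1 hf, mem_univ _⟩, one_mul, one_mul]
  swap
  · intro u hu
    obtain ⟨f, hf, hu⟩ := mem_biUnion.1 hu
    have : φ u ∈ sp ep y0 (ι f) := h2 f hf ▸ Sym2.mem_map.2 ⟨u, Sym2.mem_toFinset.1 hu, rfl⟩
    rcases Sym2.mem_iff.1 this with e | e <;>
      exact mem_image.2 ⟨((ι f).1, _), mem_product.2 ⟨(h3 f).1 hf, mem_univ _⟩, e.symm⟩
  calc _ ≤ 𝔼 y : G → α → V, ∏ f ∈ Aᶜ, ind (sp ep y (ι f) = f.1.map φ) := by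
        refine ex_mono fun y => ?_
        by_cases e : ∀ f, sp ep (K.piecewise y0 y) (ι f) = f.1.map φ
        · refine (ind_le_one _).trans_eq (prod_eq_one fun f hf => ind_pos ?_).symm
          rw [← e f, sp, sp, piecewise_eq_of_notMem _ _ _ fun k => mem_compl.1 hf ((h3 f).2 k)]
        · rw [ind_neg fun k => e k.2.1]
          exact prod_nonneg fun _ _ => ind_nonneg _
    _ = ∏ f ∈ Aᶜ, 𝔼 y : G → α → V, ind (sp ep y (ι f) = f.1.map φ) :=
        ex_prod_indep _ (fun f => {(ι f).1}) (fun f _ f' _ e => disjoint_singleton.2 (h1.ne e)) _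
          fun f _ y y' e => by rw [sp, sp, e _ (mem_singleton_self _)]
    _ ≤ ∏ _f ∈ Aᶜ, 2 / (Fintype.card V : ℝ) ^ 2 :=
        prod_le_prod (fun _ _ => expect_nonneg fun _ _ => ind_nonneg _) fun f _ => Ext_pt hne _ _
    _ = _ := by rw [prod_const, card_compl, Fintype.card_coe]

/-- The constant of the deterministic bound. -/
def Ext_D (H : SimpleGraph W) [DecidableRel H.Adj] (α β : Type) [Fintype α] [Fintype β] (κ : ℕ) : ℝ :=
  2 ^ H.edgeFinset.card * (((κ : ℝ) * Fintype.card α + 1) ^ Fintype.card W *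
    ((κ : ℝ) * Fintype.card β + 1) ^ H.edgeFinset.card)

lemma Ext_D_pos (κ : ℕ) : 0 < Ext_D H α β κ := by
  unfold Ext_D
  positivity

lemma Ext_main [Nonempty V] (hne : ∀ j, (ep j).1 ≠ (ep j).2) {κ : ℕ} {K : Finset G}
    (hK : K.card ≤ κ) (y0 : G → α → V) (P : Finset (G × β) → Prop) {t X : ℝ} (ht : 0 ≤ t)
    (hX0 : 0 ≤ X) (Q : Finset H.edgeFinset → Prop)
    (hP : ∀ (ι : H.edgeFinset → G × β) A, (∀ f, f ∈ A ↔ (ι f).1 ∈ K) → P (univ.image ι) → Q A)
    (hX : ∀ A, Q A → t * (Fintype.card V : ℝ) ^ (Fintype.card W - (Ext_U A).card) *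
      (2 * ((Fintype.card G * Fintype.card β : ℕ) : ℝ) / (Fintype.card V : ℝ) ^ 2) ^
        (H.edgeFinset.card - A.card) ≤ X) :
    (𝔼 y, ∑ C : Finset (G × β), t * ind (Acd H (sp ep (K.piecewise y0 y)) Prod.fst C ∧ P C)) ≤
      Ext_D H α β κ * X := by
  classical
  let F : Finset H.edgeFinset → (W → V) × (H.edgeFinset → G × β) → (G → α → V) → Prop :=
    fun A x y => (Function.Injective fun f => (x.2 f).1) ∧
      (∀ f, sp ep (K.piecewise y0 y) (x.2 f) = f.1.map x.1) ∧ ∀ f, f ∈ A ↔ (x.2 f).1 ∈ K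
  have s1 : ∀ y, ∑ C : Finset (G × β), t * ind (Acd H (sp ep (K.piecewise y0 y)) Prod.fst C ∧ P C) ≤
      ∑ A ∈ univ.filter Q, ∑ x, t * ind (F A x y) := fun y => by
    simp only [← mul_sum]
    refine mul_le_mul_of_nonneg_left ?_ ht
    calc _ ≤ ∑ C : Finset (G × β), ∑ z ∈ univ.filter Q ×ˢ univ,
          ind (F z.1 z.2 y ∧ univ.image z.2.2 = C) := by
          refine sum_le_sum fun C _ => le_trans (ind_mono fun ⟨h1, h2⟩ => ?_) (ind_exists_le _ _)
          obtain ⟨x, rfl, x2, x3⟩ := Ext_lab h1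
          have e : ∀ f, f ∈ univ.filter (fun f => (x.2 f).1 ∈ K) ↔ (x.2 f).1 ∈ K := by simp
          exact ⟨(_, x), mem_product.2 ⟨mem_filter.2 ⟨mem_univ _, hP _ _ e h2⟩, mem_univ _⟩,
            ⟨x2, x3, e⟩, rfl⟩
      _ = _ := by
          rw [sum_comm, sum_product]
          refine sum_congr rfl fun A _ => sum_congr rfl fun x _ => ?_
          rw [sum_eq_single (univ.image x.2) (fun C _ e => ind_neg fun k => e k.2.symm)
            fun k => absurd (mem_univ _) k]
          exact ind_congr (and_iff_left rfl)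
  refine (ex_mono s1).trans ?_
  rw [expect_sum_comm, Ext_D, mul_assoc]
  refine (sum_le_card_nsmul _ _ _ fun A hA => ?_).trans (by
    rw [nsmul_eq_mul]
    refine mul_le_mul_of_nonneg_right ?_ (by positivity)
    exact_mod_cast (card_le_univ _).trans_eq (by rw [Fintype.card_finset, Fintype.card_coe]))
  rw [expect_sum_comm]
  refine (sum_le_sum fun x _ => (mul_expect ..).symm.trans_le
    (mul_le_mul_of_nonneg_left (Ext_one hne K y0 A x.1 x.2) ht)).trans ?_
  rw [← mul_sum, Fintype.sum_prod_type]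
  simp only [← mul_sum, ← sum_mul]
  rw [Ext_cnt, Ext_cnt, Fintype.card_coe, Fintype.card_prod]
  have b : ∀ {a c m l : ℕ}, a ≤ κ * c → m ≤ l → (a : ℝ) ^ m ≤ ((κ : ℝ) * c + 1) ^ l :=
    fun {a c m l} h1 h2 => by
      have : (a : ℝ) ≤ κ * c := by exact_mod_cast h1
      exact (pow_le_pow_left₀ (by positivity) (by linarith) _).trans
        (pow_le_pow_right₀ (le_add_of_nonneg_left (by positivity)) h2)
  have b1 := b (a := ((K ×ˢ univ).image fun p : G × α => y0 p.1 p.2).card) (c := Fintype.card α)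
    (card_image_le.trans (by rw [card_product, card_univ]; gcongr)) (card_le_univ (Ext_U A))
  have b2 := b (a := (K ×ˢ (univ : Finset β)).card) (c := Fintype.card β)
    (by rw [card_product, card_univ]; gcongr) ((card_le_univ A).trans_eq (Fintype.card_coe _))
  refine le_trans (le_of_eq ?_) (mul_le_mul (mul_le_mul b1 b2 (by positivity) (by positivity))
    (hX A (mem_filter.1 hA).2) (by positivity) (by positivity))
  rw [mul_div_right_comm, mul_pow]
  ring

lemma Ext_bal {K : ℕ} (B : KBal H K) {A : Finset H.edgeFinset} (hA : A.Nonempty) : 1 ≤ A.card ∧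
    A.card ≤ H.edgeFinset.card ∧ 2 ≤ (Ext_U A).card ∧ (Ext_U A).card ≤ Fintype.card W ∧
    (A.card - 1) * (Fintype.card W - 2) ≤ (K - 1) * ((Ext_U A).card - 2) ∧
    (2 ≤ A.card → A.card < H.edgeFinset.card →
      (A.card - 1) * (Fintype.card W - 2) < (K - 1) * ((Ext_U A).card - 2)) := by
  have c2 : ∀ f : H.edgeFinset, f.1.toFinset.card = 2 := fun f =>
    Sym2.card_toFinset_of_not_isDiag _ (H.not_isDiag_of_mem_edgeFinset f.2)
  have su : ∀ f ∈ A, f.1.toFinset ⊆ Ext_U A := fun f hf =>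
    subset_biUnion_of_mem (fun f : H.edgeFinset => f.1.toFinset) hf
  have a1 := card_pos.2 hA
  have a2 : A.card ≤ H.edgeFinset.card := (card_le_univ A).trans_eq (Fintype.card_coe _)
  have a3 : 2 ≤ (Ext_U A).card := (c2 _).ge.trans (card_le_card (su _ hA.choose_spec))
  have a4 := card_le_univ (Ext_U A)
  have h3 := B.h3
  have hK := B.hK
  refine ⟨a1, a2, a3, a4, ?_⟩
  rcases a3.eq_or_lt with e | e
  · have : A.card ≤ 1 := card_le_one.2 fun f hf g hg => by
      have e3 : g.1.toFinset = Ext_U A := eq_of_subset_of_card_le (su g hg) (by rw [c2, e])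
      exact Subtype.ext (sym2_eq_of_subset (H.not_isDiag_of_mem_edgeFinset f.2) fun x hx =>
        Sym2.mem_toFinset.1 (e3 ▸ su f hf (Sym2.mem_toFinset.2 hx)))
    exact ⟨by rw [show A.card - 1 = 0 by omega, zero_mul]; exact Nat.zero_le _, by omega⟩
  rcases a4.eq_or_lt with e' | e'
  · rw [e']
    exact ⟨Nat.mul_le_mul_right _ (by omega),
      fun _ _ => Nat.mul_lt_mul_of_pos_right (by omega) (by omega)⟩
  have a5 : A.card ≤ ein H.edgeFinset (Ext_U A) :=
    card_le_card_of_injOn (fun f => f.1) (fun f hf => mem_filter.2 ⟨f.2, su f hf⟩)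
      Subtype.val_injective.injOn
  have a6 : (A.card - 1) * (Fintype.card W - 2) < (K - 1) * ((Ext_U A).card - 2) := by
    have := B.bal _ e e'
    have a7 : 1 ≤ K := by omega
    have a8 : 2 ≤ Fintype.card W := by omega
    have a9 : 1 ≤ A.card := a1
    zify [a7, a8, a9, a3] at a5 a8 ⊢
    nlinarith
  exact ⟨a6.le, fun _ _ => a6⟩

end det

theorem ext (R : Reg H ep n M τ) (κ : ℕ) : ∃ C : ℝ, 0 ≤ C ∧ ∀ᶠ j in atTop,
    ∀ (g : Fin (M j)) (K : Finset (Fin (M j))) (y0 : Fin (M j) → α → Fin (n j)), g ∈ K →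
      K.card ≤ κ → 𝔼 y, XT H (τ j) ep g (K.piecewise y0 y) ≤ C := by
  obtain ⟨C, c0, hC⟩ := R.wk
  refine ⟨Ext_D H α β κ * C, mul_nonneg (Ext_D_pos κ).le c0, ?_⟩
  filter_upwards [hC, R.pos, R.t01] with j h1 h2 h3 g K y0 hg hK
  have : Nonempty (Fin (n j)) := ⟨⟨0, h2.1⟩⟩
  refine Ext_main R.ne hK y0 (Tch g) h3.1 c0 Finset.Nonempty (fun ι A e ⟨b, hb⟩ => ?_) fun A hA => ?_
  · obtain ⟨f, -, hf⟩ := mem_image.1 hb
    exact ⟨f, (e f).2 (by rwa [hf])⟩
  · obtain ⟨a1, a2, a3, a4, a5, -⟩ := Ext_bal R.bal hA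
    simpa only [Fintype.card_fin] using h1 _ _ a1 a2 a3 a4 a5

theorem ext_strict (R : Reg H ep n M τ) (κ : ℕ) {ε : ℝ} (hε : 0 < ε) : ∀ᶠ j in atTop,
    ∀ (g : Fin (M j)) (K : Finset (Fin (M j))) (y0 : Fin (M j) → α → Fin (n j)), g ∈ K →
      K.card ≤ κ → (𝔼 y, ∑ C : Finset (Fin (M j) × β), τ j *
        ind (Acd H (sp ep (K.piecewise y0 y)) Prod.fst C ∧ Tch g C ∧
          (∃ i ∈ C, i.1 ∈ K ∧ i.1 ≠ g) ∧ ∃ i ∈ C, i.1 ∉ K)) ≤ ε := by
  have d0 : 0 < Ext_D H α β κ := Ext_D_pos κ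
  filter_upwards [R.st (div_pos hε d0), R.pos, R.t01] with j h1 h2 h3 g K y0 hg hK
  have : Nonempty (Fin (n j)) := ⟨⟨0, h2.1⟩⟩
  refine (Ext_main R.ne hK y0 (fun C => Tch g C ∧ (∃ i ∈ C, i.1 ∈ K ∧ i.1 ≠ g) ∧ ∃ i ∈ C, i.1 ∉ K)
    h3.1 (div_pos hε d0).le
    (fun A => 2 ≤ A.card ∧ A.card < H.edgeFinset.card)
    (fun ι A e hP => ?_) fun A hA => ?_).trans_eq (mul_div_cancel₀ _ d0.ne')
  · obtain ⟨⟨b, hb⟩, ⟨i, hi, i1, i2⟩, i', hi', i3⟩ := hP
    obtain ⟨f, -, hf⟩ := mem_image.1 hb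
    obtain ⟨f', -, rfl⟩ := mem_image.1 hi
    obtain ⟨f'', -, rfl⟩ := mem_image.1 hi'
    refine ⟨one_lt_card.2 ⟨f', (e f').2 i1, f, (e f).2 (by rwa [hf]), fun k => i2 ?_⟩,
      ((card_lt_iff_ne_univ A).2 fun k => i3 ((e _).1 (k ▸ mem_univ _))).trans_eq
        (Fintype.card_coe _)⟩
    rw [k, hf]
  · obtain ⟨a1, a2, a3, a4, -, a5⟩ := Ext_bal R.bal (card_pos.1 (by omega : 0 < A.card))
    simpa only [Fintype.card_fin] using h1 _ _ a1 a2 a3 a4 (a5 hA.1 hA.2)

theorem ext_pow (R : Reg H ep n M τ) (m κ : ℕ) : ∃ C : ℝ, 0 ≤ C ∧ ∀ᶠ j in atTop,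
    ∀ (g : Fin (M j)) (K : Finset (Fin (M j))) (y0 : Fin (M j) → α → Fin (n j)), g ∈ K →
      K.card ≤ κ → 𝔼 y, XT H (τ j) ep g (K.piecewise y0 y) ^ m ≤ C := by
  induction m generalizing κ with
  | zero => exact ⟨1, zero_le_one, .of_forall fun j g K y0 _ _ =>
      ex_le zero_le_one fun y => (pow_zero _).le⟩
  | succ m ih =>
    obtain ⟨C, c0, hC⟩ := ih (κ + H.edgeFinset.card)
    obtain ⟨C', c1, hC'⟩ := ext R κ
    refine ⟨C' * C, mul_nonneg c1 c0, ?_⟩
    filter_upwards [hC, hC', R.t01] with j h1 h2 h3 g K y0 hg hK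
    refine le_trans ?_ (mul_le_mul_of_nonneg_right (h2 g K y0 hg hK) c0)
    have e : ∀ y, XT H (τ j) ep g (K.piecewise y0 y) ^ (m + 1) = ∑ D : Finset (Fin (M j) × β),
        τ j * ind (Acd H (sp ep (K.piecewise y0 y)) Prod.fst D ∧ Tch g D) *
          XT H (τ j) ep g (K.piecewise y0 y) ^ m := fun y => by rw [pow_succ', ← sum_mul]; rfl
    have e' : ∀ y, XT H (τ j) ep g (K.piecewise y0 y) = ∑ D : Finset (Fin (M j) × β),
        τ j * ind (Acd H (sp ep (K.piecewise y0 y)) Prod.fst D ∧ Tch g D) := fun y => rfl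
    rw [expect_congr rfl fun y _ => e y, expect_congr rfl fun y _ => e' y, expect_sum_comm,
      expect_sum_comm, sum_mul]
    refine sum_le_sum fun D _ => ?_
    rw [ex_resample (D.image Prod.fst), expect_mul]
    refine ex_mono fun y => ?_
    have e1 : ∀ y', K.piecewise y0 ((D.image Prod.fst).piecewise y y') =
        (K ∪ D.image Prod.fst).piecewise (K.piecewise y0 y) y' := fun y' => by
      funext i
      by_cases a : i ∈ K <;> by_cases b : i ∈ D.image Prod.fst <;> simp [piecewise, a, b]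
    have e2 : ∀ y', Acd H (sp ep ((K ∪ D.image Prod.fst).piecewise (K.piecewise y0 y) y'))
        Prod.fst D ↔ Acd H (sp ep (K.piecewise y0 y)) Prod.fst D := fun y' => by
      unfold Acd
      rw [image_congr (s := D) (g := sp ep (K.piecewise y0 y)) fun i hi => by
        rw [sp, sp, piecewise_eq_of_mem _ _ _ (mem_union_right _ (mem_image_of_mem _ hi))]]
    simp only [e1, e2]
    rw [← mul_expect]
    by_cases a : Acd H (sp ep (K.piecewise y0 y)) Prod.fst D
    · refine mul_le_mul_of_nonneg_left (h1 g _ _ (mem_union_left _ hg) ?_)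
        (mul_nonneg h3.1 (ind_nonneg _))
      exact (card_union_le _ _).trans (add_le_add hK (card_image_le.trans a.2.1.le))
    · rw [ind_neg fun k => a k.1, mul_zero, zero_mul, zero_mul]

theorem xt_pow (R : Reg H ep n M τ) (m : ℕ) : ∃ C : ℝ, 0 ≤ C ∧ ∀ᶠ j in atTop,
    ∀ g : Fin (M j), 𝔼 y : Fin (M j) → α → Fin (n j), XT H (τ j) ep g y ^ m ≤ C := by
  obtain ⟨C, c0, hC⟩ := ext_pow R m 1
  refine ⟨C, c0, hC.mono fun j h g => ?_⟩
  rw [ex_resample {g}]
  exact ex_le c0 fun y => h g _ y (mem_singleton_self g) (card_singleton g).le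

theorem acd_total (R : Reg H ep n M τ) : ∃ C : ℝ, 0 ≤ C ∧ ∀ᶠ j in atTop,
    (𝔼 y : Fin (M j) → α → Fin (n j), ∑ C : Finset (Fin (M j) × β),
      τ j * ind (Acd H (sp ep y) Prod.fst C)) ≤ C * M j := by
  obtain ⟨C, c0, hC⟩ := R.wk
  have d0 : 0 < Ext_D H α β 0 := Ext_D_pos 0
  refine ⟨Ext_D H α β 0 * (C * (2 * Fintype.card β)), by positivity, ?_⟩
  filter_upwards [hC, R.pos, R.t01] with j h1 h2 h3
  have : Nonempty (Fin (n j)) := ⟨⟨0, h2.1⟩⟩
  have h4 := R.bal.h3
  have h5 := R.bal.hk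
  have key := Ext_main (H := H) (G := Fin (M j)) (V := Fin (n j)) (K := ∅) R.ne card_empty.le
    (fun _ _ => ⟨0, h2.1⟩) (fun _ => True) h3.1
    (X := C * (2 * Fintype.card β) * M j) (by positivity) (· = ∅)
    (fun ι A e _ => eq_empty_of_forall_notMem fun f hf => notMem_empty _ ((e f).1 hf))
    fun A hA => by
      have n0 : (0 : ℝ) < n j := by exact_mod_cast h2.1
      have := mul_le_mul_of_nonneg_right (h1 1 2 le_rfl (by omega) le_rfl (by omega) (by simp))
        (show (0 : ℝ) ≤ 2 * Fintype.card β * M j by positivity)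
      rw [hA, Ext_U, biUnion_empty, card_empty, card_empty, Nat.sub_zero, Nat.sub_zero,
        Fintype.card_fin, Fintype.card_fin, mul_assoc C]
      refine le_trans (le_of_eq ?_) this
      obtain ⟨v, hv⟩ : ∃ v, Fintype.card W = v + 2 := ⟨Fintype.card W - 2, by omega⟩
      obtain ⟨k, hk⟩ : ∃ k, H.edgeFinset.card = k + 1 := ⟨H.edgeFinset.card - 1, by omega⟩
      rw [hv, hk, Nat.add_sub_cancel, Nat.add_sub_cancel, pow_succ _ k]
      push_cast
      field_simp
      ring
  simpa only [piecewise_empty, and_true, mul_assoc] using key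

end Pool.Agent.Work.MP_d4a230_co.U
end

-- merged part: Pool.Agent.Work.MP_d4a230_co.U.Ov
section
/-!
Overlapping constraints are rare.
PLAN. ov_pair with weight: for C1 ≠ C2 resample outside the components K of C1 ∪ C2 (at most 2k):
ext_pow bounds the factor XT^m by a constant. So take m = 0. Fix C1, K1 its components. Pairs with
C2 not inside K1: resample outside K1, ext_strict, then ext for the sum over C1. Pairs with C2 inside
K1: at most 2^(k b) sets C2. If τ tends to 0 the extra factor τ suffices. If the pattern is simple: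
C2 has exactly one variable in each component of C1, so there is a component h with i ∈ C1, i2 ∈ C2,
i ≠ i2, i.1 = i2.1 = h; some end a of the slot of i2 is not an end of the slot of i; the coordinate
y h a does not affect Acd C1, and Acd C2 forces y h a to be an end of the position of another
variable of C2 (minimum degree >= 2: Sys.mem_vs_erase for B.sys), which lies in another component:
chance <= 2k/n (ex_update twice or ex_curry).
-/

namespace Pool.Agent.Work.MP_d4a230_co.U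

open Finset Filter Topology Pool.Agent.Work.MP_07f1b5_pr
open scoped BigOperators

variable {α β : Type} [Fintype α] [DecidableEq α] [Fintype β] [DecidableEq β]
  {W : Type} [Fintype W] [DecidableEq W] {H : SimpleGraph W} [DecidableRel H.Adj]
  {ep : β → α × α} {n M : ℕ → ℕ} {τ : ℕ → ℝ}

section det

variable {G V : Type} [Fintype G] [DecidableEq G] [Fintype V] [DecidableEq V]

lemma Ov_congr {y y2 : G → α → V} {C : Finset (G × β)} (h : ∀ i ∈ C, sp ep y i = sp ep y2 i) :
    Acd H (sp ep y) Prod.fst C ↔ Acd H (sp ep y2) Prod.fst C := by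
  unfold Acd
  rw [image_congr h]

lemma Ov_pw {K : Finset G} {C : Finset (G × β)} (h : C.image Prod.fst ⊆ K) (y y2 : G → α → V) :
    Acd H (sp ep (K.piecewise y y2)) Prod.fst C ↔ Acd H (sp ep y) Prod.fst C :=
  Ov_congr fun i hi => by
    unfold sp
    rw [piecewise_eq_of_mem _ _ _ (h (mem_image_of_mem _ hi))]

lemma Ov_res {X κ : Type} [Fintype X] [Fintype κ] (K : X → Finset G) (a F : X → (G → κ) → ℝ)
    {B : ℝ} (h0 : ∀ c y, 0 ≤ a c y) (ha : ∀ c y y2, a c ((K c).piecewise y y2) = a c y)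
    (hF : ∀ c y, a c y ≠ 0 → 𝔼 y2, F c ((K c).piecewise y y2) ≤ B) :
    𝔼 y, ∑ c, a c y * F c y ≤ B * 𝔼 y, ∑ c, a c y := by
  rw [expect_sum_comm, expect_sum_comm, mul_sum]
  refine sum_le_sum fun c _ => ?_
  rw [ex_resample (K c), mul_expect]
  refine ex_mono fun y => ?_
  simp only [ha]
  rw [← mul_expect, mul_comm B]
  by_cases h : a c y = 0
  · rw [h, zero_mul, zero_mul]
  · exact mul_le_mul_of_nonneg_left (hF c y h) (h0 c y)

lemma Ov_upd (h : G) (a : α) (f : (G → α → V) → ℝ) :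
    𝔼 y, f y = 𝔼 y : G → α → V, 𝔼 x : V, f (Function.update y h (Function.update (y h) a x)) := by
  rw [ex_update h f, ex_update h fun y : G → α → V =>
    𝔼 x : V, f (Function.update y h (Function.update (y h) a x))]
  refine expect_congr rfl fun y _ => ?_
  rw [ex_update a fun u => f (Function.update y h u)]
  simp only [Function.update_self, Function.update_idem]

lemma Ov_of_ne {q : Prop} {t : ℝ} (h : t * ind q ≠ 0) : q := by
  by_contra hq
  exact h (by rw [ind_neg hq, mul_zero])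

lemma Ov_simple (B : HBal H) (hne : ∀ j, (ep j).1 ≠ (ep j).2)
    (hs : Function.Injective fun j => s((ep j).1, (ep j).2)) {C1 C2 : Finset (G × β)}
    (hC : C1 ≠ C2) (hK : C2.image Prod.fst ⊆ C1.image Prod.fst) :
    𝔼 y : G → α → V, ind (Acd H (sp ep y) Prod.fst C1 ∧ Acd H (sp ep y) Prod.fst C2) ≤
      2 * H.edgeFinset.card / Fintype.card V *
        𝔼 y : G → α → V, ind (Acd H (sp ep y) Prod.fst C1) := by
  by_cases hh : (C1.card = H.edgeFinset.card ∧ Set.InjOn Prod.fst (C1 : Set (G × β))) ∧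
      C2.card = H.edgeFinset.card ∧ Set.InjOn Prod.fst (C2 : Set (G × β))
  swap
  · refine ex_le (mul_nonneg (by positivity) (expect_nonneg fun _ _ => ind_nonneg _)) fun y => ?_
    rw [ind_neg fun h => hh ⟨h.1.2, h.2.2⟩]
    exact mul_nonneg (by positivity) (expect_nonneg fun _ _ => ind_nonneg _)
  obtain ⟨⟨c1, j1⟩, c2, j2⟩ := hh
  obtain ⟨i2, hi2, hn⟩ : ∃ i2 ∈ C2, i2 ∉ C1 :=
    not_subset.1 fun h => hC (eq_of_subset_of_card_le h (c1.trans c2.symm).le).symm
  obtain ⟨i, hi, e⟩ := mem_image.1 (hK (mem_image_of_mem _ hi2))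
  obtain ⟨a, ha2, ha⟩ : ∃ a, a ∈ s((ep i2.2).1, (ep i2.2).2) ∧ a ∉ s((ep i.2).1, (ep i.2).2) := by
    by_contra hc
    push Not at hc
    have h1 := hs (sym2_eq_of_subset (by simpa using hne i2.2) hc)
    exact hn ((Prod.ext e h1.symm : i = i2) ▸ hi)
  rw [Ov_upd i2.1 a, mul_expect]
  refine ex_mono fun y => ?_
  have hout : ∀ (x : V) (l : G × β), l.1 ≠ i2.1 →
      sp ep (Function.update y i2.1 (Function.update (y i2.1) a x)) l = sp ep y l := by
    intro x l hl
    unfold sp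
    rw [Function.update_of_ne hl]
  have hA : ∀ x : V, ind (Acd H (sp ep (Function.update y i2.1 (Function.update (y i2.1) a x)))
      Prod.fst C1 ∧ Acd H (sp ep (Function.update y i2.1 (Function.update (y i2.1) a x)))
      Prod.fst C2) ≤ ind (x ∈ vs ((C2.erase i2).image (sp ep y))) *
        ind (Acd H (sp ep y) Prod.fst C1) := by
    intro x
    rw [← ind_and]
    refine ind_mono fun h => ⟨?_, (Ov_congr fun l hl => ?_).1 h.1⟩
    · have hx : x ∈ sp ep (Function.update y i2.1 (Function.update (y i2.1) a x)) i2 := by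
        unfold sp sl
        rw [Function.update_self]
        rcases Sym2.mem_iff.1 ha2 with h1 | h1
        · rw [← h1, Function.update_self]
          exact Sym2.mem_mk_left _ _
        · rw [← h1, Function.update_self]
          exact Sym2.mem_mk_right _ _
      obtain ⟨f, hf, hxf⟩ := mem_vs.1 (B.sys.mem_vs_erase h.2.1 (mem_image_of_mem _ hi2) hx)
      obtain ⟨hf1, hf2⟩ := mem_erase.1 hf
      obtain ⟨l, hl, rfl⟩ := mem_image.1 hf2
      have hl2 : l ≠ i2 := fun h1 => hf1 (by rw [h1])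
      rw [hout x l fun h1 => hl2 (j2 hl hi2 h1)] at hxf
      exact mem_vs.2 ⟨_, mem_image_of_mem _ (mem_erase.2 ⟨hl2, hl⟩), hxf⟩
    · by_cases h1 : l.1 = i2.1
      · obtain rfl : l = i := j1 hl hi (h1.trans e.symm)
        rw [Sym2.mem_iff, not_or] at ha
        unfold sp sl
        rw [h1, Function.update_self, Function.update_of_ne (Ne.symm ha.1),
          Function.update_of_ne (Ne.symm ha.2)]
      · exact hout x l h1
  refine (ex_mono hA).trans ?_
  rw [← expect_mul, Fintype.expect_eq_sum_div_card, P1_sum_mem]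
  refine mul_le_mul_of_nonneg_right (div_le_div_of_nonneg_right ?_ (Nat.cast_nonneg _))
    (ind_nonneg _)
  have := (card_vs_le ((C2.erase i2).image (sp ep y))).trans (Nat.mul_le_mul_left 2
    ((card_image_le.trans (card_erase_le (a := i2))).trans c2.le))
  exact_mod_cast this

lemma Ov_count {K : Finset G} {k : ℕ} (hK : K.card ≤ k) :
    ∑ C : Finset (G × β), ind (C.image Prod.fst ⊆ K) ≤ 2 ^ (k * Fintype.card β) := by
  have h : ∀ C : Finset (G × β), ind (C.image Prod.fst ⊆ K) ≤ ind (C ∈ (K ×ˢ univ).powerset) :=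
    fun C => ind_mono fun h => mem_powerset.2 fun i hi =>
      mem_product.2 ⟨h (mem_image_of_mem _ hi), mem_univ _⟩
  refine (sum_le_sum fun C _ => h C).trans ?_
  rw [P1_sum_mem, card_powerset, card_product, card_univ, Nat.cast_pow, Nat.cast_ofNat]
  exact pow_le_pow_right₀ one_le_two (Nat.mul_le_mul_right _ hK)

lemma Ov_in {t δ : ℝ} (ht : 0 ≤ t) (hδ : 0 ≤ δ) (g : G)
    (h4 : ∀ C1 C2 : Finset (G × β), C1 ≠ C2 → C2.image Prod.fst ⊆ C1.image Prod.fst →
      t * 𝔼 y : G → α → V, ind (Acd H (sp ep y) Prod.fst C1 ∧ Acd H (sp ep y) Prod.fst C2) ≤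
        δ * 𝔼 y : G → α → V, ind (Acd H (sp ep y) Prod.fst C1)) :
    (𝔼 y : G → α → V, ∑ C1 : Finset (G × β), ∑ C2 : Finset (G × β), t ^ 2 *
      ind (Tch g C1 ∧ (C1 ≠ C2 ∧ C2.image Prod.fst ⊆ C1.image Prod.fst) ∧
        Acd H (sp ep y) Prod.fst C1 ∧ Acd H (sp ep y) Prod.fst C2)) ≤
      2 ^ (H.edgeFinset.card * Fintype.card β) * δ * 𝔼 y : G → α → V, XT H t ep g y := by
  unfold XT
  rw [expect_sum_comm, expect_sum_comm, mul_sum]
  refine sum_le_sum fun C1 _ => ?_
  have e0 : 0 ≤ 𝔼 y : G → α → V, t * ind (Acd H (sp ep y) Prod.fst C1 ∧ Tch g C1) :=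
    expect_nonneg fun _ _ => mul_nonneg ht (ind_nonneg _)
  by_cases hc : Tch g C1 ∧ C1.card = H.edgeFinset.card
  swap
  · refine ex_le (by positivity) fun y => (sum_eq_zero fun C2 _ => ?_).trans_le (by positivity)
    rw [ind_neg fun h => hc ⟨h.1, h.2.2.1.2.1⟩, mul_zero]
  rw [expect_sum_comm, mul_assoc]
  refine le_trans (sum_le_sum fun C2 _ => ?_) ((sum_mul ..).symm.trans_le
    (mul_le_mul_of_nonneg_right (Ov_count (β := β) (card_image_le.trans hc.2.le :
      (C1.image Prod.fst).card ≤ _)) (by positivity)))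
  by_cases h : C1 ≠ C2 ∧ C2.image Prod.fst ⊆ C1.image Prod.fst
  · simp only [hc.1, h, and_true, true_and, ne_eq, not_false_eq_true, ind_pos trivial, one_mul]
    rw [← mul_expect, ← mul_expect, sq, mul_assoc, mul_left_comm δ]
    exact mul_le_mul_of_nonneg_left (h4 C1 C2 h.1 h.2) ht
  · have e1 := ind_nonneg (C2.image Prod.fst ⊆ C1.image Prod.fst)
    refine ex_le (by positivity) fun y => ?_
    rw [ind_neg fun h1 => h h1.2.1, mul_zero]
    positivity

lemma Ov_det {t B ε δ X : ℝ} (m : ℕ) (g : G) (ht : 0 ≤ t) (hB : 0 ≤ B) (hε : 0 ≤ ε) (hδ : 0 ≤ δ)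
    (h1 : ∀ (K : Finset G) (y0 : G → α → V), g ∈ K → K.card ≤ 2 * H.edgeFinset.card →
      𝔼 y, XT H t ep g (K.piecewise y0 y) ^ m ≤ B)
    (h2 : ∀ (K : Finset G) (y0 : G → α → V), g ∈ K → K.card ≤ H.edgeFinset.card →
      (𝔼 y, ∑ C : Finset (G × β), t * ind (Acd H (sp ep (K.piecewise y0 y)) Prod.fst C ∧ Tch g C ∧
        (∃ i ∈ C, i.1 ∈ K ∧ i.1 ≠ g) ∧ ∃ i ∈ C, i.1 ∉ K)) ≤ ε)
    (h3 : 𝔼 y : G → α → V, XT H t ep g y ≤ X)
    (h4 : ∀ C1 C2 : Finset (G × β), C1 ≠ C2 → C2.image Prod.fst ⊆ C1.image Prod.fst →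
      t * 𝔼 y : G → α → V, ind (Acd H (sp ep y) Prod.fst C1 ∧ Acd H (sp ep y) Prod.fst C2) ≤
        δ * 𝔼 y : G → α → V, ind (Acd H (sp ep y) Prod.fst C1)) :
    (𝔼 y : G → α → V, ∑ C1 : Finset (G × β), ∑ C2 : Finset (G × β), t ^ 2 *
      ind (Acd H (sp ep y) Prod.fst C1 ∧ Acd H (sp ep y) Prod.fst C2 ∧ Tch g C1 ∧ Tch g C2 ∧
        C1 ≠ C2 ∧ ∃ i ∈ C1, ∃ i2 ∈ C2, i.1 = i2.1 ∧ i.1 ≠ g) * XT H t ep g y ^ m) ≤
      B * ((ε + 2 ^ (H.edgeFinset.card * Fintype.card β) * δ) * X) := by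
  have hg : ∀ C : Finset (G × β), Tch g C → g ∈ C.image Prod.fst := fun C h =>
    let ⟨j, hj⟩ := h
    mem_image_of_mem Prod.fst hj
  have s1 := Ov_res (X := Finset (G × β) × Finset (G × β))
    (fun c => c.1.image Prod.fst ∪ c.2.image Prod.fst)
    (fun c (y : G → α → V) => t ^ 2 *
      ind (Acd H (sp ep y) Prod.fst c.1 ∧ Acd H (sp ep y) Prod.fst c.2 ∧ Tch g c.1 ∧ Tch g c.2 ∧
        c.1 ≠ c.2 ∧ ∃ i ∈ c.1, ∃ i2 ∈ c.2, i.1 = i2.1 ∧ i.1 ≠ g))
    (fun _ y => XT H t ep g y ^ m) (B := B) (fun _ _ => mul_nonneg (sq_nonneg _) (ind_nonneg _))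
    (fun c y y2 => by simp only [Ov_pw subset_union_left, Ov_pw subset_union_right])
    (fun c y h => by
      have h := Ov_of_ne h
      refine h1 _ y (mem_union_left _ (hg _ h.2.2.1)) ((card_union_le _ _).trans ?_)
      rw [two_mul]
      exact add_le_add (card_image_le.trans h.1.2.1.le) (card_image_le.trans h.2.1.2.1.le))
  simp only [Fintype.sum_prod_type] at s1
  refine s1.trans (mul_le_mul_of_nonneg_left ?_ hB)
  have s2 := Ov_res (X := Finset (G × β)) (fun c => c.image Prod.fst)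
    (fun c (y : G → α → V) => t * ind (Acd H (sp ep y) Prod.fst c ∧ Tch g c))
    (fun c y => ∑ C : Finset (G × β), t * ind (Acd H (sp ep y) Prod.fst C ∧ Tch g C ∧
      (∃ i ∈ C, i.1 ∈ c.image Prod.fst ∧ i.1 ≠ g) ∧ ∃ i ∈ C, i.1 ∉ c.image Prod.fst)) (B := ε)
    (fun _ _ => mul_nonneg ht (ind_nonneg _))
    (fun c y y2 => by simp only [Ov_pw Subset.rfl])
    (fun c y h => by
      have h := Ov_of_ne h
      exact h2 _ y (hg _ h.2) (card_image_le.trans h.1.2.1.le))
  have s3 := Ov_in ht hδ g h4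
  rw [add_mul]
  refine le_trans ?_ (add_le_add (s2.trans (mul_le_mul_of_nonneg_left h3 hε))
    (s3.trans (mul_le_mul_of_nonneg_left h3 (by positivity))))
  rw [← expect_add_distrib]
  refine ex_mono fun y => ?_
  rw [← sum_add_distrib]
  refine sum_le_sum fun C1 _ => ?_
  rw [mul_sum, ← sum_add_distrib]
  refine sum_le_sum fun C2 _ => ?_
  rw [mul_mul_mul_comm, ← sq, ← ind_and, ← mul_add]
  refine mul_le_mul_of_nonneg_left ((ind_mono ?_).trans (ind_or_le _ _)) (sq_nonneg _)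
  rintro ⟨a1, a2, t1, t2, hne, i, hi, i2, hi2, e, hig⟩
  by_cases h : C2.image Prod.fst ⊆ C1.image Prod.fst
  · exact Or.inr ⟨t1, ⟨hne, h⟩, a1, a2⟩
  · obtain ⟨_, h5, h6⟩ := not_subset.1 h
    obtain ⟨l, hl, rfl⟩ := mem_image.1 h5
    exact Or.inl ⟨⟨a1, t1⟩, a2, t2, ⟨i2, hi2, e ▸ mem_image_of_mem _ hi, e ▸ hig⟩, l, hl, h6⟩

end det

lemma Ov_delta (R : Reg H ep n M τ) {δ : ℝ} (hδ : 0 < δ) : ∀ᶠ j in atTop,
    ∀ C1 C2 : Finset (Fin (M j) × β), C1 ≠ C2 → C2.image Prod.fst ⊆ C1.image Prod.fst →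
      τ j * 𝔼 y : Fin (M j) → α → Fin (n j),
        ind (Acd H (sp ep y) Prod.fst C1 ∧ Acd H (sp ep y) Prod.fst C2) ≤
      δ * 𝔼 y : Fin (M j) → α → Fin (n j), ind (Acd H (sp ep y) Prod.fst C1) := by
  rcases and_or_right.2 ⟨R.sm, R.md⟩ with ⟨hs, B⟩ | hs
  · have h1 : Tendsto (fun j => (2 * H.edgeFinset.card : ℝ) / n j) atTop (𝓝 0) :=
      (tendsto_const_div_atTop_nhds_zero_nat _).comp R.hn
    filter_upwards [R.t01, h1.eventually (ge_mem_nhds hδ)] with j ht h2 C1 C2 hC hK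
    have h3 := Ov_simple (V := Fin (n j)) B R.ne hs hC hK
    rw [Fintype.card_fin] at h3
    refine (mul_le_of_le_one_left (expect_nonneg fun _ _ => ind_nonneg _) ht.2).trans
      (h3.trans (mul_le_mul_of_nonneg_right h2 (expect_nonneg fun _ _ => ind_nonneg _)))
  · filter_upwards [hs.eventually (ge_mem_nhds hδ)] with j h2 C1 C2 _ _
    exact mul_le_mul h2 (ex_mono fun y => ind_mono And.left)
      (expect_nonneg fun _ _ => ind_nonneg _) hδ.le

theorem ov_pair (R : Reg H ep n M τ) (m : ℕ) {ε : ℝ} (hε : 0 < ε) : ∀ᶠ j in atTop,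
    ∀ g : Fin (M j), (𝔼 y : Fin (M j) → α → Fin (n j), ∑ C1 : Finset (Fin (M j) × β),
      ∑ C2 : Finset (Fin (M j) × β), τ j ^ 2 *
        ind (Acd H (sp ep y) Prod.fst C1 ∧ Acd H (sp ep y) Prod.fst C2 ∧ Tch g C1 ∧ Tch g C2 ∧
          C1 ≠ C2 ∧ ∃ i ∈ C1, ∃ i2 ∈ C2, i.1 = i2.1 ∧ i.1 ≠ g) * XT H (τ j) ep g y ^ m) ≤ ε := by
  obtain ⟨B, hB, h1⟩ := ext_pow R m (2 * H.edgeFinset.card)
  obtain ⟨X, hX, h3⟩ := xt_pow R 1
  obtain ⟨Q, hQ⟩ : ∃ Q : ℝ, Q = 2 ^ (H.edgeFinset.card * Fintype.card β) := ⟨_, rfl⟩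
  have hQ0 : 0 < Q := by rw [hQ]; positivity
  have hd : 0 < ε / (B * ((1 + Q) * X) + 1) := by positivity
  filter_upwards [h1, h3, ext_strict R H.edgeFinset.card hd, Ov_delta R hd, R.t01]
    with j h1 h3 h2 h4 ht g
  refine (Ov_det m g ht.1 hB hd.le hd.le (h1 g) (h2 g) (by simpa only [pow_one] using h3 g)
    h4).trans ?_
  rw [← hQ]
  calc _ = B * ((1 + Q) * X) * (ε / (B * ((1 + Q) * X) + 1)) := by ring
    _ ≤ (B * ((1 + Q) * X) + 1) * (ε / (B * ((1 + Q) * X) + 1)) :=
      mul_le_mul_of_nonneg_right (le_add_of_nonneg_right zero_le_one) hd.le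
    _ = ε := mul_div_cancel₀ _ (by positivity)

end Pool.Agent.Work.MP_d4a230_co.U
end
end

-- merged part: Pool.Agent.Work.MP_d4a230_co.U.Model
section
-- merged part: Pool.Agent.Work.MP_d4a230_co.U.Cut
section
/-!
Cut norm, dense counting lemma, and the basic facts on tH and psi.
PLAN. cut_sep: the average is affine in each value g1 a and g2 b, so it is bounded by its values at
indicators (or write g1 a, g2 b as expectations Ex of indicators, P3 is not imported: a direct way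
is to choose A = {a | 0 <= average over b of f (a,b) g2 b} and its complement, then the same for
b). Call φ separated if φ (a,b) = g1 a * g2 b with g1, g2 in [0,1]; products of separated functions
and functions of one coordinate are separated. lam_cnv: ex_update twice. lam_cut: for fixed x the
integrand of cnv is separated in e since no other edge has both ends among the ends of f.
lam_cut_all: replace one edge at a time (Finset induction). psi_mk: Dart.symm is an involution and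
Function.update_comm. psi_cut: each integrand of rt is separated. tH_psi: ex_update twice,
Finset.mul_prod_erase, the average over darts of a constant. tH_cut: telescoping over the edges,
each step is a separated test (or use lam_cut_all with EB the subtype of edges and Quot.out).
-/

namespace Pool.Agent.Work.MP_d4a230_co.U

open Finset Filter Topology Pool.Agent.Work.MP_07f1b5_pr
open scoped BigOperators


variable {V : Type} [Fintype V] [DecidableEq V]

lemma le_cut (f : V × V → ℝ) (t : Finset V × Finset V) : |𝔼 e, f e * ct t e| ≤ cut f := by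
  exact le_sup' (fun t : Finset V × Finset V => |𝔼 e, f e * ct t e|) (mem_univ t)

lemma cut_le {f : V × V → ℝ} {c : ℝ} (h : ∀ t, |𝔼 e, f e * ct t e| ≤ c) : cut f ≤ c := by
  exact sup'_le _ _ fun t _ => h t

lemma cut_nonneg (f : V × V → ℝ) : 0 ≤ cut f := by
  exact (abs_nonneg _).trans (le_cut f (∅, ∅))

lemma cut_tri (f g h : V × V → ℝ) :
    cut (fun e => f e - h e) ≤ cut (fun e => f e - g e) + cut fun e => g e - h e := by
  refine cut_le fun t => le_trans ?_ ((abs_add_le _ _).trans (add_le_add (le_cut _ t) (le_cut _ t)))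
  rw [← expect_add_distrib]
  exact (congrArg _ (expect_congr rfl fun e _ => by ring)).le

lemma cut_comm (f g : V × V → ℝ) : cut (fun e => f e - g e) = cut fun e => g e - f e := by
  refine congrArg (univ.sup' univ_nonempty) (funext fun t => ?_)
  rw [← abs_neg, ← expect_neg_distrib]
  exact congrArg _ (expect_congr rfl fun e _ => by ring)

lemma cut_le_l1 (f : V × V → ℝ) : cut f ≤ 𝔼 e, |f e| := by
  refine cut_le fun t => (ex_abs _).trans (ex_mono fun e => ?_)
  rw [abs_mul, ct, ← ind_and, abs_of_nonneg (ind_nonneg _)]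
  exact mul_le_of_le_one_right (abs_nonneg _) (ind_le_one _)

lemma abs_ex_le_cut (f : V × V → ℝ) : |𝔼 e, f e| ≤ cut f := by
  simpa [ct, ind_pos] using le_cut f (univ, univ)

lemma Cut_one (h : V → ℝ) {g : V → ℝ} (hg : Unit01 g) :
    ∃ A : Finset V, |𝔼 a, h a * g a| ≤ |𝔼 a, h a * ind (a ∈ A)| := by
  classical
  rcases le_total 0 (𝔼 a, h a * g a) with h0 | h0
  · refine ⟨univ.filter fun a => 0 ≤ h a, ?_⟩
    rw [abs_of_nonneg h0]
    refine (ex_mono fun a => ?_).trans (le_abs_self _)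
    by_cases e : 0 ≤ h a
    · rw [ind_pos (by simpa using e)]
      exact mul_le_mul_of_nonneg_left (hg a).2 e
    · rw [ind_neg (by simpa using e)]
      exact mul_le_mul_of_nonpos_left (hg a).1 (not_le.1 e).le
  · refine ⟨univ.filter fun a => h a ≤ 0, ?_⟩
    rw [abs_of_nonpos h0]
    refine (neg_le_neg (ex_mono fun a => ?_)).trans (neg_le_abs _)
    by_cases e : h a ≤ 0
    · rw [ind_pos (by simpa using e)]
      exact mul_le_mul_of_nonpos_left (hg a).2 e
    · rw [ind_neg (by simpa using e)]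
      exact mul_le_mul_of_nonneg_left (hg a).1 (not_le.1 e).le

lemma Cut_e1 (f : V × V → ℝ) (g1 g2 : V → ℝ) :
    𝔼 e : V × V, f e * (g1 e.1 * g2 e.2) = 𝔼 a, (𝔼 b, f (a, b) * g2 b) * g1 a := by
  rw [ex_prod]
  refine expect_congr rfl fun a _ => ?_
  rw [expect_mul]
  exact expect_congr rfl fun b _ => by ring

lemma Cut_e2 (f : V × V → ℝ) (g1 g2 : V → ℝ) :
    𝔼 e : V × V, f e * (g1 e.1 * g2 e.2) = 𝔼 b, (𝔼 a, f (a, b) * g1 a) * g2 b := by
  rw [ex_prod, expect_comm]
  refine expect_congr rfl fun a _ => ?_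
  rw [expect_mul]
  exact expect_congr rfl fun b _ => by ring

lemma cut_sep (f : V × V → ℝ) {g1 g2 : V → ℝ} (h1 : Unit01 g1) (h2 : Unit01 g2) :
    |𝔼 e : V × V, f e * (g1 e.1 * g2 e.2)| ≤ cut f := by
  obtain ⟨A, hA⟩ := Cut_one (fun a => 𝔼 b, f (a, b) * g2 b) h1
  obtain ⟨B, hB⟩ := Cut_one (fun b => 𝔼 a, f (a, b) * ind (a ∈ A)) h2
  rw [← Cut_e1, ← Cut_e1 f fun a => ind (a ∈ A)] at hA
  rw [← Cut_e2 f (fun a => ind (a ∈ A)), ← Cut_e2 f (fun a => ind (a ∈ A)) fun b => ind (b ∈ B)]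
    at hB
  exact hA.trans (hB.trans (le_cut f (A, B)))

lemma clip_unit (x : ℝ) : 0 ≤ clip x ∧ clip x ≤ 1 := by
  exact ⟨le_max_left _ _, max_le zero_le_one (min_le_right _ _)⟩

lemma ck_unit (m : ℕ) (c : CI V m) : Unit01 (ck m c) := by
  refine Sym2.ind fun a b => ?_
  have h1 := clip_unit (bsum m ct c (a, b))
  have h2 := clip_unit (bsum m ct c (b, a))
  rw [ck, Sym2.lift_mk]
  constructor <;> linarith [h1.1, h1.2, h2.1, h2.2]

lemma cut_ck (m : ℕ) (c : CI V m) {f : V × V → ℝ} (hf : ∀ e, f e.swap = f e) :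
    cut (fun e => f e - ord (ck m c) e) ≤ cut fun e => f e - clip (bsum m ct c e) := by
  refine cut_le fun t => ?_
  have h1 := le_cut (fun e => f e - clip (bsum m ct c e)) t
  have h2 := le_cut (fun e => f e - clip (bsum m ct c e)) t.swap
  have e1 : 𝔼 e, (f e - clip (bsum m ct c e)) * ct t.swap e =
      𝔼 e : V × V, (f e - clip (bsum m ct c e.swap)) * ct t e :=
    Fintype.expect_equiv (Equiv.prodComm V V) _ _ fun e => by
      rw [Equiv.prodComm_apply, hf, Prod.swap_swap, ct, ct, mul_comm (ind _)]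
      rfl
  have e2 : 𝔼 e, (f e - ord (ck m c) e) * ct t e = ((𝔼 e, (f e - clip (bsum m ct c e)) * ct t e) +
      𝔼 e, (f e - clip (bsum m ct c e)) * ct t.swap e) / 2 := by
    rw [e1, ← expect_add_distrib, expect_div]
    refine expect_congr rfl fun ⟨a, b⟩ _ => ?_
    rw [ord, ck, Sym2.lift_mk, Prod.swap_prod_mk]
    ring
  rw [e2, abs_le] at *
  constructor <;> linarith [h1.1, h1.2, h2.1, h2.2]

lemma card_CI (m : ℕ) : Real.log (2 * Fintype.card (CI V m)) ≤
    (4 * m ^ 2 + 3) * ((Fintype.card V : ℝ) + 1) := by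
  have e : (2 * Fintype.card (CI V m) : ℝ) =
      2 ^ (1 + (1 + Fintype.card V + Fintype.card V) * (2 * m ^ 2 + 1)) := by
    simp only [CI, Fintype.card_fun, Fintype.card_prod, Fintype.card_bool, Fintype.card_finset,
      Fintype.card_fin]
    push_cast
    rw [pow_add 2 1, pow_mul 2, pow_add 2, pow_add 2, pow_one, mul_assoc]
  rw [e, Real.log_pow]
  refine (mul_le_of_le_one_right (Nat.cast_nonneg _)
    (Real.log_two_lt_d9.le.trans (by norm_num))).trans ?_
  push_cast
  nlinarith [Nat.cast_nonneg (α := ℝ) (Fintype.card V), sq_nonneg (m : ℝ)]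

lemma Cut_irr (f g : V × V → ℝ) : irr f ≤ irr g + (𝔼 a, |𝔼 b, (f (a, b) - g (a, b))|) +
    |𝔼 e, (f e - g e)| := by
  refine le_trans (ex_mono fun a => ?_) (le_trans (expect_add_distrib _ _ _).le
    (add_le_add (expect_add_distrib _ _ _).le (ex_le (abs_nonneg _) fun _ => le_rfl)))
  rw [expect_sub_distrib, expect_sub_distrib]
  refine le_trans (le_of_eq (congrArg _ (by ring))) ((abs_sub _ _).trans
    (add_le_add (abs_add_le _ _) le_rfl))

lemma irr_le (f g : V × V → ℝ) : irr f ≤ irr g + 4 * cut fun e => f e - g e := by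
  have h1 := Cut_irr f g
  have h2 := abs_ex_le_cut fun e => f e - g e
  have h3 : ∀ q : V → Prop, |𝔼 a, (𝔼 b, (f (a, b) - g (a, b))) * ind (q a)| ≤
      cut fun e => f e - g e := fun q => by
    have := cut_sep (fun e => f e - g e) (g1 := fun a => ind (q a)) (g2 := fun _ => 1)
      (fun _ => ⟨ind_nonneg _, ind_le_one _⟩) fun _ => ⟨zero_le_one, le_rfl⟩
    rw [Cut_e1 _ (fun a => ind (q a)) fun _ => 1] at this
    simpa only [mul_one] using this
  have h4 := abs_le.1 (h3 fun a => 0 ≤ 𝔼 b, (f (a, b) - g (a, b)))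
  have h5 := abs_le.1 (h3 fun a => ¬ 0 ≤ 𝔼 b, (f (a, b) - g (a, b)))
  have h6 : 𝔼 a, |𝔼 b, (f (a, b) - g (a, b))| =
      (𝔼 a, (𝔼 b, (f (a, b) - g (a, b))) * ind (0 ≤ 𝔼 b, (f (a, b) - g (a, b)))) -
      𝔼 a, (𝔼 b, (f (a, b) - g (a, b))) * ind (¬ 0 ≤ 𝔼 b, (f (a, b) - g (a, b))) := by
    rw [← expect_sub_distrib]
    refine expect_congr rfl fun a _ => ?_
    by_cases e : 0 ≤ 𝔼 b, (f (a, b) - g (a, b))
    · rw [ind_pos e, ind_neg (not_not.2 e), abs_of_nonneg e]
      ring
    · rw [ind_neg e, ind_pos e, abs_of_neg (not_le.1 e)]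
      ring
  linarith [h4.2, h5.1, cut_nonneg fun e => f e - g e]

lemma irr_le_l1 (f g : V × V → ℝ) : irr f ≤ irr g + 2 * 𝔼 e, |f e - g e| := by
  have h1 := Cut_irr f g
  have h2 := ex_abs fun e => f e - g e
  have h3 : 𝔼 a, |𝔼 b, (f (a, b) - g (a, b))| ≤ 𝔼 e, |f e - g e| :=
    (ex_mono fun a => ex_abs _).trans_eq (ex_prod fun e => |f e - g e|).symm
  linarith

/-- Separated tests. -/
def Cut_Sep (φ : V × V → ℝ) : Prop :=
  ∃ g1 g2 : V → ℝ, Unit01 g1 ∧ Unit01 g2 ∧ ∀ e, φ e = g1 e.1 * g2 e.2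

lemma Cut_unit {X : Type} : Unit01 fun _ : X => (1 : ℝ) := fun _ => ⟨zero_le_one, le_rfl⟩

lemma Cut_mul {φ ψ : V × V → ℝ} (h : Cut_Sep φ) (h' : Cut_Sep ψ) : Cut_Sep fun e => φ e * ψ e := by
  obtain ⟨a, b, h1, h2, h3⟩ := h
  obtain ⟨c, d, h4, h5, h6⟩ := h'
  refine ⟨fun x => a x * c x, fun x => b x * d x,
    fun x => ⟨mul_nonneg (h1 x).1 (h4 x).1, mul_le_one₀ (h1 x).2 (h4 x).1 (h4 x).2⟩,
    fun x => ⟨mul_nonneg (h2 x).1 (h5 x).1, mul_le_one₀ (h2 x).2 (h5 x).1 (h5 x).2⟩, fun e => ?_⟩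
  exact (congrArg₂ _ (h3 e) (h6 e)).trans (mul_mul_mul_comm _ _ _ _)

lemma Cut_prod {J : Type} (s : Finset J) {φ : J → V × V → ℝ} (h : ∀ j ∈ s, Cut_Sep (φ j)) :
    Cut_Sep fun e => ∏ j ∈ s, φ j e := by
  induction s using Finset.cons_induction with
  | empty => exact ⟨_, _, Cut_unit, Cut_unit, fun e => by simp⟩
  | cons a s ha ih =>
    simpa only [prod_cons] using
      Cut_mul (h a (mem_cons_self _ _)) (ih fun j hj => h j (mem_cons_of_mem hj))

lemma Cut_or {φ : V × V → ℝ} (h : Unit01 φ)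
    (h' : (∀ a b, φ (a, b) = φ (a, a)) ∨ ∀ a b, φ (a, b) = φ (b, b)) : Cut_Sep φ := by
  rcases h' with h' | h'
  · exact ⟨fun a => φ (a, a), _, fun _ => h _, Cut_unit, fun e => (h' _ _).trans (mul_one _).symm⟩
  · exact ⟨_, fun a => φ (a, a), Cut_unit, fun _ => h _, fun e => (h' _ _).trans (one_mul _).symm⟩

lemma Cut_avg {X : Type} [Fintype X] {f : V × V → ℝ} {Φ : X → V × V → ℝ}
    (h : ∀ x, |𝔼 e, f e * Φ x e| ≤ cut f) : |𝔼 e, f e * 𝔼 x, Φ x e| ≤ cut f := by
  simp only [mul_expect]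
  rw [expect_comm]
  exact (ex_abs _).trans (ex_le (cut_nonneg f) h)

lemma Cut_test (f : V × V → ℝ) {φ : V × V → ℝ} (h : Cut_Sep φ) : |𝔼 e, f e * φ e| ≤ cut f := by
  obtain ⟨a, b, h1, h2, h3⟩ := h
  simpa only [h3] using cut_sep f h1 h2

section upd

variable {ι : Type} [DecidableEq ι]

lemma Cut_upd [Fintype ι] (i j : ι) (Φ : (ι → V) → ℝ) : 𝔼 x, Φ x =
    𝔼 e : V × V, 𝔼 x, Φ (Function.update (Function.update x i e.1) j e.2) := by
  rw [ex_update j, ex_update i, expect_comm, ex_prod]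
  exact expect_congr rfl fun a _ => expect_comm _ _ _

lemma Cut_edge {w : V × V → ℝ} (hw : Unit01 w) (x : ι → V) {i j p q : ι}
    (h : (p ≠ i ∧ p ≠ j) ∨ (q ≠ i ∧ q ≠ j)) :
    Cut_Sep fun e => w (Function.update (Function.update x i e.1) j e.2 p,
      Function.update (Function.update x i e.1) j e.2 q) := by
  refine Cut_or (fun _ => hw _) ?_
  rcases h with h | h
  · simp only [Function.update_of_ne h.1, Function.update_of_ne h.2]
    by_cases e : q = j
    · exact Or.inr fun a b => by simp only [e, Function.update_self]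
    · exact Or.inl fun a b => by simp only [Function.update_of_ne e]
  · simp only [Function.update_of_ne h.1, Function.update_of_ne h.2]
    by_cases e : p = j
    · exact Or.inr fun a b => by simp only [e, Function.update_self]
    · exact Or.inl fun a b => by simp only [Function.update_of_ne e]

lemma Cut_ne {i j p q : ι} (h : p ≠ q) (h' : s(p, q) ≠ s(i, j)) :
    (p ≠ i ∧ p ≠ j) ∨ (q ≠ i ∧ q ≠ j) := by
  rw [Ne, Sym2.eq_iff] at h'
  grind

end upd

section structures

variable {VB EB : Type} [Fintype VB] [DecidableEq VB] [Fintype EB] [DecidableEq EB]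
  (eb : EB → VB × VB)

lemma lam_cnv (f : EB) (hne : (eb f).1 ≠ (eb f).2) (D : (VB → V) → ℝ) (a : EB → V × V → ℝ) :
    Lam eb D a = 𝔼 e, a f e * cnv eb f D a e := by
  rw [Lam, Cut_upd (eb f).1 (eb f).2]
  refine expect_congr rfl fun e _ => ?_
  rw [cnv, mul_expect]
  refine expect_congr rfl fun x _ => ?_
  have h : exf eb (upd eb f x e) f = e := by
    simp only [exf, upd, Function.update_self, Function.update_of_ne hne]
  rw [← mul_prod_erase _ _ (mem_univ f), mul_left_comm]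
  exact congrArg (fun y => a f y * _) h

lemma cnv_update (f : EB) (D : (VB → V) → ℝ) (a : EB → V × V → ℝ) (u : V × V → ℝ) :
    cnv eb f D (Function.update a f u) = cnv eb f D a := by
  refine funext fun e => expect_congr rfl fun x _ => congrArg _ (prod_congr rfl fun g hg => ?_)
  rw [Function.update_of_ne (ne_of_mem_erase hg)]

lemma Cut_all (hne : ∀ f, (eb f).1 ≠ (eb f).2)
    (hs : ∀ f g, g ≠ f → ((eb g).1 ≠ (eb f).1 ∧ (eb g).1 ≠ (eb f).2) ∨
      ((eb g).2 ≠ (eb f).1 ∧ (eb g).2 ≠ (eb f).2)) {D : (VB → V) → ℝ} (hD : RootFn eb D)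
    {a a2 : EB → V × V → ℝ} (ha : ∀ f, Unit01 (a f)) (ha2 : ∀ f, Unit01 (a2 f)) :
    |Lam eb D a - Lam eb D a2| ≤ ∑ f, cut fun e => a f e - a2 f e := by
  have step : ∀ (b : EB → V × V → ℝ) (f : EB) (u : V × V → ℝ), (∀ f, Unit01 (b f)) →
      |Lam eb D b - Lam eb D (Function.update b f u)| ≤ cut fun e => b f e - u e := by
    intro b f u hb
    rw [lam_cnv eb f (hne f), lam_cnv eb f (hne f), cnv_update, Function.update_self,
      ← expect_sub_distrib]
    simp only [← sub_mul]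
    refine Cut_avg fun x => Cut_test _ (Cut_mul (Cut_or (fun _ => hD.1 _) ?_)
      (Cut_prod _ fun g hg => Cut_edge (hb g) x (hs f g (ne_of_mem_erase hg))))
    rcases hD.2 f with h | h
    · exact Or.inr fun a b => by simp only [upd, Function.update_comm (hne f), h]
    · exact Or.inl fun a b => by simp only [upd, h]
  have key : ∀ S : Finset EB, |Lam eb D a - Lam eb D (S.piecewise a2 a)| ≤
      ∑ f ∈ S, cut fun e => a f e - a2 f e := fun S => by
    induction S using Finset.induction_on with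
    | empty => simp
    | insert f S hf ih =>
      have h := step (S.piecewise a2 a) f (a2 f) fun g => by
        unfold Finset.piecewise
        split_ifs
        exacts [ha2 g, ha g]
      rw [piecewise_eq_of_notMem _ _ _ hf] at h
      rw [piecewise_insert, sum_insert hf, add_comm]
      exact (abs_sub_le _ _ _).trans (add_le_add ih h)
  simpa only [piecewise_univ] using key univ

lemma lam_cut_all {v k : ℕ} (hv : 3 ≤ v) (hDC : DC eb v k) {D : (VB → V) → ℝ} (hD : RootFn eb D)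
    {a a2 : EB → V × V → ℝ} (ha : ∀ f, Unit01 (a f)) (ha2 : ∀ f, Unit01 (a2 f)) :
    |Lam eb D a - Lam eb D a2| ≤ ∑ f, cut fun e => a f e - a2 f e := by
  refine Cut_all eb hDC.1 (fun f g hg => ?_) hD ha ha2
  have h := hDC.2 f {g} (by simpa using hg.symm) (singleton_nonempty g)
  obtain ⟨u, hu⟩ := card_pos.1 (Nat.pos_of_mul_pos_left ((Nat.zero_le _).trans_lt h))
  rw [Finset.mem_sdiff, vset, vset, singleton_biUnion, singleton_biUnion, Finset.mem_insert,
    Finset.mem_insert, Finset.mem_singleton, Finset.mem_singleton, not_or] at hu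
  obtain ⟨rfl | rfl, h2⟩ := hu
  exacts [Or.inl h2, Or.inr h2]

end structures

variable {W : Type} [Fintype W] [DecidableEq W] (H : SimpleGraph W) [DecidableRel H.Adj]

lemma psi_mk (w : Sym2 V → ℝ) (a b : V) : psi H w s(a, b) = 𝔼 d : H.Dart, rt H w d a b := by
  have h : 𝔼 d : H.Dart, rt H w d b a = 𝔼 d : H.Dart, rt H w d a b :=
    Fintype.expect_bijective _ SimpleGraph.Dart.symm_involutive.bijective _ _ fun d => by
      rw [rt, rt, d.edge_symm]
      exact expect_congr rfl fun x _ => by rw [Function.update_comm d.fst_ne_snd]; rfl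
  rw [psi, Sym2.lift_mk]
  exact (congrArg (fun y => (_ + y) / 2) h).trans (add_self_div_two _)

lemma rt_unit {w : Sym2 V → ℝ} (hw : Unit01 w) (d : H.Dart) (a b : V) :
    0 ≤ rt H w d a b ∧ rt H w d a b ≤ 1 := by
  exact ⟨expect_nonneg fun x _ => prod_nonneg fun f _ => (hw _).1,
    ex_le zero_le_one fun x => prod_le_one (fun f _ => (hw _).1) fun f _ => (hw _).2⟩

lemma psi_nonneg {w : Sym2 V → ℝ} (hw : ∀ e, 0 ≤ w e) (p : Sym2 V) : 0 ≤ psi H w p := by
  induction p using Sym2.ind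
  rw [psi_mk]
  exact expect_nonneg fun d _ => expect_nonneg fun x _ => prod_nonneg fun f _ => hw _

lemma psi_unit {w : Sym2 V → ℝ} (hw : Unit01 w) : Unit01 (psi H w) := by
  refine Sym2.ind fun a b => ⟨psi_nonneg H (fun e => (hw e).1) _, ?_⟩
  rw [psi_mk]
  exact ex_le zero_le_one fun d => (rt_unit H hw d a b).2

lemma tH_unit {w : Sym2 V → ℝ} (hw : Unit01 w) : 0 ≤ tH H w ∧ tH H w ≤ 1 := by
  exact ⟨expect_nonneg fun x _ => prod_nonneg fun f _ => (hw _).1,
    ex_le zero_le_one fun x => prod_le_one (fun f _ => (hw _).1) fun f _ => (hw _).2⟩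

lemma psi_cut {w : Sym2 V → ℝ} (hw : Unit01 w) (f : V × V → ℝ) :
    |𝔼 e, f e * ord (psi H w) e| ≤ cut f := by
  simp only [ord, psi_mk, rt]
  refine Cut_avg fun d => Cut_avg fun x => Cut_test _ (Cut_prod _ fun g hg => ?_)
  induction g using Sym2.ind with
  | h p q =>
    exact Cut_edge (w := ord w) (fun _ => hw _) x (Cut_ne
      (H.ne_of_adj (SimpleGraph.mem_edgeFinset.1 (mem_of_mem_erase hg))) (ne_of_mem_erase hg))

/-- Pairing with psi replaces one edge. -/
lemma ord_psi (u w : Sym2 V → ℝ) : 𝔼 e, ord u e * ord (psi H w) e =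
    𝔼 d : H.Dart, 𝔼 x : W → V, u (d.edge.map x) * ∏ f ∈ H.edgeFinset.erase d.edge, w (f.map x) := by
  simp only [ord, psi_mk, rt, mul_expect]
  rw [expect_comm]
  refine expect_congr rfl fun d _ => ?_
  rw [Cut_upd d.fst d.snd]
  refine expect_congr rfl fun e _ => expect_congr rfl fun x _ => congrArg (fun y => u y * _) ?_
  rw [show d.edge = s(d.fst, d.snd) from rfl, Sym2.map_mk, Function.update_self,
    Function.update_of_ne d.fst_ne_snd, Function.update_self]

lemma ex_dart (g : Sym2 W → ℝ) :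
    𝔼 d : H.Dart, g d.edge = (∑ f ∈ H.edgeFinset, g f) / H.edgeFinset.card := by
  rw [expect_eq_sum_div_card, card_univ, SimpleGraph.dart_card_eq_twice_card_edges,
    ← sum_fiberwise_of_maps_to (t := H.edgeFinset) (g := SimpleGraph.Dart.edge)
      fun d _ => SimpleGraph.mem_edgeFinset.2 d.edge_mem,
    ← mul_div_mul_left (∑ f ∈ H.edgeFinset, g f) _ (two_ne_zero (α := ℝ)), mul_sum, Nat.cast_mul,
    Nat.cast_ofNat]
  refine congrArg (· / _) (sum_congr rfl fun f hf => ?_)
  rw [sum_congr rfl fun d hd => congrArg g (mem_filter.1 hd).2, sum_const,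
    H.dart_edge_fiber_card f (SimpleGraph.mem_edgeFinset.1 hf), nsmul_eq_mul, Nat.cast_ofNat]

lemma tH_psi (hk : 0 < H.edgeFinset.card) (w : Sym2 V → ℝ) :
    𝔼 e, ord w e * ord (psi H w) e = tH H w := by
  have h := ex_dart H fun _ => tH H w
  rw [sum_const, nsmul_eq_mul, mul_div_cancel_left₀ _ (Nat.cast_ne_zero.2 hk.ne')] at h
  rw [ord_psi, ← h]
  exact expect_congr rfl fun d _ => expect_congr rfl fun x _ =>
    mul_prod_erase _ (fun f => w (f.map x)) (SimpleGraph.mem_edgeFinset.2 d.edge_mem)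

lemma tH_cut {w u : Sym2 V → ℝ} (hw : Unit01 w) (hu : Unit01 u) :
    |tH H w - tH H u| ≤ H.edgeFinset.card * cut fun e => ord w e - ord u e := by
  have e0 : ∀ f : Sym2 W, s(f.out.1, f.out.2) = f := fun f => f.out_eq
  have e1 : ∀ f : H.edgeFinset, f.1.out.1 ≠ f.1.out.2 := fun f =>
    H.ne_of_adj (SimpleGraph.mem_edgeFinset.1 ((e0 f.1).symm ▸ f.2))
  have e2 : ∀ w : Sym2 V → ℝ, tH H w =
      Lam (fun f : H.edgeFinset => f.1.out) (fun _ => 1) fun _ => ord w := fun w =>
    expect_congr rfl fun x _ => by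
      rw [one_mul, ← prod_coe_sort]
      exact prod_congr rfl fun f _ => congrArg (fun y => w (Sym2.map x y)) (e0 f.1).symm
  have h := Cut_all (fun f : H.edgeFinset => f.1.out) e1 (fun f g hg => Cut_ne (e1 g) (by
    rw [e0, e0]
    exact fun e => hg (Subtype.ext e))) (D := fun _ => 1) ⟨Cut_unit, fun _ => Or.inl fun _ _ => rfl⟩
    (a := fun _ => ord w) (a2 := fun _ => ord u) (fun _ _ => hw _) fun _ _ => hu _
  rwa [← e2, ← e2, sum_const, card_univ, Fintype.card_coe, nsmul_eq_mul] at h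

end Pool.Agent.Work.MP_d4a230_co.U
end

-- merged part: Pool.Agent.Work.MP_d4a230_co.U.Lay
section
/-!
Layers.
PLAN. rainbow: expand the product of den (Finset.prod_univ_sum), ind (ι f ∈ T f ∩ lay) splits, and
the average over l of prod_f ind (l (g f) = col f) is Q^(-card EB) ind (g injective) (ex_comp_inj and
ex_prod_coord if g is injective; if g f = g f2 with f ≠ f2 the product vanishes). cnt_one: for ι with
distinct components the average over y of the product of hits is (2/n^2)^card EB (ex_prod_indep,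
ex_comp, ex_hit); at most N^card EB maps ι. lay_close: maxineq over l with Ω the cut tests and
c = Q / M (one component has b variables, each of mass 1/N: sum_hit); the mean over l of
Q den (R ∩ lay) is den R. pseudo: maxineq over y with c / M; mean by ex_hit. lay_card: lay_close for
R = univ, abs_ex_le_cut, ex_den (or maxineq with Ω = Unit).
-/

namespace Pool.Agent.Work.MP_d4a230_co.U

open Finset Filter Topology Pool.Agent.Work.MP_07f1b5_pr
open scoped BigOperators


variable {V G α β L : Type} [Fintype V] [DecidableEq V] [Nonempty V] [Fintype G] [DecidableEq G]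
  [Fintype α] [DecidableEq α] [Fintype β] [DecidableEq β] [Fintype L] [DecidableEq L] [Nonempty L]
  {VB EB : Type} [Fintype VB] [DecidableEq VB] [Fintype EB] [DecidableEq EB] (eb : EB → VB × VB)

lemma Lay_sum {I : Type} [Fintype I] (R : Finset I) (g : I → ℝ) :
    ∑ i ∈ R, g i = ∑ i, ind (i ∈ R) * g i := by
  classical
  rw [← univ_inter R, ← sum_ite_mem, univ_inter]
  refine sum_congr rfl fun i _ => ?_
  split_ifs with h
  · rw [ind_pos h, one_mul]
  · rw [ind_neg h, zero_mul]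

lemma Lay_one (c : L) : (Fintype.card L : ℝ) * 𝔼 a, ind (a = c) = 1 := by
  have := P1_sum_mem ({c} : Finset L)
  simp only [mem_singleton, card_singleton, Nat.cast_one] at this
  rw [Fintype.expect_eq_sum_div_card, this, mul_one_div_cancel (by positivity)]

lemma Lay_mem (R : Finset (G × β)) (l : G → L) (c : L) (i : G × β) :
    ind (i ∈ R ∩ lay β l c) = ind (i ∈ R) * ind (l i.1 = c) := by
  rw [← ind_and]
  exact ind_congr (by simp [lay])

lemma Lay_col (g : EB → G) (col : EB → L) (hc : Function.Injective col) :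
    𝔼 l : G → L, ∏ f, (Fintype.card L : ℝ) * ind (l (g f) = col f) =
      ind (Function.Injective g) := by
  by_cases hg : Function.Injective g
  · rw [ind_pos hg, ex_comp_inj g hg fun z => ∏ f, (Fintype.card L : ℝ) * ind (z f = col f),
      ex_prod_coord fun f a => (Fintype.card L : ℝ) * ind (a = col f)]
    exact prod_eq_one fun f _ => by rw [← mul_expect, Lay_one]
  · rw [ind_neg hg]
    refine expect_eq_zero fun l _ => by_contra fun h => hg fun f f2 e => hc ?_
    have h1 : ∀ f, l (g f) = col f := fun f => by_contra fun h2 =>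
      h (prod_eq_zero (mem_univ f) (by rw [ind_neg h2, mul_zero]))
    rw [← h1, ← h1, e]

lemma Lay_max [Nonempty G] [Nonempty β] {κ Ω : Type} [Fintype κ] [Nonempty κ] [Fintype Ω]
    (F : Ω → G × β → κ → ℝ) {c δ : ℝ} (hc : 0 < c) (hδ : 0 < δ)
    (hF : ∀ ω i a, 0 ≤ F ω i a ∧ F ω i a ≤ c)
    (h : Real.log (2 * Fintype.card Ω) ≤ δ ^ 2 * Fintype.card G) :
    ∃ err : (G → κ) → ℝ, (∀ y, 0 ≤ err y) ∧ 𝔼 y, err y ≤ 2 * δ * c ∧ ∀ y ω,
      |(∑ i, F ω i (y i.1)) / Fintype.card (G × β) -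
        (∑ i, 𝔼 a, F ω i a) / Fintype.card (G × β)| ≤ err y := by
  have hG : (0 : ℝ) < Fintype.card G := by positivity
  have hb : (0 : ℝ) < Fintype.card β := by positivity
  obtain ⟨err, h1, h2, h3⟩ := maxineq (fun ω (y : G → κ) => (∑ i, F ω i (y i.1)) /
    Fintype.card (G × β)) (c := c / Fintype.card G) (by positivity) hδ (fun ω y g a => by
      rw [← sub_div, abs_div, Nat.abs_cast, Fintype.card_prod, Nat.cast_mul, ← sum_sub_distrib,
        Fintype.sum_prod_type, sum_eq_single g (fun g2 _ e => by simp [Function.update_of_ne e])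
        (by simp), div_le_div_iff₀ (by positivity) hG]
      have h4 := (abs_sum_le_sum_abs _ _).trans (sum_le_card_nsmul univ
        (fun j => |F ω (g, j) (Function.update y g a g) - F ω (g, j) (y g)|) c fun j _ => by
          have a1 := hF ω (g, j) (Function.update y g a g)
          have a2 := hF ω (g, j) (y g)
          exact abs_sub_le_iff.2 ⟨by linarith, by linarith⟩)
      rw [card_univ, nsmul_eq_mul] at h4
      refine (mul_le_mul_of_nonneg_right h4 hG.le).trans_eq (by ring)) h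
  refine ⟨err, h1, h2.trans_eq (by field_simp), fun y ω => ?_⟩
  have h5 := h3 y ω
  rw [← expect_div, expect_sum_comm] at h5
  refine le_of_eq_of_le ?_ h5
  congr 3
  refine sum_congr rfl fun i _ => ?_
  rw [ex_update i.1]
  simp only [Function.update_self, Fintype.expect_const]

/-- Mass of a test at a pair. -/
noncomputable def Lay_tm (ξ : V × V → ℝ) (p : Sym2 V) : ℝ := (∑ e, hit p e * ξ e) / 2

lemma Lay_tm_le {ξ : V × V → ℝ} {c : ℝ} (h : ∀ e, 0 ≤ ξ e ∧ ξ e ≤ c) (p : Sym2 V) :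
    0 ≤ Lay_tm ξ p ∧ Lay_tm ξ p ≤ c := by
  refine ⟨div_nonneg (sum_nonneg fun e _ => mul_nonneg (hit_nonneg _ _) (h e).1) zero_le_two, ?_⟩
  rw [Lay_tm, div_le_iff₀' two_pos, ← sum_hit p, sum_mul]
  exact sum_le_sum fun e _ => mul_le_mul_of_nonneg_left (h e).2 (hit_nonneg _ _)

lemma Lay_test (q : G × β → Sym2 V) (R : Finset (G × β)) (ξ : V × V → ℝ) :
    𝔼 e, den q R e * ξ e = (∑ i, ind (i ∈ R) * Lay_tm ξ (q i)) / Fintype.card (G × β) := by
  have hV : (Fintype.card V : ℝ) ≠ 0 := by positivity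
  rw [← Lay_sum, Fintype.expect_eq_sum_div_card]
  unfold den Lay_tm
  simp only [mul_assoc, sum_mul]
  rw [← mul_sum, sum_comm, ← sum_div, Fintype.card_prod V, Nat.cast_mul]
  generalize (Fintype.card (G × β) : ℝ) = N
  rcases eq_or_ne N 0 with hI | hI
  · simp [hI]
  · field_simp

lemma Lay_mul {a b c : ℝ} (ha : 0 ≤ a ∧ a ≤ 1) (hb : 0 ≤ b ∧ b ≤ c) : 0 ≤ a * b ∧ a * b ≤ c :=
  ⟨mul_nonneg ha.1 hb.1, (mul_le_of_le_one_left hb.1 ha.2).trans hb.2⟩

lemma Lay_ind (q : Prop) : 0 ≤ ind q ∧ ind q ≤ 1 := ⟨ind_nonneg q, ind_le_one q⟩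

theorem rainbow (q : G × β → Sym2 V) (D : (VB → V) → ℝ) (T : EB → Finset (G × β)) (col : EB → L)
    (hc : Function.Injective col) :
    𝔼 l : G → L, Lam eb D (fun f e => Fintype.card L * den q (T f ∩ lay β l (col f)) e) =
      Cnt eb q D T := by
  unfold Lam Cnt
  rw [expect_comm, mul_expect]
  refine expect_congr rfl fun x _ => ?_
  rw [← mul_expect, mul_left_comm]
  congr 1
  simp only [den, Lay_sum (T _ ∩ _), Lay_mem, mul_left_comm (Fintype.card L : ℝ), prod_mul_distrib,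
    prod_const, card_univ, ← mul_expect]
  congr 1
  simp only [← Lay_col _ col hc, expect_mul]
  rw [← expect_sum_comm, mul_expect]
  refine expect_congr rfl fun l _ => ?_
  rw [prod_univ_sum, Fintype.piFinset_univ, mul_sum]
  refine sum_congr rfl fun ι _ => ?_
  simp only [prod_mul_distrib, prod_const, card_univ]
  ring

theorem cnt_one (ep : β → α × α) (hne : ∀ j, (ep j).1 ≠ (ep j).2) {D : (VB → V) → ℝ}
    (hD : ∀ x, 0 ≤ D x) :
    𝔼 y : G → α → V, Cnt eb (sp ep y) D (fun _ => univ) ≤ 𝔼 x, D x := by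
  unfold Cnt
  have hV : (Fintype.card V : ℝ) ≠ 0 := by positivity
  rw [← mul_expect, expect_comm, mul_expect]
  refine ex_mono fun x => ?_
  rw [← mul_expect, mul_left_comm, expect_sum_comm]
  refine mul_le_of_le_one_right (hD x) ?_
  have h1 : ∀ ι : EB → G × β, 𝔼 y : G → α → V, ind (Function.Injective fun f => (ι f).1) *
      ∏ f, ind (ι f ∈ (univ : Finset (G × β))) * hit (sp ep y (ι f)) (exf eb x f) ≤
      (2 / (Fintype.card V : ℝ) ^ 2) ^ Fintype.card EB := fun ι => by
    by_cases hg : Function.Injective fun f => (ι f).1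
    · simp only [ind_pos hg, ind_pos (mem_univ _), one_mul, sp]
      rw [ex_comp_inj _ hg fun z => ∏ f, hit (sl ep (z f) (ι f).2) (exf eb x f),
        ex_prod_coord fun f w => hit (sl ep w (ι f).2) (exf eb x f)]
      simp only [sl, ex_hit (hne _), prod_const, card_univ, le_refl]
    · simp only [ind_neg hg, zero_mul, Fintype.expect_const]
      positivity
  refine (mul_le_mul_of_nonneg_left (sum_le_card_nsmul _ _ _ fun ι _ => h1 ι)
    (by positivity)).trans ?_
  rw [card_univ, Fintype.card_fun, nsmul_eq_mul, Nat.cast_pow, ← mul_pow, ← mul_pow]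
  refine pow_le_one₀ (by positivity) ?_
  generalize (Fintype.card (G × β) : ℝ) = N
  rcases eq_or_ne N 0 with hI | hI
  · simp [hI]
  · exact le_of_eq (by field_simp)

theorem cnt_mono (q : G × β → Sym2 V) {D D2 : (VB → V) → ℝ} (h0 : ∀ x, 0 ≤ D x)
    (h : ∀ x, D x ≤ D2 x) {T T2 : EB → Finset (G × β)} (hT : ∀ f, T f ⊆ T2 f) :
    0 ≤ Cnt eb q D T ∧ Cnt eb q D T ≤ Cnt eb q D2 T2 := by
  have h1 : ∀ (T : EB → Finset (G × β)) (x : VB → V) (ι : EB → G × β),
      0 ≤ ∏ f, ind (ι f ∈ T f) * hit (q (ι f)) (exf eb x f) :=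
    fun T x ι => prod_nonneg fun f _ => mul_nonneg (ind_nonneg _) (hit_nonneg _ _)
  refine ⟨mul_nonneg (by positivity) (expect_nonneg fun x _ => mul_nonneg (h0 x)
    (sum_nonneg fun ι _ => mul_nonneg (ind_nonneg _) (h1 _ _ _))),
    mul_le_mul_of_nonneg_left (ex_mono fun x => mul_le_mul (h x) (sum_le_sum fun ι _ =>
      mul_le_mul_of_nonneg_left (prod_le_prod (fun f _ => mul_nonneg (ind_nonneg _) (hit_nonneg _ _))
        fun f _ => mul_le_mul_of_nonneg_right (ind_mono fun hf => hT f hf) (hit_nonneg _ _))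
        (ind_nonneg _))
      (sum_nonneg fun ι _ => mul_nonneg (ind_nonneg _) (h1 _ _ _)) ((h0 x).trans (h x)))
      (by positivity)⟩

theorem cnt_add (q : G × β → Sym2 V) (D D2 : (VB → V) → ℝ) (T : EB → Finset (G × β)) :
    Cnt eb q (fun x => D x + D2 x) T = Cnt eb q D T + Cnt eb q D2 T := by
  unfold Cnt
  simp only [add_mul, expect_add_distrib, mul_add]

theorem lay_close [Nonempty G] [Nonempty β] (q : G × β → Sym2 V) (R : Finset (G × β)) (c : L)
    {δ : ℝ} (hδ : 0 < δ) (h : 2 * ((Fintype.card V : ℝ) + 1) ≤ δ ^ 2 * Fintype.card G) :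
    𝔼 l : G → L, cut (fun e => Fintype.card L * den q (R ∩ lay β l c) e - den q R e) ≤
      2 * δ * Fintype.card L := by
  have hL : (0 : ℝ) < Fintype.card L := by positivity
  obtain ⟨err, -, h2, h3⟩ := Lay_max (fun (t : Finset V × Finset V) (i : G × β) (a : L) =>
    ind (i ∈ R) * Lay_tm (ct t) (q i) * (Fintype.card L * ind (a = c))) hL hδ
    (fun t i a => Lay_mul (Lay_mul (Lay_ind _) (Lay_tm_le (fun e => Lay_mul (Lay_ind _) (Lay_ind _)) _))
      (by rw [mul_comm]; exact Lay_mul (Lay_ind _) ⟨hL.le, le_rfl⟩))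
    (le_trans (by
      rw [Fintype.card_prod, Fintype.card_finset, Nat.cast_mul, Nat.cast_pow, Nat.cast_ofNat,
        ← pow_add, ← pow_succ', Real.log_pow]
      push_cast
      have := Real.log_two_lt_d9
      have h0 : (0 : ℝ) ≤ Fintype.card V := by positivity
      nlinarith) h)
  refine (ex_mono fun l => cut_le fun t => le_of_eq_of_le ?_ (h3 l t)).trans h2
  simp only [sub_mul, expect_sub_distrib, mul_assoc, ← mul_expect, Lay_test, Lay_one, Lay_mem,
    mul_one]
  rw [mul_div_assoc', mul_sum]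
  congr 3
  exact sum_congr rfl fun i _ => by ring

theorem lay_card [Nonempty G] [Nonempty β] (c : L) {δ : ℝ} (hδ : 0 < δ)
    (h : 1 ≤ δ ^ 2 * Fintype.card G) :
    𝔼 l : G → L, |(Fintype.card L : ℝ) * ((lay β l c).card / Fintype.card (G × β)) - 1| ≤
      2 * δ * Fintype.card L := by
  have hL : (0 : ℝ) < Fintype.card L := by positivity
  have hN : (Fintype.card (G × β) : ℝ) ≠ 0 := by positivity
  obtain ⟨err, -, h2, h3⟩ := Lay_max (fun (_ : Unit) (_ : G × β) (a : L) =>
    Fintype.card L * ind (a = c)) hL hδ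
    (fun t i a => by rw [mul_comm]; exact Lay_mul (Lay_ind _) ⟨hL.le, le_rfl⟩)
    (le_trans (by
      have := Real.log_two_lt_d9
      rw [Fintype.card_unit, Nat.cast_one, mul_one]
      linarith) h)
  refine (ex_mono fun l => le_of_eq_of_le ?_ (h3 l ())).trans h2
  simp only [← mul_expect, Lay_one, sum_const, card_univ, nsmul_eq_mul, mul_one, div_self hN,
    ← mul_sum, mul_div_assoc, ← P1_sum_mem]
  simp [lay]

theorem pseudo [Nonempty G] [Nonempty β] (ep : β → α × α) (hne : ∀ j, (ep j).1 ≠ (ep j).2)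
    (R : Finset (G × β)) {Ω : Type} [Fintype Ω] (ξ : Ω → V × V → ℝ) {c δ : ℝ} (hc : 0 < c)
    (hδ : 0 < δ) (hξ : ∀ ω e, 0 ≤ ξ ω e ∧ ξ ω e ≤ c)
    (h : Real.log (2 * Fintype.card Ω) ≤ δ ^ 2 * Fintype.card G) :
    ∃ err : (G → α → V) → ℝ, (∀ y, 0 ≤ err y) ∧ 𝔼 y, err y ≤ 2 * δ * c ∧ ∀ y ω,
      |(𝔼 e, den (sp ep y) R e * ξ ω e) - R.card / Fintype.card (G × β) * 𝔼 e, ξ ω e| ≤ err y := by
  obtain ⟨err, h1, h2, h3⟩ := Lay_max (fun (ω : Ω) (i : G × β) (z : α → V) =>
    ind (i ∈ R) * Lay_tm (ξ ω) (sl ep z i.2)) hc hδ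
    (fun ω i z => Lay_mul (Lay_ind _) (Lay_tm_le (hξ ω) _)) h
  refine ⟨err, h1, h2, fun y ω => le_of_eq_of_le ?_ (h3 y ω)⟩
  have h4 : ∀ j, 𝔼 z : α → V, Lay_tm (ξ ω) (sl ep z j) = 𝔼 e, ξ ω e := fun j => by
    unfold Lay_tm
    rw [← expect_div, expect_sum_comm, Fintype.expect_eq_sum_div_card (ξ ω), Fintype.card_prod]
    simp only [← expect_mul, sl, ex_hit (hne j), ← mul_sum]
    push_cast
    ring
  simp only [Lay_test, ← mul_expect, h4, ← sum_mul, P1_sum_mem, sp, div_mul_eq_mul_div]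

end Pool.Agent.Work.MP_d4a230_co.U
end

-- merged part: Pool.Agent.Work.MP_d4a230_co.U.Model
section
/-!
Every subset of the variables has a model kernel in the small class.
PLAN. model: let ν = Q den (lay l q), Q = card L. With pseudo (Ω = CI, ξ c = max (bsum m ct c) 0,
bounded by 3m, card_CI, Reg.lin) for each fixed l and lay_card, put
bad y l = 2 (Q err_l y + 3m |Q card lay / N - 1|). If bad < 1 the hypothesis hP of boost holds; boost
gives c, then cut_le, cut_ck (den_swap) and best_le. model1: L = Unit (lay = univ), on the bad event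
the cut norm is at most 2 (cut_le_l1, ex_den_le, ck_unit). outer: L = Bool, cut_tri, lay_close and
Markov; the sets where the indicator is 1 are bad >= 1 or cut (2 den (R ∩ lay) - den R) >= γ/2.
-/

namespace Pool.Agent.Work.MP_d4a230_co.U

open Finset Filter Topology Pool.Agent.Work.MP_07f1b5_pr
open scoped BigOperators

variable {α β : Type} [Fintype α] [DecidableEq α] [Fintype β] [DecidableEq β]
  {W : Type} [Fintype W] [DecidableEq W] {H : SimpleGraph W} [DecidableRel H.Adj]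
  {ep : β → α × α} {n M : ℕ → ℕ} {τ : ℕ → ℝ}

lemma Model_ct {V : Type} (t : Finset V × Finset V) (e : V × V) : |ct t e| ≤ 1 := by
  unfold ct
  rw [abs_of_nonneg (mul_nonneg (ind_nonneg _) (ind_nonneg _))]
  exact mul_le_one₀ (ind_le_one _) (ind_nonneg _) (ind_le_one _)

lemma Model_cut {V : Type} [Fintype V] [DecidableEq V] {m : ℕ} (hm : 0 < m) (ν a : V × V → ℝ)
    (ha : ∀ e, 0 ≤ a e ∧ a e ≤ ν e) (hs : ∀ e, a e.swap = a e)
    (hP : ∀ c : CI V m, 𝔼 e, (ν e - 1) * max (bsum m ct c e) 0 ≤ 1 / 2) :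
    cut (fun e => a e - ord (bk m a) e) ≤ 1 / m := by
  obtain ⟨c, hc⟩ := boost m hm ct Model_ct ((∅ : Finset V), (∅ : Finset V))
    (fun e => by simp [ct, ind_neg]) ν a ha hP
  exact (best_le m a c).trans ((cut_ck m c hs).trans (cut_le hc))

lemma Model_core {V G L : Type} [Fintype V] [DecidableEq V] [Nonempty V] [Fintype G]
    [DecidableEq G] [Nonempty G] [Nonempty β] [Fintype L] [DecidableEq L] [Nonempty L]
    (hne : ∀ j, (ep j).1 ≠ (ep j).2) (q : L) {m : ℕ} (hm : 0 < m) {δ : ℝ} (hδ : 0 < δ)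
    (h : (4 * m ^ 2 + 3) * ((Fintype.card V : ℝ) + 1) ≤ δ ^ 2 * Fintype.card G) :
    ∃ bad : (G → α → V) → (G → L) → ℝ, (∀ y l, 0 ≤ bad y l) ∧
      (𝔼 y, 𝔼 l, bad y l) ≤ 24 * m * Fintype.card L * δ ∧ ∀ y l T, bad y l < 1 →
        cut (fun e => Fintype.card L * den (sp ep y) (T ∩ lay β l q) e -
          ord (bk m fun e => Fintype.card L * den (sp ep y) (T ∩ lay β l q) e) e) ≤ 1 / m := by
  have hm' : (0 : ℝ) < m := by exact_mod_cast hm
  have hQ : (0 : ℝ) ≤ Fintype.card L := Nat.cast_nonneg _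
  have hξ : ∀ (c : CI V m) (e : V × V), 0 ≤ max (bsum m ct c e) 0 ∧
      max (bsum m ct c e) 0 ≤ 3 * m := fun c e => ⟨le_max_right _ _,
    max_le ((le_abs_self _).trans (bsum_le m hm ct Model_ct c e)) (by positivity)⟩
  choose err h0 h1 h2 using fun l : G → L => pseudo (V := V) ep hne (lay β l q)
    (fun (c : CI V m) e => max (bsum m ct c e) 0) (c := 3 * m) (by positivity) hδ hξ
    ((card_CI m).trans h)
  have h3 := lay_card (G := G) (β := β) q hδ (le_trans (by
    nlinarith [sq_nonneg (m : ℝ), (Nat.cast_nonneg (Fintype.card V) : (0 : ℝ) ≤ _)]) h)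
  refine ⟨fun y l => 2 * Fintype.card L * err l y + 6 * m *
    |(Fintype.card L : ℝ) * ((lay β l q).card / Fintype.card (G × β)) - 1|,
    fun y l => by have := h0 l y; positivity, ?_, fun y l T hb => ?_⟩
  · rw [expect_comm]
    simp only [expect_add_distrib, ← mul_expect, Fintype.expect_const]
    have h4 : 𝔼 l : G → L, 𝔼 y, err l y ≤ 2 * δ * (3 * m) := ex_le (by positivity) h1
    have h5 := mul_le_mul_of_nonneg_left h4 (show 0 ≤ 2 * (Fintype.card L : ℝ) by positivity)
    have h6 := mul_le_mul_of_nonneg_left h3 (show 0 ≤ 6 * (m : ℝ) by positivity)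
    linarith
  · refine Model_cut hm (fun e => Fintype.card L * den (sp ep y) (lay β l q) e) _
      (fun e => ⟨mul_nonneg hQ (den_nonneg _ _ _),
        mul_le_mul_of_nonneg_left (den_mono _ inter_subset_right e) hQ⟩)
      (fun e => by rw [den_swap]) fun c => ?_
    have e1 : 𝔼 e, (Fintype.card L * den (sp ep y) (lay β l q) e - 1) * max (bsum m ct c e) 0 =
        Fintype.card L * (𝔼 e, den (sp ep y) (lay β l q) e * max (bsum m ct c e) 0) -
          𝔼 e, max (bsum m ct c e) 0 := by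
      rw [mul_expect, ← expect_sub_distrib]
      exact expect_congr rfl fun e _ => by ring
    have k1 := mul_le_mul_of_nonneg_left ((le_abs_self _).trans (h2 l y c)) hQ
    have k2 : 𝔼 e, max (bsum m ct c e) 0 ≤ 3 * m := ex_le (by positivity) fun e => (hξ c e).2
    have k3 : 0 ≤ 𝔼 e, max (bsum m ct c e) 0 := expect_nonneg fun e _ => (hξ c e).1
    have k4 := mul_le_mul (le_abs_self
      ((Fintype.card L : ℝ) * ((lay β l q).card / Fintype.card (G × β)) - 1)) k2 k3 (abs_nonneg _)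
    rw [e1]
    beta_reduce at hb k1
    linarith

theorem model (R : Reg H ep n M τ) (L : Type) [Fintype L] [DecidableEq L] [Nonempty L] (q : L)
    {m : ℕ} (hm : 0 < m) {ε : ℝ} (hε : 0 < ε) : ∀ᶠ j in atTop,
    ∃ bad : (Fin (M j) → α → Fin (n j)) → (Fin (M j) → L) → ℝ, (∀ y l, 0 ≤ bad y l) ∧
      (𝔼 y, 𝔼 l, bad y l) ≤ ε ∧ ∀ y l T, bad y l < 1 →
        cut (fun e => Fintype.card L * den (sp ep y) (T ∩ lay β l q) e -
          ord (bk m fun e => Fintype.card L * den (sp ep y) (T ∩ lay β l q) e) e) ≤ 1 / m := by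
  have hm' : (0 : ℝ) < m := by exact_mod_cast hm
  have hQ : (0 : ℝ) < Fintype.card L := by exact_mod_cast Fintype.card_pos
  have hδ : 0 < ε / (24 * m * Fintype.card L) := by positivity
  have := R.nb
  filter_upwards [R.lin (4 * m ^ 2 + 3) (pow_pos hδ 2), R.pos] with j h1 h2
  have : Nonempty (Fin (n j)) := ⟨⟨0, h2.1⟩⟩
  have : Nonempty (Fin (M j)) := ⟨⟨0, h2.1.trans_le h2.2⟩⟩
  obtain ⟨bad, k1, k2, k3⟩ := Model_core (V := Fin (n j)) (G := Fin (M j)) R.ne q hm hδ
    (by simpa only [Fintype.card_fin] using h1)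
  exact ⟨bad, k1, k2.trans_eq (by field_simp), k3⟩

lemma Model_inv {ε : ℝ} (hε : 0 < ε) : ∀ᶠ m : ℕ in atTop, 0 < m ∧ 1 / (m : ℝ) ≤ ε :=
  (eventually_gt_atTop 0).and
    (tendsto_one_div_atTop_nhds_zero_nat.eventually (ge_mem_nhds hε))

theorem model1 (R : Reg H ep n M τ) {ε : ℝ} (hε : 0 < ε) : ∀ᶠ m in atTop, ∀ᶠ j in atTop,
    ∃ err : (Fin (M j) → α → Fin (n j)) → ℝ, (∀ y, 0 ≤ err y) ∧ 𝔼 y, err y ≤ ε ∧
      ∀ y T, cut (fun e => den (sp ep y) T e - ord (bk m (den (sp ep y) T)) e) ≤ err y := by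
  filter_upwards [Model_inv (half_pos hε)] with m hm
  filter_upwards [model R Unit () hm.1 (show 0 < ε / 4 by positivity), R.pos] with j h h2
  obtain ⟨bad, k1, k2, k3⟩ := h
  have : Nonempty (Fin (n j)) := ⟨⟨0, h2.1⟩⟩
  have hm0 : (0 : ℝ) ≤ 1 / m := by positivity
  refine ⟨fun y => 1 / m + 2 * bad y default, fun y => by have := k1 y default; positivity, ?_,
    fun y T => ?_⟩
  · simp only [univ_unique, expect_singleton] at k2
    rw [expect_add_distrib, ← mul_expect, Fintype.expect_const]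
    linarith [hm.2]
  · have := k1 y default
    rcases lt_or_ge (bad y default) 1 with hb | hb
    · have e : ∀ e, Fintype.card Unit * den (sp ep y) (T ∩ lay β default ()) e =
          den (sp ep y) T e := fun e => by simp [lay]
      have k4 := k3 y default T hb
      simp only [e] at k4
      exact k4.trans (by linarith)
    · refine (cut_le_l1 _).trans ((ex_mono (g := fun e => den (sp ep y) T e + 1)
        fun e => ?_).trans ?_)
      · have h1 := den_nonneg (sp ep y) T e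
        have h3 : 0 ≤ ord (bk m (den (sp ep y) T)) e ∧ ord (bk m (den (sp ep y) T)) e ≤ 1 :=
          ck_unit _ _ _
        exact abs_le.2 ⟨by linarith [h3.2], by linarith [h3.1]⟩
      · rw [expect_add_distrib, Fintype.expect_const]
        linarith [ex_den_le (sp ep y) T]

theorem outer (R : Reg H ep n M τ) {γ : ℝ} (hγ : 0 < γ) : ∀ᶠ m in atTop, ∀ ε : ℝ, 0 < ε →
    ∀ᶠ j in atTop, ∃ err : (Fin (M j) → α → Fin (n j)) → ℝ, (∀ y, 0 ≤ err y) ∧ 𝔼 y, err y ≤ ε ∧
      ∀ y T, 𝔼 l : Fin (M j) → Bool,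
        ind (γ < cut fun e => den (sp ep y) T e - ord (wl m ep y l T) e) ≤ err y := by
  filter_upwards [Model_inv (half_pos hγ)] with m hm ε hε
  have hδ : 0 < ε * γ / 16 := by positivity
  have := R.nb
  filter_upwards [model R Bool true hm.1 (half_pos hε), R.pos, R.lin 2 (pow_pos hδ 2)] with j h h2 h3
  obtain ⟨bad, k1, k2, k3⟩ := h
  have : Nonempty (Fin (n j)) := ⟨⟨0, h2.1⟩⟩
  have : Nonempty (Fin (M j)) := ⟨⟨0, h2.1.trans_le h2.2⟩⟩
  refine ⟨fun y => (𝔼 l, bad y l) + ε / 2, fun y => add_nonneg (expect_nonneg fun l _ => k1 y l)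
    (half_pos hε).le, ?_, fun y T => ?_⟩
  · rw [expect_add_distrib, Fintype.expect_const]
    linarith
  · have k4 := lay_close (sp ep y) T true hδ (by simpa only [Fintype.card_fin] using h3)
    have k5 := k3 y
    simp only [Fintype.card_bool, Nat.cast_ofNat] at k4 k5
    have k6 := ex_markov (f := fun l : Fin (M j) → Bool =>
      cut fun e => 2 * den (sp ep y) (T ∩ lay β l true) e - den (sp ep y) T e)
      (fun l => cut_nonneg _) (half_pos hγ)
    have k7 := div_le_div_of_nonneg_right k4 (half_pos hγ).le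
    have e : 2 * (ε * γ / 16) * 2 / (γ / 2) = ε / 2 := by field_simp; norm_num
    refine (ex_mono (g := fun l => bad y l + ind (γ / 2 ≤
      cut fun e => 2 * den (sp ep y) (T ∩ lay β l true) e - den (sp ep y) T e))
      fun l => ?_).trans ?_
    · rcases lt_or_ge (bad y l) 1 with hb | hb
      · refine le_add_of_nonneg_of_le (k1 y l) (ind_mono fun hc => ?_)
        have k8 := cut_tri (den (sp ep y) T) (fun e => 2 * den (sp ep y) (T ∩ lay β l true) e)
          (ord (wl m ep y l T))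
        rw [cut_comm (den (sp ep y) T) fun e => 2 * den (sp ep y) (T ∩ lay β l true) e] at k8
        have k9 : cut (fun e => 2 * den (sp ep y) (T ∩ lay β l true) e -
          ord (wl m ep y l T) e) ≤ 1 / m := k5 l T hb
        linarith [hm.2]
      · exact le_add_of_le_of_nonneg ((ind_le_one _).trans hb) (ind_nonneg _)
    · rw [expect_add_distrib]
      linarith

end Pool.Agent.Work.MP_d4a230_co.U
end
end
end

-- merged part: Pool.Agent.Work.MP_d4a230_co.V.CL
section
-- merged part: Pool.Agent.Work.MP_d4a230_co.U.Repl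
section
/-!
Replacement of one sparse edge.
PLAN. Let μ g (some e) = a g e / (Q n^2), μ g none = 1 - mean (a g) / Q, a probability vector.
Average over T : EB → Fin K → Option (V × V) with weight prod_g prod_j μ g (T g j). By
Finset.prod_univ_sum (twice) the average of a product over g of functions of T g factorises;
the average of smp T g e is a g e and the average of smp T g e * smp T g e2 is at most
ν g e * ν g e2 + κ ν g e ind (e = e2). So cnv a is the average of cnv (smp T), and with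
c = cnv (smp T) e >= 0 one has c = Mx * nt + (c - min c Mx), 0 <= c - min c Mx <= c^2 / Mx,
|a f e - u e| <= ν f e, and the average of mean (ν f * c^2) is at most S2 (D <= 1). Use lam_cnv and
cnv_update.
-/

namespace Pool.Agent.Work.MP_d4a230_co.U

open Finset Filter Topology Pool.Agent.Work.MP_07f1b5_pr
open scoped BigOperators

lemma Repl_fac {I Y : Type} [Fintype I] [DecidableEq I] [Fintype Y] (p : I → Y → ℝ)
    (hp : ∀ i, ∑ y, p i y = 1) (F : I → Y → ℝ) (s : Finset I) :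
    ∑ T : I → Y, (∏ i, p i (T i)) * ∏ i ∈ s, F i (T i) = ∏ i ∈ s, ∑ y, p i y * F i y := by
  have h := Finset.prod_univ_sum (fun _ : I => (univ : Finset Y))
    fun i y => p i y * if i ∈ s then F i y else 1
  rw [Fintype.piFinset_univ] at h
  have h1 : ∀ i, (∑ y, p i y * if i ∈ s then F i y else 1) =
      if i ∈ s then ∑ y, p i y * F i y else 1 := by
    intro i
    split_ifs
    · rfl
    · simp [hp]
  simp only [h1, Finset.prod_mul_distrib, Finset.prod_ite_mem, univ_inter] at h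
  exact h.symm

lemma Repl_one {I Y : Type} [Fintype I] [DecidableEq I] [Fintype Y] (p : I → Y → ℝ)
    (hp : ∀ i, ∑ y, p i y = 1) : ∑ T : I → Y, ∏ i, p i (T i) = 1 := by
  simpa using Repl_fac p hp (fun _ _ => 1) ∅

lemma Repl_ind {Y : Type} [Fintype Y] (p : Y → ℝ) (b : Y) : ∑ y, p y * ind (y = b) = p b := by
  rw [Finset.sum_eq_single b (fun y _ h => by rw [ind_neg h, mul_zero]) (by simp), ind_pos rfl,
    mul_one]

lemma Repl_m1 {Y : Type} [Fintype Y] {K : ℕ} (p : Y → ℝ) (hp : ∑ y, p y = 1) (b : Y) :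
    ∑ t : Fin K → Y, (∏ j, p (t j)) * ∑ j, ind (t j = b) = K * p b := by
  simp only [Finset.mul_sum]
  rw [Finset.sum_comm]
  have h : ∀ j : Fin K, ∑ t : Fin K → Y, (∏ j, p (t j)) * ind (t j = b) = p b := by
    intro j
    simpa [Repl_ind] using Repl_fac (fun _ : Fin K => p) (fun _ => hp) (fun _ y => ind (y = b)) {j}
  simp [h]

lemma Repl_m2 {Y : Type} [Fintype Y] {K : ℕ} (p : Y → ℝ) (h0 : ∀ y, 0 ≤ p y) (hp : ∑ y, p y = 1)
    (b c : Y) : ∑ t : Fin K → Y, (∏ j, p (t j)) * ((∑ j, ind (t j = b)) * ∑ j, ind (t j = c)) ≤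
      K * p b * (K * p c) + K * p b * ind (b = c) := by
  have h : ∀ i j : Fin K, ∑ t : Fin K → Y, (∏ j, p (t j)) * (ind (t i = b) * ind (t j = c)) ≤
      p b * p c + if i = j then p b * ind (b = c) else 0 := by
    intro i j
    split_ifs with hij
    · subst hij
      have h1 := Repl_fac (fun _ : Fin K => p) (fun _ => hp)
        (fun _ y => ind (b = c) * ind (y = b)) {i}
      simp only [prod_singleton, mul_left_comm _ (ind (b = c)), ← Finset.mul_sum, Repl_ind] at h1
      have h2 : ∀ y : Y, ind (y = b) * ind (y = c) = ind (b = c) * ind (y = b) := by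
        intro y
        by_cases hy : y = b
        · rw [hy, mul_comm]
        · rw [ind_neg hy, mul_zero, zero_mul]
      simp only [h2, mul_left_comm _ (ind (b = c)), ← Finset.mul_sum]
      rw [h1]
      nlinarith only [mul_nonneg (h0 b) (h0 c)]
    · have h1 := Repl_fac (fun _ : Fin K => p) (fun _ => hp)
        (fun l y => ind (y = if l = i then b else c)) {i, j}
      simp only [prod_pair hij, Repl_ind, if_true, if_neg (Ne.symm hij)] at h1
      rw [h1, add_zero]
  simp only [Finset.sum_mul_sum]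
  simp only [Finset.mul_sum]
  rw [Finset.sum_comm]
  refine (Finset.sum_le_sum fun i _ => (Finset.sum_comm.trans_le
    (Finset.sum_le_sum fun j _ => h i j))).trans (le_of_eq ?_)
  simp [Finset.sum_add_distrib]
  ring

lemma Repl_swap {A X : Type} [Fintype A] [Fintype X] (w : A → ℝ) (F : A → X → ℝ) :
    ∑ T, w T * 𝔼 x, F T x = 𝔼 x, ∑ T, w T * F T x := by
  rw [Finset.expect_sum_comm]
  simp only [Finset.mul_expect]

variable {V VB EB : Type} [Fintype V] [DecidableEq V] [Nonempty V] [Fintype VB] [DecidableEq VB]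
  [Fintype EB] [DecidableEq EB] (eb : EB → VB × VB)

theorem replace (f : EB) (hne : (eb f).1 ≠ (eb f).2) {D : (VB → V) → ℝ} (hD : Unit01 D)
    (a ν : EB → V × V → ℝ) (u : V × V → ℝ) {Q Mx γ : ℝ} {K : ℕ} (hQ : 0 < Q) (hM : 0 < Mx)
    (hK : 0 < K) (ha : ∀ g e, 0 ≤ a g e ∧ a g e ≤ ν g e) (hm : ∀ g, 𝔼 e, a g e ≤ Q)
    (hu : ∀ e, 0 ≤ u e ∧ u e ≤ ν f e)
    (ht : ∀ T, |𝔼 e, (a f e - u e) * nt eb Q Mx K f D T e| ≤ γ) :
    |Lam eb D a - Lam eb D (Function.update a f u)| ≤
      Mx * γ + S2 eb f ν (Q * (Fintype.card V : ℝ) ^ 2 / K) / Mx := by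
  have hn : (0 : ℝ) < Fintype.card V := by exact_mod_cast Fintype.card_pos
  have hK' : (0 : ℝ) < K := by exact_mod_cast hK
  set N : ℝ := Q * (Fintype.card V : ℝ) ^ 2 with hN
  have hN0 : 0 < N := by positivity
  have hν : ∀ g e, 0 ≤ ν g e := fun g e => (ha g e).1.trans (ha g e).2
  let μ : EB → Option (V × V) → ℝ := fun g o => o.elim (1 - ∑ e, a g e / N) fun e => a g e / N
  have hμ1 : ∀ g, ∑ o, μ g o = 1 := fun g => by simp [μ, Fintype.sum_option]
  have hμ0 : ∀ g o, 0 ≤ μ g o := by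
    rintro g (_ | e)
    · have h := hm g
      rw [Finset.expect_eq_sum_div_card, card_univ, Fintype.card_prod, Nat.cast_mul,
        div_le_iff₀ (by positivity)] at h
      show 0 ≤ 1 - ∑ e, a g e / N
      rw [← Finset.sum_div, sub_nonneg, div_le_one hN0, hN, sq]
      exact h
    · exact div_nonneg (ha g e).1 hN0.le
  let p : EB → (Fin K → Option (V × V)) → ℝ := fun g t => ∏ j, μ g (t j)
  have hp1 : ∀ g, ∑ t, p g t = 1 := fun g => Repl_one (fun _ : Fin K => μ g) fun _ => hμ1 g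
  let s : (Fin K → Option (V × V)) → V × V → ℝ := fun t e => N / K * ∑ j, ind (t j = some e)
  have hs : ∀ T (g : EB) e, smp Q K T g e = s (T g) e := fun _ _ _ => rfl
  have hs0 : ∀ t e, 0 ≤ s t e := fun t e =>
    mul_nonneg (by positivity) (Finset.sum_nonneg fun _ _ => ind_nonneg _)
  have hp0 : ∀ g t, 0 ≤ p g t := fun g t => Finset.prod_nonneg fun j _ => hμ0 g _
  have m1 : ∀ g e, ∑ t, p g t * s t e = a g e := by
    intro g e
    simp only [s, p, mul_left_comm _ (N / K), ← Finset.mul_sum]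
    rw [Repl_m1 (μ g) (hμ1 g)]
    show N / K * (K * (a g e / N)) = _
    field_simp
  have m2 : ∀ g e e', ∑ t, p g t * (s t e * s t e') ≤
      ν g e * ν g e' + N / K * ν g e * ind (e = e') := by
    intro g e e'
    have h := mul_le_mul_of_nonneg_left (Repl_m2 (K := K) (μ g) (hμ0 g) (hμ1 g) (some e) (some e'))
      (show 0 ≤ (N / K) ^ 2 by positivity)
    rw [Finset.mul_sum, ind_congr (Option.some_inj)] at h
    refine (le_of_eq (Finset.sum_congr rfl fun t _ => by simp only [s, p]; ring)).trans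
      (h.trans ?_)
    have e1 : (N / K) ^ 2 * (K * μ g (some e) * (K * μ g (some e')) +
        K * μ g (some e) * ind (e = e')) = a g e * a g e' + N / K * a g e * ind (e = e') := by
      show (N / K) ^ 2 * (K * (a g e / N) * (K * (a g e' / N)) +
        K * (a g e / N) * ind (e = e')) = _
      field_simp
    rw [e1]
    have := ind_nonneg (e = e')
    have := (ha g e).2
    have := (ha g e').1
    have := (ha g e').2
    have := hν g e
    gcongr
  let w : (EB → Fin K → Option (V × V)) → ℝ := fun T => ∏ g, p g (T g)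
  have hw0 : ∀ T, 0 ≤ w T := fun T => Finset.prod_nonneg fun g _ => hp0 g _
  have hw1 : ∑ T, w T = 1 := Repl_one p hp1
  have hc : ∀ e, cnv eb f D a e = ∑ T, w T * cnv eb f D (smp Q K T) e := by
    intro e
    simp only [cnv, hs]
    rw [Repl_swap]
    refine Finset.expect_congr rfl fun x _ => ?_
    simp only [mul_left_comm _ (D _), ← Finset.mul_sum]
    rw [Repl_fac p hp1 fun g t => s t (exf eb (upd eb f x e) g)]
    simp only [m1]
  have hc0 : ∀ T e, 0 ≤ cnv eb f D (smp Q K T) e := fun T e =>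
    Finset.expect_nonneg fun x _ => mul_nonneg (hD _).1 (Finset.prod_nonneg fun g _ => hs0 _ _)
  have hT : ∀ T, |𝔼 e, (a f e - u e) * cnv eb f D (smp Q K T) e| ≤
      Mx * γ + (𝔼 e, ν f e * cnv eb f D (smp Q K T) e ^ 2) / Mx := by
    intro T
    have e1 : ∀ e, (a f e - u e) * cnv eb f D (smp Q K T) e =
        Mx * ((a f e - u e) * nt eb Q Mx K f D T e) + (a f e - u e) *
          (cnv eb f D (smp Q K T) e - min (cnv eb f D (smp Q K T) e) Mx) := by
      intro e
      unfold nt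
      field_simp
      ring
    simp only [e1]
    rw [Finset.expect_add_distrib, ← Finset.mul_expect, Finset.expect_div]
    refine (abs_add_le _ _).trans (add_le_add ?_ ((Finset.abs_expect_le _ _).trans
      (Finset.expect_le_expect fun e _ => ?_)))
    · rw [abs_mul, abs_of_pos hM]
      exact mul_le_mul_of_nonneg_left (ht T) hM.le
    · have h0 := hc0 T e
      generalize cnv eb f D (smp Q K T) e = c at h0 ⊢
      have h1 : |a f e - u e| ≤ ν f e :=
        abs_le.2 ⟨by linarith [(ha f e).1, (hu e).2], by linarith [(ha f e).2, (hu e).1]⟩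
      have h2 : |c - min c Mx| ≤ c ^ 2 / Mx := by
        rw [abs_of_nonneg (sub_nonneg.2 (min_le_left _ _)), le_div_iff₀ hM]
        rcases le_total c Mx with h | h
        · rw [min_eq_left h, sub_self, zero_mul]
          positivity
        · rw [min_eq_right h]
          nlinarith only [hM, h0, h]
      rw [abs_mul, mul_div_assoc]
      exact mul_le_mul h1 h2 (abs_nonneg _) (hν f e)
  have hS : ∑ T, w T * 𝔼 e, ν f e * cnv eb f D (smp Q K T) e ^ 2 ≤ S2 eb f ν (N / K) := by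
    simp only [cnv, sq, Finset.expect_mul_expect, hs]
    simp only [Finset.mul_expect _ _ (ν f _)]
    unfold S2
    rw [Repl_swap]
    refine Finset.expect_le_expect fun e _ => ?_
    rw [Repl_swap]
    refine Finset.expect_le_expect fun x _ => ?_
    rw [Repl_swap]
    refine Finset.expect_le_expect fun x' _ => ?_
    have h := Repl_fac p hp1
      (fun g t => s t (exf eb (upd eb f x e) g) * s t (exf eb (upd eb f x' e) g)) (univ.erase f)
    refine le_trans ?_ (mul_le_mul_of_nonneg_left (h.trans_le (Finset.prod_le_prod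
      (fun g _ => Finset.sum_nonneg fun t _ => mul_nonneg (hp0 _ _)
        (mul_nonneg (hs0 _ _) (hs0 _ _))) fun g _ => m2 g _ _)) (hν f e))
    rw [Finset.mul_sum]
    refine Finset.sum_le_sum fun T _ => ?_
    rw [mul_left_comm]
    refine mul_le_mul_of_nonneg_left (mul_le_mul_of_nonneg_left ?_ (hw0 T)) (hν f e)
    refine le_trans ?_ Finset.prod_mul_distrib.ge
    rw [mul_mul_mul_comm]
    refine mul_le_of_le_one_left (mul_nonneg ?_ ?_) (mul_le_one₀ (hD _).2 (hD _).1 (hD _).2)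
    all_goals exact Finset.prod_nonneg fun g _ => hs0 _ _
  have hL : Lam eb D a - Lam eb D (Function.update a f u) =
      ∑ T, w T * 𝔼 e, (a f e - u e) * cnv eb f D (smp Q K T) e := by
    rw [lam_cnv eb f hne, lam_cnv eb f hne, cnv_update, Function.update_self,
      ← Finset.expect_sub_distrib, Repl_swap]
    refine Finset.expect_congr rfl fun e _ => ?_
    rw [← sub_mul, hc, Finset.mul_sum]
    exact Finset.sum_congr rfl fun T _ => by ring
  rw [hL]
  refine (Finset.abs_sum_le_sum_abs _ _).trans ((Finset.sum_le_sum fun T _ =>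
    (abs_mul _ _).trans_le (mul_le_mul (abs_of_nonneg (hw0 T)).le (hT T) (abs_nonneg _)
      (hw0 T))).trans ?_)
  simp only [mul_add, Finset.sum_add_distrib, ← Finset.sum_mul, hw1, one_mul, ← mul_div_assoc,
    ← Finset.sum_div]
  gcongr

end Pool.Agent.Work.MP_d4a230_co.U
end

-- merged part: Pool.Agent.Work.MP_d4a230_co.U.SclD
section
/-!
Deterministic sparse counting lemma.
PLAN. For each f, boost (tests are in [0,1]; the test inr (∅, ∅) is zero) gives a kernel
w2 f = clip (bsum ...) that fools all tests of f within 1/m. Replace a by w2 edge by edge (Finset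
induction on the set s of replaced edges, current family s.piecewise w2 a, majorant ν + 1, masses at
most Q) with replace; then lam_cut_all from w2 to w with cut (w2 f - w f) <= 1/m + γ.
-/

namespace Pool.Agent.Work.MP_d4a230_co.U

open Finset Filter Topology Pool.Agent.Work.MP_07f1b5_pr
open scoped BigOperators


variable {V VB EB : Type} [Fintype V] [DecidableEq V] [Nonempty V] [Fintype VB] [DecidableEq VB]
  [Fintype EB] [DecidableEq EB] (eb : EB → VB × VB)

lemma tests_unit {Q Mx : ℝ} (hQ : 0 ≤ Q) (hM : 0 < Mx) (K : ℕ) (f : EB) {D : (VB → V) → ℝ}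
    (hD : Unit01 D) (t : (EB → Fin K → Option (V × V)) ⊕ (Finset V × Finset V)) :
    Unit01 (tests eb Q Mx K f D t) := by
  intro e
  cases t with
  | inl T =>
    have h1 : 0 ≤ cnv eb f D (smp Q K T) e :=
      expect_nonneg fun x _ => mul_nonneg (hD _).1 (prod_nonneg fun g _ =>
        mul_nonneg (by positivity) (sum_nonneg fun j _ => ind_nonneg _))
    exact ⟨div_nonneg (le_min h1 hM.le) hM.le, div_le_one_of_le₀ (min_le_right _ _) hM.le⟩
  | inr t =>
    exact ⟨mul_nonneg (ind_nonneg _) (ind_nonneg _),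
      mul_le_one₀ (ind_le_one _) (ind_nonneg _) (ind_le_one _)⟩

theorem scl_det {v k : ℕ} (hv : 3 ≤ v) (hDC : DC eb v k) {D : (VB → V) → ℝ} (hD : RootFn eb D)
    (ν : EB → V × V → ℝ) {Q Mx C γ : ℝ} {m K : ℕ} (hQ : 1 ≤ Q) (hM : 0 < Mx) (hK : 0 < K)
    (hm : 0 < m) (hνQ : ∀ f, 𝔼 e, ν f e ≤ Q)
    (hS : ∀ f, S2 eb f (fun g e => ν g e + 1) (Q * (Fintype.card V : ℝ) ^ 2 / K) ≤ C)
    (hP : ∀ f c, 𝔼 e, (ν f e - 1) * max (bsum m (tests eb Q Mx K f D) c e) 0 ≤ 1 / 2)
    (a w : EB → V × V → ℝ) (ha : ∀ f e, 0 ≤ a f e ∧ a f e ≤ ν f e) (hw : ∀ f, Unit01 (w f))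
    (hc : ∀ f, cut (fun e => a f e - w f e) ≤ γ) :
    |Lam eb D a - Lam eb D w| ≤ Fintype.card EB * (Mx / m + C / Mx + 1 / m + γ) := by
  have hQ0 : (0 : ℝ) < Q := lt_of_lt_of_le one_pos hQ
  have hB : ∀ f, ∃ c, ∀ t, |𝔼 e, (a f e - clip (bsum m (tests eb Q Mx K f D) c e)) *
      tests eb Q Mx K f D t e| ≤ 1 / m := fun f =>
    boost m hm (tests eb Q Mx K f D)
      (fun t e => abs_le.2 ⟨by linarith only [hQ0, hM, (tests_unit eb hQ0.le hM K f hD.1 t e).1],
        (tests_unit eb hQ0.le hM K f hD.1 t e).2⟩) (Sum.inr (∅, ∅))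
      (fun e => by
        change ind _ * ind _ = 0
        rw [ind_neg (notMem_empty _), zero_mul]) (ν f) (a f) (ha f) (hP f)
  choose c hc2 using hB
  obtain ⟨w2, hw2⟩ : ∃ w2 : EB → V × V → ℝ,
      ∀ f e, w2 f e = clip (bsum m (tests eb Q Mx K f D) (c f) e) := ⟨_, fun _ _ => rfl⟩
  have hu : ∀ f, Unit01 (w2 f) := fun f e => by rw [hw2]; exact clip_unit _
  have ht : ∀ f t, |𝔼 e, (a f e - w2 f e) * tests eb Q Mx K f D t e| ≤ 1 / m := fun f t => by
    simp only [hw2]; exact hc2 f t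
  have hν : ∀ f e, 0 ≤ ν f e := fun f e => (ha f e).1.trans (ha f e).2
  have h1 : ∀ s : Finset EB, |Lam eb D a - Lam eb D (s.piecewise w2 a)| ≤
      s.card * (Mx / m + C / Mx) := by
    intro s
    induction s using Finset.induction_on with
    | empty => simp
    | insert f s hf ih =>
      have h2 := replace eb f (hDC.1 f) hD.1 (s.piecewise w2 a) (fun g e => ν g e + 1) (w2 f)
        (γ := 1 / m) hQ0 hM hK
        (fun g e => by
          by_cases hg : g ∈ s
          · rw [piecewise_eq_of_mem _ _ _ hg]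
            exact ⟨(hu g e).1, by linarith only [(hu g e).2, hν g e]⟩
          · rw [piecewise_eq_of_notMem _ _ _ hg]
            exact ⟨(ha g e).1, by linarith only [(ha g e).2]⟩)
        (fun g => by
          by_cases hg : g ∈ s
          · rw [piecewise_eq_of_mem _ _ _ hg]
            exact ex_le hQ0.le fun e => (hu g e).2.trans hQ
          · rw [piecewise_eq_of_notMem _ _ _ hg]
            exact (ex_mono fun e => (ha g e).2).trans (hνQ g))
        (fun e => ⟨(hu f e).1, by linarith only [(hu f e).2, hν f e]⟩)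
        (fun T => by
          rw [piecewise_eq_of_notMem _ _ _ hf]
          exact ht f (Sum.inl T))
      rw [piecewise_insert, card_insert_of_notMem hf]
      have h3 := div_le_div_of_nonneg_right (hS f) hM.le
      have h4 := abs_sub_le (Lam eb D a) (Lam eb D (s.piecewise w2 a))
        (Lam eb D (Function.update (s.piecewise w2 a) f (w2 f)))
      have h5 : Mx * (1 / (m : ℝ)) = Mx / m := by ring
      push_cast
      linarith only [ih, h2, h3, h4, h5]
  have h2 := h1 univ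
  rw [piecewise_univ, card_univ] at h2
  have h3 := lam_cut_all eb hv hDC hD hu hw
  have h4 : ∑ f, cut (fun e => w2 f e - w f e) ≤ ∑ _f : EB, (1 / (m : ℝ) + γ) :=
    sum_le_sum fun f _ => by
      have h5 := cut_tri (w2 f) (a f) (w f)
      have h6 : cut (fun e => a f e - w2 f e) ≤ 1 / m := cut_le fun t => ht f (Sum.inr t)
      rw [cut_comm (w2 f) (a f)] at h5
      linarith only [h5, h6, hc f]
  rw [sum_const, card_univ, nsmul_eq_mul] at h4
  have h5 := abs_sub_le (Lam eb D a) (Lam eb D w2) (Lam eb D w)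
  linarith only [h2, h3, h4, h5]

end Pool.Agent.Work.MP_d4a230_co.U
end

-- merged part: Pool.Agent.Work.MP_d4a230_co.U.CL
section
/-!
Counting lemma with polynomial room.
PLAN. Labels L = Option EB, col = some, Q = card L, ν y l f = Q den (lay l (col f)); K from R.net,
κ = Q n^2 / K, C0 from mom_S2 (κ N >= n^2 since K <= M <= N). Choose b small, C = C0 / b (Markov),
Mx with C / Mx small, m with Mx / m small, γ small; none of them depends on the bound C1 for Ω.
Good (y, l): all S2 <= C, and hP of scl_det for every f and every D ω AND for D = 1, and every ν f is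
γ-close to 1 in cut norm (add the family of cut tests, or note that it follows from pseudo and
lay_card). Probability of not Good is small: mom_S2 and Markov; pseudo with Ω2 = Option Ω × (Fin
(2m^2+1) → Bool × test index) (log card <= δ^2 M by R.lin and R.net), ξ = max (bsum ..) 0 <= 3m, and
lay_card. By rainbow Cnt is the mean over l of Lam of the layer densities a. On Good and when all
layers are γ-close to den (T f) (lay_close, Markov) scl_det applies with 2γ. Otherwise the error is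
at most Lam 1 ν + 1. On Good, scl_det with D = 1, a = ν, w = 1 gives |Lam 1 ν - 1| <= small. Put
err y = small + 3 * (bound for not close) + mean over l of ind (not Good) * (Lam 1 ν + 1); the mean
of ind (not Good) * Lam 1 ν is mean (Lam 1 ν) - mean (ind Good * Lam 1 ν) <= 1 - (1 - small) P(Good)
by rainbow and cnt_one.
-/

namespace Pool.Agent.Work.MP_d4a230_co.U

open Finset Filter Topology Pool.Agent.Work.MP_07f1b5_pr
open scoped BigOperators

section aux

variable {V G α β VB EB : Type} [Fintype V] [DecidableEq V] [Fintype G] [DecidableEq G]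
  [Fintype α] [DecidableEq α] [Fintype β] [DecidableEq β] [Fintype VB] [DecidableEq VB]
  [Fintype EB] [DecidableEq EB] (eb : EB → VB × VB)

lemma CL_lam_le {D : (VB → V) → ℝ} (hD : Unit01 D) {a ν : EB → V × V → ℝ}
    (ha : ∀ f e, 0 ≤ a f e ∧ a f e ≤ ν f e) :
    0 ≤ Lam eb D a ∧ Lam eb D a ≤ Lam eb (fun _ => 1) ν := by
  refine ⟨expect_nonneg fun x _ => mul_nonneg (hD x).1 (prod_nonneg fun f _ => (ha f _).1),
    ex_mono fun x => ?_⟩
  exact mul_le_mul (hD x).2 (prod_le_prod (fun f _ => (ha f _).1) fun f _ => (ha f _).2)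
    (prod_nonneg fun f _ => (ha f _).1) zero_le_one

lemma CL_lam_one [Nonempty V] : Lam eb (fun _ : VB → V => 1) (fun _ _ => 1) = 1 := by
  simp [Lam]

lemma CL_S2_nonneg (f : EB) {ν : EB → V × V → ℝ} (hν : ∀ g e, 0 ≤ ν g e) {κ : ℝ} (hκ : 0 ≤ κ) :
    0 ≤ S2 eb f ν κ :=
  expect_nonneg fun _ _ => expect_nonneg fun _ _ => expect_nonneg fun _ _ =>
    mul_nonneg (hν _ _) (prod_nonneg fun _ _ => add_nonneg (mul_nonneg (hν _ _) (hν _ _))
      (mul_nonneg (mul_nonneg hκ (hν _ _)) (ind_nonneg _)))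

lemma CL_avg {Y L : Type} [Fintype Y] [Fintype L] [Nonempty Y] [Nonempty L] (B Λ : Y → L → ℝ)
    {s p : ℝ} (hs : 0 ≤ s) (hB0 : ∀ y l, 0 ≤ B y l) (hB : 𝔼 y, 𝔼 l, B y l ≤ p)
    (hΛ : 𝔼 y, 𝔼 l, Λ y l ≤ 1) (hg : ∀ y l, B y l < 1 → 1 - s ≤ Λ y l) :
    𝔼 y, 𝔼 l, ind (1 ≤ B y l) * (Λ y l + 1) ≤ s + 2 * p := by
  have h : ∀ y l, ind (1 ≤ B y l) * (Λ y l + 1) ≤ Λ y l + (s - 1) + 2 * B y l := by
    intro y l
    by_cases h : 1 ≤ B y l
    · rw [ind_pos h]; linarith
    · rw [ind_neg h]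
      have := hg y l (not_le.1 h)
      have := hB0 y l
      linarith
  refine (ex_mono fun y => ex_mono fun l => h y l).trans ?_
  simp only [expect_add_distrib, ← mul_expect, Fintype.expect_const]
  linarith

lemma CL_card {Ω : Type} [Fintype Ω] (n K r : ℕ) {C1 : ℝ}
    (h : Real.log (Fintype.card Ω) ≤ C1 * (n + 1)) :
    Real.log (2 * Fintype.card (Option Ω × (Fin r → Bool ×
      ((EB → Fin K → Option (Fin n × Fin n)) ⊕ (Finset (Fin n) × Finset (Fin n)))))) ≤
      (2 + |C1| + 2 * r) * ((n : ℝ) + 1) +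
        r * Fintype.card EB * (K * Real.log ((n : ℝ) ^ 2 + 1)) := by
  have hn : (0 : ℝ) ≤ n := Nat.cast_nonneg n
  have e2 : (2 : ℝ) ≤ Real.exp 1 := by have := Real.add_one_le_exp (1 : ℝ); linarith
  have e4 : (4 : ℝ) ≤ Real.exp 2 := by
    rw [show (2 : ℝ) = 1 + 1 by norm_num, Real.exp_add]; nlinarith only [e2]
  have h1 : (Fintype.card Ω : ℝ) + 1 ≤ 2 * Real.exp (|C1| * (n + 1)) := by
    have a1 : (Fintype.card Ω : ℝ) ≤ Real.exp (|C1| * (n + 1)) :=
      (Real.le_exp_log _).trans (Real.exp_le_exp.2 (h.trans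
        (mul_le_mul_of_nonneg_right (le_abs_self _) (by positivity))))
    have a2 : 1 ≤ Real.exp (|C1| * (n + 1)) := Real.one_le_exp (by positivity)
    linarith
  set X : ℝ := Real.exp (Fintype.card EB * (K * Real.log ((n : ℝ) ^ 2 + 1))) with hX
  have hX1 : 1 ≤ X := Real.one_le_exp
    (mul_nonneg (by positivity) (mul_nonneg (by positivity) (Real.log_nonneg (by nlinarith only []))))
  have hX2 : (((n : ℝ) * n + 1) ^ K) ^ Fintype.card EB = X := by
    rw [hX, Real.exp_nat_mul, Real.exp_nat_mul, Real.exp_log (by positivity), sq]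
  have hY : (2 : ℝ) ^ n * 2 ^ n ≤ Real.exp (2 * n) := by
    rw [← mul_pow, mul_comm (2 : ℝ) (n : ℝ), Real.exp_nat_mul]
    exact pow_le_pow_left₀ (by norm_num) (by linarith) n
  have hY1 : 1 ≤ Real.exp (2 * n) := Real.one_le_exp (by positivity)
  have h2 : 2 * (X + 2 ^ n * 2 ^ n) ≤ Real.exp (2 * (n + 1)) * X := by
    rw [mul_add (2 : ℝ) (n : ℝ), Real.exp_add, mul_one]
    have : X + Real.exp (2 * n) ≤ 2 * (Real.exp (2 * n) * X) := by nlinarith only [hY1, hX1, hY]
    have : 4 * (Real.exp (2 * n) * X) ≤ Real.exp 2 * (Real.exp (2 * n) * X) :=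
      mul_le_mul_of_nonneg_right e4 (by positivity)
    nlinarith
  have h4 : (4 : ℝ) ≤ Real.exp (2 * (n + 1)) := e4.trans (Real.exp_le_exp.2 (by linarith))
  rw [Real.log_le_iff_le_exp (by
    have := Fintype.card_pos (α := Option Ω × (Fin r → Bool ×
      ((EB → Fin K → Option (Fin n × Fin n)) ⊕ (Finset (Fin n) × Finset (Fin n)))))
    positivity)]
  simp only [Fintype.card_prod, Fintype.card_option, Fintype.card_fun, Fintype.card_sum,
    Fintype.card_bool, Fintype.card_fin, Fintype.card_finset]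
  push_cast
  rw [hX2, show (2 + |C1| + 2 * r) * ((n : ℝ) + 1) +
      r * Fintype.card EB * (K * Real.log ((n : ℝ) ^ 2 + 1)) = 2 * (n + 1) + |C1| * (n + 1) +
      r * (2 * (n + 1) + Fintype.card EB * (K * Real.log ((n : ℝ) ^ 2 + 1))) by ring,
    Real.exp_add, Real.exp_add, Real.exp_nat_mul, Real.exp_add, ← hX, ← mul_assoc]
  refine mul_le_mul ?_ (pow_le_pow_left₀ (by positivity) h2 r) (by positivity) (by positivity)
  have := mul_le_mul_of_nonneg_right h4 (Real.exp_pos (|C1| * (n + 1))).le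
  linarith

lemma CL_bad [Nonempty V] [Nonempty G] [Nonempty β] (ep : β → α × α)
    (hne : ∀ j, (ep j).1 ≠ (ep j).2) {Ω : Type} [Fintype Ω] (ξ : EB → Ω → V × V → ℝ)
    {C0 C γ δ c κ : ℝ} (hC : 0 < C) (hγ : 0 < γ) (hδ : 0 < δ) (hc : 0 < c) (hκ : 0 ≤ κ)
    (hξ : ∀ f ω e, 0 ≤ ξ f ω e ∧ ξ f ω e ≤ c)
    (hS : ∀ (l : G → Option EB) f, 𝔼 y : G → α → V, S2 eb f (fun g e =>
      Fintype.card (Option EB) * den (sp ep y) (lay β l (some g)) e + 1) κ ≤ C0)
    (h1 : 1 ≤ δ ^ 2 * Fintype.card G)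
    (h2 : Real.log (2 * Fintype.card Ω) ≤ δ ^ 2 * Fintype.card G) :
    ∃ B : (G → α → V) → (G → Option EB) → ℝ, (∀ y l, 0 ≤ B y l) ∧
      𝔼 y, 𝔼 l, B y l ≤ Fintype.card EB * (C0 / C + 4 * δ * c * Fintype.card (Option EB) / γ) ∧
      ∀ y l, B y l < 1 → ∀ f, S2 eb f (fun g e =>
        Fintype.card (Option EB) * den (sp ep y) (lay β l (some g)) e + 1) κ ≤ C ∧ ∀ ω,
        |𝔼 e, (Fintype.card (Option EB) * den (sp ep y) (lay β l (some f)) e - 1) * ξ f ω e| ≤
          γ := by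
  choose er h0 hm hb using fun (l : G → Option EB) (f : EB) =>
    pseudo (V := V) ep hne (lay β l (some f)) (ξ f) hc hδ (hξ f) h2
  set Q : ℝ := ((Fintype.card (Option EB) : ℕ) : ℝ) with hQ
  have hQ0 : 0 ≤ Q := Nat.cast_nonneg _
  have hS0 : ∀ (y : G → α → V) (l : G → Option EB) f,
      0 ≤ S2 eb f (fun g e => Q * den (sp ep y) (lay β l (some g)) e + 1) κ := fun y l f =>
    CL_S2_nonneg eb f (fun g e => add_nonneg (mul_nonneg hQ0 (den_nonneg _ _ _)) zero_le_one) hκ
  have ht : ∀ (y : G → α → V) (l : G → Option EB) f, 0 ≤ (Q * er l f y +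
      c * |Q * ((lay β l (some f)).card / Fintype.card (G × β)) - 1|) / γ := fun y l f =>
    div_nonneg (add_nonneg (mul_nonneg hQ0 (h0 _ _ _)) (mul_nonneg hc.le (abs_nonneg _))) hγ.le
  refine ⟨fun y l => ∑ f, (S2 eb f (fun g e => Q * den (sp ep y) (lay β l (some g)) e + 1) κ / C +
    (Q * er l f y + c * |Q * ((lay β l (some f)).card / Fintype.card (G × β)) - 1|) / γ),
    fun y l => sum_nonneg fun f _ => add_nonneg (div_nonneg (hS0 y l f) hC.le) (ht y l f), ?_, ?_⟩
  · rw [expect_comm]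
    simp only [expect_sum_comm]
    rw [← card_univ, ← nsmul_eq_mul]
    refine sum_le_card_nsmul _ _ _ fun f _ => ?_
    have a1 : ∀ l : G → Option EB, 𝔼 y : G → α → V,
        (S2 eb f (fun g e => Q * den (sp ep y) (lay β l (some g)) e + 1) κ / C + (Q * er l f y +
          c * |Q * ((lay β l (some f)).card / Fintype.card (G × β)) - 1|) / γ) ≤
        C0 / C + (Q * (2 * δ * c) +
          c * |Q * ((lay β l (some f)).card / Fintype.card (G × β)) - 1|) / γ := by
      intro l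
      simp only [expect_add_distrib, ← expect_div, ← mul_expect, Fintype.expect_const]
      gcongr
      exacts [hS l f, hm l f]
    refine (ex_mono a1).trans ?_
    simp only [expect_add_distrib, ← expect_div, ← mul_expect, Fintype.expect_const]
    have a2 := mul_le_mul_of_nonneg_left (lay_card (β := β) (G := G) (some f) hδ h1) hc.le
    rw [← hQ] at a2
    gcongr
    linarith only [a2]
  · intro y l hB f
    have a1 := (single_le_sum (f := fun f => S2 eb f (fun g e =>
      Q * den (sp ep y) (lay β l (some g)) e + 1) κ / C + (Q * er l f y +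
        c * |Q * ((lay β l (some f)).card / Fintype.card (G × β)) - 1|) / γ)
      (fun f _ => add_nonneg (div_nonneg (hS0 y l f) hC.le) (ht y l f)) (mem_univ f)).trans_lt hB
    have a2 := ht y l f
    have a3 := div_nonneg (hS0 y l f) hC.le
    refine ⟨(div_le_one hC).1 (by linarith only [a1, a2]), fun ω => ?_⟩
    have a4 : Q * er l f y +
        c * |Q * ((lay β l (some f)).card / Fintype.card (G × β)) - 1| ≤ γ :=
      (div_le_one hγ).1 (by linarith only [a1, a3])
    have a5 := hb l f y ω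
    have a6 : 0 ≤ 𝔼 e, ξ f ω e := expect_nonneg fun e _ => (hξ f ω e).1
    have a7 : 𝔼 e, ξ f ω e ≤ c := ex_le hc.le fun e => (hξ f ω e).2
    have a8 : 𝔼 e, (Q * den (sp ep y) (lay β l (some f)) e - 1) * ξ f ω e =
        Q * ((𝔼 e, den (sp ep y) (lay β l (some f)) e * ξ f ω e) -
          (lay β l (some f)).card / Fintype.card (G × β) * 𝔼 e, ξ f ω e) +
        (𝔼 e, ξ f ω e) * (Q * ((lay β l (some f)).card / Fintype.card (G × β)) - 1) := by
      simp only [sub_mul, mul_assoc, one_mul, expect_sub_distrib, ← mul_expect]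
      ring
    rw [a8]
    refine (abs_add_le _ _).trans (le_trans ?_ a4)
    rw [abs_mul, abs_mul, abs_of_nonneg hQ0, abs_of_nonneg a6]
    gcongr

lemma CL_cut {m : ℕ} (hm : 0 < m) (Q Mx : ℝ) (K : ℕ) (f : EB) (D : (VB → V) → ℝ)
    (g : V × V → ℝ) {γ : ℝ}
    (h : ∀ c, |𝔼 e, g e * max (bsum m (tests eb Q Mx K f D) c e) 0| ≤ γ) : cut g ≤ γ := by
  refine cut_le fun t => le_trans ?_ (h fun _ => (true, Sum.inr t))
  have hm1 : (1 : ℝ) ≤ m := by exact_mod_cast hm
  have h1 : (1 : ℝ) ≤ 1 / (m : ℝ) * (2 * m ^ 2 + 1) := by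
    rw [one_div, ← div_eq_inv_mul, one_le_div (by linarith)]; nlinarith only [hm1]
  have h2 : ∀ e, g e * max (bsum m (tests eb Q Mx K f D) (fun _ => (true, Sum.inr t)) e) 0 =
      1 / (m : ℝ) * (2 * m ^ 2 + 1) * (g e * ct t e) := by
    intro e
    have : bsum m (tests eb Q Mx K f D) (fun _ => (true, Sum.inr t)) e =
        1 / (m : ℝ) * (2 * m ^ 2 + 1) * ct t e := by
      simp [bsum, tests, mul_assoc]
    have h3 : 0 ≤ ct t e := mul_nonneg (ind_nonneg _) (ind_nonneg _)
    rw [this, max_eq_left (mul_nonneg (by linarith only [h1]) h3)]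
    ring
  simp only [h2, ← mul_expect]
  rw [abs_mul, abs_of_nonneg (by linarith only [h1] : (0 : ℝ) ≤ 1 / (m : ℝ) * (2 * m ^ 2 + 1))]
  exact le_mul_of_one_le_left (abs_nonneg _) h1

theorem CL_fin [Nonempty V] [Nonempty G] [Nonempty β] {v k : ℕ} (hv : 3 ≤ v) (hDC : DC eb v k)
    (ep : β → α × α) (hne : ∀ j, (ep j).1 ≠ (ep j).2) {Ω : Type} [Fintype Ω]
    (D : Ω → (VB → V) → ℝ) (hD : ∀ ω, RootFn eb (D ω)) {C0 C Mx γ δ s : ℝ} {m K : ℕ} (hC : 0 < C)
    (hM : 0 < Mx) (hK : 0 < K) (hm : 0 < m) (hγ : 0 < γ) (hγ2 : γ ≤ 1 / 2) (hδ : 0 < δ)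
    (hs : Fintype.card EB * (Mx / m + C / Mx + 1 / m + 2 * γ) ≤ s)
    (hS : ∀ (l : G → Option EB) f, 𝔼 y : G → α → V, S2 eb f (fun g e =>
      Fintype.card (Option EB) * den (sp ep y) (lay β l (some g)) e + 1)
        (Fintype.card (Option EB) * (Fintype.card V : ℝ) ^ 2 / K) ≤ C0)
    (h1 : 2 * ((Fintype.card V : ℝ) + 1) ≤ δ ^ 2 * Fintype.card G)
    (h2 : Real.log (2 * Fintype.card (Option Ω × (Fin (2 * m ^ 2 + 1) → Bool ×
      ((EB → Fin K → Option (V × V)) ⊕ (Finset V × Finset V))))) ≤ δ ^ 2 * Fintype.card G) :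
    ∃ err : (G → α → V) → ℝ, (∀ y, 0 ≤ err y) ∧ 𝔼 y, err y ≤ 2 * s +
      (2 + s) * (Fintype.card EB * (2 * δ * Fintype.card (Option EB) / γ)) + 2 * (Fintype.card EB *
        (C0 / C + 4 * δ * (3 * m) * Fintype.card (Option EB) / γ)) ∧
      ∀ y ω (T : EB → Finset (G × β)) (w : EB → V × V → ℝ),
        (∀ f, Unit01 (w f)) → (∀ f, cut (fun e => den (sp ep y) (T f) e - w f e) ≤ γ) →
        |Cnt eb (sp ep y) (D ω) T - Lam eb (D ω) w| ≤ err y := by
  have hQ1 : (1 : ℝ) ≤ Fintype.card (Option EB) := by exact_mod_cast Fintype.card_pos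
  have hQ0 : (0 : ℝ) ≤ Fintype.card (Option EB) := Nat.cast_nonneg _
  have hs0 : 0 ≤ s := le_trans (by positivity) hs
  have hD1 : ∀ o : Option Ω, RootFn eb (o.elim (fun _ => 1) D) := by
    rintro (_ | ω)
    · exact ⟨fun _ => ⟨zero_le_one, le_rfl⟩, fun _ => Or.inl fun _ _ => rfl⟩
    · exact hD ω
  obtain ⟨B, hB0, hB1, hB2⟩ := CL_bad eb ep hne
    (fun f (p : Option Ω × (Fin (2 * m ^ 2 + 1) → Bool ×
      ((EB → Fin K → Option (V × V)) ⊕ (Finset V × Finset V)))) e => max (bsum m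
      (tests eb (Fintype.card (Option EB)) Mx K f (p.1.elim (fun _ => 1) D)) p.2 e) 0)
    hC hγ hδ (c := 3 * m) (by positivity) (by positivity)
    (fun f p e => ⟨le_max_right _ _, max_le ((le_abs_self _).trans (bsum_le m hm _ (fun t e => by
      have := tests_unit eb hQ0 hM K f (hD1 p.1).1 t e
      rw [abs_of_nonneg this.1]; exact this.2) _ _)) (by positivity)⟩) hS
    (le_trans (by have : (0 : ℝ) ≤ Fintype.card V := Nat.cast_nonneg _; linarith only [hγ, hγ2]) h1) h2
  set Q : ℝ := ((Fintype.card (Option EB) : ℕ) : ℝ) with hQ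
  set ν : (G → α → V) → (G → Option EB) → EB → V × V → ℝ :=
    fun y l f e => Q * den (sp ep y) (lay β l (some f)) e with hν
  have hν0 : ∀ y l f e, 0 ≤ ν y l f e := fun y l f e => mul_nonneg hQ0 (den_nonneg _ _ _)
  have key : ∀ y l, B y l < 1 → ∀ (o : Option Ω) (a w : EB → V × V → ℝ),
      (∀ f e, 0 ≤ a f e ∧ a f e ≤ ν y l f e) → (∀ f, Unit01 (w f)) →
      (∀ f, cut (fun e => a f e - w f e) ≤ 2 * γ) →
      |Lam eb (o.elim (fun _ => 1) D) a - Lam eb (o.elim (fun _ => 1) D) w| ≤ s := by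
    intro y l h o a w ha hw hc
    refine (scl_det eb hv hDC (hD1 o) (ν y l) hQ1 hM hK hm (fun f => ?_) (fun f => (hB2 y l h f).1)
      (fun f c => ((le_abs_self _).trans ((hB2 y l h f).2 (o, c))).trans hγ2) a w ha hw hc).trans hs
    simp only [hν, ← mul_expect]
    exact mul_le_of_le_one_right hQ0 (ex_den_le _ _)
  have key1 : ∀ y l, B y l < 1 → |Lam eb (fun _ => 1) (ν y l) - 1| ≤ s := by
    intro y l h
    have := key y l h none (ν y l) (fun _ _ => 1) (fun f e => ⟨hν0 y l f e, le_rfl⟩)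
      (fun _ _ => ⟨zero_le_one, le_rfl⟩) fun f => (CL_cut eb hm Q Mx K f (fun _ => 1) _
        fun c => (hB2 y l h f).2 (none, c)).trans (by linarith only [hγ])
    rwa [Option.elim_none, CL_lam_one] at this
  have hΛ0 : ∀ y l, 0 ≤ Lam eb (fun _ => 1) (ν y l) := fun y l =>
    (CL_lam_le eb (fun _ => ⟨zero_le_one, le_rfl⟩) fun f e => ⟨hν0 y l f e, le_rfl⟩).1
  have hΛ : 𝔼 y, 𝔼 l, Lam eb (fun _ => 1) (ν y l) ≤ 1 := by
    have := cnt_one (G := G) (V := V) eb ep hne (D := fun _ => 1) fun _ => zero_le_one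
    rw [Fintype.expect_const] at this
    refine le_trans (le_of_eq (expect_congr rfl fun y _ => ?_)) this
    rw [← rainbow eb (sp ep y) _ _ some (Option.some_injective _)]
    simp only [univ_inter, hν, hQ]
  refine ⟨fun y => s + (2 + s) * (Fintype.card EB * (2 * δ * Q / γ)) +
    𝔼 l, ind (1 ≤ B y l) * (Lam eb (fun _ => 1) (ν y l) + 1), fun y => ?_, ?_, ?_⟩
  · have : 0 ≤ 𝔼 l, ind (1 ≤ B y l) * (Lam eb (fun _ => 1) (ν y l) + 1) :=
      expect_nonneg fun l _ => mul_nonneg (ind_nonneg _) (by have := hΛ0 y l; linarith only [hγ, hγ2, this])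
    positivity
  · have := CL_avg B (fun y l => Lam eb (fun _ => 1) (ν y l)) hs0 hB0 hB1 hΛ
      fun y l h => by have := abs_le.1 (key1 y l h); linarith only [this]
    simp only [expect_add_distrib, Fintype.expect_const]
    linarith only [this]
  · intro y ω T w hw hc
    set a : (G → Option EB) → EB → V × V → ℝ :=
      fun l f e => Q * den (sp ep y) (T f ∩ lay β l (some f)) e with ha
    have ha0 : ∀ l f e, 0 ≤ a l f e ∧ a l f e ≤ ν y l f e := fun l f e =>
      ⟨mul_nonneg hQ0 (den_nonneg _ _ _),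
        mul_le_mul_of_nonneg_left (den_mono _ inter_subset_right _) hQ0⟩
    have pt : ∀ l, |Lam eb (D ω) (a l) - Lam eb (D ω) w| ≤ s +
        (2 + s) * ∑ f, cut (fun e => a l f e - den (sp ep y) (T f) e) / γ +
        ind (1 ≤ B y l) * (Lam eb (fun _ => 1) (ν y l) + 1) := by
      intro l
      have b1 := CL_lam_le eb (hD ω).1 (ha0 l)
      have b2 := CL_lam_le eb (hD ω).1 (ν := fun _ _ => 1) hw
      rw [CL_lam_one] at b2
      have b3 : |Lam eb (D ω) (a l) - Lam eb (D ω) w| ≤ Lam eb (fun _ => 1) (ν y l) + 1 :=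
        abs_le.2 ⟨by linarith only [b1, b2, b1.1, b2.2, hΛ0 y l], by linarith only [hγ, hγ2, b1, b2, b1.2, b2.1]⟩
      have b4 : 0 ≤ ∑ f, cut (fun e => a l f e - den (sp ep y) (T f) e) / γ :=
        sum_nonneg fun f _ => div_nonneg (cut_nonneg _) hγ.le
      have b5 := mul_nonneg (by linarith only [hγ, hγ2, hs0] : 0 ≤ 2 + s) b4
      by_cases h : 1 ≤ B y l
      · rw [ind_pos h]; linarith only [hs0, b3, b5]
      rw [ind_neg h]
      by_cases h3 : ∀ f, cut (fun e => a l f e - den (sp ep y) (T f) e) ≤ γ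
      · have := key y l (not_le.1 h) (some ω) (a l) w (ha0 l) hw fun f =>
          (cut_tri _ _ _).trans (by linarith only [h3 f, hc f])
        rw [Option.elim_some] at this
        linarith only [b5, this]
      · obtain ⟨f, hf⟩ := not_forall.1 h3
        have b6 := ((one_le_div hγ).2 (not_le.1 hf).le).trans (single_le_sum
          (f := fun f => cut (fun e => a l f e - den (sp ep y) (T f) e) / γ)
          (fun f _ => div_nonneg (cut_nonneg _) hγ.le) (mem_univ f))
        have b7 := abs_le.1 (key1 y l (not_le.1 h))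
        have b8 := mul_le_mul_of_nonneg_left b6 (by linarith only [hγ, hγ2, hs0] : 0 ≤ 2 + s)
        linarith only [hs0, b3, b7, b8]
    have e1 : Cnt eb (sp ep y) (D ω) T - Lam eb (D ω) w =
        𝔼 l, (Lam eb (D ω) (a l) - Lam eb (D ω) w) := by
      rw [expect_sub_distrib, Fintype.expect_const,
        ← rainbow eb (sp ep y) _ _ some (Option.some_injective _)]
    rw [e1]
    refine (ex_abs _).trans ((ex_mono pt).trans ?_)
    simp only [expect_add_distrib, Fintype.expect_const, ← mul_expect, expect_sum_comm,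
      ← expect_div]
    gcongr
    rw [← card_univ, ← nsmul_eq_mul]
    refine sum_le_card_nsmul _ _ _ fun f _ => ?_
    gcongr
    exact lay_close (sp ep y) (T f) (some f) hδ h1

end aux

variable {α β : Type} [Fintype α] [DecidableEq α] [Fintype β] [DecidableEq β]
  {W : Type} [Fintype W] [DecidableEq W] {H : SimpleGraph W} [DecidableRel H.Adj]
  {ep : β → α × α} {n M : ℕ → ℕ} {τ : ℕ → ℝ}

theorem count_lemma (R : Reg H ep n M τ) {VB EB : Type} [Fintype VB] [DecidableEq VB] [Fintype EB]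
    [DecidableEq EB] (eb : EB → VB × VB) (hDC : DC eb (Fintype.card W) R.K) {ε : ℝ}
    (hε : 0 < ε) : ∃ γ : ℝ, 0 < γ ∧ ∀ C1 : ℝ, ∀ᶠ j in atTop, ∀ (Ω : Type) [Fintype Ω]
      (D : Ω → (VB → Fin (n j)) → ℝ), Real.log (Fintype.card Ω) ≤ C1 * (n j + 1) →
      (∀ ω, RootFn eb (D ω)) →
      ∃ err : (Fin (M j) → α → Fin (n j)) → ℝ, (∀ y, 0 ≤ err y) ∧ 𝔼 y, err y ≤ ε ∧
        ∀ y ω (T : EB → Finset (Fin (M j) × β)) (w : EB → Fin (n j) × Fin (n j) → ℝ),
          (∀ f, Unit01 (w f)) → (∀ f, cut (fun e => den (sp ep y) (T f) e - w f e) ≤ γ) →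
          |Cnt eb (sp ep y) (D ω) T - Lam eb (D ω) w| ≤ err y := by
  have := R.nb
  obtain ⟨K, hK1, hK2, hK3⟩ := R.net
  have hQ1 : (1 : ℝ) ≤ Fintype.card (Option EB) := by exact_mod_cast Fintype.card_pos
  obtain ⟨C0, hC0, hmom⟩ := mom_S2 eb hDC ep R.ne hQ1
  have hQE : (Fintype.card (Option EB) : ℝ) = Fintype.card EB + 1 := by
    rw [Fintype.card_option]; push_cast; rfl
  set Q : ℝ := ((Fintype.card (Option EB) : ℕ) : ℝ) with hQ
  have hE0 : (0 : ℝ) ≤ Fintype.card EB := Nat.cast_nonneg _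
  obtain ⟨η, hη, hη1, hη2⟩ : ∃ η : ℝ, 0 < η ∧ 15 * Q * η ≤ ε ∧ 15 * Q * η ≤ 1 := by
    refine ⟨min ε 1 / (15 * Q), by positivity, ?_, ?_⟩ <;>
      rw [mul_div_cancel₀ _ (by positivity)]
    exacts [min_le_left _ _, min_le_right _ _]
  obtain ⟨C, hC, hC1⟩ : ∃ C : ℝ, 0 < C ∧ C0 / C ≤ η :=
    ⟨(C0 + 1) / η, by positivity, by
      rw [div_le_iff₀ (by positivity), mul_div_cancel₀ _ hη.ne']; linarith⟩
  obtain ⟨Mx, hM, hM1⟩ : ∃ Mx : ℝ, 0 < Mx ∧ C / Mx ≤ η :=
    ⟨C / η, by positivity, by rw [div_div_cancel₀ hC.ne']⟩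
  obtain ⟨m, hm, hm1⟩ : ∃ m : ℕ, 0 < m ∧ Mx / m + 1 / m ≤ η := by
    have h0 : 0 < ⌈(Mx + 1) / η⌉₊ := Nat.ceil_pos.2 (by positivity)
    refine ⟨_, h0, ?_⟩
    rw [← add_div, div_le_iff₀ (by exact_mod_cast h0), mul_comm, ← div_le_iff₀ hη]
    exact Nat.le_ceil _
  have hm2 : (1 : ℝ) ≤ m := by exact_mod_cast hm
  obtain ⟨δ, hδ, hδ1⟩ : ∃ δ : ℝ, 0 < δ ∧ 4 * δ * (3 * m) * Q / η ≤ η :=
    ⟨η ^ 2 / (12 * m * Q), by positivity, le_of_eq (by field_simp; norm_num)⟩
  have hδ2 : 2 * δ * Q / η ≤ η := le_trans (div_le_div_of_nonneg_right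
    (mul_le_mul_of_nonneg_right (by nlinarith only [hδ, hm2]) (by linarith only [hQ1])) hη.le) hδ1
  refine ⟨η, hη, fun C1 => ?_⟩
  have hr : (0 : ℝ) < ((2 * m ^ 2 + 1 : ℕ) : ℝ) * Q := by positivity
  filter_upwards [hK1, R.pos, R.lin 2 (pow_pos hδ 2),
    R.lin (2 + |C1| + 2 * ((2 * m ^ 2 + 1 : ℕ) : ℝ)) (half_pos (pow_pos hδ 2)),
    hK2 _ (div_pos (half_pos (pow_pos hδ 2)) hr),
    (eventually_all_finset (range (Fintype.card EB + 1) ×ˢ range (Fintype.card VB + 1))).2
      fun p _ => (eventually_imp_distrib_left (p := (Fintype.card W - 2) * p.1 <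
        (R.K - 1) * p.2)).2 (hK3 Q p.1 p.2 (by positivity))]
    with j j1 j2 j3 j4 j5 j6 Ω _ D hΩ hD
  have : Nonempty (Fin (n j)) := ⟨⟨0, j2.1⟩⟩
  have : Nonempty (Fin (M j)) := ⟨⟨0, j2.1.trans_le j2.2⟩⟩
  have hb : M j ≤ M j * Fintype.card β := Nat.le_mul_of_pos_right _ Fintype.card_pos
  have hK0 : (0 : ℝ) < K j := by exact_mod_cast j1.1
  have c1 : (n j : ℝ) ^ 2 ≤
      Q * (Fintype.card (Fin (n j)) : ℝ) ^ 2 / K j * (M j * Fintype.card β : ℕ) := by
    rw [Fintype.card_fin, div_mul_eq_mul_div, le_div_iff₀ hK0]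
    have b1 : (K j : ℝ) ≤ (M j * Fintype.card β : ℕ) := by exact_mod_cast j1.2.trans hb
    exact mul_le_mul (le_mul_of_one_le_left (by positivity) hQ1) b1 hK0.le (by positivity)
  have c2 : ∀ a c : ℕ, a ≤ Fintype.card EB → c ≤ Fintype.card VB →
      (Fintype.card W - 2) * a < (R.K - 1) * c →
      (Q * (Fintype.card (Fin (n j)) : ℝ) ^ 2 / K j) ^ a ≤ (n j : ℝ) ^ c := by
    intro a c ha hc hac
    rw [Fintype.card_fin]
    exact j6 (a, c) (mem_product.2 ⟨mem_range.2 (by omega), mem_range.2 (by omega)⟩) hac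
  have c3 := CL_card (EB := EB) (n j) (K j) (2 * m ^ 2 + 1) hΩ
  have b1 : 0 ≤ K j * Real.log ((n j : ℝ) ^ 2 + 1) :=
    mul_nonneg hK0.le (Real.log_nonneg (by nlinarith only [sq_nonneg (n j : ℝ)]))
  have c4 : ((2 * m ^ 2 + 1 : ℕ) : ℝ) * Fintype.card EB * (K j * Real.log ((n j : ℝ) ^ 2 + 1)) ≤
      ((2 * m ^ 2 + 1 : ℕ) : ℝ) * Q * (δ ^ 2 / 2 / (((2 * m ^ 2 + 1 : ℕ) : ℝ) * Q) * M j) := by
    gcongr
    linarith only [hQE]
  rw [← mul_assoc _ _ (M j : ℝ), mul_div_cancel₀ _ hr.ne'] at c4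
  obtain ⟨err, e0, e1, e2⟩ := CL_fin (G := Fin (M j)) eb R.bal.h3 hDC ep R.ne D hD
    (s := 4 * (Fintype.card EB * η)) (C0 := C0) hC hM j1.1 hm hη (by nlinarith only [hQ1, hη2]) hδ
    (by nlinarith only [hm1, hM1, hE0, mul_le_mul_of_nonneg_left (add_le_add hm1 hM1) hE0])
    (fun l f => hmom (n j) (M j) _ l some _ (Option.some_injective _) j2.1 (j2.2.trans hb) c1 c2 f)
    (by simpa only [Fintype.card_fin] using j3)
    (c3.trans (by rw [Fintype.card_fin]; linarith only [j4, c4]))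
  refine ⟨err, e0, e1.trans ?_, e2⟩
  rw [← hQ]
  have b0 : 0 ≤ Fintype.card EB * η := by positivity
  have b1 : 15 * (Fintype.card EB * η) ≤ 15 * Q * η := by rw [hQE]; nlinarith only [hη]
  have b2 := mul_le_mul_of_nonneg_left hδ2 hE0
  have b3 := mul_le_mul_of_nonneg_left (add_le_add hC1 hδ1) hE0
  have b4 : (2 + 4 * (Fintype.card EB * η)) * (Fintype.card EB * (2 * δ * Q / η)) ≤
      3 * (Fintype.card EB * η) := mul_le_mul (by linarith only [hη2, b1]) b2 (by positivity) (by norm_num)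
  linarith only [hη1, b1, b3, b4]

end Pool.Agent.Work.MP_d4a230_co.U
end
end

-- merged part: Pool.Agent.Work.MP_d4a230_co.V.TP
section
-- merged part: Pool.Agent.Work.MP_d4a230_co.U.Couple
section
-- merged part: Pool.Agent.Work.MP_d4a230_co.U.P3
section
/-!
Tools for the Bernoulli product expectation Ex (file Work/MP_07f1b5_pr/Basic: wt, Ex, Adm,
Ex_split, Ex_affine, Ex_indep, wt_eq).
PLAN. Ex_ins: Ex p f = p i * Ex p (f (insert i .)) + (1 - p i) * Ex p (f (erase . i)) (pair ω with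
its flip at i). russo: HasDerivAt.finset_prod for the weight wt, wt_eq, and the same pairing.
Ex_prod: Finset.prod_add / prod_univ_sum. Ex_mix: the map (ω, ω2) to (ω \ S ∪ ω2 ∩ S, ω2 \ S ∪ ω ∩ S)
is a weight preserving involution. Ex_inter, Ex_map: compare weights of fibres, or induct, or test
on the functions ind (ω = A) written as products and use a two-sided product formula
Ex p (prod over all i of if i in ω then g i else h i) = prod (p i g i + (1 - p i) h i).
Ex_abs_lin: Cauchy-Schwarz and the second moment through Ex_ins.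
-/

namespace Pool.Agent.Work.MP_d4a230_co.U

open Finset Filter Topology Pool.Agent.Work.MP_07f1b5_pr
open scoped BigOperators


variable {ι : Type} [Fintype ι] [DecidableEq ι]

lemma P3_upd0 (p : ι → ℝ) (i : ι) (f : Finset ι → ℝ) :
    Ex (Function.update p i 0) f = Ex p fun ω => f (ω.erase i) := by
  have h : ∀ ω, wt (Function.update p i 0) ω ≠ 0 → ω.erase i = ω := fun ω h =>
    erase_eq_of_notMem fun hi => ne_zero_of_wt_ne h hi (Function.update_self ..)
  rw [Ex_split p i, Ex_congr_ae (f := fun ω => f (ω.erase i)) (g := f) fun ω hω => by rw [h ω hω],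
    Ex_congr_ae (f := fun ω => f ((insert i ω).erase i)) (g := f) fun ω hω => by
      rw [erase_insert_eq_erase, h ω hω]]
  ring

lemma P3_upd1 (p : ι → ℝ) (i : ι) (f : Finset ι → ℝ) :
    Ex (Function.update p i 1) f = Ex p fun ω => f (insert i ω) := by
  rw [Ex_update_one, P3_upd0]
  congr 1
  funext ω
  congr 1
  ext j
  by_cases h : j = i <;> simp [h]

omit [DecidableEq ι] in
lemma P3_all (P : ι → Prop) : ∏ j, ind (P j) = ind (∀ j, P j) := by
  by_cases h : ∀ j, P j
  · rw [ind_pos h]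
    exact prod_eq_one fun j _ => ind_pos (h j)
  · rw [ind_neg h]
    obtain ⟨j, hj⟩ := not_forall.1 h
    exact prod_eq_zero (mem_univ j) (ind_neg hj)

lemma P3_push {κ : Type} [Fintype κ] [DecidableEq κ] {p : ι → ℝ} {q : κ → ℝ}
    (Φ : Finset ι → Finset κ) (h : ∀ A, (Ex p fun ω => ind (Φ ω = A)) = wt q A)
    (f : Finset κ → ℝ) : (Ex p fun ω => f (Φ ω)) = Ex q f := by
  have e : ∀ B, f B = ∑ A, ind (B = A) * f A := fun B => by
    rw [sum_eq_single B (fun A _ hA => by rw [ind_neg hA.symm, zero_mul]) (by simp), ind_pos rfl,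
      one_mul]
  rw [show (fun ω => f (Φ ω)) = fun ω => ∑ A, ind (Φ ω = A) * f A from funext fun ω => e _, Ex_sum]
  exact sum_congr rfl fun A _ => by rw [Ex_mul_const, h]

lemma Ex_mono {p : ι → ℝ} (hp : Adm p) {f g : Finset ι → ℝ} (h : ∀ ω, f ω ≤ g ω) :
    Ex p f ≤ Ex p g := by
  exact Ex_mono_ae hp fun ω _ => h ω

lemma Ex_abs {p : ι → ℝ} (hp : Adm p) (f : Finset ι → ℝ) : |Ex p f| ≤ Ex p fun ω => |f ω| := by
  refine (abs_sum_le_sum_abs _ _).trans (le_of_eq (sum_congr rfl fun ω _ => ?_))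
  rw [abs_mul, abs_of_nonneg (wt_nonneg hp ω)]

lemma ex_Ex {X : Type} [Fintype X] (p : ι → ℝ) (f : X → Finset ι → ℝ) :
    𝔼 x, Ex p (f x) = Ex p fun ω => 𝔼 x, f x ω := by
  unfold Ex
  rw [expect_sum_comm]
  exact sum_congr rfl fun ω _ => (mul_expect _ _ _).symm

lemma Ex_comm {κ : Type} [Fintype κ] [DecidableEq κ] (p : ι → ℝ) (q : κ → ℝ)
    (f : Finset ι → Finset κ → ℝ) :
    (Ex p fun ω => Ex q (f ω)) = Ex q fun ξ => Ex p fun ω => f ω ξ := by
  simp only [Ex, mul_sum]
  rw [sum_comm]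
  exact sum_congr rfl fun _ _ => sum_congr rfl fun _ _ => by ring

lemma Ex_ins (p : ι → ℝ) (i : ι) (f : Finset ι → ℝ) :
    Ex p f = p i * (Ex p fun ω => f (insert i ω)) + (1 - p i) * Ex p fun ω => f (ω.erase i) := by
  rw [Ex_affine p i f, P3_upd0, P3_upd1, add_comm]

lemma Ex_mem (p : ι → ℝ) (i : ι) : (Ex p fun ω => ind (i ∈ ω)) = p i := by
  rw [Ex_ins p i]
  simp only [ind_pos (mem_insert_self i _), ind_neg (notMem_erase i _), Ex_const]
  ring

lemma Ex_erase (p : ι → ℝ) (i : ι) (g : Finset ι → ℝ) :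
    (1 - p i) * (Ex p fun ω => g (ω.erase i)) = Ex p fun ω => ind (i ∉ ω) * g ω := by
  rw [Ex_ins p i fun ω => ind (i ∉ ω) * g ω]
  simp only [ind_pos (notMem_erase i _), ind_neg (not_not.2 (mem_insert_self i _)), zero_mul,
    one_mul, Ex_const, mul_zero, zero_add]

lemma Ex_erase_close {p : ι → ℝ} (hp : Adm p) (i : ι) (g : Finset ι → ℝ) {b : ℝ}
    (hg : ∀ ω, 0 ≤ g ω ∧ g ω ≤ b) : |(Ex p fun ω => g (ω.erase i)) - Ex p g| ≤ b * p i := by
  have k : ∀ φ : Finset ι → Finset ι, 0 ≤ (Ex p fun ω => g (φ ω)) ∧ (Ex p fun ω => g (φ ω)) ≤ b :=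
    fun φ => ⟨Ex_nonneg hp fun ω => (hg _).1, (Ex_mono hp fun ω => (hg _).2).trans_eq (Ex_const p b)⟩
  obtain ⟨a1, a2⟩ := k (insert i)
  obtain ⟨a3, a4⟩ := k fun ω => ω.erase i
  have h0 := (hp i).1
  rw [Ex_ins p i g, abs_le]
  constructor <;> nlinarith only [a2, h0, a3, a1, a4]

lemma russo (p q : ι → ℝ) (f : ℝ → Finset ι → ℝ) (f1 : Finset ι → ℝ) (t : ℝ)
    (hf : ∀ ω, HasDerivAt (fun s => f s ω) (f1 ω) t) :
    HasDerivAt (fun s => Ex (fun i => p i + s * q i) (f s))
      (∑ i, q i * (Ex (fun i => p i + t * q i) fun ω => f t (insert i ω) - f t (ω.erase i)) +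
        Ex (fun i => p i + t * q i) f1) t := by
  have hw : ∀ ω : Finset ι, HasDerivAt (fun s => wt (fun i => p i + s * q i) ω)
      (∑ i, q i * (wt (Function.update (fun i => p i + t * q i) i 1) ω -
        wt (Function.update (fun i => p i + t * q i) i 0) ω)) t := fun ω => by
    have h := HasDerivAt.fun_finsetProd (u := univ) (x := t)
      (f := fun i s => if i ∈ ω then p i + s * q i else 1 - (p i + s * q i))
      (f' := fun i => if i ∈ ω then q i else -q i) fun i _ => by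
        have h1 : HasDerivAt (fun s => p i + s * q i) (q i) t := by
          simpa using ((hasDerivAt_id t).mul_const (q i)).const_add (p i)
        split_ifs
        exacts [h1, h1.const_sub 1]
    refine h.congr_deriv (sum_congr rfl fun i _ => ?_)
    rw [wt_update, wt_update, smul_eq_mul]
    split_ifs <;> ring
  refine (HasDerivAt.fun_sum (u := univ) fun ω _ => (hw ω).fun_mul (hf ω)).congr_deriv ?_
  rw [sum_add_distrib]
  congr 1
  simp only [sum_mul]
  rw [sum_comm]
  refine sum_congr rfl fun i _ => ?_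
  rw [Ex_sub, ← P3_upd0, ← P3_upd1, Ex, Ex, ← sum_sub_distrib, mul_sum]
  exact sum_congr rfl fun ω _ => by ring

lemma Ex_prod_ite (p g h : ι → ℝ) :
    (Ex p fun ω => ∏ i, if i ∈ ω then g i else h i) = ∏ i, (p i * g i + (1 - p i) * h i) := by
  rw [prod_add, powerset_univ]
  refine sum_congr rfl fun ω _ => ?_
  rw [wt, ← prod_mul_distrib, ← prod_sdiff (subset_univ ω), mul_comm]
  congr 1
  · exact prod_congr rfl fun i hi => by rw [if_pos hi, if_pos hi]
  · exact prod_congr rfl fun i hi => by rw [if_neg (mem_sdiff.1 hi).2, if_neg (mem_sdiff.1 hi).2]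

lemma Ex_prod (p g : ι → ℝ) : (Ex p fun ω => ∏ i ∈ ω, g i) = ∏ i, (1 - p i + p i * g i) := by
  have h := Ex_prod_ite p g fun _ => 1
  simp only [prod_ite_mem, univ_inter, mul_one] at h
  rw [h]
  exact prod_congr rfl fun i _ => add_comm _ _

lemma Ex_prod_not (p g : ι → ℝ) (i0 : ι) :
    (Ex p fun ω => ind (i0 ∉ ω) * ∏ i ∈ ω, g i) =
      (1 - p i0) * ∏ i ∈ univ.erase i0, (1 - p i + p i * g i) := by
  have e : ∀ ω : Finset ι, ind (i0 ∉ ω) * ∏ i ∈ ω, g i = ∏ i ∈ ω, Function.update g i0 0 i :=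
    fun ω => by
      by_cases h : i0 ∈ ω
      · rw [ind_neg (not_not.2 h), zero_mul, prod_eq_zero h (Function.update_self ..)]
      · rw [ind_pos h, one_mul]
        exact prod_congr rfl fun i hi => (Function.update_of_ne (ne_of_mem_of_not_mem hi h) ..).symm
  simp only [e]
  rw [Ex_prod, ← mul_prod_erase _ _ (mem_univ i0), Function.update_self, mul_zero, add_zero]
  congr 1
  exact prod_congr rfl fun i hi => by rw [Function.update_of_ne (ne_of_mem_erase hi)]

lemma Ex_mix (p : ι → ℝ) (S : Finset ι) (f : Finset ι → ℝ) :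
    Ex p f = Ex p fun ω => Ex p fun ω2 => f (ω \ S ∪ ω2 ∩ S) := by
  let sw : Finset ι × Finset ι → Finset ι × Finset ι :=
    fun x => (x.1 \ S ∪ x.2 ∩ S, x.2 \ S ∪ x.1 ∩ S)
  have hinv : Function.Involutive sw := by
    rintro ⟨a, b⟩
    simp only [sw, Prod.mk.injEq]
    constructor <;> (ext x; by_cases hx : x ∈ S <;> simp [hx])
  have hw : ∀ x : Finset ι × Finset ι, wt p (sw x).1 * wt p (sw x).2 = wt p x.1 * wt p x.2 := by
    rintro ⟨a, b⟩
    unfold wt
    rw [← prod_mul_distrib, ← prod_mul_distrib]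
    refine prod_congr rfl fun e _ => ?_
    by_cases hx : e ∈ S <;> by_cases ha : e ∈ a <;> by_cases hb : e ∈ b <;>
      simp [sw, hx, ha, hb, mul_comm]
  have h : ∀ F : Finset ι → Finset ι → ℝ, (Ex p fun ω => Ex p (F ω)) =
      ∑ x : Finset ι × Finset ι, wt p x.1 * wt p x.2 * F x.1 x.2 := fun F => by
    simp only [Ex, mul_sum, Fintype.sum_prod_type, mul_assoc]
  rw [h, show Ex p f = Ex p fun ω => Ex p fun _ => f ω by simp only [Ex_const], h,
    ← Equiv.sum_comp hinv.toPerm]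
  exact sum_congr rfl fun x _ => by rw [Function.Involutive.coe_toPerm, hw]

lemma Ex_inter (p : ι → ℝ) (A : Finset ι) (f : Finset ι → ℝ) :
    (Ex p fun ω => f (ω ∩ A)) = Ex (fun i => p i * ind (i ∈ A)) f := by
  refine P3_push (fun ω => ω ∩ A) (fun B => ?_) f
  have e : ∀ ω : Finset ι, ind (ω ∩ A = B) =
      ∏ j, if j ∈ ω then ind (j ∈ A ↔ j ∈ B) else ind (j ∉ B) := fun ω => by
    simp only [← apply_ite ind, P3_all]
    refine ind_congr (Finset.ext_iff.trans (forall_congr' fun j => ?_))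
    by_cases h : j ∈ ω <;> simp [h]
  simp only [e]
  rw [Ex_prod_ite, wt]
  refine prod_congr rfl fun j _ => ?_
  by_cases h : j ∈ A <;> by_cases h' : j ∈ B <;> simp [h, h', ind]

lemma Ex_map {κ : Type} [Fintype κ] [DecidableEq κ] (e : κ → ι) (he : Function.Injective e)
    (p : ι → ℝ) (f : Finset κ → ℝ) :
    (Ex p fun ω => f (univ.filter fun i => e i ∈ ω)) = Ex (fun i => p (e i)) f := by
  refine P3_push (fun ω => univ.filter fun i => e i ∈ ω) (fun B => ?_) f
  have k : ∀ ω : Finset ι, ind ((univ.filter fun i => e i ∈ ω) = B) =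
      ∏ j, if j ∈ ω then ind (∀ i, e i = j → i ∈ B) else ind (∀ i, e i = j → i ∉ B) := fun ω => by
    simp only [← apply_ite ind, P3_all]
    refine ind_congr ⟨fun h j => ?_, fun h => Finset.ext fun i => ?_⟩
    · subst h
      split_ifs with hj <;> rintro i rfl <;> simp [hj]
    · have h1 := h (e i)
      split_ifs at h1 with hj <;> simp [hj, h1 i rfl]
  simp only [k]
  rw [Ex_prod_ite, wt]
  refine (Fintype.prod_of_injective e he _ _ (fun j hj => ?_) fun i => ?_).symm
  · rw [ind_pos fun i hi => (hj ⟨i, hi⟩).elim, ind_pos fun i hi => (hj ⟨i, hi⟩).elim]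
    ring
  · by_cases h : i ∈ B <;> simp [he.eq_iff, h, ind]

lemma Ex_det (A : Finset ι) (f : Finset ι → ℝ) : Ex (fun i => ind (i ∈ A)) f = f A := by
  refine (Ex_congr_ae fun ω h => ?_).trans (Ex_const _ _)
  congr 1
  exact Finset.ext fun i => ⟨fun hi => by_contra fun e => ne_zero_of_wt_ne h hi (ind_neg e),
    fun hi => mem_of_wt_ne h (ind_pos hi)⟩

lemma Ex_zero {p : ι → ℝ} (hp : ∀ i, p i = 0) (f : Finset ι → ℝ) : Ex p f = f ∅ := by
  refine (Ex_congr_ae fun ω h => ?_).trans (Ex_const _ _)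
  rw [eq_empty_of_forall_notMem fun i hi => ne_zero_of_wt_ne h hi (hp i)]

lemma Ex_one {p : ι → ℝ} (hp : ∀ i, p i = 1) (f : Finset ι → ℝ) : Ex p f = f univ := by
  refine (Ex_congr_ae fun ω h => ?_).trans (Ex_const _ _)
  rw [eq_univ_of_forall fun i => mem_of_wt_ne h (hp i)]

lemma Ex_abs_lin {p : ι → ℝ} (hp : Adm p) (c : ι → ℝ) :
    (Ex p fun ω => |∑ i, c i * (ind (i ∈ ω) - p i)|) ≤ Real.sqrt (∑ i, c i ^ 2) := by
  obtain ⟨X, hX⟩ : ∃ X : Finset ι → ℝ, ∀ ω, X ω = ∑ i, c i * (ind (i ∈ ω) - p i) :=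
    ⟨_, fun _ => rfl⟩
  simp only [← hX]
  have h0 : ∀ i j, i ≠ j → (Ex p fun ω => (ind (i ∈ ω) - p i) * (ind (j ∈ ω) - p j)) = 0 :=
    fun i j h => by
      rw [Ex_ins p i]
      simp only [ind_pos (mem_insert_self i _), ind_neg (notMem_erase i _), Ex_const_mul]
      simp only [mem_insert, mem_erase, h.symm, false_or, ne_eq, not_false_eq_true, true_and]
      ring
  have h1 : (Ex p fun ω => X ω ^ 2) ≤ ∑ i, c i ^ 2 := by
    have e : ∀ ω, X ω ^ 2 =
        ∑ i, ∑ j, c i * c j * ((ind (i ∈ ω) - p i) * (ind (j ∈ ω) - p j)) := fun ω => by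
      rw [hX, sq, sum_mul_sum]
      exact sum_congr rfl fun _ _ => sum_congr rfl fun _ _ => by ring
    simp only [e, Ex_sum, Ex_const_mul]
    refine sum_le_sum fun i _ => ?_
    rw [sum_eq_single i (fun j _ hj => by rw [h0 i j hj.symm, mul_zero]) (by simp), ← sq]
    refine mul_le_of_le_one_right (sq_nonneg _) ((Ex_mono hp fun ω => ?_).trans_eq (Ex_const p 1))
    nlinarith only [ind_nonneg (i ∈ ω), ind_le_one (i ∈ ω), (hp i).1, (hp i).2]
  refine Real.le_sqrt_of_sq_le (le_trans ?_ h1)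
  obtain ⟨m, hm⟩ : ∃ m, (Ex p fun ω => |X ω|) = m := ⟨_, rfl⟩
  have h2 : 0 ≤ Ex p fun ω => X ω ^ 2 - 2 * m * |X ω| + m ^ 2 :=
    Ex_nonneg hp fun ω => by nlinarith only [sq_nonneg (|X ω| - m), sq_abs (X ω)]
  rw [Ex_add, Ex_sub, Ex_const_mul, Ex_const, hm] at h2
  rw [hm]
  linarith

end Pool.Agent.Work.MP_d4a230_co.U
end

-- merged part: Pool.Agent.Work.MP_d4a230_co.U.Gib
section
/-!
Gibbs averages and partition functions.
PLAN. gib_prod: Finset.prod_univ_sum / Finset.sum_pow'. log_le_gib: on states with w > 0 use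
log x <= x - 1 for x = Z / (card * w s), weight by w s / Z and sum. logZ_lip: both partition
functions lie between Z0 and (1 + lam) Z0, Z0 the sum over σ without i (pair σ with σ.erase i).
good_sum: induction on B (one variable at a time, same pairing). log_ins: cw (insert c A) =
cw (A.erase c) * (1 - θ ind). log_var: split the sum over σ by i ∈ σ.
-/

namespace Pool.Agent.Work.MP_d4a230_co.U

open Finset Filter Topology Pool.Agent.Work.MP_07f1b5_pr
open scoped BigOperators


variable {S : Type} [Fintype S] {r : ℕ}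

lemma gib_add (w : S → ℝ) (F G : (Fin r → S) → ℝ) :
    gib r w (fun σ => F σ + G σ) = gib r w F + gib r w G := by
  unfold gib
  rw [← add_div, ← sum_add_distrib]
  simp only [mul_add]

lemma gib_sub (w : S → ℝ) (F G : (Fin r → S) → ℝ) :
    gib r w (fun σ => F σ - G σ) = gib r w F - gib r w G := by
  unfold gib
  rw [← sub_div, ← sum_sub_distrib]
  simp only [mul_sub]

lemma gib_mul (w : S → ℝ) (c : ℝ) (F : (Fin r → S) → ℝ) :
    gib r w (fun σ => c * F σ) = c * gib r w F := by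
  unfold gib
  rw [← mul_div_assoc, mul_sum]
  simp only [mul_left_comm c]

lemma gib_sum {κ : Type} (w : S → ℝ) (s : Finset κ) (F : κ → (Fin r → S) → ℝ) :
    gib r w (fun σ => ∑ k ∈ s, F k σ) = ∑ k ∈ s, gib r w (F k) := by
  unfold gib
  rw [← sum_div, sum_comm]
  simp only [mul_sum]

lemma gib_ex {κ : Type} [Fintype κ] (w : S → ℝ) (F : κ → (Fin r → S) → ℝ) :
    gib r w (fun σ => 𝔼 k, F k σ) = 𝔼 k, gib r w (F k) := by
  simp only [expect_eq_sum_div_card, div_eq_inv_mul]
  rw [gib_mul, gib_sum]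

lemma gib_mono {w : S → ℝ} (hw : ∀ s, 0 ≤ w s) {F G : (Fin r → S) → ℝ}
    (h : ∀ σ, (∀ l, w (σ l) ≠ 0) → F σ ≤ G σ) : gib r w F ≤ gib r w G := by
  unfold gib
  refine div_le_div_of_nonneg_right (sum_le_sum fun σ _ => ?_)
    (pow_nonneg (sum_nonneg fun s _ => hw s) _)
  by_cases hσ : ∀ l, w (σ l) ≠ 0
  · exact mul_le_mul_of_nonneg_left (h σ hσ) (prod_nonneg fun l _ => hw _)
  · push Not at hσ
    obtain ⟨l, hl⟩ := hσ
    rw [prod_eq_zero (mem_univ l) hl, zero_mul, zero_mul]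

lemma gib_const {w : S → ℝ} (hZ : ∑ s, w s ≠ 0) (c : ℝ) : gib r w (fun _ => c) = c := by
  unfold gib
  rw [← sum_mul, ← Fintype.sum_pow, mul_div_cancel_left₀ _ (pow_ne_zero _ hZ)]

lemma gib_abs {w : S → ℝ} (hw : ∀ s, 0 ≤ w s) (F : (Fin r → S) → ℝ) :
    |gib r w F| ≤ gib r w fun σ => |F σ| := by
  rw [abs_le]
  refine ⟨?_, gib_mono hw fun σ _ => le_abs_self _⟩
  have h := gib_mono (r := r) hw (F := fun σ => (-1) * |F σ|) (G := F) fun σ _ => by
    have := neg_abs_le (F σ)
    linarith only [this]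
  rw [gib_mul] at h
  linarith

lemma gib_prod (w f : S → ℝ) :
    gib r w (fun σ => ∏ l, f (σ l)) = ((∑ s, w s * f s) / ∑ s, w s) ^ r := by
  unfold gib
  rw [div_pow, Fintype.sum_pow (fun s => w s * f s)]
  simp only [prod_mul_distrib]

lemma log_le_gib {w g : S → ℝ} (hw : ∀ s, 0 ≤ w s) (hZ : 0 < ∑ s, w s)
    (h : ∀ s, w s ≤ Real.exp (g s)) :
    Real.log (∑ s, w s) ≤ gib 1 w (fun σ => g (σ 0)) + Real.log (Fintype.card S) := by
  have e : gib 1 w (fun σ => g (σ 0)) = (∑ s, w s * g s) / ∑ s, w s := by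
    have := gib_prod (r := 1) w g
    simpa only [Fin.prod_univ_succ, Fin.prod_univ_zero, mul_one, pow_one] using this
  have hne : Nonempty S := by
    by_contra hc
    rw [not_nonempty_iff] at hc
    simp at hZ
  have hc : (0 : ℝ) < Fintype.card S := Nat.cast_pos.2 Fintype.card_pos
  set Z := ∑ s, w s with hZd
  have key : ∀ s, w s * (Real.log Z - Real.log (Fintype.card S)) - w s * g s ≤
      Z / Fintype.card S - w s := by
    intro s
    rcases (hw s).eq_or_lt with h0 | h0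
    · rw [← h0]
      simp only [zero_mul, sub_zero]
      positivity
    · have h1 : Real.log (w s) ≤ g s := by
        have := Real.log_le_log h0 (h s)
        rwa [Real.log_exp] at this
      have h2 := Real.log_le_sub_one_of_pos (x := Z / Fintype.card S / w s) (by positivity)
      rw [Real.log_div (by positivity) h0.ne', Real.log_div hZ.ne' hc.ne'] at h2
      have h3 := mul_le_mul_of_nonneg_left h2 h0.le
      have h4 := mul_le_mul_of_nonneg_left h1 h0.le
      have h5 : w s * (Z / Fintype.card S / w s - 1) = Z / Fintype.card S - w s := by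
        field_simp
      nlinarith only [h3, h4, h5]
  have hs := sum_le_sum fun s (_ : s ∈ (univ : Finset S)) => key s
  rw [sum_sub_distrib, sum_sub_distrib, ← sum_mul, sum_const, card_univ, nsmul_eq_mul,
    mul_div_cancel₀ _ hc.ne', ← hZd] at hs
  rw [e, ← sub_le_iff_le_add, le_div_iff₀ hZ]
  linarith

variable {I : Type} [Fintype I] [DecidableEq I]

lemma Gib_fac {θ : ℝ} (h0 : 0 ≤ θ) (h1 : θ < 1) (q : Prop) :
    0 < 1 - θ * ind q ∧ 1 - θ * ind q ≤ 1 := by
  have a := mul_le_of_le_one_right h0 (ind_le_one q)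
  have b := mul_nonneg h0 (ind_nonneg q)
  constructor <;> linarith

lemma Gib_split (i : I) (F : Finset I → ℝ) :
    ∑ σ, F σ = ∑ σ, ind (i ∉ σ) * (F σ + F (insert i σ)) := by
  have e : ∀ T : Finset I → ℝ, ∑ σ, ind (i ∉ σ) * T σ = ∑ σ with i ∉ σ, T σ := fun T => by
    rw [sum_filter]
    refine sum_congr rfl fun σ _ => ?_
    by_cases hσ : i ∈ σ
    · rw [ind_neg (not_not.2 hσ), zero_mul, if_neg (not_not.2 hσ)]
    · rw [ind_pos hσ, one_mul, if_pos hσ]
  rw [e, sum_add_distrib, ← sum_filter_not_add_sum_filter univ (fun σ => i ∈ σ) F]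
  refine congrArg _ (sum_nbij' (fun σ => σ.erase i) (fun σ => insert i σ) ?_ ?_ ?_ ?_ ?_)
  · intro σ _
    simp
  · intro σ _
    simp
  · intro σ hσ
    exact insert_erase (mem_filter.1 hσ).2
  · intro σ hσ
    exact erase_insert (mem_filter.1 hσ).2
  · intro σ hσ
    rw [insert_erase (mem_filter.1 hσ).2]

lemma Gib_pos (i : I) {w : Finset I → ℝ} (h0 : ∀ σ, 0 ≤ w σ) (he : 0 < w ∅) :
    0 < ∑ σ, ind (i ∉ σ) * w σ :=
  sum_pos' (fun σ _ => mul_nonneg (ind_nonneg _) (h0 σ))
    ⟨∅, mem_univ _, by rw [ind_pos (notMem_empty i), one_mul]; exact he⟩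

lemma Gib_two {lam : ℝ} {w : Finset I → ℝ} (i : I) (h0 : ∀ σ, 0 ≤ w σ)
    (h1 : ∀ σ, w σ ≤ lam * w (σ.erase i) ∨ i ∉ σ) :
    ∑ σ, ind (i ∉ σ) * w σ ≤ ∑ σ, w σ ∧ ∑ σ, w σ ≤ (1 + lam) * ∑ σ, ind (i ∉ σ) * w σ := by
  refine ⟨sum_le_sum fun σ _ => mul_le_of_le_one_left (h0 σ) (ind_le_one _), ?_⟩
  rw [Gib_split i w, mul_sum]
  refine sum_le_sum fun σ _ => ?_
  by_cases hσ : i ∈ σ
  · rw [ind_neg (not_not.2 hσ)]
    simp
  · have := (h1 (insert i σ)).resolve_right (not_not.2 (mem_insert_self i σ))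
    rw [erase_insert hσ] at this
    rw [ind_pos hσ]
    linarith

lemma ind_cap (C : Finset I) (σ : Fin r → Finset I) : ind (C ⊆ cap σ) = ∏ l, ind (C ⊆ σ l) := by
  by_cases h : ∀ l, C ⊆ σ l
  · rw [ind_pos (show C ⊆ cap σ from Finset.le_inf fun l _ => h l)]
    exact (prod_eq_one fun l _ => ind_pos (h l)).symm
  · have h2 : ¬ C ⊆ cap σ := fun hc => h fun l =>
      Finset.Subset.trans hc (Finset.inf_le (f := σ) (mem_univ l))
    push Not at h
    obtain ⟨l, hl⟩ := h
    rw [ind_neg h2, prod_eq_zero (mem_univ l) (ind_neg hl)]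

lemma good_fug {lam : ℝ} (h : 0 ≤ lam) : Good lam (fug lam : Finset I → ℝ) := by
  refine ⟨fun σ => pow_nonneg h _, by simp [fug], fun σ i => le_of_eq ?_⟩
  unfold fug
  have e : insert i σ = insert i (σ.erase i) := by
    ext x
    by_cases hx : x = i <;> simp [hx]
  rw [e, card_insert_of_notMem (notMem_erase i σ), pow_succ']

lemma cw_bd {X : Type} {θ : ℝ} (h0 : 0 ≤ θ) (h1 : θ < 1) (sup : X → Finset I) (A : Finset X)
    (σ : Finset I) : 0 < cw θ sup A σ ∧ cw θ sup A σ ≤ 1 := by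
  exact ⟨prod_pos fun c _ => (Gib_fac h0 h1 _).1,
    prod_le_one (fun c _ => (Gib_fac h0 h1 _).1.le) fun c _ => (Gib_fac h0 h1 _).2⟩

lemma cw_anti {X : Type} {θ : ℝ} (h0 : 0 ≤ θ) (h1 : θ < 1) (sup : X → Finset I) (A : Finset X)
    {σ σ2 : Finset I} (h : σ ⊆ σ2) : cw θ sup A σ2 ≤ cw θ sup A σ := by
  refine prod_le_prod (fun c _ => (Gib_fac h0 h1 _).1.le) fun c _ => ?_
  have := mul_le_mul_of_nonneg_left
    (ind_mono (q := sup c ⊆ σ) (r := sup c ⊆ σ2) fun hc => hc.trans h) h0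
  linarith

lemma good_UV {X : Type} {lam θ : ℝ} (h : 0 ≤ lam) (h0 : 0 ≤ θ) (h1 : θ < 1) (sup : X → Finset I)
    (A : Finset X) : Good lam (UV lam θ sup A) := by
  obtain ⟨a, b, c⟩ := good_fug (I := I) h
  refine ⟨fun σ => mul_nonneg (a σ) (cw_bd h0 h1 sup A σ).1.le,
    mul_pos b (cw_bd h0 h1 sup A ∅).1, fun σ i => ?_⟩
  unfold UV
  rw [← mul_assoc]
  exact mul_le_mul (c σ i) (cw_anti h0 h1 sup A ((erase_subset i σ).trans (subset_insert i σ)))
    (cw_bd h0 h1 sup A _).1.le (mul_nonneg h (a _))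

lemma good_pres {lam : ℝ} (h : 0 ≤ lam) (P : Finset I) :
    Good lam fun σ : Finset I => fug lam σ * ind (σ ⊆ P) := by
  obtain ⟨a, b, c⟩ := good_fug (I := I) h
  refine ⟨fun σ => mul_nonneg (a σ) (ind_nonneg _), ?_, fun σ i => ?_⟩
  · show 0 < fug lam ∅ * ind (∅ ⊆ P)
    rw [ind_pos (empty_subset P), mul_one]
    exact b
  · show fug lam _ * ind _ ≤ lam * (fug lam _ * ind _)
    rw [← mul_assoc]
    exact mul_le_mul (c σ i)
      (ind_mono fun hc => ((erase_subset i σ).trans (subset_insert i σ)).trans hc)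
      (ind_nonneg _) (mul_nonneg h (a _))

lemma good_sum {lam : ℝ} (hl : 0 ≤ lam) {U : Finset I → ℝ} (hU : Good lam U) (B : Finset I)
    (f : Finset I → ℝ) (hf : ∀ σ, 0 ≤ f σ) :
    ∑ σ, U σ * f (σ \ B) ≤ (1 + lam) ^ B.card * ∑ σ, ind (Disjoint σ B) * (U σ * f σ) := by
  induction B using Finset.induction_on generalizing f with
  | empty =>
    simp only [sdiff_empty, card_empty, pow_zero, one_mul, disjoint_empty_right]
    exact le_of_eq (sum_congr rfl fun σ _ => by rw [ind_pos trivial, one_mul])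
  | insert i B hi ih =>
    have h1 := ih (fun τ => f (τ.erase i)) fun τ => hf _
    simp only [← sdiff_insert] at h1
    refine h1.trans ?_
    rw [card_insert_of_notMem hi, pow_succ, mul_assoc]
    refine mul_le_mul_of_nonneg_left ?_ (pow_nonneg (by linarith) _)
    rw [Gib_split i, mul_sum]
    refine sum_le_sum fun σ _ => ?_
    by_cases hσ : i ∈ σ
    · rw [ind_neg (not_not.2 hσ), zero_mul]
      exact mul_nonneg (by linarith) (mul_nonneg (ind_nonneg _) (mul_nonneg (hU.1 _) (hf _)))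
    · have e1 : ind (Disjoint (insert i σ) B) = ind (Disjoint σ B) :=
        ind_congr (by rw [disjoint_insert_left]; exact and_iff_right hi)
      have e2 : ind (Disjoint σ (insert i B)) = ind (Disjoint σ B) :=
        ind_congr (by rw [disjoint_insert_right]; exact and_iff_right hσ)
      have h3 := hU.2.2 σ i
      rw [erase_eq_of_notMem hσ] at h3
      rw [ind_pos hσ, one_mul, e1, e2, erase_insert hσ, erase_eq_of_notMem hσ]
      have h4 := mul_le_mul_of_nonneg_left (mul_le_mul_of_nonneg_right h3 (hf σ))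
        (ind_nonneg (Disjoint σ B))
      linarith

lemma sum_fug (lam : ℝ) : ∑ σ : Finset I, fug lam σ = (1 + lam) ^ Fintype.card I := by
  have := Fintype.sum_pow_mul_eq_add_pow I lam 1
  simpa only [one_pow, mul_one, add_comm lam 1, fug] using this

lemma logZ_lip {lam : ℝ} (hl : 0 ≤ lam) {w w2 : Finset I → ℝ} (i : I) (h0 : ∀ σ, 0 ≤ w σ)
    (h0b : ∀ σ, 0 ≤ w2 σ) (he : 0 < w ∅) (h : ∀ σ, i ∉ σ → w σ = w2 σ)
    (h1 : ∀ σ, w σ ≤ lam * w (σ.erase i) ∨ i ∉ σ) (h2 : ∀ σ, w2 σ ≤ lam * w2 (σ.erase i) ∨ i ∉ σ) :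
    |Real.log (∑ σ, w σ) - Real.log (∑ σ, w2 σ)| ≤ Real.log (1 + lam) := by
  obtain ⟨a1, a2⟩ := Gib_two i h0 h1
  obtain ⟨b1, b2⟩ := Gib_two i h0b h2
  have e : ∑ σ, ind (i ∉ σ) * w2 σ = ∑ σ, ind (i ∉ σ) * w σ := sum_congr rfl fun σ _ => by
    by_cases hσ : i ∈ σ
    · rw [ind_neg (not_not.2 hσ), zero_mul, zero_mul]
    · rw [h σ hσ]
  rw [e] at b1 b2
  have hp := Gib_pos i h0 he
  have hl1 : 0 < 1 + lam := by linarith
  have c1 := Real.log_le_log hp a1
  have c2 := Real.log_le_log (hp.trans_le a1) a2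
  have c3 := Real.log_le_log hp b1
  have c4 := Real.log_le_log (hp.trans_le b1) b2
  rw [Real.log_mul hl1.ne' hp.ne'] at c2 c4
  rw [abs_le]
  constructor <;> linarith

/-- Switching on one constraint. -/
lemma log_ins {θ : ℝ} (h0 : 0 ≤ θ) (h1 : θ < 1) {U g : Finset I → ℝ}
    (hU : ∀ σ, 0 ≤ U σ) (hZ : 0 < ∑ σ, U σ) (hg : ∀ σ, 0 ≤ g σ ∧ g σ ≤ 1) :
    Real.log (∑ σ, U σ * (1 - θ * g σ)) - Real.log (∑ σ, U σ) =
      Real.log (1 - θ * ((∑ σ, U σ * g σ) / ∑ σ, U σ)) := by
  have h2 : (∑ σ, U σ * g σ) / ∑ σ, U σ ≤ 1 := by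
    rw [div_le_one hZ]
    exact sum_le_sum fun σ _ => mul_le_of_le_one_right (hU σ) (hg σ).2
  have h3 : 0 < 1 - θ * ((∑ σ, U σ * g σ) / ∑ σ, U σ) := by
    have := mul_le_mul_of_nonneg_left h2 h0
    linarith only [h1, this]
  have e : ∑ σ, U σ * (1 - θ * g σ) =
      (∑ σ, U σ) * (1 - θ * ((∑ σ, U σ * g σ) / ∑ σ, U σ)) := by
    have : ∑ σ, U σ * (1 - θ * g σ) = ∑ σ, U σ - θ * ∑ σ, U σ * g σ := by
      rw [mul_sum, ← sum_sub_distrib]
      exact sum_congr rfl fun σ _ => by ring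
    rw [this]
    field_simp
  rw [e, Real.log_mul hZ.ne' h3.ne']
  ring

/-- Switching on one variable. -/
lemma log_var {lam : ℝ} (hl : 0 ≤ lam) {w g : Finset I → ℝ} (i : I) (hw : ∀ σ, 0 ≤ w σ)
    (he : 0 < w ∅) (hg : ∀ σ, 0 ≤ g σ) (h : ∀ σ, i ∉ σ → w (insert i σ) = lam * (w σ * g σ)) :
    Real.log (∑ σ, w σ) - Real.log (∑ σ, ind (i ∉ σ) * w σ) =
      Real.log (1 + lam * ((∑ σ, ind (i ∉ σ) * w σ * g σ) / ∑ σ, ind (i ∉ σ) * w σ)) := by
  have hp := Gib_pos i hw he
  have h2 : 0 ≤ ∑ σ, ind (i ∉ σ) * w σ * g σ :=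
    sum_nonneg fun σ _ => mul_nonneg (mul_nonneg (ind_nonneg _) (hw σ)) (hg σ)
  have h3 : 0 < 1 + lam * ((∑ σ, ind (i ∉ σ) * w σ * g σ) / ∑ σ, ind (i ∉ σ) * w σ) := by
    positivity
  have e : ∑ σ, w σ = (∑ σ, ind (i ∉ σ) * w σ) *
      (1 + lam * ((∑ σ, ind (i ∉ σ) * w σ * g σ) / ∑ σ, ind (i ∉ σ) * w σ)) := by
    have : ∑ σ, w σ = ∑ σ, ind (i ∉ σ) * w σ + lam * ∑ σ, ind (i ∉ σ) * w σ * g σ := by
      rw [Gib_split i w, mul_sum, ← sum_add_distrib]
      refine sum_congr rfl fun σ _ => ?_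
      by_cases hσ : i ∈ σ
      · rw [ind_neg (not_not.2 hσ)]
        ring
      · rw [h σ hσ]
        ring
    rw [this]
    field_simp
  rw [e, Real.log_mul hp.ne' h3.ne']
  ring

variable {V G : Type} [Fintype V] [DecidableEq V] [DecidableEq G]
  {W : Type} [Fintype W] [DecidableEq W] {H : SimpleGraph W} [DecidableRel H.Adj]

lemma aw_bd {θ : ℝ} (h0 : 0 ≤ θ) (h1 : θ < 1) (q : I → Sym2 V) (cp : I → G)
    (act : Finset (Finset I)) (σ : Finset I) : 0 < aw H θ q cp act σ ∧ aw H θ q cp act σ ≤ 1 := by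
  exact ⟨prod_pos fun c _ => (Gib_fac h0 h1 _).1,
    prod_le_one (fun c _ => (Gib_fac h0 h1 _).1.le) fun c _ => (Gib_fac h0 h1 _).2⟩

lemma aw_anti {θ : ℝ} (h0 : 0 ≤ θ) (h1 : θ < 1) (q : I → Sym2 V) (cp : I → G)
    (act : Finset (Finset I)) {σ σ2 : Finset I} (h : σ ⊆ σ2) :
    aw H θ q cp act σ2 ≤ aw H θ q cp act σ := by
  refine prod_le_prod (fun c _ => (Gib_fac h0 h1 _).1.le) fun c _ => ?_
  have := mul_le_mul_of_nonneg_left
    (ind_mono (q := Acd H q cp c ∧ c ⊆ σ) (r := Acd H q cp c ∧ c ⊆ σ2)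
      fun hc => ⟨hc.1, hc.2.trans h⟩) h0
  linarith only [this]

lemma Acd_congr {q q2 : I → Sym2 V} (cp : I → G) {C : Finset I} (h : ∀ i ∈ C, q i = q2 i) :
    Acd H q cp C ↔ Acd H q2 cp C := by
  unfold Acd
  rw [image_congr (s := C) (f := q) (g := q2) fun i hi => h i hi]

variable {α β : Type} [Fintype G] [Fintype α] [DecidableEq α] [Fintype β] [DecidableEq β]

lemma Wt_nonneg {lam θ : ℝ} (h0 : 0 ≤ θ) (h1 : θ < 1) (ep : β → α × α) {U : Finset (G × β) → ℝ}
    (hU : Good lam U) (y : G → α → V) (act : Finset (Finset (G × β))) (σ : Finset (G × β)) :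
    0 ≤ Wt H θ ep U y act σ := by
  exact mul_nonneg (hU.1 σ) (aw_bd h0 h1 _ _ act σ).1.le

lemma Wt_sum_pos {lam θ : ℝ} (h0 : 0 ≤ θ) (h1 : θ < 1) (ep : β → α × α) {U : Finset (G × β) → ℝ}
    (hU : Good lam U) (y : G → α → V) (act : Finset (Finset (G × β))) :
    0 < ∑ σ, Wt H θ ep U y act σ := by
  exact sum_pos' (fun σ _ => Wt_nonneg h0 h1 ep hU y act σ)
    ⟨∅, mem_univ _, mul_pos hU.2.1 (aw_bd h0 h1 _ _ act ∅).1⟩

section EG

variable {lam θ τ : ℝ} {ep : β → α × α} {U : Finset (G × β) → ℝ}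
  {F F2 : (G → α → V) → Finset (Finset (G × β)) → (Fin r → Finset (G × β)) → ℝ}

lemma EG_add : EG H θ τ ep U r (fun y a σ => F y a σ + F2 y a σ) =
    EG H θ τ ep U r F + EG H θ τ ep U r F2 := by
  unfold EG
  simp only [gib_add, E_add, expect_add_distrib]

lemma EG_sub : EG H θ τ ep U r (fun y a σ => F y a σ - F2 y a σ) =
    EG H θ τ ep U r F - EG H θ τ ep U r F2 := by
  unfold EG
  simp only [gib_sub, E_sub, expect_sub_distrib]

lemma EG_mul (c : ℝ) : EG H θ τ ep U r (fun y a σ => c * F y a σ) = c * EG H θ τ ep U r F := by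
  unfold EG
  simp only [gib_mul, E_const_mul, mul_expect]

lemma EG_sum {κ : Type} (s : Finset κ)
    (F : κ → (G → α → V) → Finset (Finset (G × β)) → (Fin r → Finset (G × β)) → ℝ) :
    EG H θ τ ep U r (fun y a σ => ∑ k ∈ s, F k y a σ) = ∑ k ∈ s, EG H θ τ ep U r (F k) := by
  unfold EG
  simp only [gib_sum, E_sum, expect_sum_comm]

lemma EG_mono (h0 : 0 ≤ θ) (h1 : θ < 1) (t0 : 0 ≤ τ) (t1 : τ ≤ 1) (hU : Good lam U)
    (h : ∀ y a σ, (∀ l, U (σ l) ≠ 0) → F y a σ ≤ F2 y a σ) :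
    EG H θ τ ep U r F ≤ EG H θ τ ep U r F2 := by
  refine ex_mono fun y => E_mono t0 t1 fun a => gib_mono (Wt_nonneg h0 h1 ep hU y a)
    fun σ hσ => h y a σ fun l hl => hσ l ?_
  unfold Wt
  rw [hl, zero_mul]

lemma EG_abs (h0 : 0 ≤ θ) (h1 : θ < 1) (t0 : 0 ≤ τ) (t1 : τ ≤ 1) (hU : Good lam U) :
    |EG H θ τ ep U r F| ≤ EG H θ τ ep U r fun y a σ => |F y a σ| := by
  exact (ex_abs _).trans (ex_mono fun y => (abs_E_le t0 t1 _).trans
    (E_mono t0 t1 fun a => gib_abs (Wt_nonneg h0 h1 ep hU y a) _))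

/-- A function of the disorder only. -/
lemma EG_dis (h0 : 0 ≤ θ) (h1 : θ < 1) (hU : Good lam U)
    (g : (G → α → V) → Finset (Finset (G × β)) → ℝ) :
    EG H θ τ ep U r (fun y a _ => g y a) = 𝔼 y, E τ (g y) := by
  unfold EG
  simp only [gib_const (Wt_sum_pos h0 h1 ep hU _ _).ne']

lemma EG_pos (h0 : 0 ≤ θ) (h1 : θ < 1) (hU : Good lam U) (g : (G → α → V) → ℝ) :
    EG H θ τ ep U r (fun y _ _ => g y) = 𝔼 y, g y := by
  rw [EG_dis h0 h1 hU fun y _ => g y]
  simp only [E_const]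

end EG

end Pool.Agent.Work.MP_d4a230_co.U
end

-- merged part: Pool.Agent.Work.MP_d4a230_co.U.Trans
section
/-!
Transport of free energies along embeddings, products, regrouping.
PLAN. fv_map: the sum over σ reduces to σ = σ2.map e (other σ have U = 0); an active set C that is
not inside the range of e gives factor 1; Ex_map with C2 mapsto C2.map e. lz_fv: Ex_inter with
A = filter Acd. lz_map: lz_fv twice and fv_map (Acd is invariant: image of a map, card_map, InjOn).
fe_sub: lz_map and ex_curry / ex_comp_inj (y mapsto fun g a => y (eg g a).1 (eg g a).2).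
fv_prod: the partition function is a product over g (Finset σ of G × β corresponds to G → Finset β,
Finset.prod_univ_sum), log of a product, Ex_sum, Ex_map with C mapsto (g, C).
regroup: embed Fin M × β into Fin N; lz monotone in U (drop the variables outside the image);
fe_sub-like transport to the matching pattern but with the finer component map; the two weights
differ by the active sets C that are copies with two variables in one group, each costs a factor
1 - θ, so the logs differ by at most -log(1-θ) times their number; its mean is at most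
τ * (M b * b) * k^2 * (M b)^(k-2) * n^v * (2/n^2)^k (label C by the edges; ex_prod_indep, ex_hit)
= rate * aut * b * k.
-/

namespace Pool.Agent.Work.MP_d4a230_co.U

open Finset Filter Topology Pool.Agent.Work.MP_07f1b5_pr
open scoped BigOperators


variable {I I2 V G G2 : Type} [Fintype I] [DecidableEq I] [Fintype I2] [DecidableEq I2] [Fintype V]
  [DecidableEq V] [DecidableEq G] [DecidableEq G2]
  {W : Type} [Fintype W] [DecidableEq W] {H : SimpleGraph W} [DecidableRel H.Adj]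

lemma Trans_cw {X X2 : Type} [Fintype X2] [DecidableEq X] (θ : ℝ) {e : X2 → X}
    (he : Function.Injective e) {sup : X → Finset I} {sup2 : X2 → Finset I2} {σ : Finset I}
    {σ2 : Finset I2} (h1 : ∀ c, sup (e c) ⊆ σ ↔ sup2 c ⊆ σ2) (h2 : ∀ c, sup c ⊆ σ → ∃ c2, e c2 = c)
    (ω : Finset X) : cw θ sup2 (univ.filter fun c => e c ∈ ω) σ2 = cw θ sup ω σ := by
  refine prod_of_injOn e he.injOn (fun c hc => (mem_filter.1 hc).2) (fun c hc hn => ?_)
    fun c _ => by rw [ind_congr (h1 c)]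
  rw [ind_neg, mul_zero, sub_zero]
  intro h
  obtain ⟨c2, rfl⟩ := h2 c h
  exact hn ⟨c2, mem_filter.2 ⟨mem_univ _, hc⟩, rfl⟩

lemma Trans_acd (e : I2 ↪ I) (q : I → Sym2 V) {cp : I → G} {cp2 : I2 → G2}
    (hc : ∀ i j, cp (e i) = cp (e j) ↔ cp2 i = cp2 j) (C : Finset I2) :
    Acd H q cp (C.map e) ↔ Acd H (fun i => q (e i)) cp2 C := by
  unfold Acd
  rw [card_map, map_eq_image, image_image]
  refine and_congr Iff.rfl (and_congr Iff.rfl ⟨fun h i hi j hj k => ?_, fun h i hi j hj k => ?_⟩)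
  · exact e.injective (h (mem_image_of_mem _ hi) (mem_image_of_mem _ hj) ((hc i j).2 k))
  · obtain ⟨i, hi2, rfl⟩ := mem_image.1 hi
    obtain ⟨j, hj2, rfl⟩ := mem_image.1 hj
    rw [h hi2 hj2 ((hc i j).1 k)]

lemma Trans_pos {U w : Finset I → ℝ} (hU : ∀ σ, 0 ≤ U σ) (he : 0 < U ∅) (hw : ∀ σ, 0 < w σ) :
    0 < ∑ σ, U σ * w σ :=
  sum_pos' (fun σ _ => mul_nonneg (hU σ) (hw σ).le) ⟨∅, mem_univ _, mul_pos he (hw _)⟩

theorem fv_map (θ : ℝ) (e : I2 ↪ I) (p : Finset I → ℝ) (U : Finset I → ℝ)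
    (hU : ∀ σ, ¬ σ ⊆ univ.map e → U σ = 0) :
    FV θ p id U = FV θ (fun C => p (C.map e)) id fun σ => U (σ.map e) := by
  unfold FV
  rw [← Ex_map (fun C : Finset I2 => C.map e) (map_injective e) p]
  refine congrArg (Ex p) (funext fun ω => congrArg Real.log ?_)
  refine (Fintype.sum_of_injective (fun C : Finset I2 => C.map e) (map_injective e) _ _
    (fun σ hσ => ?_) fun σ => ?_).symm
  · rw [hU σ, zero_mul]
    intro h
    obtain ⟨u, -, rfl⟩ := subset_map_iff.1 h
    exact hσ ⟨u, rfl⟩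
  · rw [Trans_cw θ (map_injective e) (sup := id) (sup2 := id) (σ := σ.map e) (σ2 := σ) (fun c => map_subset_map)
      fun c h => ?_]
    obtain ⟨u, -, rfl⟩ := subset_map_iff.1 h
    exact ⟨u, rfl⟩

theorem lz_fv (θ τ : ℝ) (q : I → Sym2 V) (cp : I → G) (U : Finset I → ℝ) :
    LZ H θ τ q cp U = FV θ (fun C => τ * ind (Acd H q cp C)) id U := by
  classical
  have e : (fun C => τ * ind (Acd H q cp C)) =
      fun C => τ * ind (C ∈ univ.filter (Acd H q cp)) := funext fun C => by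
    rw [ind_congr (q := C ∈ univ.filter (Acd H q cp)) (r := Acd H q cp C) (by simp)]
  unfold FV LZ E
  rw [e, ← Ex_inter]
  refine congrArg (Ex _) (funext fun ω => congrArg Real.log (sum_congr rfl fun σ _ => ?_))
  rw [inter_filter, inter_univ, cw, prod_filter, aw]
  refine congrArg _ (prod_congr rfl fun C _ => ?_)
  split_ifs with h
  · rw [ind_congr (and_iff_right h)]
    rfl
  · rw [ind_neg fun k => h k.1, mul_zero, sub_zero]

theorem lz_map (θ τ : ℝ) (e : I2 ↪ I) (q : I → Sym2 V) (cp : I → G) (cp2 : I2 → G2)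
    (hc : ∀ i j, cp (e i) = cp (e j) ↔ cp2 i = cp2 j) (U : Finset I → ℝ)
    (hU : ∀ σ, ¬ σ ⊆ univ.map e → U σ = 0) :
    LZ H θ τ q cp U = LZ H θ τ (fun i => q (e i)) cp2 fun σ => U (σ.map e) := by
  rw [lz_fv, lz_fv, fv_map θ e _ U hU]
  simp only [Trans_acd e q hc]

theorem lz_mono {θ τ : ℝ} (h0 : 0 ≤ θ) (h1 : θ < 1) (t0 : 0 ≤ τ) (t1 : τ ≤ 1) (q : I → Sym2 V)
    (cp : I → G) {U U2 : Finset I → ℝ} (hU : ∀ σ, 0 ≤ U σ) (he : 0 < U ∅) (h : ∀ σ, U σ ≤ U2 σ) :
    LZ H θ τ q cp U ≤ LZ H θ τ q cp U2 := by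
  refine E_mono t0 t1 fun ω => Real.log_le_log
    (Trans_pos hU he fun σ => (aw_bd h0 h1 q cp ω σ).1) (sum_le_sum fun σ _ => ?_)
  exact mul_le_mul_of_nonneg_right (h σ) (aw_bd h0 h1 q cp ω σ).1.le

theorem fv_bd {X : Type} [Fintype X] [DecidableEq X] {lam θ : ℝ} (hl : 0 ≤ lam) (h0 : 0 ≤ θ)
    (h1 : θ < 1) {p : X → ℝ} (hp : Adm p) (sup : X → Finset I) (he : ∀ c, sup c = ∅ → p c = 0) :
    0 ≤ FV θ p sup (fug lam) ∧ FV θ p sup (fug lam) ≤ Fintype.card I * Real.log (1 + lam) := by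
  have g := good_fug (I := I) hl
  constructor
  · refine (Ex_const p 0).symm.trans_le (Ex_mono_ae hp fun ω hω => Real.log_nonneg ?_)
    refine le_trans (le_of_eq ?_) (single_le_sum (f := fun σ => fug lam σ * cw θ sup ω σ)
      (fun σ _ => mul_nonneg (g.1 σ) (cw_bd h0 h1 sup ω σ).1.le) (mem_univ ∅))
    rw [fug, card_empty, pow_zero, one_mul, cw, prod_eq_one fun c hc => ?_]
    rw [ind_neg fun k => ne_zero_of_wt_ne hω hc (he c (subset_empty.1 k)), mul_zero, sub_zero]
  · refine (Ex_mono hp fun ω => ?_).trans_eq (Ex_const p _)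
    rw [← Real.log_pow, ← sum_fug]
    exact Real.log_le_log (Trans_pos g.1 g.2.1 fun σ => (cw_bd h0 h1 sup ω σ).1)
      (sum_le_sum fun σ _ => mul_le_of_le_one_right (g.1 σ) (cw_bd h0 h1 sup ω σ).2)

theorem fu_eq (k : ℕ) (L lam θ : ℝ) (N : ℕ) :
    FV θ (fun C : Finset (Fin N × Unit) => L / ((N - 1).choose (k - 1) : ℝ) * ind (C.card = k)) id
      (fug lam) = FU k L lam θ N := by
  rw [fv_map θ (Equiv.prodUnique (Fin N) Unit).symm.toEmbedding _ _ fun σ h => by simp at h]
  simp only [card_map, fug]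
  rfl

variable {α β : Type} [Fintype G] [Fintype α] [DecidableEq α] [Fintype β] [DecidableEq β]

lemma Trans_Z (lam θ : ℝ) (A : Finset (G × Finset β)) :
    ∑ σ : Finset (G × β), fug lam σ * cw θ (fun c => c.2.image fun b => (c.1, b)) A σ =
      ∏ g, ∑ s : Finset β, fug lam s * cw θ id (univ.filter fun C => (g, C) ∈ A) s := by
  let e : Finset (G × β) ≃ (G → Finset β) :=
    ⟨fun σ g => univ.filter fun b => (g, b) ∈ σ, fun x => univ.filter fun i => i.2 ∈ x i.1,
      fun σ => by ext; simp, fun x => by ext; simp⟩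
  rw [Fintype.prod_sum]
  refine Fintype.sum_equiv e _ _ fun σ => ?_
  have k : ∀ {X : Type} [Fintype X] [DecidableEq X] (S : Finset (G × X)) (F : G × X → ℝ),
      ∏ c ∈ S, F c = ∏ g, ∏ x ∈ univ.filter fun x => (g, x) ∈ S, F (g, x) := fun S F => by
    simp only [prod_filter]
    rw [← Fintype.prod_prod_type (f := fun c => if c ∈ S then F c else 1), ← prod_filter]
    simp
  rw [prod_mul_distrib, fug, ← prod_const, k, cw, k]
  refine congrArg₂ _ (prod_congr rfl fun g _ => prod_const _)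
    (prod_congr rfl fun g _ => prod_congr rfl fun C _ => ?_)
  refine congrArg (1 - θ * ·) (ind_congr ?_)
  simp only [subset_iff, e, Equiv.coe_fn_mk, mem_filter, mem_univ, true_and, id]
  exact ⟨fun h b hb => h (mem_image_of_mem _ hb), fun h x hx => by
    obtain ⟨b, hb, rfl⟩ := mem_image.1 hx
    exact h hb⟩

lemma Trans_ex [Nonempty V] [Fintype G2] {α2 : Type} [Fintype α2] [DecidableEq α2]
    (e : G2 × α2 → G × α) (he : Function.Injective e) (f : (G2 → α2 → V) → ℝ) :
    𝔼 y : G → α → V, f (fun g a => y (e (g, a)).1 (e (g, a)).2) = 𝔼 z, f z := by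
  rw [← ex_curry f, ← ex_comp_inj e he, ← ex_curry]

theorem fv_prod {lam θ : ℝ} (hl : 0 ≤ lam) (h0 : 0 ≤ θ) (h1 : θ < 1) (π : Finset β → ℝ) :
    FV θ (fun c : G × Finset β => π c.2) (fun c => c.2.image fun b => (c.1, b)) (fug lam) =
      Fintype.card G * FV θ π id (fug lam) := by
  have g := good_fug (I := β) hl
  unfold FV
  simp only [Trans_Z]
  rw [funext fun A : Finset (G × Finset β) => Real.log_prod (s := univ)
    (f := fun g => ∑ s : Finset β, fug lam s * cw θ id (univ.filter fun C => (g, C) ∈ A) s)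
    fun x _ => (Trans_pos g.1 g.2.1 fun σ => (cw_bd h0 h1 id _ σ).1).ne', Ex_sum,
    sum_congr rfl fun x _ => Ex_map (fun C : Finset β => (x, C)) (Prod.mk_right_injective x) _
      fun A => Real.log (∑ s : Finset β, fug lam s * cw θ id A s)]
  simp only [sum_const, card_univ, nsmul_eq_mul]

/-- Restriction to a sub-pattern. -/
theorem fe_sub [Nonempty V] {α2 β2 : Type} [Fintype α2] [DecidableEq α2] [Fintype β2]
    [DecidableEq β2] (θ τ lam : ℝ) (ep : β → α × α) (ep2 : β2 → α2 × α2) (ea : α2 ↪ α)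
    (eb : β2 ↪ β) (h : ∀ b, ep (eb b) = (ea (ep2 b).1, ea (ep2 b).2)) :
    FE H V θ τ ep (fun σ : Finset (G × β) =>
        fug lam σ * ind (σ ⊆ univ.filter fun i => i.2 ∈ univ.map eb)) =
      FE H V θ τ ep2 (fug lam : Finset (G × β2) → ℝ) := by
  unfold FE
  rw [← Trans_ex (G := G) (Prod.map id ea) (Function.injective_id.prodMap ea.injective)]
  refine expect_congr rfl fun y _ => ?_
  rw [lz_map θ τ ((Function.Embedding.refl G).prodMap eb) _ _ Prod.fst (fun _ _ => Iff.rfl) _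
    fun σ hσ => ?_]
  · refine congrArg₂ (fun q U => LZ H θ τ q Prod.fst U) (funext fun i => ?_) (funext fun σ => ?_)
    · simp only [sp, sl, Function.Embedding.coe_prodMap, Prod.map, h]
      rfl
    · rw [ind_pos, mul_one, fug, fug, card_map]
      intro i hi
      obtain ⟨i, -, rfl⟩ := mem_map.1 hi
      exact mem_filter.2 ⟨mem_univ _, mem_map_of_mem _ (mem_univ _)⟩
  · rw [ind_neg, mul_zero]
    refine fun k => hσ fun i hi => ?_
    obtain ⟨b, -, hb⟩ := mem_map.1 (mem_filter.1 (k hi)).2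
    exact mem_map.2 ⟨(i.1, b), mem_univ _, Prod.ext rfl hb⟩

lemma Trans_cmp {θ τ : ℝ} (h0 : 0 ≤ θ) (h1 : θ < 1) (t0 : 0 ≤ τ) (t1 : τ ≤ 1) (q : I → Sym2 V)
    (cp : I → G) {U : Finset I → ℝ} (hU : ∀ σ, 0 ≤ U σ) (he : 0 < U ∅) :
    LZ H θ τ q cp U - τ * (∑ C, ind (Acd H q id C ∧ ¬ Set.InjOn cp C)) / (1 - θ) ≤
      LZ H θ τ q id U := by
  have e : τ * (∑ C, ind (Acd H q id C ∧ ¬ Set.InjOn cp C)) / (1 - θ) = E τ fun ω =>
      ∑ C, ind (C ∈ ω) * (ind (Acd H q id C ∧ ¬ Set.InjOn cp C) / (1 - θ)) := by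
    rw [E_sum, mul_div_assoc, sum_div, mul_sum]
    exact sum_congr rfl fun C _ => by rw [E, Ex_mul_const, Ex_mem]
  rw [e, LZ, ← E_sub]
  refine E_mono t0 t1 fun ω => ?_
  have a := fun C : Finset I => Gib_fac h0 h1 (Acd H q id C ∧ ¬ Set.InjOn cp C)
  have z := Trans_pos hU he fun σ => (aw_bd (H := H) h0 h1 q cp ω σ).1
  have b : 0 < ∏ C ∈ ω, (1 - θ * ind (Acd H q id C ∧ ¬ Set.InjOn cp C)) := prod_pos fun C _ => (a C).1
  refine le_trans ?_ (Real.log_le_log (mul_pos z b) ?_)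
  · rw [Real.log_mul z.ne' b.ne', Real.log_prod fun C _ => (a C).1.ne', sub_eq_add_neg,
      add_le_add_iff_left, ← sum_neg_distrib, ← sum_subset (subset_univ ω) fun C _ h => by
        rw [ind_neg h, zero_mul, neg_zero]]
    refine sum_le_sum fun C h => ?_
    rw [ind_pos h, one_mul]
    by_cases k : Acd H q id C ∧ ¬ Set.InjOn cp C
    · rw [ind_pos k, mul_one, one_div]
      linarith only [h1, Real.one_sub_inv_le_log_of_pos (sub_pos.2 h1)]
    · simp [ind_neg k]
  · rw [sum_mul]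
    refine sum_le_sum fun σ _ => ?_
    rw [mul_assoc, aw, aw, ← prod_mul_distrib]
    refine mul_le_mul_of_nonneg_left (prod_le_prod
      (fun C _ => (mul_pos (Gib_fac h0 h1 _).1 (a C).1).le) fun C _ => ?_) (hU σ)
    by_cases k : Acd H q id C ∧ C ⊆ σ
    · rw [ind_pos k]
      by_cases l : Set.InjOn cp C
      · rw [ind_pos (q := Acd H q cp C ∧ C ⊆ σ) ⟨⟨k.1.1, k.1.2.1, l⟩, k.2⟩]
        exact mul_le_of_le_one_right (by linarith) (a C).2
      · rw [ind_pos (q := Acd H q id C ∧ ¬ Set.InjOn cp C) ⟨k.1, l⟩]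
        exact mul_le_of_le_one_left (by linarith) (Gib_fac h0 h1 _).2
    · rw [ind_neg k, mul_zero, sub_zero]
      exact mul_le_one₀ (Gib_fac h0 h1 _).2 (a C).1.le (a C).2

lemma Trans_pt (i : I) (p : Sym2 V) :
    𝔼 z : I → Bool → V, ind (s(z i false, z i true) = p) ≤ 2 / (Fintype.card V : ℝ) ^ 2 := by
  induction p using Sym2.ind with | _ a b => ?_
  rw [ex_update i]
  refine ex_le (by positivity) fun y => ?_
  rw [← ex_hit Bool.false_ne_true (a, b)]
  refine ex_mono fun z => ?_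
  simp only [Function.update_self]
  exact le_mul_of_one_le_right (ind_nonneg _) (le_add_of_nonneg_right (ind_nonneg _))

lemma Trans_two {X : Type} [Fintype X] [DecidableEq X] {f f' : X} (h : f ≠ f') :
    ∑ ι : X → G × β, ind ((ι f).1 = (ι f').1) =
      (Fintype.card (G × β) : ℝ) ^ (Fintype.card X - 1) * Fintype.card β := by
  rw [Fintype.sum_equiv (Equiv.funSplitAt f' (G × β)) (fun ι => ind ((ι f).1 = (ι f').1))
    (fun x => ind ((x.2 ⟨f, h⟩).1 = x.1.1)) fun ι => rfl, Fintype.sum_prod_type_right,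
    sum_congr rfl (g := fun _ => (Fintype.card β : ℝ)) fun r _ => ?_, sum_const, card_univ,
    nsmul_eq_mul, Fintype.card_fun, Nat.cast_pow, Fintype.card_subtype_compl, Fintype.card_subtype_eq]
  rw [Fintype.sum_prod_type, sum_eq_single (r ⟨f, h⟩).1 (fun g _ k => sum_eq_zero fun b _ =>
    ind_neg k.symm) fun k => absurd (mem_univ _) k]
  simp [ind_pos]

lemma Trans_cnt [Nonempty V] :
    (𝔼 z : G × β → Bool → V, ∑ C : Finset (G × β),
      ind (Acd H (fun i => s(z i false, z i true)) id C ∧ ¬ Set.InjOn Prod.fst (C : Set (G × β)))) ≤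
    (Fintype.card V : ℝ) ^ Fintype.card W * ((H.edgeFinset.card : ℝ) ^ 2 *
      ((Fintype.card (G × β) : ℝ) ^ (H.edgeFinset.card - 1) * Fintype.card β) *
        (2 / (Fintype.card V : ℝ) ^ 2) ^ H.edgeFinset.card) := by
  let F : (W → V) × (H.edgeFinset → G × β) → (G × β → Bool → V) → Prop := fun x z =>
    Function.Injective x.2 ∧ (∃ p ∈ (univ : Finset (H.edgeFinset × H.edgeFinset)),
      p.1 ≠ p.2 ∧ (x.2 p.1).1 = (x.2 p.2).1) ∧
      ∀ f, s(z (x.2 f) false, z (x.2 f) true) = f.1.map x.1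
  have s1 : ∀ z : G × β → Bool → V, ∑ C : Finset (G × β),
      ind (Acd H (fun i => s(z i false, z i true)) id C ∧ ¬ Set.InjOn Prod.fst (C : Set (G × β))) ≤
      ∑ x, ind (F x z) := fun z => by
    calc _ ≤ ∑ C : Finset (G × β), ∑ x, ind (F x z ∧ univ.image x.2 = C) := by
          refine sum_le_sum fun C _ => le_trans (ind_mono fun ⟨⟨h1, h2, _⟩, h3⟩ => ?_)
            (ind_exists_le _ _)
          obtain ⟨φ, -, hφ⟩ := mem_image.1 h1
          have : ∀ f : H.edgeFinset, ∃ i ∈ C, s(z i false, z i true) = f.1.map φ := fun f =>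
            mem_image.1 (hφ ▸ mem_image_of_mem _ f.2)
          choose ι i1 i2 using this
          have hi : Function.Injective ι := fun f f' e =>
            Subtype.ext (Sym2.map.injective φ.injective (by rw [← i2, ← i2, e]))
          have hC : univ.image ι = C := eq_of_subset_of_card_le (image_subset_iff.2 fun f _ => i1 f)
            (by rw [card_image_of_injective _ hi, card_univ, Fintype.card_coe, h2])
          refine ⟨(φ, ι), mem_univ _, ⟨hi, ?_, i2⟩, hC⟩
          by_contra k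
          refine h3 fun i a j b c => ?_
          obtain ⟨f, -, rfl⟩ := mem_image.1 (hC.ge a)
          obtain ⟨f', -, rfl⟩ := mem_image.1 (hC.ge b)
          by_contra l
          exact k ⟨(f, f'), mem_univ _, fun e => l (congrArg ι e), c⟩
      _ = _ := by
          rw [sum_comm]
          refine sum_congr rfl fun x _ => ?_
          rw [sum_eq_single (univ.image x.2) (fun C _ e => ind_neg fun k => e k.2.symm)
            fun k => absurd (mem_univ _) k]
          exact ind_congr (and_iff_left rfl)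
  have s2 : ∀ x, 𝔼 z, ind (F x z) ≤ (∑ p : H.edgeFinset × H.edgeFinset,
      ind (p.1 ≠ p.2 ∧ (x.2 p.1).1 = (x.2 p.2).1)) *
        (2 / (Fintype.card V : ℝ) ^ 2) ^ H.edgeFinset.card := fun x => by
    refine le_trans ?_ (mul_le_mul_of_nonneg_right (ind_exists_le _ _) (by positivity))
    by_cases h : Function.Injective x.2 ∧ ∃ p ∈ (univ : Finset (H.edgeFinset × H.edgeFinset)),
      p.1 ≠ p.2 ∧ (x.2 p.1).1 = (x.2 p.2).1
    swap
    · have := mul_nonneg (ind_nonneg (∃ p ∈ (univ : Finset (H.edgeFinset × H.edgeFinset)),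
        p.1 ≠ p.2 ∧ (x.2 p.1).1 = (x.2 p.2).1))
        (by positivity : 0 ≤ (2 / (Fintype.card V : ℝ) ^ 2) ^ H.edgeFinset.card)
      exact ex_le this fun z => (ind_neg fun k => h ⟨k.1, k.2.1⟩).trans_le this
    rw [ind_pos h.2, one_mul]
    calc _ ≤ 𝔼 z : G × β → Bool → V, ∏ f, ind (s(z (x.2 f) false, z (x.2 f) true) = f.1.map x.1) :=
          ex_mono fun z => (ind_mono fun k => k.2.2).trans_eq (P3_all _).symm
      _ = ∏ f, 𝔼 z : G × β → Bool → V, ind (s(z (x.2 f) false, z (x.2 f) true) = f.1.map x.1) :=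
          ex_prod_indep _ (fun f => {x.2 f}) (fun f _ f' _ e => disjoint_singleton.2 (h.1.ne e)) _
            fun f _ y y' e => by rw [e _ (mem_singleton_self _)]
      _ ≤ ∏ _f : H.edgeFinset, 2 / (Fintype.card V : ℝ) ^ 2 :=
          prod_le_prod (fun _ _ => expect_nonneg fun _ _ => ind_nonneg _) fun f _ => Trans_pt _ _
      _ = _ := by rw [prod_const, card_univ, Fintype.card_coe]
  refine (ex_mono s1).trans ?_
  rw [expect_sum_comm]
  refine (sum_le_sum fun x _ => s2 x).trans ?_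
  rw [Fintype.sum_prod_type]
  simp only [sum_const, card_univ, nsmul_eq_mul, ← sum_mul]
  rw [Fintype.card_fun, Nat.cast_pow, sum_comm]
  refine mul_le_mul_of_nonneg_left (mul_le_mul_of_nonneg_right ?_ (by positivity)) (by positivity)
  refine (sum_le_card_nsmul (univ : Finset (H.edgeFinset × H.edgeFinset)) _ ((Fintype.card (G × β) : ℝ) ^ (H.edgeFinset.card - 1) *
    Fintype.card β) fun p _ => ?_).trans_eq (by
    rw [card_univ, Fintype.card_prod, Fintype.card_coe, nsmul_eq_mul, Nat.cast_mul, sq])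
  by_cases h : p.1 = p.2
  · rw [sum_eq_zero fun ι _ => ind_neg fun k => k.1 h]
    positivity
  · rw [← Fintype.card_coe, ← Trans_two (G := G) h]
    exact sum_le_sum fun ι _ => ind_mono fun k => k.2

theorem regroup {k0 : ℕ} (B : KBal H k0) {lam θ τ : ℝ} (hl : 0 ≤ lam) (h0 : 0 ≤ θ) (h1 : θ < 1) (t0 : 0 ≤ τ)
    (t1 : τ ≤ 1) {n N M : ℕ} (hn : 0 < n) (hM : M * Fintype.card β ≤ N) :
    FE H (Fin n) θ τ (epM β) (fug lam : Finset (Fin M × β) → ℝ) -
        rate H n (M * Fintype.card β) τ * aut H * Fintype.card β * H.edgeFinset.card / (1 - θ) ≤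
      FE H (Fin n) θ τ ep1 (fug lam : Finset (Fin N × Unit) → ℝ) := by
  have : Nonempty (Fin n) := ⟨⟨0, hn⟩⟩
  obtain ⟨j⟩ : Nonempty (Fin M × β ↪ Fin N) := Function.Embedding.nonempty_of_card_le (by simpa using hM)
  let e : Fin M × β ↪ Fin N × Unit := ⟨fun i => (j i, ()), fun a b h => j.injective (congrArg Prod.fst h)⟩
  have g := good_fug (I := Fin M × β) hl
  have g2 := good_pres hl (univ.map e)
  have a1 : FE H (Fin n) θ τ (epM β) (fug lam : Finset (Fin M × β) → ℝ) =
      𝔼 z : Fin M × β → Bool → Fin n,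
        LZ H θ τ (fun i => s(z i false, z i true)) Prod.fst (fug lam) :=
    (Trans_ex (fun x : Fin M × β × Bool => ((x.1, x.2.1), x.2.2))
      (Equiv.prodAssoc _ _ _).symm.injective _).symm
  have a2 : 𝔼 z : Fin M × β → Bool → Fin n,
      LZ H θ τ (fun i => s(z i false, z i true)) id (fug lam) ≤
      FE H (Fin n) θ τ ep1 (fug lam : Finset (Fin N × Unit) → ℝ) := by
    rw [← Trans_ex (Prod.map j id) (j.injective.prodMap Function.injective_id)]
    refine ex_mono fun y => le_trans (le_of_eq ?_) (lz_mono h0 h1 t0 t1 _ _ g2.1 g2.2.1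
      fun σ => mul_le_of_le_one_right (pow_nonneg hl _) (ind_le_one _))
    rw [lz_map θ τ e _ _ id (fun a b => j.injective.eq_iff) _
      fun σ hσ => by rw [ind_neg hσ, mul_zero]]
    refine congrArg (LZ H θ τ _ id) (funext fun σ => ?_)
    rw [ind_pos (map_subset_map.2 (subset_univ _)), mul_one, fug, fug, card_map]
  refine le_trans ?_ ((ex_mono fun z => Trans_cmp h0 h1 t0 t1 _ Prod.fst g.1 g.2.1).trans a2)
  simp only [div_eq_mul_inv _ (1 - θ)]
  rw [a1, expect_sub_distrib, ← expect_mul, ← mul_expect, sub_le_sub_iff_left]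
  refine mul_le_mul_of_nonneg_right ((mul_le_mul_of_nonneg_left Trans_cnt t0).trans_eq ?_)
    (inv_nonneg.2 (sub_pos.2 h1).le)
  obtain ⟨v, hv⟩ : ∃ v, Fintype.card W = v + 2 := ⟨Fintype.card W - 2, by have := B.h3; omega⟩
  obtain ⟨k, hk⟩ : ∃ k, H.edgeFinset.card = k + 1 :=
    ⟨H.edgeFinset.card - 1, by have := B.h3; have := B.hk; omega⟩
  have n0 : (n : ℝ) ≠ 0 := Nat.cast_ne_zero.2 hn.ne'
  have a0 : aut H ≠ 0 := RegK_aut.ne'
  rw [rate, hv, hk, Fintype.card_prod, Fintype.card_fin, Fintype.card_fin, Nat.add_sub_cancel,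
    Nat.add_sub_cancel, mul_div_right_comm 2 ((M * Fintype.card β : ℕ) : ℝ), mul_pow, pow_succ _ k]
  field_simp
  ring

end Pool.Agent.Work.MP_d4a230_co.U
end

-- merged part: Pool.Agent.Work.MP_d4a230_co.U.Simp
section
/-!
A simple pattern that is almost as good as independent positions.
PLAN. Call g bad for y if y g false = y g true or some g2 ≠ g has the same position; the mean number
of bad g is at most b (1/s + 2b/s^2) (ex_update, ex_hit). Choose y with LZ y - log(1+lam) bad y at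
least the mean (Finset.exists_le_of_expect_le or by contradiction). The positions of the good
variables are distinct proper pairs; as 2b <= s(s-1) extend them to an injective map q2 into proper
pairs (induct on the number of bad variables, or Function.Embedding extension by cardinality), and
put ep j = (q2 j).out. Changing the position of one variable changes each log Z by at most
log (1 + lam) (logZ_lip, Acd_congr, aw_anti). lz_map identifies Fin b × Unit with Fin b.
-/

namespace Pool.Agent.Work.MP_d4a230_co.U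

open Finset Filter Topology Pool.Agent.Work.MP_07f1b5_pr
open scoped BigOperators


variable {W : Type} [Fintype W] [DecidableEq W] {H : SimpleGraph W} [DecidableRel H.Adj]

section aux

variable {I V G : Type} [Fintype I] [DecidableEq I] [Fintype V] [DecidableEq V] [DecidableEq G]
  {lam θ τ : ℝ}

lemma Simp_one (hl : 0 ≤ lam) (h0 : 0 ≤ θ) (h1 : θ < 1) (t0 : 0 ≤ τ) (t1 : τ ≤ 1) (cp : I → G)
    {q q2 : I → Sym2 V} (i : I) (h : ∀ j, j ≠ i → q j = q2 j) :
    LZ H θ τ q cp (fug lam) ≤ LZ H θ τ q2 cp (fug lam) + Real.log (1 + lam) := by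
  have nn : ∀ (q : I → Sym2 V) act σ, 0 ≤ fug lam σ * aw H θ q cp act σ := fun q act σ =>
    mul_nonneg (pow_nonneg hl _) (aw_bd (H := H) h0 h1 q cp act σ).1.le
  have st : ∀ (q : I → Sym2 V) act σ, fug lam σ * aw H θ q cp act σ ≤
      lam * (fug lam (σ.erase i) * aw H θ q cp act (σ.erase i)) ∨ i ∉ σ := by
    intro q act σ
    by_cases hi : i ∈ σ
    · refine Or.inl ?_
      rw [← mul_assoc, fug, fug, ← pow_succ', card_erase_add_one hi]
      exact mul_le_mul_of_nonneg_left (aw_anti (H := H) h0 h1 q cp act (erase_subset i σ))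
        (pow_nonneg hl _)
    · exact Or.inr hi
  unfold LZ
  rw [← E_const (ι := Finset I) (p := τ) (Real.log (1 + lam)), ← E_add]
  refine E_mono t0 t1 fun act => ?_
  have := logZ_lip hl i (nn q act) (nn q2 act)
    (mul_pos (by simp [fug]) (aw_bd (H := H) h0 h1 q cp act ∅).1) (fun σ hi => by
      unfold aw
      congr 1
      refine prod_congr rfl fun C _ => ?_
      rw [ind_congr (and_congr_left fun hC => Acd_congr (H := H) cp fun j hj =>
        h j fun e => hi (e ▸ hC hj))]) (st q act) (st q2 act)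
  linarith only [this, (abs_le.1 this).2]

lemma Simp_many (hl : 0 ≤ lam) (h0 : 0 ≤ θ) (h1 : θ < 1) (t0 : 0 ≤ τ) (t1 : τ ≤ 1) (cp : I → G)
    (B : Finset I) {q q2 : I → Sym2 V} (h : ∀ j, j ∉ B → q j = q2 j) :
    LZ H θ τ q cp (fug lam) ≤ LZ H θ τ q2 cp (fug lam) + Real.log (1 + lam) * B.card := by
  induction B using Finset.induction_on generalizing q with
  | empty => rw [show q = q2 from funext fun j => h j (notMem_empty j)]; simp
  | insert i B hi ih =>
    have e1 := Simp_one (H := H) hl h0 h1 t0 t1 cp (q := q) (q2 := Function.update q i (q2 i)) i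
      fun j hj => (Function.update_of_ne hj _ _).symm
    have e2 := ih (q := Function.update q i (q2 i)) fun j hj => by
      by_cases e : j = i
      · rw [e, Function.update_self]
      · rw [Function.update_of_ne e]
        exact h j fun hh => (mem_insert.1 hh).elim e hj
    rw [card_insert_of_notMem hi]
    push_cast
    linarith

lemma Simp_ext (hc : Fintype.card I ≤ (Fintype.card V).choose 2) (q : I → Sym2 V) (B : Finset I)
    (h : ∀ i, i ∉ B → ¬ (q i).IsDiag ∧ ∀ j, j ≠ i → q j ≠ q i) :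
    ∃ q2 : I → Sym2 V, Function.Injective q2 ∧ (∀ i, ¬ (q2 i).IsDiag) ∧
      ∀ i, i ∉ B → q i = q2 i := by
  have hs : Bᶜ.image q ⊆ univ.filter fun p : Sym2 V => ¬ p.IsDiag := by
    intro p hp
    obtain ⟨i, hi, rfl⟩ := mem_image.1 hp
    exact mem_filter.2 ⟨mem_univ _, (h i (mem_compl.1 hi)).1⟩
  obtain ⟨t, t1, t2, t3⟩ := exists_subsuperset_card_eq (n := Fintype.card I) hs
    (card_image_le.trans (card_le_univ _))
    (by rw [← Fintype.card_subtype, Sym2.card_subtype_not_diag]; exact hc)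
  obtain ⟨g, hg⟩ := exists_equiv_extend_of_card_eq t3.symm t1 (fun i _ j hj e => by
    by_contra hne
    exact (h j (mem_compl.1 hj)).2 i hne e)
  exact ⟨fun i => g i, fun i j e => g.injective (Subtype.ext e),
    fun i => (mem_filter.1 (t2 (g i).2)).2, fun i hi => (hg i (mem_compl.2 hi)).symm⟩

lemma Simp_bad [Nonempty V] (g : I) :
    𝔼 y : I → Bool → V, ind (s(y g false, y g true).IsDiag ∨
      ∃ k ∈ univ.erase g, s(y k false, y k true) = s(y g false, y g true)) ≤
      1 / (Fintype.card V : ℝ) + 2 * Fintype.card I / (Fintype.card V : ℝ) ^ 2 := by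
  refine (ex_mono fun y => (ind_or_le _ _).trans (add_le_add le_rfl (ind_exists_le _ _))).trans ?_
  rw [expect_add_distrib, expect_sum_comm]
  refine add_le_add ?_ ?_
  · rw [ex_update g]
    refine ex_le (by positivity) fun y => ?_
    simp only [Function.update_self]
    rw [ex_update false]
    refine ex_le (by positivity) fun z => le_of_eq ?_
    simp only [Function.update_self, Function.update_of_ne (by decide : true ≠ false),
      Sym2.mk_isDiag_iff]
    rw [expect_eq_sum_div_card, sum_ind, filter_eq', if_pos (mem_univ _), card_singleton,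
      card_univ, Nat.cast_one]
  · refine (sum_le_card_nsmul _ _ (2 / (Fintype.card V : ℝ) ^ 2) fun k hk => ?_).trans ?_
    · rw [ex_update k]
      refine ex_le (by positivity) fun y => ?_
      simp only [Function.update_self, Function.update_of_ne (ne_of_mem_erase hk).symm]
      rw [← ex_hit (by decide : false ≠ true) (y g false, y g true)]
      exact ex_mono fun z => le_mul_of_one_le_right (ind_nonneg _)
        (le_add_of_nonneg_right (ind_nonneg _))
    · rw [nsmul_eq_mul, mul_comm (2 : ℝ), mul_div_assoc]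
      gcongr
      exact card_le_univ _

end aux

theorem simple {lam θ τ : ℝ} (hl : 0 ≤ lam) (h0 : 0 ≤ θ) (h1 : θ < 1) (t0 : 0 ≤ τ) (t1 : τ ≤ 1)
    {s b : ℕ} (hs : 0 < s) (hb : 2 * b ≤ s * (s - 1)) :
    ∃ ep : Fin b → Fin s × Fin s, (∀ j, (ep j).1 ≠ (ep j).2) ∧
      (Function.Injective fun j => s((ep j).1, (ep j).2)) ∧
      FE H (Fin s) θ τ ep1 (fug lam : Finset (Fin b × Unit) → ℝ) -
          Real.log (1 + lam) * (b * (1 / s + 2 * b / (s : ℝ) ^ 2)) ≤
        LZ H θ τ (fun j => s((ep j).1, (ep j).2)) id (fug lam) := by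
  classical
  have : Nonempty (Fin s) := ⟨⟨0, hs⟩⟩
  have hL : 0 ≤ Real.log (1 + lam) := Real.log_nonneg (by linarith only [hl])
  obtain ⟨bad, hbad⟩ : ∃ bad : (Fin b → Bool → Fin s) → Finset (Fin b), bad = fun y =>
    univ.filter fun g => s(y g false, y g true).IsDiag ∨
      ∃ k ∈ univ.erase g, s(y k false, y k true) = s(y g false, y g true) := ⟨_, rfl⟩
  have e1 : 𝔼 y, ((bad y).card : ℝ) ≤ b * (1 / s + 2 * b / (s : ℝ) ^ 2) := by
    simp only [hbad, ← sum_ind]
    rw [expect_sum_comm]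
    refine (sum_le_card_nsmul _ _ _ fun g _ => Simp_bad g).trans (le_of_eq ?_)
    simp only [nsmul_eq_mul, card_univ, Fintype.card_fin]
  obtain ⟨y, -, hy⟩ := exists_le_of_le_expect (s := univ) univ_nonempty
    (f := fun y => LZ H θ τ (sp ep1 y) Prod.fst (fug lam : Finset (Fin b × Unit) → ℝ) -
      Real.log (1 + lam) * (bad y).card)
    (a := FE H (Fin s) θ τ ep1 (fug lam : Finset (Fin b × Unit) → ℝ) -
      Real.log (1 + lam) * (b * (1 / s + 2 * b / (s : ℝ) ^ 2))) (by
      rw [expect_sub_distrib, ← mul_expect]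
      exact sub_le_sub_left (mul_le_mul_of_nonneg_left e1 hL) _)
  obtain ⟨q, q1, q2, q3⟩ := Simp_ext (I := Fin b) (V := Fin s)
    (by rw [Fintype.card_fin, Fintype.card_fin, Nat.choose_two_right]; omega)
    (fun g => s(y g false, y g true)) (bad y) fun g hg => by
      rw [hbad, mem_filter, not_and, not_or] at hg
      exact ⟨(hg (mem_univ _)).1, fun k hk e =>
        (hg (mem_univ _)).2 ⟨k, mem_erase.2 ⟨hk, mem_univ _⟩, e⟩⟩
  have out : ∀ p : Sym2 (Fin s), ∃ e : Fin s × Fin s, s(e.1, e.2) = p :=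
    fun p => Sym2.ind (fun a b => ⟨(a, b), rfl⟩) p
  choose o ho using out
  refine ⟨fun j => o (q j), fun j e => q2 j ?_, ?_, ?_⟩
  · rw [← ho (q j)]
    exact Sym2.mk_isDiag_iff.2 e
  · simpa only [ho] using q1
  · simp only [ho]
    have e2 := Simp_many (H := H) hl h0 h1 t0 t1 id (bad y) q3
    rw [lz_map θ τ (⟨fun j => (j, ()), fun _ _ e => congrArg Prod.fst e⟩ : Fin b ↪ Fin b × Unit)
      (sp ep1 y) Prod.fst id (fun _ _ => Iff.rfl) (fug lam)
      (fun σ h => (h fun i _ => mem_map.2 ⟨i.1, mem_univ _, rfl⟩).elim)] at hy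
    simp only [fug, card_map] at hy
    refine hy.trans (sub_le_iff_le_add.2 e2)

end Pool.Agent.Work.MP_d4a230_co.U
end

-- merged part: Pool.Agent.Work.MP_d4a230_co.U.Couple
section
/-!
From independent positions to the binomial random graph.
PLAN. transfer: let c ω = card (ω ∩ offd V). If N <= c ω there are 2^N descFactorial (c ω) N > 0 maps y
with Inj y and all positions in ω. So ind (A ω ∧ N <= c ω) <= sum over y of ind (Inj y ∧ into ω ∧ Bad y)
* φ (c ω), φ c = ind (N <= c) / (2^N descFactorial c N), and sum over y of ind (Inj y ∧ into ω) φ (c ω)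
<= 1. For Inj y the number κ y = E (ind (into ω) φ (c ω)) does not depend on y: by plant it is
p^N E φ (N + card (ω ∩ (offd \ image))), and the law of card (ω ∩ S) depends only on card S (Ex_map
with an enumeration Fin c → S). To avoid the exact count, use instead φ ω = 1 / (number of y with
Inj y into ω) and a permutation of Sym2 V that fixes offd and maps one image to the other (Ex_map
with e a bijection). inj_lb: induction on N (Fin.snoc or Fin.consEquiv), the new pair must avoid at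
most n + 2N ordered pairs; 1 - x >= exp (-2x) for x <= 1/2. size: N = floor (μ - μ^(2/3)) with
μ = p * C(n,2) → ∞; chernoff_low with u = a/(2μ), and mgf_le or Chebyshev for the upper tail.
-/

namespace Pool.Agent.Work.MP_d4a230_co.U

open Finset Filter Topology Pool.Agent.Work.MP_07f1b5_pr
open scoped BigOperators


variable {V : Type} [Fintype V] [DecidableEq V]

/-- The positions are distinct members of `S`. -/
def Couple_In {N : ℕ} (S : Finset (Sym2 V)) (y : Fin N → Bool → V) : Prop :=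
  (Function.Injective fun g => s(y g false, y g true)) ∧ ∀ g, s(y g false, y g true) ∈ S

lemma Couple_iff {N : ℕ} (ω : Finset (Sym2 V)) (y : Fin N → Bool → V) :
    Couple_In (ω ∩ offd V) y ↔ Inj y ∧ ∀ i, sp ep1 y i ∈ ω := by
  have e : ∀ i, sp ep1 y i = s(y i.1 false, y i.1 true) := fun _ => rfl
  simp only [Couple_In, Inj, mem_inter, offd, mem_filter, mem_univ, true_and, Sym2.mk_isDiag_iff, e]
  constructor
  · rintro ⟨h1, h2⟩
    exact ⟨⟨fun i j h => Prod.ext (h1 h) rfl, fun g => (h2 g).2⟩, fun i => (h2 i.1).1⟩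
  · rintro ⟨⟨h1, h2⟩, h3⟩
    exact ⟨fun g g' h => congrArg Prod.fst (@h1 (g, ()) (g', ()) h), fun g => ⟨h3 (g, ()), h2 g⟩⟩

lemma Couple_two {S : Finset (Sym2 V)} (hS : S ⊆ offd V) :
    ∑ z : Bool → V, ind (s(z false, z true) ∈ S) = 2 * (S.card : ℝ) := by
  have h1 : ∀ e : V × V, ind (s(e.1, e.2) ∈ S) = ∑ q ∈ S, hit q e := fun e => by
    by_cases h : e.1 = e.2
    · have h2 : s(e.1, e.2) ∉ S := fun k => by simpa [offd, h] using hS k
      rw [ind_neg h2, sum_eq_zero fun q hq => ?_]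
      rw [hit, ind_neg (by rintro rfl; exact h2 hq), zero_mul]
    · simp only [hit_of_ne _ h]
      rw [sum_ind, filter_eq']
      split_ifs with k
      · simp [ind_pos k]
      · simp [ind_neg k]
  refine (Fintype.sum_equiv (Equiv.boolArrowEquivProd V) _ (fun e => ind (s(e.1, e.2) ∈ S))
    fun _ => rfl).trans ?_
  simp only [h1]
  rw [sum_comm]
  simp [sum_hit, mul_comm]

omit [Fintype V] in
lemma Couple_card {N : ℕ} {S : Finset (Sym2 V)} {y : Fin N → Bool → V} (h : Couple_In S y) :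
    (univ.image fun g => s(y g false, y g true)) ⊆ S ∧
      (univ.image fun g => s(y g false, y g true)).card = N :=
  ⟨fun _ hq => by obtain ⟨g, -, rfl⟩ := mem_image.1 hq; exact h.2 g,
    by rw [card_image_of_injective _ h.1, card_univ, Fintype.card_fin]⟩

lemma Couple_cnt {S : Finset (Sym2 V)} (hS : S ⊆ offd V) (N : ℕ) :
    ∑ y : Fin N → Bool → V, ind (Couple_In S y) = ∏ i ∈ range N, 2 * ((S.card : ℝ) - i) := by
  induction N with
  | zero =>
    rw [Fintype.sum_unique, range_zero, prod_empty]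
    exact ind_pos ⟨fun g => g.elim0, fun g => g.elim0⟩
  | succ N ih =>
    rw [prod_range_succ, ← ih, sum_mul, ← (Fin.consEquiv fun _ => Bool → V).sum_comp,
      Fintype.sum_prod_type, sum_comm]
    refine sum_congr rfl fun y _ => ?_
    have e : ∀ z : Bool → V, Couple_In S (Fin.consEquiv (fun _ => Bool → V) (z, y)) ↔
        Couple_In S y ∧ s(z false, z true) ∈ S \ univ.image fun g => s(y g false, y g true) := by
      intro z
      have e1 : (fun g : Fin (N + 1) => s(Fin.consEquiv (fun _ => Bool → V) (z, y) g false,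
          Fin.consEquiv (fun _ => Bool → V) (z, y) g true)) =
          Fin.cons s(z false, z true) fun g => s(y g false, y g true) := by
        funext g
        cases g using Fin.cases <;> rfl
      unfold Couple_In
      rw [e1, Fin.cons_injective_iff, Fin.forall_fin_succ]
      simp only [Finset.mem_sdiff, mem_image, mem_univ, true_and, Set.mem_range]
      exact ⟨fun h => ⟨⟨h.1.2, h.2.2⟩, h.2.1, h.1.1⟩, fun h => ⟨⟨h.2.2, h.1.1⟩, h.2.1, h.1.2⟩⟩
    simp only [e, ind_and, ← mul_sum]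
    by_cases h : Couple_In S y
    · rw [Couple_two (sdiff_subset.trans hS), cast_card_sdiff (Couple_card h).1, (Couple_card h).2]
    · rw [ind_neg h, zero_mul, zero_mul]

lemma Couple_law {ι : Type} [Fintype ι] [DecidableEq ι] (p : ℝ) (S : Finset ι) {m : ℕ}
    (h : S.card = m) (g : ℕ → ℝ) :
    E p (fun ω => g (ω ∩ S).card) = E p fun ω : Finset (Fin m) => g ω.card := by
  let e : Fin m → ι := fun i => (S.equivFinOfCardEq h).symm i
  have he : Function.Injective e := Subtype.val_injective.comp (Equiv.injective _)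
  refine Eq.trans (E_congr fun ω => ?_) (Ex_map e he (fun _ => p) fun ω => g ω.card)
  rw [← card_image_of_injective _ he]
  congr 2
  ext a
  simp only [mem_inter, mem_image, mem_filter, mem_univ, true_and]
  constructor
  · rintro ⟨h1, h2⟩
    exact ⟨S.equivFinOfCardEq h ⟨a, h2⟩, by simpa [e] using h1, by simp [e]⟩
  · rintro ⟨i, h1, rfl⟩
    exact ⟨h1, Subtype.prop _⟩

lemma Couple_kap (p : ℝ) {N : ℕ} (g : ℕ → ℝ) {y : Fin N → Bool → V} (h : Inj y) :
    E p (fun ω => ind (Couple_In (ω ∩ offd V) y) * g (ω ∩ offd V).card) =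
      p ^ N * E p fun ω : Finset (Fin ((offd V).card - N)) => g (ω.card + N) := by
  have h1 : Couple_In (offd V) y := by simpa using (Couple_iff univ y).2 ⟨h, fun _ => mem_univ _⟩
  obtain ⟨h2, h3⟩ := Couple_card h1
  set Q := univ.image fun g => s(y g false, y g true) with hQ
  have h4 : ∀ ω, Couple_In (ω ∩ offd V) y ↔ Q ⊆ ω := fun ω =>
    ⟨fun k => (Couple_card k).1.trans inter_subset_left, fun k => ⟨h1.1, fun a =>
      mem_inter.2 ⟨k (mem_image_of_mem _ (mem_univ a)), h1.2 a⟩⟩⟩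
  simp only [h4]
  rw [plant, h3, ← Couple_law p (offd V \ Q) (by rw [card_sdiff_of_subset h2, h3]) fun c => g (c + N)]
  congr 1
  refine E_congr fun ω => ?_
  rw [← h3, ← card_union_of_disjoint (disjoint_of_subset_left inter_subset_right sdiff_disjoint)]
  congr 2
  ext a
  have := @h2 a
  simp only [mem_inter, mem_union, Finset.mem_sdiff]
  tauto

lemma Couple_tail {ι : Type} [Fintype ι] [DecidableEq ι] {p : ℝ} (p0 : 0 ≤ p) (p1 : p ≤ 1)
    (M : Finset ι) {u : ℝ} (hu : |u| ≤ 1) (a : ℝ) :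
    Pr p (fun ω => u * (p * M.card) + a ≤ u * (ω ∩ M).card) ≤
      Real.exp (u ^ 2 * (p * M.card) - a) := by
  have h1 := markov p0 p1 (f := fun ω => Real.exp u ^ (ω ∩ M).card) (fun ω => by positivity)
    (Real.exp_pos (u * (p * M.card) + a))
  refine (Pr_mono p0 p1 fun ω h => ?_).trans (h1.trans ?_)
  · rw [← Real.exp_nat_mul, mul_comm _ u]
    exact Real.exp_le_exp.2 h
  · rw [div_le_iff₀ (Real.exp_pos _), ← Real.exp_add]
    refine (mgf_le p0 p1 (Real.exp_pos u).le M).trans (Real.exp_le_exp.2 ?_)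
    have h2 := (abs_le.1 (Real.abs_exp_sub_one_sub_id_le hu)).2
    have h3 : 0 ≤ p * M.card := by positivity
    nlinarith only [h2, h3]

lemma Couple_offd : 2 * ((offd V).card : ℝ) = Fintype.card V * (Fintype.card V - 1) := by
  rw [offd, ← Fintype.card_subtype, Sym2.card_subtype_not_diag, Nat.cast_choose_two]
  ring

theorem transfer {p : ℝ} (p0 : 0 ≤ p) (p1 : p ≤ 1) {N : ℕ} (Bad : (Fin N → Bool → V) → Prop)
    (A : Finset (Sym2 V) → Prop)
    (h : ∀ ω, A ω → ∀ y, Inj y → (∀ i, sp ep1 y i ∈ ω) → Bad y) :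
    Pr p (fun ω => A ω ∧ N ≤ (ω ∩ offd V).card) * (𝔼 y : Fin N → Bool → V, ind (Inj y)) ≤
      𝔼 y, ind (Bad y) := by
  let g : ℕ → ℝ := fun c => |∏ i ∈ range N, 2 * ((c : ℝ) - i)|⁻¹
  have g0 : ∀ c, 0 ≤ g c := fun c => by positivity
  let κ : (Fin N → Bool → V) → ℝ := fun y =>
    E p fun ω => ind (Couple_In (ω ∩ offd V) y) * g (ω ∩ offd V).card
  have k0 : ∀ y, 0 ≤ κ y := fun y => E_nonneg p0 p1 fun ω => mul_nonneg (ind_nonneg _) (g0 _)
  have cg : ∀ ω : Finset (Sym2 V), ∑ y : Fin N → Bool → V,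
      ind (Couple_In (ω ∩ offd V) y) * g (ω ∩ offd V).card = ind (N ≤ (ω ∩ offd V).card) := by
    intro ω
    rw [← sum_mul, Couple_cnt inter_subset_right]
    by_cases hc : N ≤ (ω ∩ offd V).card
    · have : 0 < ∏ i ∈ range N, 2 * (((ω ∩ offd V).card : ℝ) - i) := prod_pos fun i hi =>
        mul_pos two_pos (sub_pos.2 (by exact_mod_cast (mem_range.1 hi).trans_le hc))
      rw [ind_pos hc]
      simp only [g, abs_of_pos this]
      exact mul_inv_cancel₀ this.ne'
    · rw [ind_neg hc, prod_eq_zero (mem_range.2 (not_le.1 hc)) (by simp), zero_mul]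
  have k1 : ∑ y, κ y ≤ 1 := by
    rw [← E_sum]
    exact E_le_one p0 p1 fun ω => (cg ω).trans_le (ind_le_one _)
  have k2 : ∀ y, κ y * ∑ y' : Fin N → Bool → V, ind (Inj y') ≤ 1 := fun y => by
    rw [mul_sum]
    refine (sum_le_sum fun y' _ => ?_).trans k1
    by_cases h' : Inj y'
    · by_cases h'' : Inj y
      · rw [ind_pos h', mul_one]
        exact ((Couple_kap p g h'').trans (Couple_kap p g h').symm).le
      · have : κ y = 0 := (E_congr fun ω => by
          rw [ind_neg fun k => h'' ((Couple_iff ω y).1 k).1, zero_mul]).trans (E_const 0)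
        rw [this, zero_mul]
        exact k0 y'
    · rw [ind_neg h', mul_zero]
      exact k0 y'
  have k3 : Pr p (fun ω => A ω ∧ N ≤ (ω ∩ offd V).card) ≤ ∑ y, ind (Bad y) * κ y := by
    simp only [κ, ← E_const_mul]
    rw [← E_sum]
    refine E_mono p0 p1 fun ω => ?_
    by_cases hA : A ω
    · rw [ind_and, ind_pos hA, one_mul, ← cg]
      refine sum_le_sum fun y _ => ?_
      by_cases hy : Couple_In (ω ∩ offd V) y
      · rw [ind_pos (h ω hA y ((Couple_iff ω y).1 hy).1 ((Couple_iff ω y).1 hy).2), one_mul]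
      · rw [ind_neg hy, zero_mul, mul_zero]
    · rw [ind_neg fun k => hA k.1]
      exact sum_nonneg fun y _ => mul_nonneg (ind_nonneg _) (mul_nonneg (ind_nonneg _) (g0 _))
  rw [Fintype.expect_eq_sum_div_card, Fintype.expect_eq_sum_div_card, ← mul_div_assoc]
  refine div_le_div_of_nonneg_right ?_ (Nat.cast_nonneg _)
  refine (mul_le_mul_of_nonneg_right k3 (sum_nonneg fun _ _ => ind_nonneg _)).trans ?_
  rw [sum_mul]
  refine sum_le_sum fun y _ => ?_
  rw [mul_assoc]
  exact mul_le_of_le_one_right (ind_nonneg _) (k2 y)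

theorem inj_lb [Nonempty V] {N : ℕ}
    (h : 2 * ((Fintype.card V : ℝ) + 2 * N) ≤ (Fintype.card V : ℝ) ^ 2) :
    Real.exp (-(2 * N * (((Fintype.card V : ℝ) + 2 * N) / (Fintype.card V : ℝ) ^ 2))) ≤
      𝔼 y : Fin N → Bool → V, ind (Inj y) := by
  have hn : (0 : ℝ) < (Fintype.card V : ℝ) ^ 2 := by
    have := Fintype.card_pos (α := V)
    positivity
  have e : ∀ y : Fin N → Bool → V, Inj y ↔ Couple_In (offd V) y := fun y => by
    simpa using (Couple_iff univ y).symm
  have hc : (Fintype.card (Fin N → Bool → V) : ℝ) = ∏ i ∈ range N, (Fintype.card V : ℝ) ^ 2 := by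
    simp
  set x := ((Fintype.card V : ℝ) + 2 * N) / (Fintype.card V : ℝ) ^ 2 with hx
  have x0 : 0 ≤ x := by positivity
  have x1 : x ≤ 1 / 2 := by rw [hx, div_le_iff₀ hn]; linarith only [h]
  have h1 : Real.exp (-(2 * x)) ≤ 1 - x := by
    have h2 := Real.add_one_le_exp (2 * x)
    rw [Real.exp_neg, inv_le_iff_one_le_mul₀ (Real.exp_pos _)]
    nlinarith only [h2, x0, x1]
  have h3 : Real.exp (-(2 * N * x)) = ∏ i ∈ range N, Real.exp (-(2 * x)) := by
    rw [prod_const, card_range, ← Real.exp_nat_mul]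
    congr 1
    ring
  simp only [e]
  rw [Fintype.expect_eq_sum_div_card, Couple_cnt Subset.rfl, hc, ← prod_div_distrib, h3]
  refine prod_le_prod (fun _ _ => (Real.exp_pos _).le) fun i hi => h1.trans ?_
  have h4 : (i : ℝ) ≤ N := by exact_mod_cast (mem_range.1 hi).le
  rw [le_div_iff₀ hn, sub_mul, hx, div_mul_cancel₀ _ hn.ne', mul_sub, Couple_offd]
  nlinarith only [h4]

theorem size {p : ℕ → ℝ} (p0 : ∀ n, 0 ≤ p n) (p1 : ∀ n, p n ≤ 1)
    (hinf : Tendsto (fun n : ℕ => p n * n) atTop atTop) : ∃ N : ℕ → ℕ,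
    Tendsto (fun n : ℕ => 2 * (N n : ℝ) / (n : ℝ) ^ 2 / p n) atTop (𝓝 1) ∧
    ∀ η : ℝ, 0 < η → Whp p fun n ω => N n ≤ (ω ∩ offd (Fin n)).card ∧
      ((ω ∩ offd (Fin n)).card : ℝ) ≤ (1 + η) * N n := by
  let μ : ℕ → ℝ := fun n => p n * (offd (Fin n)).card
  have hμ : ∀ n : ℕ, 2 * μ n = p n * n * (n - 1) := fun n => by
    have := Couple_offd (V := Fin n)
    rw [Fintype.card_fin] at this
    simp only [μ]
    linear_combination p n * this
  have hnat : Tendsto (fun n : ℕ => (n : ℝ)) atTop atTop := tendsto_natCast_atTop_atTop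
  have hm : Tendsto μ atTop atTop := by
    refine tendsto_atTop_mono' _ ?_ hinf
    filter_upwards [hnat.eventually_ge_atTop 3] with n h3
    have h4 : 0 ≤ p n * n := mul_nonneg (p0 n) (Nat.cast_nonneg n)
    nlinarith only [h3, h4, hμ n]
  let s : ℕ → ℝ := fun n => √√(μ n)
  have hs : Tendsto s atTop atTop := Real.tendsto_sqrt_atTop.comp (Real.tendsto_sqrt_atTop.comp hm)
  have s4 : ∀ n, μ n = s n ^ 4 := fun n => by
    have h0 : 0 ≤ μ n := mul_nonneg (p0 n) (Nat.cast_nonneg _)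
    simp only [s]
    rw [show 4 = 2 * 2 from rfl, pow_mul, Real.sq_sqrt (Real.sqrt_nonneg _), Real.sq_sqrt h0]
  let N : ℕ → ℕ := fun n => ⌊s n ^ 4 - s n ^ 3⌋₊
  have hi := hs.inv_tendsto_atTop
  have hN : ∀ n, 1 ≤ s n → (N n : ℝ) ≤ s n ^ 4 - s n ^ 3 := fun n h1 =>
    Nat.floor_le (sub_nonneg.2 (pow_le_pow_right₀ h1 (by norm_num)))
  have hq : Tendsto (fun n => (N n : ℝ) / s n ^ 4) atTop (𝓝 1) := by
    have h1 : Tendsto (fun n => 1 - (s n)⁻¹ - (s n)⁻¹ ^ 4) atTop (𝓝 1) := by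
      simpa using ((tendsto_const_nhds (x := (1 : ℝ))).sub hi).sub (hi.pow 4)
    refine tendsto_of_tendsto_of_tendsto_of_le_of_le' h1 tendsto_const_nhds ?_ ?_
    · filter_upwards [hs.eventually_ge_atTop 1] with n h2
      have h3 := (Nat.sub_one_lt_floor (s n ^ 4 - s n ^ 3)).le
      have h4 : 0 < s n := by linarith
      rw [le_div_iff₀ (by positivity)]
      refine le_trans (le_of_eq ?_) h3
      field_simp
    · filter_upwards [hs.eventually_ge_atTop 1] with n h2
      have h4 : 0 < s n := by linarith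
      rw [div_le_one (by positivity)]
      exact (hN n h2).trans (sub_le_self _ (by positivity))
  refine ⟨N, ?_, fun η hη => ?_⟩
  · have h1 : Tendsto (fun n : ℕ => (N n : ℝ) / s n ^ 4 * (1 - (n : ℝ)⁻¹)) atTop (𝓝 1) := by
      simpa using hq.mul ((tendsto_const_nhds (x := (1 : ℝ))).sub hnat.inv_tendsto_atTop)
    refine h1.congr' ?_
    filter_upwards [hinf.eventually_gt_atTop 0, hnat.eventually_ge_atTop 3] with n h2 h3
    have h4 : p n ≠ 0 := fun k => by simp [k] at h2
    have h5 : (n : ℝ) ≠ 0 := by linarith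
    have h6 : (n : ℝ) - 1 ≠ 0 := by linarith
    rw [← s4, show μ n = p n * n * (n - 1) / 2 by linarith only [hμ n]]
    field_simp
  · have h1 : Tendsto (fun n => 2 * Real.exp (-(s n ^ 2 / 4))) atTop (𝓝 0) := by
      simpa using (Real.tendsto_exp_neg_atTop_nhds_zero.comp
        (((tendsto_pow_atTop two_ne_zero).comp hs).atTop_div_const four_pos)).const_mul 2
    have h2 : Tendsto (fun n => (1 + η) * ((N n : ℝ) / s n ^ 4) - (1 + (s n)⁻¹)) atTop (𝓝 η) := by
      simpa using (hq.const_mul (1 + η)).sub ((tendsto_const_nhds (x := (1 : ℝ))).add hi)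
    refine whp_of_le p0 p1 h1 ?_
    filter_upwards [hs.eventually_ge_atTop 1, h2.eventually (lt_mem_nhds hη)] with n h3 h4
    have h5 : 0 < s n := by linarith
    have h6 : |1 / (2 * s n)| ≤ 1 := by
      rw [abs_of_pos (by positivity), div_le_one (by positivity)]
      linarith
    have t1 := Couple_tail (p0 n) (p1 n) (offd (Fin n)) h6 (s n ^ 2 / 2)
    have t2 := Couple_tail (p0 n) (p1 n) (offd (Fin n)) ((abs_neg _).trans_le h6) (s n ^ 2 / 2)
    have e1 : (1 / (2 * s n)) ^ 2 * s n ^ 4 - s n ^ 2 / 2 = -(s n ^ 2 / 4) := by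
      field_simp
      ring
    have e0 : p n * (offd (Fin n)).card = s n ^ 4 := s4 n
    have e2 : s n ^ 2 / 2 = 1 / (2 * s n) * s n ^ 3 := by field_simp
    rw [e0, e1] at t1
    rw [e0, neg_sq, e1] at t2
    refine (Pr_mono (p0 n) (p1 n) fun ω h7 => ?_).trans
      ((Pr_or_le (p0 n) (p1 n) _ _).trans ((add_le_add t1 t2).trans (by linarith only [])))
    have h8 : 0 < 1 / (2 * s n) := by positivity
    rcases not_and_or.1 h7 with h9 | h9
    · have h10 : ((ω ∩ offd (Fin n)).card : ℝ) ≤ N n := by exact_mod_cast (not_le.1 h9).le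
      have := mul_le_mul_of_nonneg_left (h10.trans (hN n h3)) h8.le
      right
      linarith only [e2, this]
    · have h10 : s n ^ 4 + s n ^ 3 ≤ (1 + η) * N n := by
        have h11 : (1 + (s n)⁻¹) * s n ^ 4 ≤ (1 + η) * N n := by
          rw [← le_div_iff₀ (by positivity), mul_div_assoc]
          linarith only [h4]
        refine le_trans (le_of_eq ?_) h11
        field_simp
      have := mul_le_mul_of_nonneg_left (h10.trans (not_le.1 h9).le) h8.le
      left
      linarith only [e2, this]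

/-- Exponentially unlikely events of the independent model are unlikely in `G(n,p)`. -/
theorem whp_of_iid {p : ℕ → ℝ} (p0 : ∀ n, 0 ≤ p n) (p1 : ∀ n, p n ≤ 1)
    (hp : Tendsto p atTop (𝓝 0)) (hinf : Tendsto (fun n : ℕ => p n * n) atTop atTop) {N : ℕ → ℕ}
    (hN : Tendsto (fun n : ℕ => 2 * (N n : ℝ) / (n : ℝ) ^ 2 / p n) atTop (𝓝 1))
    (hS : Whp p fun n ω => N n ≤ (ω ∩ offd (Fin n)).card)
    (Bad : ∀ n, (Fin (N n) → Bool → Fin n) → Prop) {c : ℝ} (hc : 0 < c)
    (hB : ∀ᶠ n in atTop, 𝔼 y, ind (Bad n y) ≤ 2 * Real.exp (-(c * N n))) :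
    Whp p fun n ω => ∃ y, Inj y ∧ (∀ i, sp ep1 y i ∈ ω) ∧ ¬ Bad n y := by
  have hnat : Tendsto (fun n : ℕ => (n : ℝ)) atTop atTop := tendsto_natCast_atTop_atTop
  have hne : ∀ᶠ n : ℕ in atTop, p n ≠ 0 ∧ (n : ℝ) ≠ 0 := by
    filter_upwards [hinf.eventually_gt_atTop 0] with n h using mul_ne_zero_iff.1 h.ne'
  have h1 : Tendsto (fun n : ℕ => ((n : ℝ) + 2 * N n) / (n : ℝ) ^ 2) atTop (𝓝 0) := by
    have h2 := hnat.inv_tendsto_atTop.add (hN.mul hp)
    rw [mul_zero, add_zero] at h2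
    refine h2.congr' ?_
    filter_upwards [hne] with n h
    have := h.1
    have := h.2
    simp only [Pi.inv_apply]
    field_simp
  have h2 : Tendsto (fun n : ℕ => (N n : ℝ)) atTop atTop := by
    refine ((hN.pos_mul_atTop one_pos (hinf.atTop_mul_atTop₀ hnat)).atTop_div_const two_pos).congr'
      ?_
    filter_upwards [hne] with n h
    have := h.1
    have := h.2
    field_simp
  have h3 : Tendsto (fun n => 2 * Real.exp (-(c / 2 * N n))) atTop (𝓝 0) := by
    simpa using (Real.tendsto_exp_neg_atTop_nhds_zero.comp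
      (h2.const_mul_atTop (half_pos hc))).const_mul 2
  have h4 : Whp p fun n ω => ¬ ((¬ ∃ y, Inj y ∧ (∀ i, sp ep1 y i ∈ ω) ∧ ¬ Bad n y) ∧
      N n ≤ (ω ∩ offd (Fin n)).card) := by
    refine whp_of_le p0 p1 h3 ?_
    filter_upwards [hB, hne, h1.eventually (gt_mem_nhds (half_pos (half_pos hc))),
      h1.eventually (gt_mem_nhds one_half_pos)] with n h5 h6 h7 h8
    have hn : 0 < n := Nat.pos_of_ne_zero (by exact_mod_cast h6.2)
    have : Nonempty (Fin n) := ⟨⟨0, hn⟩⟩
    have t1 := transfer (p0 n) (p1 n) (Bad n)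
      (fun ω => ¬ ∃ y, Inj y ∧ (∀ i, sp ep1 y i ∈ ω) ∧ ¬ Bad n y)
      fun ω h y a b => by_contra fun k => h ⟨y, a, b, k⟩
    have t2 := inj_lb (V := Fin n) (N := N n) (by
      rw [div_lt_iff₀ (by positivity)] at h8
      rw [Fintype.card_fin]
      linarith only [h8])
    rw [Fintype.card_fin] at t2
    have t3 := ((mul_le_mul_of_nonneg_left t2 (Pr_nonneg (p0 n) (p1 n) _)).trans t1).trans h5
    rw [← le_div_iff₀ (Real.exp_pos _), mul_div_assoc, ← Real.exp_sub] at t3
    simp only [not_not]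
    refine t3.trans (mul_le_mul_of_nonneg_left (Real.exp_le_exp.2 ?_) two_pos.le)
    have := mul_le_mul_of_nonneg_left h7.le (Nat.cast_nonneg (α := ℝ) (N n))
    linarith only [this]
  exact (h4.and p0 p1 hS).mono p0 p1
    (Eventually.of_forall fun n ω h => by_contra fun k => h.1 ⟨k, h.2⟩)

end Pool.Agent.Work.MP_d4a230_co.U
end
end

-- merged part: Pool.Agent.Work.MP_d4a230_co.U.TP
section
-- merged part: Pool.Agent.Work.MP_d4a230_co.U.Dens
section
/-!
The bunch structure.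
PLAN. vm_inj: cases. dc_beb: let F2 = insert f F, F_l the edges of F2 in piece l, U_l ⊆ W the
vertices they cover, u_l the number of those that are not ends of the dart d l (these map to
distinct inr vertices), ρ the number of inl vertices covered by F2. card (vset F \ vset {f}) =
sum u_l + ρ - 2. Write A = v - 2, Bk = k - 1, A < Bk. For a nonempty F_l: (i) A * |F_l| <= Bk * u_l
(weak balance B.sys / Sys.wbal for U_l plus both ends, the edge of the dart is an extra edge);
(ii) A * (|F_l| - 1) <= Bk * (|U_l| - 2), strictly if |F_l| >= 2 (if U_l = univ because an edge is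
missing, otherwise B.bal). If ρ >= 2 sum (i). If ρ <= 1 every |U_l| <= u_l + ρ; sum (ii) over the
j >= 1 nonempty pieces; for j >= 2 use A < Bk, for j = 1 the strict form (|F2| >= 2).
root_beb: every edge of H other than the edge of the dart has an end that is not an end of the
dart. lam_beb: ex_sum_type, ex_curry, ex_prod_coord, Fintype.prod_sigma, Sym2 out (Quot.out_eq),
and x ∘ vm l is the double update of u l.
-/

namespace Pool.Agent.Work.MP_d4a230_co.U

open Finset Filter Topology Pool.Agent.Work.MP_07f1b5_pr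
open scoped BigOperators


variable {V α β : Type} [Fintype V] [DecidableEq V] [Fintype α] [DecidableEq α] [Fintype β]
  [DecidableEq β] {W : Type} [Fintype W] [DecidableEq W] {H : SimpleGraph W} [DecidableRel H.Adj]
  {m : ℕ} (ep : β → α × α) (j : Fin m → β) (d : Fin m → H.Dart)

lemma Dens_out (e : Sym2 W) : s(e.out.1, e.out.2) = e := Quot.out_eq e

lemma Dens_mem {e : Sym2 W} {x : W} (h : x ∈ e) : x = e.out.1 ∨ x = e.out.2 := by
  rw [← Dens_out e] at h
  exact Sym2.mem_iff.1 h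

lemma Dens_one {U : Finset W} (hU : U.card ≤ 2) : ein H.edgeFinset U ≤ 1 := by
  refine card_le_one.2 fun e he g hg => ?_
  obtain ⟨e1, e2⟩ := mem_filter.1 he
  obtain ⟨g1, g2⟩ := mem_filter.1 hg
  have e3 : g.toFinset = U := eq_of_subset_of_card_le g2
    (by rw [Sym2.card_toFinset_of_not_isDiag _ (H.not_isDiag_of_mem_edgeFinset g1)]; exact hU)
  exact sym2_eq_of_subset (H.not_isDiag_of_mem_edgeFinset e1) fun x hx =>
    Sym2.mem_toFinset.1 (e3 ▸ e2 (Sym2.mem_toFinset.2 hx))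

lemma Dens_wbal {k0 : ℕ} (B : KBal H k0) {U : Finset W} (h2 : 2 ≤ U.card) :
    ((ein H.edgeFinset U : ℤ) - 1) * ((Fintype.card W : ℤ) - 2) ≤
      ((k0 : ℤ) - 1) * ((U.card : ℤ) - 2) := by
  have e0 : (3 : ℤ) ≤ Fintype.card W := by exact_mod_cast B.h3
  rcases h2.lt_or_eq with h2 | h2
  · rcases (card_le_univ U).lt_or_eq with e1 | e1
    · exact (B.bal U h2 e1).le
    · have : (ein H.edgeFinset U : ℤ) ≤ k0 := by
        exact_mod_cast (card_filter_le _ _ : ein H.edgeFinset U ≤ _).trans B.hK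
      rw [e1]; nlinarith
  · have : (ein H.edgeFinset U : ℤ) ≤ 1 := by exact_mod_cast Dens_one (H := H) h2.ge
    rw [← h2]; push_cast; nlinarith only [this, e0]

lemma Dens_ein {P : Finset (Sym2 W)} (hP : P ⊆ H.edgeFinset) {U : Finset W} (hU : vs P ⊆ U) :
    P.card ≤ ein H.edgeFinset U :=
  card_le_card fun e he => mem_filter.2 ⟨hP he, fun _ hx =>
    hU (mem_vs.2 ⟨e, he, Sym2.mem_toFinset.1 hx⟩)⟩

lemma Dens_i {k0 : ℕ} (B : KBal H k0) (c : H.Dart) {P : Finset (Sym2 W)} (hP : P ⊆ H.edgeFinset.erase c.edge) :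
    ((Fintype.card W : ℤ) - 2) * P.card ≤
      ((k0 : ℤ) - 1) * (vs P \ {c.fst, c.snd}).card := by
  have e0 : (3 : ℤ) ≤ Fintype.card W := by exact_mod_cast B.h3
  have c1 : (vs P ∪ {c.fst, c.snd}).card = (vs P \ {c.fst, c.snd}).card + 2 := by
    rw [← card_pair c.fst_ne_snd, card_sdiff_add_card]
  have h1 := Dens_wbal B (U := vs P ∪ {c.fst, c.snd}) (by omega)
  have hc : c.edge ∉ P := fun h => (mem_erase.1 (hP h)).1 rfl
  have h2 := Dens_ein (H := H) (P := insert c.edge P) (U := vs P ∪ {c.fst, c.snd})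
    (insert_subset (SimpleGraph.mem_edgeFinset.2 c.edge_mem) (hP.trans (erase_subset _ _)))
    (fun x hx => by
      obtain ⟨e, he, hxe⟩ := mem_vs.1 hx
      rcases mem_insert.1 he with rfl | he
      · exact mem_union_right _ (by simpa [SimpleGraph.Dart.edge] using hxe)
      · exact mem_union_left _ (mem_vs.2 ⟨e, he, hxe⟩))
  rw [card_insert_of_notMem hc] at h2
  have h3 : (P.card : ℤ) + 1 ≤ ein H.edgeFinset (vs P ∪ {c.fst, c.snd}) := by exact_mod_cast h2
  rw [c1] at h1
  push_cast at h1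
  nlinarith only [h1, h2, e0]

lemma Dens_ii {k0 : ℕ} (B : KBal H k0) {P : Finset (Sym2 W)} (hP : P ⊆ H.edgeFinset) (hn : P.Nonempty) :
    ((Fintype.card W : ℤ) - 2) * (P.card - 1) ≤
      ((k0 : ℤ) - 1) * ((vs P).card - 2) := by
  have e0 : (3 : ℤ) ≤ Fintype.card W := by exact_mod_cast B.h3
  obtain ⟨e, he⟩ := hn
  have h1 := Dens_wbal B (U := vs P) (by
    rw [← Sym2.card_toFinset_of_not_isDiag _ (H.not_isDiag_of_mem_edgeFinset (hP he))]
    exact card_le_card fun x hx => mem_vs.2 ⟨e, he, Sym2.mem_toFinset.1 hx⟩)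
  have h2 : (P.card : ℤ) ≤ ein H.edgeFinset (vs P) := by exact_mod_cast Dens_ein hP subset_rfl
  nlinarith only [h1, h2, e0]

lemma Dens_iii {k0 : ℕ} (B : KBal H k0) (c : H.Dart) {P : Finset (Sym2 W)}
    (hP : P ⊆ H.edgeFinset.erase c.edge) (hn : 2 ≤ P.card) :
    ((Fintype.card W : ℤ) - 2) * (P.card - 1) <
      ((k0 : ℤ) - 1) * ((vs P).card - 2) := by
  have e0 : (3 : ℤ) ≤ Fintype.card W := by exact_mod_cast B.h3
  have h0 := Dens_ein (hP.trans (erase_subset _ _)) subset_rfl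
  have h2 : (P.card : ℤ) ≤ ein H.edgeFinset (vs P) := by exact_mod_cast h0
  have h3 : 3 ≤ (vs P).card := by
    by_contra h
    have := Dens_one (H := H) (U := vs P) (by omega)
    omega
  rcases (card_le_univ (vs P)).lt_or_eq with e1 | e1
  · have := B.bal _ h3 e1
    nlinarith only [this, h0, e0]
  · have h4 := card_le_card hP
    have h5 := card_erase_add_one (SimpleGraph.mem_edgeFinset.2 c.edge_mem)
    have h6 : (P.card : ℤ) + 1 ≤ k0 := by have := B.hK; exact_mod_cast (by omega)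
    rw [e1]; nlinarith only [e0, h6]

lemma vm_inj (hne : ∀ j, (ep j).1 ≠ (ep j).2) (l : Fin m) : Function.Injective (vm H ep j d l) := by
  intro a b h
  have h1 := hne (j l)
  have h2 := h1.symm
  clear hne
  unfold vm at h
  split_ifs at h <;> simp_all

lemma card_BE : Fintype.card (BE H d) = m * (H.edgeFinset.card - 1) := by
  rw [Fintype.card_sigma]
  simp only [Fintype.card_coe]
  rw [sum_congr rfl fun l _ => card_erase_of_mem (SimpleGraph.mem_edgeFinset.2 (d l).edge_mem),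
    sum_const, card_univ, Fintype.card_fin, smul_eq_mul]

lemma Dens_ne (f : BE H d) : f.2.1.out.1 ≠ f.2.1.out.2 := fun h =>
  H.not_isDiag_of_mem_edgeFinset (mem_of_mem_erase f.2.2)
    (Dens_out f.2.1 ▸ Sym2.mk_isDiag_iff.2 h)

lemma Dens_key {k0 : ℕ} (B : KBal H k0) (hne : ∀ j, (ep j).1 ≠ (ep j).2) (F : Finset (BE H d))
    {f g : BE H d} (hf : f ∈ F) (hg : g ∈ F) (hfg : f ≠ g) :
    ((Fintype.card W : ℤ) - 2) * (F.card - 1) <
      ((k0 : ℤ) - 1) * ((vset (beb H ep j d) F).card - 2) := by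
  have e0 : (3 : ℤ) ≤ Fintype.card W := by exact_mod_cast B.h3
  have e1 : (Fintype.card W : ℤ) ≤ k0 := by exact_mod_cast B.hk.trans B.hK
  set S := vset (beb H ep j d) F with hS
  let P : Fin m → Finset (Sym2 W) := fun l => (F.filter fun a => a.1 = l).image fun a => a.2.1
  have cP : ∀ l, (P l).card = (F.filter fun a => a.1 = l).card := fun l =>
    card_image_of_injOn fun a ha b hb h => by
      obtain ⟨l1, a1, a2⟩ := a
      obtain ⟨l2, b1, b2⟩ := b
      obtain rfl : l1 = l := (mem_filter.1 ha).2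
      obtain rfl : l2 = l1 := (mem_filter.1 hb).2
      obtain rfl : a1 = b1 := h
      rfl
  have sP : ∑ l, ((P l).card : ℤ) = F.card := by
    rw [card_eq_sum_card_fiberwise (f := fun a : BE H d => a.1) (t := univ) (s := F)
      fun _ _ => mem_univ _]
    push_cast
    exact sum_congr rfl fun l _ => by rw [cP]
  have hP : ∀ l, P l ⊆ H.edgeFinset.erase (d l).edge := fun l e he => by
    obtain ⟨a, ha, rfl⟩ := mem_image.1 he
    rw [← (mem_filter.1 ha).2]
    exact a.2.2
  have mP : ∀ a ∈ F, (P a.1).Nonempty := fun a ha =>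
    ⟨_, mem_image_of_mem _ (mem_filter.2 ⟨ha, rfl⟩)⟩
  have hv : ∀ l, ∀ x ∈ vs (P l), vm H ep j d l x ∈ S := fun l x hx => by
    obtain ⟨e, he, hxe⟩ := mem_vs.1 hx
    obtain ⟨a, ha, rfl⟩ := mem_image.1 he
    obtain ⟨h1, rfl⟩ := mem_filter.1 ha
    refine mem_biUnion.2 ⟨a, h1, ?_⟩
    rcases Dens_mem hxe with h | h <;> simp [beb, ← h]
  let N : Fin m → Finset W := fun l => vs (P l) \ {(d l).fst, (d l).snd}
  let R := S.filter fun y => y.isLeft = true
  have c1 : ∑ l, ((N l).card : ℤ) + R.card ≤ S.card := by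
    have h1 : (univ.sigma N).card ≤ (S.filter fun y => ¬ y.isLeft = true).card := by
      refine card_le_card_of_injOn (fun p => Sum.inr (p.1, p.2)) (fun p hp => ?_) ?_
      · obtain ⟨h1, h2⟩ := mem_sdiff.1 (mem_sigma.1 hp).2
        have h3 := hv _ _ h1
        rw [mem_insert, mem_singleton, not_or] at h2
        rw [vm, if_neg h2.1, if_neg h2.2] at h3
        exact mem_filter.2 ⟨h3, by simp⟩
      · rintro ⟨a, b⟩ - ⟨a', b'⟩ - h
        obtain ⟨rfl, rfl⟩ := Prod.mk.inj (Sum.inr.inj h)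
        rfl
    have h2 : R.card + _ = _ := card_filter_add_card_filter_not (s := S) fun y => y.isLeft = true
    rw [card_sigma] at h1
    exact_mod_cast (by omega : ∑ l, (N l).card + R.card ≤ S.card)
  have c2 : ∀ l, ((vs (P l)).card : ℤ) ≤ (N l).card + R.card := fun l => by
    have h1 : (vs (P l) ∩ {(d l).fst, (d l).snd}).card ≤ R.card := by
      refine card_le_card_of_injOn (vm H ep j d l) (fun x hx => ?_) (vm_inj ep j d hne l).injOn
      obtain ⟨h1, h2⟩ := mem_inter.1 hx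
      refine mem_filter.2 ⟨hv _ _ h1, ?_⟩
      rw [mem_insert, mem_singleton] at h2
      unfold vm
      split_ifs
      · rfl
      · rfl
      · tauto
    have h2 : (N l).card + _ = _ := card_sdiff_add_card_inter (vs (P l)) {(d l).fst, (d l).snd}
    exact_mod_cast (by omega : (vs (P l)).card ≤ (N l).card + R.card)
  have i1 : ∀ l, ((Fintype.card W : ℤ) - 2) * (P l).card ≤
      ((k0 : ℤ) - 1) * (N l).card := fun l => Dens_i B (d l) (hP l)
  have i2 : ∀ a ∈ F, ((Fintype.card W : ℤ) - 2) * ((P a.1).card - 1) ≤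
      ((k0 : ℤ) - 1) * ((N a.1).card + R.card - 2) := fun a ha =>
    (Dens_ii B ((hP _).trans (erase_subset _ _)) (mP a ha)).trans
      (mul_le_mul_of_nonneg_left (by linarith [c2 a.1]) (by linarith))
  generalize hA : (Fintype.card W : ℤ) - 2 = A at *
  generalize hK : (k0 : ℤ) - 1 = K at *
  have a1 : 0 < A := by omega
  have a2 : A < K := by omega
  by_cases hR : (2 : ℤ) ≤ R.card
  · have h1 := sum_le_sum fun l (_ : l ∈ univ) => i1 l
    rw [← mul_sum, ← mul_sum, sP] at h1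
    nlinarith only [e0, hA, hK, h1, c1, hR, e1]
  have h1 : ∑ l, (A * (P l).card - if l = f.1 then A else 0) <
      ∑ l, (K * (N l).card + if l = f.1 then K * (R.card - 2) else 0) := by
    refine sum_lt_sum (fun l _ => ?_) ?_
    · split_ifs with h
      · rw [h]; linarith only [i2 f hf]
      · linarith [i1 l]
    · by_cases h : g.1 = f.1
      · refine ⟨f.1, mem_univ _, ?_⟩
        have h2 := Dens_iii B (d f.1) (hP f.1) (by
          rw [cP]
          exact one_lt_card.2 ⟨f, mem_filter.2 ⟨hf, rfl⟩, g, mem_filter.2 ⟨hg, h⟩, hfg⟩)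
        rw [hA, hK] at h2
        rw [if_pos rfl, if_pos rfl]
        nlinarith only [h2, hK, e0, e1, c2 f.1]
      · refine ⟨g.1, mem_univ _, ?_⟩
        rw [if_neg h, if_neg h]
        have h3 : (R.card : ℤ) ≤ 1 := by omega
        nlinarith only [e1, hA, hK, hR, e0, i2 g hg]
  rw [sum_sub_distrib, sum_add_distrib, ← mul_sum, ← mul_sum, sP, sum_ite_eq', sum_ite_eq',
    if_pos (mem_univ _), if_pos (mem_univ _)] at h1
  nlinarith only [h1, c1, e0, e1, hK]

theorem dc_beb {k0 : ℕ} (B : KBal H k0) (hne : ∀ j, (ep j).1 ≠ (ep j).2) :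
    DC (beb H ep j d) (Fintype.card W) k0 := by
  have hd : ∀ f, (beb H ep j d f).1 ≠ (beb H ep j d f).2 := fun f h =>
    Dens_ne d f (vm_inj ep j d hne _ h)
  refine ⟨hd, fun f F hf ⟨g, hg⟩ => ?_⟩
  have h1 := Dens_key ep j d B hne (insert f F) (mem_insert_self _ _) (mem_insert_of_mem hg)
    fun h => hf (h ▸ hg)
  have h2 : (vset (beb H ep j d) (insert f F)).card =
      (vset (beb H ep j d) F \ vset (beb H ep j d) {f}).card + 2 := by
    rw [← card_pair (hd f)]
    unfold vset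
    rw [biUnion_insert, singleton_biUnion, card_sdiff_add_card, union_comm]
  have h3 := B.h3
  have h4 := B.hk.trans B.hK
  rw [h2, card_insert_of_notMem hf] at h1
  zify [(by omega : 2 ≤ Fintype.card W), (by omega : 1 ≤ k0)]
  push_cast at h1
  linarith only [h1]

theorem root_beb {D : (α → V) → ℝ} (hD : Unit01 D) :
    RootFn (beb H ep j d) fun x : α ⊕ Fin m × W → V => D fun a => x (Sum.inl a) := by
  refine ⟨fun x => hD _, fun f => ?_⟩
  have key : ∀ u : W, u ∉ (d f.1).edge → ∀ (x : α ⊕ Fin m × W → V) (a : V),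
      (D fun b => Function.update x (vm H ep j d f.1 u) a (Sum.inl b)) =
        D fun b => x (Sum.inl b) := fun u hu x a => by
    have h : ¬ u = (d f.1).fst ∧ ¬ u = (d f.1).snd := by
      simpa [SimpleGraph.Dart.edge, not_or] using hu
    rw [vm, if_neg h.1, if_neg h.2]
    congr 1
  by_cases h1 : f.2.1.out.1 ∈ (d f.1).edge
  · refine Or.inr (key _ fun h2 => (mem_erase.1 f.2.2).1 ?_)
    refine sym2_eq_of_subset (H.not_isDiag_of_mem_edgeFinset (mem_of_mem_erase f.2.2))
      fun x hx => ?_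
    rcases Dens_mem hx with h | h <;> rwa [h]
  · exact Or.inl (key _ h1)

lemma Dens_vm (z : α → V) (u : Fin m × W → V) (l : Fin m) (x : W) :
    Sum.elim z u (vm H ep j d l x) = Function.update (Function.update (fun a => u (l, a))
      (d l).fst (z (ep (j l)).1)) (d l).snd (z (ep (j l)).2) x := by
  unfold vm
  split_ifs with h1 h2
  · rw [h1, Function.update_of_ne (d l).fst_ne_snd, Function.update_self]; rfl
  · rw [h2, Function.update_self]; rfl
  · rw [Function.update_of_ne h2, Function.update_of_ne h1]; rfl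

theorem lam_beb [Nonempty V] (D : (α → V) → ℝ) (w : Fin m → Sym2 V → ℝ) :
    Lam (beb H ep j d) (fun x => D fun a => x (Sum.inl a)) (fun f => ord (w f.1)) =
      𝔼 z : α → V, D z * ∏ l, rt H (w l) (d l) (z (ep (j l)).1) (z (ep (j l)).2) := by
  unfold Lam
  rw [ex_sum_type]
  refine expect_congr rfl fun z _ => ?_
  unfold rt
  rw [← ex_prod_coord, ← ex_curry, mul_expect]
  refine expect_congr rfl fun u _ => ?_
  rw [Fintype.prod_sigma]
  refine congrArg _ (prod_congr rfl fun l _ => ?_)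
  rw [← prod_coe_sort (H.edgeFinset.erase (d l).edge)]
  refine prod_congr rfl fun e _ => ?_
  have h := Dens_out e.1
  show w l s(Sum.elim z u (vm H ep j d l e.1.out.1), Sum.elim z u (vm H ep j d l e.1.out.2)) = _
  rw [Dens_vm, Dens_vm, ← Sym2.map_mk, h]

end Pool.Agent.Work.MP_d4a230_co.U
end

-- merged part: Pool.Agent.Work.MP_d4a230_co.U.Lab
section
/-!
Labelled count of tuples of constraints.
PLAN. Fix z and y2 = update y g z. Step 1 (one constraint, lab_one): for a function Φ of sets,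
aut * sum over C with Acd C, (g,j0) ∈ C of Φ C equals the sum over darts d, over embeddings φ with
φ d.fst = z (ep j0).1, φ d.snd = z (ep j0).2, over ι : edges other than d.edge → variables with
distinct components different from g and sp (ι f) = f.map φ, of Φ (insert (g,j0) (image ι)).
Indeed a set C with Acd has injective positions with image a copy T; T has aut embeddings
(HBal.fiber / HBal.sum_copies); φ determines the labelling of C by edges and the unique dart. Step 2:
m constraints: product of sums (Finset.prod_univ_sum, Fintype.piFinset), the pairwise condition in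
DT together with the conditions inside the pieces is injectivity of the components of the joined
map on BE (Sigma.uncurry); variables in T l are outside g so their positions do not depend on z.
Step 3: maps x on α ⊕ Fin m × W with all x ∘ vm l injective correspond to (z, φ) up to the 2m unused
coordinates (l, d.fst), (l, d.snd): factor n^(2m); hit is the indicator on proper pairs (hit_of_ne).
Split into aux files if convenient.
-/

namespace Pool.Agent.Work.MP_d4a230_co.U

open Finset Filter Topology Pool.Agent.Work.MP_07f1b5_pr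
open scoped BigOperators


variable {V G α β : Type} [Fintype V] [DecidableEq V] [Fintype G] [DecidableEq G] [Fintype α]
  [DecidableEq α] [Fintype β] [DecidableEq β]
  {W : Type} [Fintype W] [DecidableEq W] {H : SimpleGraph W} [DecidableRel H.Adj]

lemma Lab_bij {X Y : Type} [Fintype X] [Fintype Y] (P : X → Prop) (Q : Y → Prop) (e : X → Y)
    (Φ : Y → ℝ) (h1 : ∀ x, P x → Q (e x)) (h2 : ∀ x x', P x → P x' → e x = e x' → x = x')
    (h3 : ∀ y, Q y → ∃ x, P x ∧ e x = y) :
    ∑ y, ind (Q y) * Φ y = ∑ x, ind (P x) * Φ (e x) := by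
  classical
  have key : ∀ {Z : Type} [Fintype Z] (R : Z → Prop) (F : Z → ℝ),
      ∑ z, ind (R z) * F z = ∑ z ∈ univ.filter R, F z := by
    intro Z _ R F
    rw [sum_filter]
    refine sum_congr rfl fun z _ => ?_
    by_cases h : R z
    · rw [ind_pos h, one_mul, if_pos h]
    · rw [ind_neg h, zero_mul, if_neg h]
  rw [key, key]
  refine (sum_bij (fun x _ => e x) (fun x hx => mem_filter.2 ⟨mem_univ _, h1 x (mem_filter.1 hx).2⟩)
    (fun x hx x' hx' h => h2 x x' (mem_filter.1 hx).2 (mem_filter.1 hx').2 h) (fun y hy => ?_)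
    fun _ _ => rfl).symm
  obtain ⟨x, h, rfl⟩ := h3 y (mem_filter.1 hy).2
  exact ⟨x, mem_filter.2 ⟨mem_univ _, h⟩, rfl⟩

lemma Lab_all {X : Type} [Fintype X] (p : X → Prop) : ind (∀ l, p l) = ∏ l, ind (p l) := by
  by_cases h : ∀ l, p l
  · rw [ind_pos h, prod_eq_one fun l _ => ind_pos (h l)]
  · obtain ⟨l, hl⟩ := not_forall.1 h
    rw [ind_neg h, prod_eq_zero (mem_univ l) (ind_neg hl)]

lemma Lab_out (f : Sym2 W) : s(f.out.1, f.out.2) = f := by
  rw [Sym2.mk, f.out_eq]

lemma Lab_aut1 {k0 : ℕ} (B : KBal H k0) (S : Finset (Sym2 V)) : aut H * ind (S ∈ copies H V) =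
    ∑ φ : W → V, ind (Function.Injective φ) * ind (H.edgeFinset.image (Sym2.map φ) = S) := by
  rw [← KCount0_emb fun φ => ind (H.edgeFinset.image (Sym2.map φ) = S)]
  refine Eq.trans (congrArg _ ?_) (B.sum_copies fun T => ind (T = S))
  by_cases h : S ∈ copies H V
  · rw [ind_pos h, sum_eq_single S (fun T _ hT => ind_neg hT) (fun h' => absurd h h'), ind_pos rfl]
  · rw [ind_neg h, sum_eq_zero fun T hT => ind_neg fun e : T = S => h (e ▸ hT)]

lemma Lab_aut {k0 : ℕ} (B : KBal H k0) {m : ℕ} (S : Fin m → Finset (Sym2 V)) :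
    aut H ^ m * ind (∀ l, S l ∈ copies H V) = ∑ φ : Fin m → W → V,
      ind (∀ l, Function.Injective (φ l)) * ind (∀ l, H.edgeFinset.image (Sym2.map (φ l)) = S l) := by
  have e : aut H ^ m = ∏ _l : Fin m, aut H := by rw [prod_const, card_univ, Fintype.card_fin]
  rw [Lab_all, e, ← prod_mul_distrib, prod_congr rfl fun l _ => Lab_aut1 B (S l), Fintype.prod_sum]
  exact sum_congr rfl fun φ _ => by rw [Lab_all, Lab_all, prod_mul_distrib]

/-- Labelled variables. -/
def Lab_R {m : ℕ} (s0 : G × β → Sym2 V) (T : Fin m → Finset (G × β)) (d : Fin m → H.Dart)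
    (φ : Fin m → W → V) (ι : BE H d → G × β) : Prop :=
  (Function.Injective fun f => (ι f).1) ∧ ∀ f, ι f ∈ T f.1 ∧ s0 (ι f) = f.2.1.map (φ f.1)

/-- The constraints given by labelled variables. -/
def Lab_e {m : ℕ} (g : G) (j : Fin m → β) (p : Σ d : Fin m → H.Dart, BE H d → G × β) (l : Fin m) :
    Finset (G × β) :=
  insert (g, j l) (univ.image fun f => p.2 ⟨l, f⟩)

lemma Lab_mem {m : ℕ} {g : G} {j : Fin m → β} {p : Σ d : Fin m → H.Dart, BE H d → G × β}
    {l : Fin m} {i : G × β} : i ∈ Lab_e g j p l ↔ i = (g, j l) ∨ ∃ f, p.2 ⟨l, f⟩ = i := by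
  unfold Lab_e
  simp only [mem_insert, mem_image, mem_univ, true_and]

lemma Lab_card {m : ℕ} {g : G} (j : Fin m → β) {p : Σ d : Fin m → H.Dart, BE H d → G × β}
    (h1 : Function.Injective fun f => (p.2 f).1) (h2 : ∀ f, (p.2 f).1 ≠ g) (l : Fin m) :
    (Lab_e g j p l).card = H.edgeFinset.card := by
  unfold Lab_e
  rw [card_insert_of_notMem, card_image_of_injective, card_univ, Fintype.card_coe,
    card_erase_add_one (SimpleGraph.mem_edgeFinset.2 (p.1 l).edge_mem)]
  · intro f f' h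
    exact eq_of_heq (Sigma.mk.inj (h1 (congrArg Prod.fst h))).2
  · intro h
    obtain ⟨f, -, hf⟩ := mem_image.1 h
    exact h2 _ (congrArg Prod.fst hf)

lemma Lab_count {m : ℕ} (g : G) (j : Fin m → β) (T : Fin m → Finset (G × β))
    (hT : ∀ l, ∀ i ∈ T l, i.1 ≠ g) (s0 s2 : G × β → Sym2 V) (a b : Fin m → V)
    (hs : ∀ i, i.1 ≠ g → s2 i = s0 i) (hg : ∀ l, s2 (g, j l) = s(a l, b l)) (φ : Fin m → W → V)
    (hφ : ∀ l, Function.Injective (φ l)) :
    ∑ c : Fin m → Finset (G × β),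
      ind (((∀ l, H.edgeFinset.image (Sym2.map (φ l)) = (c l).image s2) ∧
        ∀ l, (c l).card = H.edgeFinset.card ∧ Set.InjOn Prod.fst (c l : Set (G × β)) ∧
          (g, j l) ∈ c l ∧ (c l).erase (g, j l) ⊆ T l) ∧
        ∀ l l', l ≠ l' → ∀ i ∈ c l, ∀ i' ∈ c l', i.1 = i'.1 → i.1 = g) =
      ∑ d : Fin m → H.Dart, ind (∀ l, φ l (d l).fst = a l ∧ φ l (d l).snd = b l) *
        ∑ ι : BE H d → G × β, ind (Lab_R s0 T d φ ι) := by
  have hm : ∀ l, Function.Injective (Sym2.map (φ l)) := fun l => Sym2.map.injective (hφ l)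
  have := Lab_bij (fun p : Σ d : Fin m → H.Dart, BE H d → G × β =>
      (∀ l, φ l (p.1 l).fst = a l ∧ φ l (p.1 l).snd = b l) ∧ Lab_R s0 T p.1 φ p.2)
    (fun c : Fin m → Finset (G × β) =>
      ((∀ l, H.edgeFinset.image (Sym2.map (φ l)) = (c l).image s2) ∧
        ∀ l, (c l).card = H.edgeFinset.card ∧ Set.InjOn Prod.fst (c l : Set (G × β)) ∧
          (g, j l) ∈ c l ∧ (c l).erase (g, j l) ⊆ T l) ∧
        ∀ l l', l ≠ l' → ∀ i ∈ c l, ∀ i' ∈ c l', i.1 = i'.1 → i.1 = g)
    (Lab_e g j) (fun _ => 1) ?_ ?_ ?_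
  · simpa only [mul_one, Fintype.sum_sigma, ind_and (∀ l, φ l _ = a l ∧ _), ← mul_sum] using this
  · rintro ⟨d, ι⟩ ⟨hr, h1, h2⟩
    have h3 : ∀ f, (ι f).1 ≠ g := fun f => hT _ _ (h2 f).1
    have h4 : ∀ l, s2 (g, j l) = (d l).edge.map (φ l) := fun l => by
      rw [hg, ← (hr l).1, ← (hr l).2]; rfl
    refine ⟨⟨fun l => ?_, fun l => ⟨Lab_card j h1 h3 l, fun i hi i' hi' h => ?_,
      Lab_mem.2 (Or.inl rfl), fun i hi => ?_⟩⟩, fun l l' hl i hi i' hi' h => ?_⟩
    · ext e
      simp only [mem_image, Lab_mem]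
      constructor
      · rintro ⟨f, hf, rfl⟩
        by_cases h : f = (d l).edge
        · exact ⟨_, Or.inl rfl, h ▸ h4 l⟩
        · exact ⟨_, Or.inr ⟨⟨f, mem_erase.2 ⟨h, hf⟩⟩, rfl⟩, (hs _ (h3 _)).trans (h2 _).2⟩
      · rintro ⟨i, rfl | ⟨f, rfl⟩, rfl⟩
        · exact ⟨_, SimpleGraph.mem_edgeFinset.2 (d l).edge_mem, (h4 l).symm⟩
        · exact ⟨f.1, mem_of_mem_erase f.2, ((hs _ (h3 _)).trans (h2 ⟨l, f⟩).2).symm⟩
    · rcases Lab_mem.1 hi with rfl | ⟨f, rfl⟩ <;> rcases Lab_mem.1 hi' with rfl | ⟨f', rfl⟩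
      · rfl
      · exact absurd h.symm (h3 _)
      · exact absurd h (h3 _)
      · exact congrArg ι (h1 h)
    · rcases Lab_mem.1 (mem_of_mem_erase hi) with h | ⟨f, rfl⟩
      · exact absurd h (ne_of_mem_erase hi)
      · exact (h2 _).1
    · rcases Lab_mem.1 hi with rfl | ⟨f, rfl⟩
      · rfl
      · rcases Lab_mem.1 hi' with rfl | ⟨f', rfl⟩
        · exact h
        · exact absurd (congrArg Sigma.fst (h1 h)) hl
  · rintro ⟨d, ι⟩ ⟨d', ι'⟩ ⟨hr, h1, h2⟩ ⟨hr', h1', h2'⟩ h
    obtain rfl : d = d' := funext fun l => SimpleGraph.Dart.ext _ _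
      (Prod.ext (hφ l ((hr l).1.trans (hr' l).1.symm)) (hφ l ((hr l).2.trans (hr' l).2.symm)))
    refine congrArg _ (funext fun ⟨l, f⟩ => ?_)
    have h5 : ι ⟨l, f⟩ ∈ Lab_e g j ⟨d, ι'⟩ l := congrFun h l ▸ Lab_mem.2 (Or.inr ⟨f, rfl⟩)
    rcases Lab_mem.1 h5 with h6 | ⟨f', h6⟩
    · exact absurd (congrArg Prod.fst h6) (hT _ _ (h2 _).1)
    · obtain rfl : f' = f := Subtype.ext
        (hm l ((h2' ⟨l, f'⟩).2.symm.trans ((congrArg s0 h6).trans (h2 ⟨l, f⟩).2)))
      exact h6.symm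
  · rintro c ⟨⟨h1, h2⟩, h3⟩
    have e1 : ∀ l, ∃ d : H.Dart, φ l d.fst = a l ∧ φ l d.snd = b l := fun l => by
      have h : s2 (g, j l) ∈ H.edgeFinset.image (Sym2.map (φ l)) :=
        h1 l ▸ mem_image_of_mem _ (h2 l).2.2.1
      obtain ⟨f, hf, h⟩ := mem_image.1 h
      induction f using Sym2.ind with | _ u v => ?_
      have huv : H.Adj u v := by simpa using hf
      rcases Sym2.eq_iff.1 (h.trans (hg l)) with h | h
      exacts [⟨⟨(u, v), huv⟩, h⟩, ⟨⟨(v, u), huv.symm⟩, h.symm⟩]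
    choose d hd using e1
    have e2 : ∀ f : BE H d, ∃ i ∈ (c f.1).erase (g, j f.1), s2 i = f.2.1.map (φ f.1) := fun f => by
      have h : f.2.1.map (φ f.1) ∈ (c f.1).image s2 :=
        h1 f.1 ▸ mem_image_of_mem _ (mem_of_mem_erase f.2.2)
      obtain ⟨i, hi, h⟩ := mem_image.1 h
      refine ⟨i, mem_erase.2 ⟨?_, hi⟩, h⟩
      rintro rfl
      refine ne_of_mem_erase f.2.2 (hm f.1 (h.symm.trans ?_))
      rw [hg, ← (hd _).1, ← (hd _).2]; rfl
    choose ι hι hι' using e2
    have e3 : ∀ f, ι f ∈ T f.1 := fun f => (h2 _).2.2.2 (hι f)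
    have e4 : Function.Injective fun f => (ι f).1 := by
      rintro ⟨l, f⟩ ⟨l', f'⟩ h
      by_cases hl : l = l'
      · subst hl
        have := (h2 l).2.1 (mem_of_mem_erase (hι ⟨l, f⟩)) (mem_of_mem_erase (hι ⟨l, f'⟩)) h
        exact congrArg _ (Subtype.ext
          (hm l ((hι' ⟨l, f⟩).symm.trans ((congrArg s2 this).trans (hι' ⟨l, f'⟩)))))
      · exact absurd (h3 l l' hl _ (mem_of_mem_erase (hι ⟨l, f⟩)) _
          (mem_of_mem_erase (hι ⟨l', f'⟩)) h) (hT _ _ (e3 _))
    refine ⟨⟨d, ι⟩, ⟨hd, e4, fun f => ⟨e3 f, (hs _ (hT _ _ (e3 f))).symm.trans (hι' f)⟩⟩,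
      funext fun l => eq_of_subset_of_card_le (fun i hi => ?_) ?_⟩
    · rcases Lab_mem.1 hi with rfl | ⟨f, rfl⟩
      · exact (h2 l).2.2.1
      · exact mem_of_mem_erase (hι ⟨l, f⟩)
    · rw [Lab_card (p := ⟨d, ι⟩) j e4 (fun f => hT _ _ (e3 f)), (h2 l).1]

lemma Lab_DT {k0 : ℕ} (B : KBal H k0) (ep : β → α × α) {m : ℕ} (g : G) (j : Fin m → β)
    (T : Fin m → Finset (G × β)) (hT : ∀ l, ∀ i ∈ T l, i.1 ≠ g) (y : G → α → V) (z : α → V) :
    aut H ^ m * DT H ep g j T (Function.update y g z) = ∑ d : Fin m → H.Dart,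
      ∑ φ : Fin m → W → V,
        ind (∀ l, φ l (d l).fst = z (ep (j l)).1 ∧ φ l (d l).snd = z (ep (j l)).2) *
          (ind (∀ l, Function.Injective (φ l)) *
            ∑ ι : BE H d → G × β, ind (Lab_R (sp ep y) T d φ ι)) := by
  rw [sum_comm]
  unfold DT
  rw [mul_sum]
  have e : ∀ c : Fin m → Finset (G × β), aut H ^ m *
      (ind (∀ l, Acd H (sp ep (Function.update y g z)) Prod.fst (c l) ∧ (g, j l) ∈ c l ∧
        (c l).erase (g, j l) ⊆ T l) *
      ind (∀ l l', l ≠ l' → ∀ i ∈ c l, ∀ i' ∈ c l', i.1 = i'.1 → i.1 = g)) =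
      ∑ φ : Fin m → W → V, ind (∀ l, Function.Injective (φ l)) *
        ind (((∀ l, H.edgeFinset.image (Sym2.map (φ l)) =
          (c l).image (sp ep (Function.update y g z))) ∧
        ∀ l, (c l).card = H.edgeFinset.card ∧ Set.InjOn Prod.fst (c l : Set (G × β)) ∧
          (g, j l) ∈ c l ∧ (c l).erase (g, j l) ⊆ T l) ∧
        ∀ l l', l ≠ l' → ∀ i ∈ c l, ∀ i' ∈ c l', i.1 = i'.1 → i.1 = g) := fun c => by
    simp only [ind_and (_ ∧ _), ind_and (∀ l, H.edgeFinset.image _ = _), ← mul_assoc, ← sum_mul]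
    rw [← Lab_aut B, mul_assoc (aut H ^ m) (ind (∀ l, _ ∈ copies H V)), ← ind_and]
    refine congrArg₂ (· * ·) (congrArg _ (ind_congr ?_)) rfl
    unfold Acd
    exact ⟨fun h => ⟨fun l => (h l).1.1, fun l => ⟨(h l).1.2.1, (h l).1.2.2, (h l).2⟩⟩,
      fun h l => ⟨⟨h.1 l, (h.2 l).1, (h.2 l).2.1⟩, (h.2 l).2.2⟩⟩
  rw [sum_congr rfl fun c _ => e c, sum_comm]
  refine sum_congr rfl fun φ _ => ?_
  rw [← mul_sum]
  simp only [mul_left_comm _ (ind (∀ l, Function.Injective (φ l))), ← mul_sum]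
  by_cases hφ : ∀ l, Function.Injective (φ l)
  · refine congrArg _ (Lab_count g j T hT _ _ _ _ (fun i hi => ?_) (fun l => ?_) φ hφ)
    · unfold sp
      rw [Function.update_of_ne hi]
    · unfold sp sl
      rw [Function.update_self]
  · rw [ind_neg hφ, zero_mul, zero_mul]

lemma Lab_x (ep : β → α × α) {m : ℕ} (j : Fin m → β) (d : Fin m → H.Dart)
    (Ψ : (α → V) → (Fin m → W → V) → ℝ) :
    ∑ x : α ⊕ Fin m × W → V, Ψ (fun a => x (Sum.inl a)) (fun l u => x (vm H ep j d l u)) =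
      (Fintype.card V : ℝ) ^ (2 * m) * ∑ z : α → V, ∑ φ : Fin m → W → V,
        ind (∀ l, φ l (d l).fst = z (ep (j l)).1 ∧ φ l (d l).snd = z (ep (j l)).2) * Ψ z φ := by
  have v1 : ∀ l, vm H ep j d l (d l).fst = Sum.inl (ep (j l)).1 := fun l => if_pos rfl
  have v2 : ∀ l, vm H ep j d l (d l).snd = Sum.inl (ep (j l)).2 := fun l =>
    (if_neg (d l).snd_ne_fst).trans (if_pos rfl)
  have v3 : ∀ l u, u ≠ (d l).fst → u ≠ (d l).snd → vm H ep j d l u = Sum.inr (l, u) :=
    fun l u h1 h2 => (if_neg h1).trans (if_neg h2)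
  have := Lab_bij (fun _ : α ⊕ Fin m × W → V => True)
    (fun p : (Fin m → V × V) × (α → V) × (Fin m → W → V) =>
      ∀ l, p.2.2 l (d l).fst = p.2.1 (ep (j l)).1 ∧ p.2.2 l (d l).snd = p.2.1 (ep (j l)).2)
    (fun x => (fun l => (x (Sum.inr (l, (d l).fst)), x (Sum.inr (l, (d l).snd))),
      fun a => x (Sum.inl a), fun l u => x (vm H ep j d l u)))
    (fun p => Ψ p.2.1 p.2.2) (fun x _ l => ⟨congrArg x (v1 l), congrArg x (v2 l)⟩) ?_ ?_
  · simp only [ind_pos trivial, one_mul, Fintype.sum_prod_type, sum_const, card_univ,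
      Fintype.card_fun, Fintype.card_prod, Fintype.card_fin, nsmul_eq_mul] at this
    rw [← this, pow_mul, sq]
    push_cast
    rfl
  · intro x x' _ _ h
    funext t
    rcases t with t | ⟨l, u⟩
    · exact congrFun (congrArg (fun p => p.2.1) h) t
    by_cases h1 : u = (d l).fst
    · exact h1 ▸ congrArg (fun p => (p.1 l).1) h
    by_cases h2 : u = (d l).snd
    · exact h2 ▸ congrArg (fun p => (p.1 l).2) h
    exact v3 l u h1 h2 ▸ congrArg (fun p => p.2.2 l u) h
  · rintro ⟨s, z, φ⟩ h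
    refine ⟨Sum.elim z fun q => if q.2 = (d q.1).fst then (s q.1).1 else
      if q.2 = (d q.1).snd then (s q.1).2 else φ q.1 q.2, trivial, Prod.ext (funext fun l => ?_)
      (Prod.ext rfl (funext fun l => funext fun u => ?_))⟩
    · exact Prod.ext (if_pos rfl) ((if_neg (d l).snd_ne_fst).trans (if_pos rfl))
    · by_cases h1 : u = (d l).fst
      · subst h1
        exact (congrArg _ (v1 l)).trans (h l).1.symm
      by_cases h2 : u = (d l).snd
      · subst h2
        exact (congrArg _ (v2 l)).trans (h l).2.symm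
      exact (congrArg _ (v3 l u h1 h2)).trans ((if_neg h1).trans (if_neg h2))

lemma Lab_hit (ep : β → α × α) {m : ℕ} (j : Fin m → β) (d : Fin m → H.Dart)
    (T : Fin m → Finset (G × β)) (s0 : G × β → Sym2 V) (x : α ⊕ Fin m × W → V)
    (hx : ∀ l, Function.Injective fun u => x (vm H ep j d l u)) (ι : BE H d → G × β) :
    ind (Function.Injective fun f => (ι f).1) *
      ∏ f, ind (ι f ∈ T f.1) * hit (s0 (ι f)) (exf (beb H ep j d) x f) =
      ind (Lab_R s0 T d (fun l u => x (vm H ep j d l u)) ι) := by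
  unfold Lab_R
  rw [ind_and, Lab_all]
  refine congrArg _ (prod_congr rfl fun f _ => ?_)
  have h : f.2.1.out.1 ≠ f.2.1.out.2 := fun h => H.not_isDiag_of_mem_edgeFinset
    (mem_of_mem_erase f.2.2) (Lab_out f.2.1 ▸ Sym2.mk_isDiag_iff.2 h)
  rw [ind_and, hit_of_ne _ fun h' => h (hx f.1 h')]
  refine congrArg _ (ind_congr (Eq.congr_right ?_))
  exact congrArg (Sym2.map fun u => x (vm H ep j d f.1 u)) (Lab_out f.2.1)

theorem lab [Nonempty V] {k0 : ℕ} (B : KBal H k0) (ep : β → α × α) (hne : ∀ j, (ep j).1 ≠ (ep j).2) {m : ℕ}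
    (g : G) (j : Fin m → β) (T : Fin m → Finset (G × β)) (hT : ∀ l, ∀ i ∈ T l, i.1 ≠ g)
    (y : G → α → V) (D : (α → V) → ℝ) (τ : ℝ) :
    τ ^ m * (𝔼 z : α → V, D z * DT H ep g j T (Function.update y g z)) =
      rate H (Fintype.card V) (Fintype.card G * Fintype.card β) τ ^ m *
        𝔼 d : Fin m → H.Dart, Cnt (beb H ep j d) (sp ep y)
          (fun x => D (fun a => x (Sum.inl a)) *
            ind (∀ l, Function.Injective fun u => x (vm H ep j d l u))) fun f => T f.1 := by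
  have hn : (Fintype.card V : ℝ) ≠ 0 := Nat.cast_ne_zero.2 Fintype.card_ne_zero
  have hA : aut H ≠ 0 := (zero_lt_one.trans_le one_le_aut).ne'
  have hk : (H.edgeFinset.card : ℝ) ≠ 0 := Nat.cast_ne_zero.2 (by have := B.h3; have := B.hk; omega)
  have e1 : ∀ d : Fin m → H.Dart, Cnt (beb H ep j d) (sp ep y)
      (fun x => D (fun a => x (Sum.inl a)) *
        ind (∀ l, Function.Injective fun u => x (vm H ep j d l u))) (fun f => T f.1) =
      ((Fintype.card V : ℝ) ^ 2 / (2 * Fintype.card (G × β))) ^ (m * (H.edgeFinset.card - 1)) *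
        ((Fintype.card V : ℝ) ^ (2 * m) * (∑ z : α → V, D z * ∑ φ : Fin m → W → V,
          ind (∀ l, φ l (d l).fst = z (ep (j l)).1 ∧ φ l (d l).snd = z (ep (j l)).2) *
            (ind (∀ l, Function.Injective (φ l)) *
              ∑ ι : BE H d → G × β, ind (Lab_R (sp ep y) T d φ ι))) /
          (Fintype.card V : ℝ) ^ (Fintype.card α + m * Fintype.card W)) := fun d => by
    unfold Cnt
    rw [card_BE, Fintype.expect_eq_sum_div_card, Fintype.card_fun, Fintype.card_sum,
      Fintype.card_prod (Fin m), Fintype.card_fin, Nat.cast_pow]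
    refine congrArg _ (congrArg₂ (· / ·) ?_ rfl)
    simp only [mul_sum _ _ (D _), mul_left_comm (D _)]
    rw [← Lab_x ep j d fun z φ => ind (∀ l, Function.Injective (φ l)) *
      ∑ ι : BE H d → G × β, D z * ind (Lab_R (sp ep y) T d φ ι)]
    refine sum_congr rfl fun x _ => ?_
    by_cases hx : ∀ l, Function.Injective fun u => x (vm H ep j d l u)
    · rw [ind_pos hx, mul_one, one_mul, mul_sum]
      exact sum_congr rfl fun ι _ => congrArg _ (Lab_hit ep j d T _ x hx ι)
    · rw [ind_neg hx, mul_zero, zero_mul, zero_mul]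
  have e2 : ∑ z : α → V, D z * DT H ep g j T (Function.update y g z) =
      (∑ d : Fin m → H.Dart, ∑ z : α → V, D z * ∑ φ : Fin m → W → V,
          ind (∀ l, φ l (d l).fst = z (ep (j l)).1 ∧ φ l (d l).snd = z (ep (j l)).2) *
            (ind (∀ l, Function.Injective (φ l)) *
              ∑ ι : BE H d → G × β, ind (Lab_R (sp ep y) T d φ ι))) / aut H ^ m := by
    rw [eq_div_iff (pow_ne_zero _ hA), sum_mul, sum_comm]
    refine sum_congr rfl fun z _ => ?_
    rw [← mul_sum, ← Lab_DT B ep g j T hT y z]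
    ring
  have e3 : ((2 * ((Fintype.card G * Fintype.card β : ℕ) : ℝ) / (Fintype.card V : ℝ) ^ 2) ^
      (H.edgeFinset.card - 1)) ^ m * ((Fintype.card V : ℝ) ^ 2 / (2 * Fintype.card (G × β))) ^
        (m * (H.edgeFinset.card - 1)) = 1 := by
    rcases Nat.eq_zero_or_pos m with rfl | hm
    · rw [pow_zero, zero_mul, pow_zero, one_mul]
    · have : Nonempty (G × β) := ⟨(g, j ⟨0, hm⟩)⟩
      have hN : (Fintype.card (G × β) : ℝ) ≠ 0 := Nat.cast_ne_zero.2 Fintype.card_ne_zero
      rw [← Fintype.card_prod, ← pow_mul, mul_comm m, ← mul_pow, div_mul_div_cancel₀ (by positivity),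
        div_self (by positivity), one_pow]
  have e4 : (Fintype.card V : ℝ) ^ (m * Fintype.card W) =
      ((Fintype.card V : ℝ) ^ (Fintype.card W - 2)) ^ m * (Fintype.card V : ℝ) ^ (2 * m) := by
    rw [← pow_mul, ← pow_add, ← add_mul, Nat.sub_add_cancel (by have := B.h3; omega), mul_comm]
  simp only [e1, Fintype.expect_eq_sum_div_card]
  rw [e2, ← mul_sum, ← sum_div, ← mul_sum, Fintype.card_fun, Fintype.card_fun,
    SimpleGraph.dart_card_eq_twice_card_edges, Fintype.card_fin, rate, mul_pow, mul_assoc,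
    mul_div_assoc (_ ^ (m * _)), ← mul_assoc (_ ^ m) (_ ^ (m * _)), e3, pow_add, e4]
  push_cast
  rw [mul_pow, mul_pow, div_pow]
  generalize (∑ d : Fin m → H.Dart, ∑ z : α → V, D z * ∑ φ : Fin m → W → V,
    ind (∀ l, φ l (d l).fst = z (ep (j l)).1 ∧ φ l (d l).snd = z (ep (j l)).2) *
      (ind (∀ l, Function.Injective (φ l)) *
        ∑ ι : BE H d → G × β, ind (Lab_R (sp ep y) T d φ ι))) = S
  clear e1 e2 e3 e4
  field_simp

end Pool.Agent.Work.MP_d4a230_co.U
end

-- merged part: Pool.Agent.Work.MP_d4a230_co.U.Bonf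
section
/-!
Bonferroni inequalities, a finite difference estimate and two polynomial approximations.
PLAN. es m a is the sum over subsets of size m of the product (m! injective tuples per subset:
Finset.powersetCard, or prove the recursion for a general Finset s directly:
e (m+1) (insert x s) = e (m+1) s + a x * e m s). bonf: induction on the Finset for all m at once, with
signs: (-1)^(m+1) (prod - partial sum) lies in [0, e (m+1)]. prod_fd: induction on the Finset.
exp_taylor: summability of X^m / m! (Real.summable_pow_div_factorial, Real.exp_bound or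
NormedSpace.expSeries_div_hasSum_exp). poly_approx: exists_polynomial_near_of_continuousOn,
Polynomial.eval_eq_sum_range.
-/

namespace Pool.Agent.Work.MP_d4a230_co.U

open Finset Filter Topology Pool.Agent.Work.MP_07f1b5_pr
open scoped BigOperators


theorem Bonf_es {X : Type} [Fintype X] (a : X → ℝ) (m : ℕ) :
    es m a = (univ.val.map a).esymm m := by
  classical
  rw [Finset.esymm_map_val, es, div_eq_iff (by positivity), sum_mul]
  have e : ∑ c : Fin m → X, ind (Function.Injective c) * ∏ l, a (c l) =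
      ∑ c : Fin m → X with Function.Injective c, ∏ l, a (c l) := by
    rw [sum_filter]
    refine sum_congr rfl fun c _ => ?_
    split_ifs with h
    · rw [ind_pos h, one_mul]
    · rw [ind_neg h, zero_mul]
  rw [e, ← sum_fiberwise_of_maps_to (g := fun c : Fin m → X => univ.image c)
    (t := powersetCard m univ) fun c hc => mem_powersetCard_univ.2 (by
      rw [card_image_of_injective _ (mem_filter.1 hc).2, card_fin])]
  refine sum_congr rfl fun t ht => ?_
  have ht' := mem_powersetCard_univ.1 ht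
  rw [sum_congr rfl (g := fun _ => t.prod a) fun c hc => by
    rw [← (mem_filter.1 hc).2, prod_image (mem_filter.1 (mem_filter.1 hc).1).2.injOn],
    sum_const, nsmul_eq_mul, mul_comm]
  congr 2
  rw [← Nat.descFactorial_self, show m.descFactorial m = (Fintype.card t).descFactorial
    (Fintype.card (Fin m)) by simp [ht'], ← Fintype.card_embedding_eq, ← card_univ]
  refine (card_bij (fun e _ l => (e l).1) (fun e _ => ?_) (fun e _ e' _ h => ?_) fun c hc => ?_).symm
  · have hi : Function.Injective fun l => (e l).1 := Subtype.val_injective.comp e.injective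
    refine mem_filter.2 ⟨mem_filter.2 ⟨mem_univ _, hi⟩, eq_of_subset_of_card_le
      (image_subset_iff.2 fun l _ => (e l).2) ?_⟩
    rw [card_image_of_injective _ hi, card_fin, ht']
  · exact Function.Embedding.ext fun l => Subtype.ext (congrFun h l)
  · simp only [mem_filter, mem_univ, true_and] at hc
    exact ⟨⟨fun l => ⟨c l, hc.2 ▸ mem_image_of_mem c (mem_univ l)⟩,
      fun l l' h => hc.1 (congrArg Subtype.val h)⟩, mem_univ _, rfl⟩

theorem Bonf_pos (s : Multiset ℝ) (hs : ∀ x ∈ s, 0 ≤ x ∧ x ≤ 1) (m : ℕ) :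
    0 ≤ (-1) ^ m * ((s.map fun x => 1 - x).prod - ∑ i ∈ range m, (-1) ^ i * s.esymm i) := by
  induction s using Multiset.induction_on generalizing m with
  | empty => cases m <;> simp [sum_range_succ', Multiset.esymm]
  | cons a s ih =>
    have ha := hs a (Multiset.mem_cons_self _ _)
    replace ih := ih fun x hx => hs x (Multiset.mem_cons_of_mem hx)
    have e0 : (a ::ₘ s).esymm 0 = s.esymm 0 := by simp [Multiset.esymm]
    have e1 : ∀ i, (a ::ₘ s).esymm (i + 1) = s.esymm (i + 1) + a * s.esymm i := fun i => by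
      simp [Multiset.esymm, Multiset.sum_map_mul_left]
    rw [Multiset.map_cons, Multiset.prod_cons]
    rcases m with _ | m
    · simpa using mul_nonneg (sub_nonneg.2 ha.2) (ih 0)
    · have e2 : ∑ i ∈ range (m + 1), (-1) ^ i * (a ::ₘ s).esymm i =
          ∑ i ∈ range (m + 1), (-1) ^ i * s.esymm i - a * ∑ i ∈ range m, (-1) ^ i * s.esymm i := by
        rw [sum_range_succ', sum_range_succ', e0, mul_sum, add_sub_right_comm, ← sum_sub_distrib]
        exact congrArg (· + _) (sum_congr rfl fun i _ => by rw [e1]; ring)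
      refine (add_nonneg (ih (m + 1)) (mul_nonneg ha.1 (ih m))).trans_eq ?_
      rw [e2]
      ring

theorem bonf {X : Type} [Fintype X] (a : X → ℝ) (ha : Unit01 a) (m : ℕ) :
    |∏ x, (1 - a x) - ∑ i ∈ range (m + 1), (-1) ^ i * es i a| ≤ es (m + 1) a := by
  have hs : ∀ x ∈ univ.val.map a, 0 ≤ x ∧ x ≤ 1 := fun x hx => by
    obtain ⟨y, -, rfl⟩ := Multiset.mem_map.1 hx
    exact ha y
  have h1 := Bonf_pos _ hs (m + 1)
  have h2 := Bonf_pos _ hs (m + 1 + 1)
  simp only [← Bonf_es, Multiset.map_map, Function.comp, prod_map_val] at h1 h2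
  rw [sum_range_succ _ (m + 1), pow_succ _ (m + 1)] at h2
  rcases neg_one_pow_eq_or ℝ (m + 1) with e | e <;> rw [e] at h1 h2 <;> rw [abs_le] <;>
    constructor <;> linarith only [h1, h2]

theorem prod_fd {X : Type} [Fintype X] [DecidableEq X] (a b : X → ℝ) (h0 : ∀ x, 0 ≤ a x)
    (hb : ∀ x, 0 ≤ b x) (h1 : ∀ x, a x + b x ≤ 1) :
    |∏ x, (1 - (a x + b x)) - ∏ x, (1 - a x) + ∑ x, b x * ∏ x2 ∈ univ.erase x, (1 - a x2)| ≤
      (∑ x, b x) ^ 2 := by
  have h2 : ∀ x, 0 ≤ 1 - a x ∧ 1 - a x ≤ 1 := fun x => ⟨by linarith [hb x, h1 x], by linarith [h0 x]⟩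
  have key : ∀ s : Finset X, |∏ x ∈ s, (1 - a x) - ∏ x ∈ s, (1 - (a x + b x))| ≤ ∑ x ∈ s, b x ∧
      |∏ x ∈ s, (1 - (a x + b x)) - ∏ x ∈ s, (1 - a x) +
        ∑ x ∈ s, b x * ∏ x2 ∈ s.erase x, (1 - a x2)| ≤ (∑ x ∈ s, b x) ^ 2 := fun s => by
    induction s using Finset.induction_on with
    | empty => simp
    | insert y s hy ih =>
      have e : ∑ x ∈ s, b x * ∏ x2 ∈ (insert y s).erase x, (1 - a x2) =
          (1 - a y) * ∑ x ∈ s, b x * ∏ x2 ∈ s.erase x, (1 - a x2) := by
        rw [mul_sum]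
        refine sum_congr rfl fun x hx => ?_
        rw [erase_insert_of_ne (by rintro rfl; exact hy hx),
          prod_insert fun c => hy (mem_of_mem_erase c), mul_left_comm]
      have p0 : 0 ≤ ∏ x ∈ s, (1 - (a x + b x)) := prod_nonneg fun x _ => sub_nonneg.2 (h1 x)
      have p1 : ∏ x ∈ s, (1 - (a x + b x)) ≤ 1 :=
        prod_le_one (fun x _ => sub_nonneg.2 (h1 x)) fun x _ => by linarith [h0 x, hb x]
      have b0 : 0 ≤ ∑ x ∈ s, b x := sum_nonneg fun x _ => hb x
      rw [prod_insert hy, prod_insert hy, sum_insert hy, sum_insert hy, erase_insert hy, e]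
      generalize ∏ x ∈ s, (1 - (a x + b x)) = P' at *
      generalize ∏ x ∈ s, (1 - a x) = P at *
      generalize ∑ x ∈ s, b x * ∏ x2 ∈ s.erase x, (1 - a x2) = L at *
      generalize ∑ x ∈ s, b x = B at *
      have k1 : |(1 - a y) * (P - P')| ≤ B := by
        rw [abs_mul, abs_of_nonneg (h2 y).1]
        exact (mul_le_of_le_one_left (abs_nonneg _) (h2 y).2).trans ih.1
      have k2 : |(1 - a y) * (P' - P + L)| ≤ B ^ 2 := by
        rw [abs_mul, abs_of_nonneg (h2 y).1]
        exact (mul_le_of_le_one_left (abs_nonneg _) (h2 y).2).trans ih.2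
      have k3 : |b y * (P - P')| ≤ b y * B := by
        rw [abs_mul, abs_of_nonneg (hb y)]
        exact mul_le_mul_of_nonneg_left ih.1 (hb y)
      have k4 := mul_nonneg (hb y) p0
      have k5 := mul_le_of_le_one_right (hb y) p1
      have k6 := mul_nonneg (hb y) b0
      rw [abs_le] at k1 k2 k3
      refine ⟨abs_le.2 ⟨?_, ?_⟩, abs_le.2 ⟨?_, ?_⟩⟩ <;> linarith only [k1, k4, k5, k2, k3, sq_nonneg (b y)]
  exact (key univ).2

theorem exp_taylor (X : ℝ) {ε : ℝ} (hε : 0 < ε) : ∀ᶠ m in atTop,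
    X ^ (m + 1) / (m + 1).factorial ≤ ε ∧ ∀ x : ℝ, |x| ≤ X →
      |Real.exp (-x) - ∑ i ∈ range (m + 1), (-1) ^ i * (x ^ i / i.factorial)| ≤ ε := by
  have l1 := ((FloorSemiring.tendsto_pow_div_factorial_atTop X).comp
    (tendsto_add_atTop_nat 1)).eventually (ge_mem_nhds (half_pos hε))
  filter_upwards [l1, tendsto_natCast_atTop_atTop.eventually_ge_atTop (2 * X)] with m h1 h2
  have h3 : X ^ (m + 1) / (m + 1).factorial ≤ ε / 2 := h1
  refine ⟨by linarith only [hε, h3], fun x hx => ?_⟩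
  have h4 := Complex.exp_bound' (x := ((-x : ℝ) : ℂ)) (n := m + 1) (by
    rw [Complex.norm_real, Real.norm_eq_abs, abs_neg, div_le_iff₀ (by positivity)]
    push_cast
    linarith only [h2, hx])
  have e : Complex.exp ((-x : ℝ) : ℂ) - ∑ i ∈ range (m + 1), ((-x : ℝ) : ℂ) ^ i / i.factorial =
      ((Real.exp (-x) - ∑ i ∈ range (m + 1), (-1) ^ i * (x ^ i / i.factorial) : ℝ) : ℂ) := by
    push_cast
    exact congrArg (_ - ·) (sum_congr rfl fun i _ => by rw [neg_pow, mul_div_assoc])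
  rw [e, Complex.norm_real, Complex.norm_real, Real.norm_eq_abs, Real.norm_eq_abs, abs_neg] at h4
  have h5 : |x| ^ (m + 1) / (m + 1).factorial ≤ X ^ (m + 1) / (m + 1).factorial := by gcongr
  linarith only [h3, h4, h5]

theorem exp_fd {x h X : ℝ} (hx : |x| ≤ X) (hh : |h| ≤ 1) :
    |Real.exp (-(x + h)) - Real.exp (-x) + h * Real.exp (-x)| ≤ h ^ 2 * Real.exp X := by
  have h1 := Real.abs_exp_sub_one_sub_id_le (x := -h) (by rwa [abs_neg])
  rw [neg_add, Real.exp_add, show Real.exp (-x) * Real.exp (-h) - Real.exp (-x) + h * Real.exp (-x) =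
    (Real.exp (-h) - 1 - -h) * Real.exp (-x) by ring, abs_mul, Real.abs_exp, ← neg_sq h]
  exact mul_le_mul h1 (Real.exp_le_exp.2 ((neg_le_abs x).trans hx)) (Real.exp_pos _).le (sq_nonneg _)

theorem poly_approx (f : ℝ → ℝ) (a b : ℝ) (hf : ContinuousOn f (Set.Icc a b)) {ε : ℝ}
    (hε : 0 < ε) : ∃ (d : ℕ) (c : ℕ → ℝ), ∀ x ∈ Set.Icc a b,
      |f x - ∑ i ∈ range (d + 1), c i * x ^ i| ≤ ε := by
  obtain ⟨p, hp⟩ := exists_polynomial_near_of_continuousOn a b f hf ε hε
  exact ⟨p.natDegree, p.coeff, fun x hx => by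
    rw [← Polynomial.eval_eq_sum_range, abs_sub_comm]
    exact (hp x hx).le⟩

theorem log_series {θ x : ℝ} (h0 : 0 ≤ θ) (h1 : θ < 1) (x0 : 0 ≤ x) (x1 : x ≤ 1) (R : ℕ) :
    |Real.log (1 - θ * x) + ∑ r ∈ range R, θ ^ (r + 1) / (r + 1) * x ^ (r + 1)| ≤
      θ ^ (R + 1) / (1 - θ) := by
  have p0 := mul_nonneg h0 x0
  have p1 := mul_le_of_le_one_right h0 x1
  have h := Real.abs_log_sub_add_sum_range_le (x := θ * x) (by rw [abs_of_nonneg p0]; linarith) R
  rw [abs_of_nonneg p0, add_comm] at h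
  simp only [div_mul_eq_mul_div, ← mul_pow]
  refine h.trans ?_
  gcongr

theorem sum_coef_le {θ : ℝ} (h0 : 0 ≤ θ) (h1 : θ < 1) (R : ℕ) :
    ∑ r ∈ range R, θ ^ (r + 1) / (r + 1) ≤ -Real.log (1 - θ) ∧ -Real.log (1 - θ) ≤ 1 / (1 - θ) := by
  refine ⟨sum_le_hasSum _ (fun r _ => by positivity)
    (Real.hasSum_pow_div_log_of_abs_lt_one (by rwa [abs_of_nonneg h0])), ?_⟩
  rw [← Real.log_inv, one_div]
  exact Real.log_le_self (inv_nonneg.2 (by linarith))

theorem conv_of (a : ℕ → ℝ) (B : ℝ) (hB : ∀ᶠ N in atTop, |a N| ≤ B)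
    (h : ∀ ε : ℝ, 0 < ε → ∀ᶠ μ in atTop, ∀ᶠ N in atTop, a μ - ε ≤ a N) :
    ∃ x, Tendsto a atTop (𝓝 x) := by
  have b1 : IsBoundedUnder (· ≤ ·) atTop a :=
    isBoundedUnder_of_eventually_le (hB.mono fun N h => (abs_le.1 h).2)
  have b2 : IsBoundedUnder (· ≥ ·) atTop a :=
    isBoundedUnder_of_eventually_ge (hB.mono fun N h => (abs_le.1 h).1)
  refine ⟨liminf a atTop, tendsto_of_le_liminf_of_limsup_le le_rfl
    (le_of_forall_pos_le_add fun ε hε => limsup_le_of_le b2.isCoboundedUnder_le ?_) b1 b2⟩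
  exact (h ε hε).mono fun μ hμ => sub_le_iff_le_add.1 (le_liminf_of_le b1.isCoboundedUnder_ge hμ)

end Pool.Agent.Work.MP_d4a230_co.U
end

-- merged part: Pool.Agent.Work.MP_d4a230_co.U.TP
section
/-!
Transfer from cavity averages to Gibbs averages.
PLAN. tp: x = Z / Z0 lies in [1, B]. poly_approx for x^(-r) on [1, B] with accuracy ε / B^r gives
d, c. gib = (N / Z0^r) * x^(-r), |N| / Z0^r <= G x^r <= G B^r, and (N / Z0^r) x^j is the sum over
σ : Fin (r + j) → S of prod (W0 W1) * F / Z0^(r+j) (Fin.appendEquiv or Fin.prod_univ_add,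
Finset.sum_pow'). Average over (z, a); terms with some W0 (σ l) = 0 vanish; the sum of prod W0 is
at most (B Z0)^(r+j). A = sum |c j| B^(r+j).
tpm: ex_update at g and Ex_mix with the set of all C with Tch g C. For fixed (y, act) apply tp with
W0 σ = U σ * (product over C ∈ act not touching g), which does not depend on z (Acd_congr),
W1 z a = awg (update y g z) a, Z0 = sum of W0 over σ disjoint from B = the component g. Z0 <= Z since
awg = 1 on such σ; sum W0 <= (1 + lam)^b Z0 by good_sum (C ⊆ σ iff C ⊆ σ \ B for C not touching g).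
marks: Ex_prod / Ex_prod_not with g C = prod_l (1 - θ ind ...), and
1 - prod_l (1 - θ x_l) = sum over nonempty S of (-1)^(|S|+1) θ^|S| prod_{l ∈ S} x_l
(Finset.prod_one_sub or prod_sub, prod_add).
-/

namespace Pool.Agent.Work.MP_d4a230_co.U

open Finset Filter Topology Pool.Agent.Work.MP_07f1b5_pr
open scoped BigOperators

lemma TP_app {S : Type} [Fintype S] (r j : ℕ) (w : S → ℝ) (F : (Fin r → S) → ℝ) :
    (∑ σ : Fin r → S, (∏ l, w (σ l)) * F σ) * (∑ s, w s) ^ j =
      ∑ σ : Fin (r + j) → S, (∏ l, w (σ l)) * F (fun l => σ (Fin.castAdd j l)) := by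
  rw [Fintype.sum_pow, sum_mul_sum, ← Fintype.sum_prod_type']
  refine Fintype.sum_equiv (Fin.appendEquiv r j) _ _ fun x => ?_
  simp only [Fin.appendEquiv_apply, Fin.prod_univ_add, Fin.append_left, Fin.append_right]
  ring

lemma TP_pt {S : Type} [Fintype S] (r d : ℕ) {B ε Z0 G : ℝ} (c : ℕ → ℝ) (hB : 1 ≤ B)
    (hc : ∀ x ∈ Set.Icc 1 B, |(x ^ r)⁻¹ - ∑ i ∈ range (d + 1), c i * x ^ i| ≤ ε / B ^ r)
    (w : S → ℝ) (F : (Fin r → S) → ℝ) (hZ : 0 < Z0) (hw : ∀ s, 0 ≤ w s) (h1 : Z0 ≤ ∑ s, w s)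
    (h2 : ∑ s, w s ≤ B * Z0) (hF : ∀ σ, |F σ| ≤ G) :
    |gib r w F - ∑ j ∈ range (d + 1), c j / Z0 ^ (r + j) *
      ∑ σ : Fin (r + j) → S, (∏ l, w (σ l)) * F (fun l => σ (Fin.castAdd j l))| ≤ ε * G := by
  have hs : 0 < ∑ s, w s := hZ.trans_le h1
  have hg : |gib r w F| ≤ G :=
    (gib_abs hw F).trans ((gib_mono hw fun σ _ => hF σ).trans (gib_const hs.ne' G).le)
  have hx : (∑ s, w s) / Z0 ∈ Set.Icc 1 B :=
    ⟨(one_le_div hZ).2 h1, (div_le_iff₀ hZ).2 h2⟩
  have e : gib r w F - ∑ j ∈ range (d + 1), c j / Z0 ^ (r + j) *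
      ∑ σ : Fin (r + j) → S, (∏ l, w (σ l)) * F (fun l => σ (Fin.castAdd j l)) =
      gib r w F * (((∑ s, w s) / Z0) ^ r * ((((∑ s, w s) / Z0) ^ r)⁻¹ -
        ∑ i ∈ range (d + 1), c i * ((∑ s, w s) / Z0) ^ i)) := by
    rw [mul_sub, mul_inv_cancel₀ (pow_ne_zero _ (div_pos hs hZ).ne'), mul_sub, mul_one, mul_sum,
      mul_sum]
    congr 1
    refine sum_congr rfl fun j _ => ?_
    rw [← TP_app]
    unfold gib
    have := hs.ne'
    have := hZ.ne'
    rw [div_pow, div_pow, pow_add]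
    field_simp
  have hB0 : 0 < B ^ r := pow_pos (one_pos.trans_le hB) r
  rw [e, abs_mul, abs_mul, abs_of_nonneg (pow_nonneg (div_pos hs hZ).le r), mul_comm ε]
  refine mul_le_mul hg ?_ (by positivity) ((abs_nonneg _).trans hg)
  calc _ ≤ B ^ r * (ε / B ^ r) :=
        mul_le_mul (pow_le_pow_left₀ (div_pos hs hZ).le hx.2 r) (hc _ hx) (abs_nonneg _) hB0.le
    _ = ε := mul_div_cancel₀ _ hB0.ne'

theorem tp (r : ℕ) {B ε : ℝ} (hB : 1 ≤ B) (hε : 0 < ε) : ∃ (d : ℕ) (A : ℝ), 0 ≤ A ∧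
    ∀ (S Z ι : Type) [Fintype S] [Fintype Z] [Fintype ι] [DecidableEq ι] (p : ι → ℝ)
      (W0 : S → ℝ) (W1 : Z → Finset ι → S → ℝ) (Z0 err : ℝ)
      (F : Z → Finset ι → (Fin r → S) → ℝ) (G : Z → Finset ι → ℝ), Adm p → 0 < Z0 → 0 ≤ err →
      (∀ s, 0 ≤ W0 s) → (∀ z a s, 0 ≤ W1 z a s ∧ W1 z a s ≤ 1) →
      (∀ z a, Z0 ≤ ∑ s, W0 s * W1 z a s) → ∑ s, W0 s ≤ B * Z0 → (∀ z a σ, |F z a σ| ≤ G z a) →
      (∀ j ≤ d, ∀ σ : Fin (r + j) → S, (∀ l, W0 (σ l) ≠ 0) →
        |𝔼 z, Ex p fun a => F z a (fun l => σ (Fin.castAdd j l)) * ∏ l, W1 z a (σ l)| ≤ err) →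
      |𝔼 z, Ex p fun a => gib r (fun s => W0 s * W1 z a s) (F z a)| ≤
        ε * (𝔼 z, Ex p (G z)) + A * err := by
  have hB0 : 0 < B := one_pos.trans_le hB
  obtain ⟨d, c, hc⟩ := poly_approx (fun x => (x ^ r)⁻¹) 1 B
    ((continuousOn_pow r).inv₀ fun x hx => pow_ne_zero _ (one_pos.trans_le hx.1).ne')
    (div_pos hε (pow_pos hB0 r))
  refine ⟨d, ∑ j ∈ range (d + 1), |c j| * B ^ (r + j), sum_nonneg fun j _ => by positivity, ?_⟩
  intro S Z ι _ _ _ _ p W0 W1 Z0 err F G hp hZ he h0 h1 hl hu hF hT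
  set P : Z → Finset ι → ℝ := fun z a => ∑ j ∈ range (d + 1), c j / Z0 ^ (r + j) *
    ∑ σ : Fin (r + j) → S, (∏ l, W0 (σ l)) *
      (F z a (fun l => σ (Fin.castAdd j l)) * ∏ l, W1 z a (σ l)) with hP
  have a1 : ∀ z a, |gib r (fun s => W0 s * W1 z a s) (F z a) - P z a| ≤ ε * G z a := fun z a => by
    have := TP_pt r d c hB hc (fun s => W0 s * W1 z a s) (F z a) hZ
      (fun s => mul_nonneg (h0 s) (h1 z a s).1) (hl z a)
      ((sum_le_sum fun s _ => mul_le_of_le_one_right (h0 s) (h1 z a s).2).trans hu) (hF z a)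
    simpa only [hP, prod_mul_distrib, mul_assoc, mul_comm (F z a _)] using this
  have a2 : |(𝔼 z, Ex p fun a => gib r (fun s => W0 s * W1 z a s) (F z a)) - 𝔼 z, Ex p (P z)| ≤
      ε * 𝔼 z, Ex p (G z) := by
    rw [← expect_sub_distrib, mul_expect]
    refine (ex_abs _).trans (ex_mono fun z => ?_)
    rw [← Ex_sub, ← Ex_const_mul]
    exact (Ex_abs hp _).trans (Ex_mono hp (a1 z))
  have a3 : |𝔼 z, Ex p (P z)| ≤ (∑ j ∈ range (d + 1), |c j| * B ^ (r + j)) * err := by
    simp only [hP, Ex_sum, Ex_const_mul, expect_sum_comm, ← mul_expect]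
    rw [sum_mul]
    refine (abs_sum_le_sum_abs _ _).trans (sum_le_sum fun j hj => ?_)
    have hZ' : 0 < Z0 ^ (r + j) := pow_pos hZ _
    rw [abs_mul, abs_div, abs_of_pos hZ', div_mul_eq_mul_div, mul_div_assoc, mul_assoc]
    refine mul_le_mul_of_nonneg_left ((div_le_iff₀ hZ').2 ?_) (abs_nonneg _)
    calc _ ≤ ∑ σ : Fin (r + j) → S, (∏ l, W0 (σ l)) * err := by
          refine (abs_sum_le_sum_abs _ _).trans (sum_le_sum fun σ _ => ?_)
          rw [abs_mul, abs_of_nonneg (prod_nonneg fun l _ => h0 _)]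
          by_cases hσ : ∀ l, W0 (σ l) ≠ 0
          · exact mul_le_mul_of_nonneg_left (hT j (Nat.lt_succ_iff.1 (mem_range.1 hj)) σ hσ)
              (prod_nonneg fun l _ => h0 _)
          · obtain ⟨l, hl⟩ := not_forall.1 hσ
            rw [prod_eq_zero (mem_univ l) (not_not.1 hl), zero_mul, zero_mul]
      _ = (∑ s, W0 s) ^ (r + j) * err := by rw [← sum_mul, Fintype.sum_pow]
      _ ≤ (B * Z0) ^ (r + j) * err :=
          mul_le_mul_of_nonneg_right (pow_le_pow_left₀ (sum_nonneg fun s _ => h0 s) hu _) he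
      _ = _ := by rw [mul_pow]; ring
  have := abs_sub_abs_le_abs_sub (𝔼 z, Ex p fun a => gib r (fun s => W0 s * W1 z a s) (F z a))
    (𝔼 z, Ex p (P z))
  linarith

variable {α β : Type} [Fintype α] [DecidableEq α] [Fintype β] [DecidableEq β]
  {W : Type} [Fintype W] [DecidableEq W] {H : SimpleGraph W} [DecidableRel H.Adj]

theorem tpm (ep : β → α × α) (r : ℕ) {lam θ ε : ℝ} (hl : 0 ≤ lam) (h0 : 0 ≤ θ) (h1 : θ < 1)
    (hε : 0 < ε) : ∃ (d : ℕ) (A : ℝ), 0 ≤ A ∧ ∀ (n M : ℕ) (τ : ℝ) (g : Fin M)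
      (U : Finset (Fin M × β) → ℝ)
      (F : (Fin M → α → Fin n) → Finset (Finset (Fin M × β)) → (Fin r → Finset (Fin M × β)) → ℝ)
      (G : (Fin M → α → Fin n) → Finset (Finset (Fin M × β)) → ℝ)
      (err : (Fin M → α → Fin n) → ℝ), 0 ≤ τ → τ ≤ 1 → Good lam U → (∀ y, 0 ≤ err y) →
      (∀ y a σ, |F y a σ| ≤ G y a) →
      (∀ y a a2, (∀ C, Tch g C → (C ∈ a ↔ C ∈ a2)) → F y a = F y a2) →
      (∀ y, ∀ j ≤ d, ∀ σ : Fin (r + j) → Finset (Fin M × β), (∀ l, U (σ l) ≠ 0) →
        |𝔼 z, E τ fun a => F (Function.update y g z) a (fun l => σ (Fin.castAdd j l)) *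
          ∏ l, awg H θ ep g (Function.update y g z) a (σ l)| ≤ err y) →
      |EG H θ τ ep U r F| ≤ ε * (𝔼 y, E τ (G y)) + A * 𝔼 y, err y := by
  classical
  obtain ⟨d, A, hA, h⟩ := tp r (B := (1 + lam) ^ Fintype.card β)
    (one_le_pow₀ (le_add_of_nonneg_right hl)) hε
  refine ⟨d, A, hA, ?_⟩
  intro n M τ g U F G err t0 t1 hU he hF hT hE
  set T : Finset (Finset (Fin M × β)) := univ.filter fun C => Tch g C with hTd
  have mT : ∀ C, C ∈ T ↔ Tch g C := fun C => by simp only [hTd, mem_filter, mem_univ, true_and]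
  set K : Finset (Fin M × β) := {g} ×ˢ univ with hK
  have mK : ∀ i, i ∈ K ↔ i.1 = g := fun i => by
    simp only [hK, mem_product, mem_singleton, mem_univ, and_true]
  have cK : K.card = Fintype.card β := by rw [hK, card_product, card_singleton, one_mul, card_univ]
  have nT : ∀ (ω : Finset (Finset (Fin M × β))), ∀ C ∈ ω \ T, ∀ i ∈ C, i.1 ≠ g :=
    fun ω C hC i hi e => (mem_sdiff.1 hC).2 ((mT C).2 ⟨i.2, e ▸ hi⟩)
  have key : ∀ (y : Fin M → α → Fin n) (ω : Finset (Finset (Fin M × β))),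
      |𝔼 z, E τ fun a => gib r (Wt H θ ep U (Function.update y g z) (ω \ T ∪ a ∩ T))
        (F (Function.update y g z) (ω \ T ∪ a ∩ T))| ≤
      ε * (𝔼 z, E τ (G (Function.update y g z))) + A * err y := fun y ω => by
    have e1 : ∀ z a, F (Function.update y g z) (ω \ T ∪ a ∩ T) = F (Function.update y g z) a :=
      fun z a => hT _ _ _ fun C hC => by
        simp only [mem_union, Finset.mem_sdiff, mem_inter, (mT C).2 hC, not_true, and_false, and_true,
          false_or]
    have e2 : ∀ z a, Wt H θ ep U (Function.update y g z) (ω \ T ∪ a ∩ T) = fun σ =>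
        U σ * aw H θ (sp ep y) Prod.fst (ω \ T) σ * awg H θ ep g (Function.update y g z) a σ :=
      fun z a => funext fun σ => by
        unfold Wt aw awg
        rw [prod_union (disjoint_of_subset_right inter_subset_right sdiff_disjoint), mul_assoc]
        congr 2
        · refine prod_congr rfl fun C hC => ?_
          rw [Acd_congr (q2 := sp ep y) Prod.fst fun i hi => by
            unfold sp
            rw [Function.update_of_ne (nT ω C hC i hi)]]
        · refine prod_subset_one_on_sdiff inter_subset_left (fun C hC => ?_) fun C hC => ?_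
          · rw [ind_neg fun hc => (mem_sdiff.1 hC).2
              (mem_inter.2 ⟨(mem_sdiff.1 hC).1, (mT C).2 hc.2.1⟩), mul_zero, sub_zero]
          · rw [ind_congr (and_congr_right fun _ =>
              (and_iff_right ((mT C).1 (mem_inter.1 hC).2)).symm)]
    simp only [e1, e2]
    have hf := fun σ => aw_bd (H := H) h0 h1 (sp ep y) Prod.fst (ω \ T) σ
    refine h (Finset (Fin M × β)) (α → Fin n) (Finset (Fin M × β)) (fun _ => τ)
      (fun σ => U σ * aw H θ (sp ep y) Prod.fst (ω \ T) σ)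
      (fun z a σ => awg H θ ep g (Function.update y g z) a σ)
      (∑ σ, ind (Disjoint σ K) * (U σ * aw H θ (sp ep y) Prod.fst (ω \ T) σ)) (err y)
      (fun z a => F (Function.update y g z) a) (fun z a => G (Function.update y g z) a)
      (fun _ => ⟨t0, t1⟩) ?_ (he y) (fun σ => mul_nonneg (hU.1 σ) (hf σ).1.le) (fun z a σ => ?_)
      (fun z a => sum_le_sum fun σ _ => ?_) ?_ (fun z a σ => hF _ _ _)
      fun j hj σ hσ => hE y j hj σ fun l => left_ne_zero_of_mul (hσ l)
    · refine sum_pos' (fun σ _ => mul_nonneg (ind_nonneg _) (mul_nonneg (hU.1 σ) (hf σ).1.le))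
        ⟨∅, mem_univ _, ?_⟩
      rw [ind_pos (disjoint_empty_left K), one_mul]
      exact mul_pos hU.2.1 (hf _).1
    · exact ⟨prod_nonneg fun c _ => (Gib_fac h0 h1 _).1.le,
        prod_le_one (fun c _ => (Gib_fac h0 h1 _).1.le) fun c _ => (Gib_fac h0 h1 _).2⟩
    · by_cases hd : Disjoint σ K
      · have : awg H θ ep g (Function.update y g z) a σ = 1 := prod_eq_one fun C _ => by
          rw [ind_neg fun ⟨_, ⟨j, hj⟩, hc⟩ => disjoint_left.1 hd (hc hj) ((mK _).2 rfl), mul_zero,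
            sub_zero]
        rw [ind_pos hd, this, one_mul, mul_one]
      · rw [ind_neg hd, zero_mul]
        exact mul_nonneg (mul_nonneg (hU.1 σ) (hf σ).1.le)
          (prod_nonneg fun c _ => (Gib_fac h0 h1 _).1.le)
    · rw [← cK]
      refine le_trans (le_of_eq (sum_congr rfl fun σ _ => ?_))
        (good_sum hl hU K _ fun σ => (hf σ).1.le)
      congr 1
      refine prod_congr rfl fun C hC => ?_
      rw [ind_congr (and_congr_right fun _ => ⟨fun hc => subset_sdiff.2
        ⟨hc, disjoint_left.2 fun i hi hk => nT ω C hC i hi ((mK i).1 hk)⟩,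
        fun hc => hc.trans sdiff_subset⟩)]
  rw [ex_update g fun y => E τ (G y), mul_expect, mul_expect, ← expect_add_distrib]
  unfold EG
  rw [ex_update g]
  refine (ex_abs _).trans (ex_mono fun y => ?_)
  have e3 : (𝔼 z, E τ fun act => gib r (Wt H θ ep U (Function.update y g z) act)
      (F (Function.update y g z) act)) = E τ fun ω => 𝔼 z, E τ fun a =>
        gib r (Wt H θ ep U (Function.update y g z) (ω \ T ∪ a ∩ T))
          (F (Function.update y g z) (ω \ T ∪ a ∩ T)) := by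
    unfold E
    rw [← ex_Ex]
    exact expect_congr rfl fun z _ => Ex_mix _ T _
  rw [e3]
  exact (abs_E_le t0 t1 _).trans ((E_mono t0 t1 (key y)).trans (E_const _).le)

variable {V G : Type} [Fintype V] [DecidableEq V] [Fintype G] [DecidableEq G]

/-- Coefficients of the marks: `J b` is the set of replicas that contain the slot `b`. -/
noncomputable def coef (θ t : ℝ) {u : ℕ} (J : β → Finset (Fin u)) (b : β) (S : Finset (Fin u)) : ℝ :=
  t * (ind (S.Nonempty ∧ S ⊆ J b) * (-1) ^ (S.card + 1) * θ ^ S.card)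

/-- The part of an intersection of replicas outside the component `g`. -/
def cav (g : G) {u : ℕ} (σ : Fin u → Finset (G × β)) (S : Finset (Fin u)) : Finset (G × β) :=
  (S.inf σ).filter fun i => i.1 ≠ g

lemma coef_abs {θ t : ℝ} (h0 : 0 ≤ θ) (h1 : θ < 1) (t0 : 0 ≤ t) (t1 : t ≤ 1) {u : ℕ}
    (J : β → Finset (Fin u)) (b : β) (S : Finset (Fin u)) : |coef θ t J b S| ≤ 1 := by
  unfold coef
  rw [abs_mul, abs_mul, abs_mul, abs_pow, abs_neg, abs_one, one_pow, mul_one, abs_of_nonneg t0,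
    abs_of_nonneg (ind_nonneg _), abs_of_nonneg (pow_nonneg h0 _)]
  exact mul_le_one₀ t1 (mul_nonneg (ind_nonneg _) (pow_nonneg h0 _))
    (mul_le_one₀ (ind_le_one _) (pow_nonneg h0 _) (pow_le_one₀ h0 h1.le))

lemma TP_alt (θ : ℝ) {u : ℕ} (x : Fin u → Prop) :
    ∑ S : Finset (Fin u), ind (S.Nonempty ∧ ∀ l ∈ S, x l) * (-1) ^ (S.card + 1) * θ ^ S.card =
      1 - ∏ l, (1 - θ * ind (x l)) := by
  simp only [sub_eq_add_neg _ (θ * ind _)]
  rw [prod_one_add, powerset_univ, eq_sub_iff_add_eq, ← sum_add_distrib, sum_eq_single ∅]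
  · rw [ind_neg (q := _ ∧ _) fun h => Finset.not_nonempty_empty h.1, prod_empty, zero_mul, zero_mul, zero_add]
  · intro S _ hS
    by_cases h : ∀ l ∈ S, x l
    · rw [ind_pos ⟨nonempty_iff_ne_empty.2 hS, h⟩,
        prod_congr rfl (g := fun _ => (-1) * θ) fun l hl => by rw [ind_pos (h l hl)]; ring,
        prod_const, mul_pow]
      ring
    · rw [ind_neg fun h2 => h h2.2]
      push Not at h
      obtain ⟨l, hl, h⟩ := h
      rw [prod_eq_zero hl (by rw [ind_neg h, mul_zero, neg_zero])]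
      ring
  · exact fun h => absurd (mem_univ _) h

lemma TP_coef (θ t : ℝ) {u : ℕ} (J : β → Finset (Fin u)) (g : G) (σ : Fin u → Finset (G × β))
    (b : β) (C : Finset (G × β)) : ∑ S, coef θ t J b S * ind (C ⊆ cav g σ S) =
      t * (1 - ∏ l, (1 - θ * ind ((∀ i ∈ C, i.1 ≠ g) ∧ l ∈ J b ∧ C ⊆ σ l))) := by
  rw [← TP_alt, mul_sum]
  refine sum_congr rfl fun S _ => ?_
  have e : (S.Nonempty ∧ ∀ l ∈ S, (∀ i ∈ C, i.1 ≠ g) ∧ l ∈ J b ∧ C ⊆ σ l) ↔
      (S.Nonempty ∧ S ⊆ J b) ∧ C ⊆ cav g σ S := by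
    constructor
    · rintro ⟨⟨l, hl⟩, h⟩
      exact ⟨⟨⟨l, hl⟩, fun k hk => (h k hk).2.1⟩, fun i hi => mem_filter.2
        ⟨(Finset.le_inf fun k hk => (h k hk).2.2 : C ≤ S.inf σ) hi, (h l hl).1 i hi⟩⟩
    · rintro ⟨⟨h1, h2⟩, h3⟩
      exact ⟨h1, fun l hl => ⟨fun i hi => (mem_filter.1 (h3 hi)).2, h2 hl, fun i hi =>
        (Finset.inf_le hl : S.inf σ ≤ σ l) (mem_filter.1 (h3 hi)).1⟩⟩
  rw [ind_congr e, ind_and _ (C ⊆ _)]
  unfold coef
  ring

lemma coef_sum {θ t : ℝ} (h0 : 0 ≤ θ) (h1 : θ < 1) (t0 : 0 ≤ t) (t1 : t ≤ 1) {u : ℕ}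
    (J : β → Finset (Fin u)) (g : G) (σ : Fin u → Finset (G × β)) (b : β) (C : Finset (G × β)) :
    0 ≤ ∑ S, coef θ t J b S * ind (C ⊆ cav g σ S) ∧
      ∑ S, coef θ t J b S * ind (C ⊆ cav g σ S) ≤ 1 - (1 - θ) ^ u := by
  rw [TP_coef]
  have a := prod_le_one (s := univ) (fun l _ => (Gib_fac h0 h1
    ((∀ i ∈ C, i.1 ≠ g) ∧ l ∈ J b ∧ C ⊆ σ l)).1.le) fun l _ => (Gib_fac h0 h1 _).2
  have c : (1 - θ) ^ u ≤ ∏ l, (1 - θ * ind ((∀ i ∈ C, i.1 ≠ g) ∧ l ∈ J b ∧ C ⊆ σ l)) := by
    calc _ = ∏ _l : Fin u, (1 - θ) := by rw [prod_const, card_univ, Fintype.card_fin]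
      _ ≤ _ := prod_le_prod (fun _ _ => (sub_pos.2 h1).le) fun l _ =>
          sub_le_sub_left (mul_le_of_le_one_right h0 (ind_le_one _)) 1
  exact ⟨mul_nonneg t0 (sub_nonneg.2 a),
    (mul_le_of_le_one_left (sub_nonneg.2 a) t1).trans (sub_le_sub_left c 1)⟩

/-- The mark of one constraint. -/
lemma mrk_coef (θ t : ℝ) (ep : β → α × α) (g : G) {u : ℕ} (J : β → Finset (Fin u))
    (σ : Fin u → Finset (G × β)) (y : G → α → V) (C : Finset (G × β)) :
    mrk H ep g (coef θ t J) (cav g σ) y C = t * (1 - ∏ l, (1 - θ *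
      ind (Acd H (sp ep y) Prod.fst C ∧ ∃ b, (g, b) ∈ C ∧ l ∈ J b ∧ C.erase (g, b) ⊆ σ l))) := by
  unfold mrk
  by_cases h : Acd H (sp ep y) Prod.fst C ∧ ∃ b, (g, b) ∈ C
  · obtain ⟨h, b, hb⟩ := h
    have un : ∀ i ∈ C, i.1 = g → i = (g, b) := fun i hi e => h.2.2 hi hb e
    rw [ind_pos h, one_mul, sum_eq_single b (fun j _ hj => by
      rw [ind_neg fun hc => hj (congrArg Prod.snd (un _ hc rfl)), zero_mul])
      (fun hc => absurd (mem_univ _) hc), ind_pos hb, one_mul, TP_coef]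
    congr 2
    refine prod_congr rfl fun l _ => congrArg (fun x => 1 - θ * x)
      (ind_congr ⟨fun hc => ⟨h, b, hb, hc.2⟩, fun ⟨_, j, hj, hc⟩ => ?_⟩)
    obtain rfl : j = b := congrArg Prod.snd (un _ hj rfl)
    exact ⟨fun i hi e => (mem_erase.1 hi).1 (un i (mem_erase.1 hi).2 e), hc⟩
  · rw [prod_eq_one fun l _ => by
      rw [ind_neg fun ⟨hc, b, hb, _⟩ => h ⟨hc, b, hb⟩, mul_zero, sub_zero], sub_self, mul_zero]
    by_cases hc : Acd H (sp ep y) Prod.fst C
    · rw [sum_eq_zero fun j _ => by rw [ind_neg fun hj => h ⟨hc, j, hj⟩, zero_mul], mul_zero]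
    · rw [ind_neg hc, zero_mul]

lemma TP_mark (θ t τ : ℝ) (ep : β → α × α) (g : G) {u : ℕ} (σ : Fin u → Finset (G × β))
    (y : G → α → V) (C : Finset (G × β)) : 1 - t * τ + t * τ *
      ∏ l, (1 - θ * ind (Acd H (sp ep y) Prod.fst C ∧ Tch g C ∧ C ⊆ σ l)) = 1 - τ *
      mrk H ep g (coef θ t fun b => univ.filter fun l => (g, b) ∈ σ l) (cav g σ) y C := by
  rw [mrk_coef, prod_congr rfl fun l _ => congrArg (fun x => 1 - θ * x) (ind_congr
    (r := Acd H (sp ep y) Prod.fst C ∧ ∃ b, (g, b) ∈ C ∧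
      l ∈ (univ.filter fun l => (g, b) ∈ σ l) ∧ C.erase (g, b) ⊆ σ l)
    (and_congr_right fun _ => ⟨fun ⟨⟨b, hb⟩, hc⟩ => ⟨b, hb, mem_filter.2 ⟨mem_univ _, hc hb⟩,
      (erase_subset _ _).trans hc⟩, fun ⟨b, hb, h1, h2⟩ => ⟨⟨b, hb⟩, fun i hi => by
        by_cases e : i = (g, b)
        · exact e ▸ (mem_filter.1 h1).2
        · exact h2 (mem_erase.2 ⟨e, hi⟩)⟩⟩))]
  ring

lemma marks (θ t τ : ℝ) (ep : β → α × α) (g : G) {u : ℕ} (σ : Fin u → Finset (G × β))
    (y : G → α → V) :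
    (E (t * τ) fun a => ∏ l, awg H θ ep g y a (σ l)) = ∏ C, (1 - τ *
      mrk H ep g (coef θ t fun b => univ.filter fun l => (g, b) ∈ σ l) (cav g σ) y C) := by
  unfold awg E
  simp only [prod_comm (s := univ) (t := _)]
  rw [Ex_prod]
  exact prod_congr rfl fun C _ => TP_mark θ t τ ep g σ y C

lemma marks_not (θ t τ : ℝ) (ep : β → α × α) (g : G) {u : ℕ} (σ : Fin u → Finset (G × β))
    (y : G → α → V) (C0 : Finset (G × β)) :
    (E (t * τ) fun a => ind (C0 ∉ a) * ∏ l, awg H θ ep g y a (σ l)) =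
      (1 - t * τ) * ∏ C ∈ univ.erase C0, (1 - τ *
        mrk H ep g (coef θ t fun b => univ.filter fun l => (g, b) ∈ σ l) (cav g σ) y C) := by
  unfold awg E
  simp only [prod_comm (s := univ) (t := _)]
  rw [Ex_prod_not]
  exact congrArg _ (prod_congr rfl fun C _ => TP_mark θ t τ ep g σ y C)

/-- The slot `b0` is empty in all replicas and is switched on in the first `r` of them. -/
lemma marks_xi (θ τ : ℝ) (ep : β → α × α) (g : G) (b0 : β) {r j : ℕ}
    (σ : Fin (r + j) → Finset (G × β)) (hσ : ∀ l, (g, b0) ∉ σ l) (y : G → α → V) :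
    (E τ fun a => (∏ l : Fin r, Xi H θ ep (g, b0) y a (σ (Fin.castAdd j l))) *
        ∏ l, awg H θ ep g y a (σ l)) = ∏ C, (1 - τ * mrk H ep g
      (coef θ 1 (Function.update (fun b => univ.filter fun l => (g, b) ∈ σ l) b0
        (univ.map (Fin.castAddEmb j)))) (cav g σ) y C) := by
  unfold awg Xi E
  simp only [prod_comm (s := univ) (t := _), ← prod_mul_distrib]
  rw [Ex_prod]
  refine prod_congr rfl fun C _ => ?_
  by_cases h : Acd H (sp ep y) Prod.fst C ∧ (g, b0) ∈ C
  · rw [mrk_coef, Fin.prod_univ_add (a := r) (b := j) (f := fun l => 1 - θ * ind (_ ∧ ∃ b, _)),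
      prod_eq_one (s := univ) (f := fun l : Fin (r + j) => _) fun l _ => by
        rw [ind_neg fun hc => hσ l (hc.2.2 h.2), mul_zero, sub_zero],
      prod_eq_one (s := univ) (f := fun l : Fin j => _) fun l _ => by
        refine (congrArg (fun x => 1 - θ * x) (ind_neg fun ⟨_, b, hb, h1, _⟩ => ?_)).trans
          (by rw [mul_zero, sub_zero])
        obtain rfl : b = b0 := congrArg Prod.snd (h.1.2.2 hb h.2 rfl)
        rw [Function.update_self, Finset.mem_map] at h1
        obtain ⟨k, _, hk⟩ := h1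
        have := congrArg Fin.val hk
        simp only [Fin.castAddEmb_apply, Fin.val_castAdd, Fin.val_natAdd] at this
        omega,
      prod_congr rfl fun l _ => congrArg (fun x => 1 - θ * x) (ind_congr
        (r := Acd H (sp ep y) Prod.fst C ∧ ∃ b, (g, b) ∈ C ∧ Fin.castAdd j l ∈ Function.update
          (fun b => univ.filter fun l => (g, b) ∈ σ l) b0 (univ.map (Fin.castAddEmb j)) b ∧
          C.erase (g, b) ⊆ σ (Fin.castAdd j l))
        (and_congr_right fun _ => ⟨fun hc => ⟨b0, hc.1, by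
          rw [Function.update_self]; exact mem_map_of_mem _ (mem_univ l), hc.2⟩,
          fun ⟨b, hb, _, h2⟩ => by
            obtain rfl : b = b0 := congrArg Prod.snd (h.1.2.2 hb h.2 rfl)
            exact ⟨hb, h2⟩⟩))]
    ring
  · have e := TP_mark (H := H) θ 1 τ ep g σ y C
    rw [one_mul, mrk_coef] at e
    rw [prod_eq_one (s := univ) (f := fun l : Fin r => _) fun l _ => by
      rw [ind_neg fun hc => h ⟨hc.1, hc.2.1⟩, mul_zero, sub_zero], one_mul, e, mrk_coef]
    congr 4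
    refine prod_congr rfl fun l _ => congrArg (fun x => 1 - θ * x) (ind_congr
      (and_congr_right fun hc => exists_congr fun b => and_congr_right fun hb => ?_))
    rw [Function.update_of_ne fun e : b = b0 => h ⟨hc, e ▸ hb⟩]

end Pool.Agent.Work.MP_d4a230_co.U
end
end
end

-- merged part: Pool.Agent.Work.MP_d4a230_co.V.LF1
section
-- merged part: Pool.Agent.Work.MP_d4a230_co.U.LF0
section
/-!
Moments of the marked constraints at a component.
PLAN. dt_close: by lab the first term is rate^m times the mean over d of the injective count. The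
full count Cnt (D ∘ inl) is the injective count plus a count between 0 and
Cnt (ind (some x ∘ vm l is not injective)) univ (cnt_add, cnt_mono), whose mean over y is at most
m v^2 / n (cnt_one, ex_comp_inj with vm_inj, ex_not_inj). count_lemma for each of the finitely many
(j, d) (Filter.eventually_all, take the minimum of the γ), dc_beb, root_beb, lam_beb, psi_mk, and
the mean over d of a product is the product of the means (ex_prod_coord). rate is bounded
(R.rate_bd). dt_mean: lab with D = 1, T l = variables outside g, ex_update, cnt_mono, cnt_one; note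
that Acd C and (g, j) ∈ C force C.erase (g, j) to avoid the component g.
-/

namespace Pool.Agent.Work.MP_d4a230_co.U

open Finset Filter Topology Pool.Agent.Work.MP_07f1b5_pr
open scoped BigOperators

variable {α β : Type} [Fintype α] [DecidableEq α] [Fintype β] [DecidableEq β]
  {W : Type} [Fintype W] [DecidableEq W] {H : SimpleGraph W} [DecidableRel H.Adj]
  {ep : β → α × α} {n M : ℕ → ℕ} {τ : ℕ → ℝ}

section det

variable {V G : Type} [Fintype V] [DecidableEq V] [Nonempty V] [Fintype G] [DecidableEq G] {m : ℕ}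

lemma LF0_dt (g : G) (s : Fin m → β) (y : G → α → V) :
    DT H ep g s (fun _ => univ) y = DT H ep g s (fun _ => univ.filter fun i => i.1 ≠ g) y := by
  refine sum_congr rfl fun c _ => congrArg (· * _) (ind_congr (forall_congr' fun l =>
    and_congr_right fun h1 => and_congr_right fun h2 => iff_of_true (subset_univ _) fun i hi => ?_))
  exact mem_filter.2 ⟨mem_univ _, fun e => (mem_erase.1 hi).1 (h1.2.2 (mem_erase.1 hi).2 h2 e)⟩

lemma LF0_psi (s : Fin m → β) (D : (α → V) → ℝ) (w : Fin m → Sym2 V → ℝ) :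
    𝔼 z, D z * ∏ l, psi H (w l) (sl ep z (s l)) = 𝔼 d : Fin m → H.Dart,
      Lam (beb H ep s d) (fun x => D fun a => x (Sum.inl a)) fun f => ord (w f.1) := by
  classical
  simp only [lam_beb, sl, psi_mk]
  rw [expect_comm]
  refine expect_congr rfl fun z _ => ?_
  rw [← mul_expect, ex_prod_coord fun l a => rt H (w l) a (z (ep (s l)).1) (z (ep (s l)).2)]

lemma LF0_bad (hne : ∀ j, (ep j).1 ≠ (ep j).2) (s : Fin m → β) (d : Fin m → H.Dart) :
    𝔼 y : G → α → V, Cnt (beb H ep s d) (sp ep y)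
      (fun x => ind (¬ ∀ l, Function.Injective fun u => x (vm H ep s d l u))) (fun _ => univ) ≤
      m * ((Fintype.card W : ℝ) ^ 2 / Fintype.card V) := by
  refine (cnt_one _ ep hne fun _ => ind_nonneg _).trans ((ex_mono (g := fun x : α ⊕ Fin m × W → V =>
    ∑ l, ind (¬ Set.InjOn (fun u => x (vm H ep s d l u)) (univ : Finset W))) fun x => ?_).trans ?_)
  · refine (ind_mono fun h => ?_).trans (ind_exists_le _ _)
    obtain ⟨l, hl⟩ := not_forall.1 h
    exact ⟨l, mem_univ _, by simpa using hl⟩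
  rw [expect_sum_comm]
  refine (sum_le_card_nsmul _ _ _ fun l _ => (ex_comp_inj _ (vm_inj ep s d hne l)
    fun z : W → V => ind (¬ Set.InjOn z (univ : Finset W))).trans_le (ex_not_inj _)).trans_eq ?_
  simp

lemma LF0_split {VB EB : Type} [Fintype VB] [DecidableEq VB] [Fintype EB] [DecidableEq EB]
    (eb : EB → VB × VB) (q : G × β → Sym2 V) {D : (VB → V) → ℝ} (hD : Unit01 D)
    (P : (VB → V) → Prop) (T : EB → Finset (G × β)) {a e : ℝ} (h : |Cnt eb q D T - a| ≤ e) :
    |Cnt eb q (fun x => D x * ind (P x)) T - a| ≤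
      e + Cnt eb q (fun x => ind (¬ P x)) fun _ => univ := by
  have h1 := cnt_add eb q (fun x => D x * ind (P x)) (fun x => D x * ind (¬ P x)) T
  have h2 := cnt_mono eb q (D := fun x => D x * ind (¬ P x)) (D2 := fun x => ind (¬ P x))
    (fun x => mul_nonneg (hD x).1 (ind_nonneg _))
    (fun x => mul_le_of_le_one_left (ind_nonneg _) (hD x).2) fun f => subset_univ (T f)
  have h3 : (fun x => D x * ind (P x) + D x * ind (¬ P x)) = D := funext fun x => by
    rw [ind_not]
    ring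
  rw [h3] at h1
  rw [abs_le] at h ⊢
  constructor <;> linarith only [h, h1, h2, h.1, h.2, h2.1, h2.2]

end det

theorem dt_close (R : Reg H ep n M τ) (m : ℕ) {ε : ℝ} (hε : 0 < ε) : ∃ γ : ℝ, 0 < γ ∧
    ∀ C1 : ℝ, ∀ᶠ j in atTop, ∀ (g : Fin (M j)) (Ω : Type) [Fintype Ω]
      (D : Ω → (α → Fin (n j)) → ℝ), Real.log (Fintype.card Ω) ≤ C1 * (n j + 1) →
      (∀ ω, Unit01 (D ω)) →
      ∃ err : (Fin (M j) → α → Fin (n j)) → ℝ, (∀ y, 0 ≤ err y) ∧ 𝔼 y, err y ≤ ε ∧
        ∀ y ω (s : Fin m → β) (T : Fin m → Finset (Fin (M j) × β))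
          (w : Fin m → Sym2 (Fin (n j)) → ℝ), (∀ l, ∀ i ∈ T l, i.1 ≠ g) → (∀ l, Unit01 (w l)) →
          (∀ l, cut (fun e => den (sp ep y) (T l) e - ord (w l) e) ≤ γ) →
          |τ j ^ m * (𝔼 z, D ω z * DT H ep g s T (Function.update y g z)) -
            rate H (n j) (M j * Fintype.card β) (τ j) ^ m *
              𝔼 z, D ω z * ∏ l, psi H (w l) (sl ep z (s l))| ≤ err y := by
  obtain ⟨c, c0, hc⟩ := R.rate_bd
  obtain ⟨K, K0, hK⟩ : ∃ K : ℝ, 0 < K ∧ c ^ m * Fintype.card (Fin m → β) ≤ K :=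
    ⟨_, by clear * - c m β c0; positivity, le_add_of_nonneg_right zero_le_one⟩
  have hδ : 0 < ε / (2 * K) := by positivity
  choose γ hγ h using fun p : (Fin m → β) × (Fin m → H.Dart) =>
    count_lemma R (beb H ep p.1 p.2) (dc_beb ep p.1 p.2 R.bal R.ne) hδ
  obtain ⟨γ0, g1, g0⟩ := ((eventually_all.2 fun p => mem_of_superset (Ioc_mem_nhdsGT (hγ p))
    fun x hx => hx.2 : ∀ᶠ x in 𝓝[>] (0 : ℝ), ∀ p, x ≤ γ p).and self_mem_nhdsWithin).exists
  refine ⟨γ0, g0, fun C1 => ?_⟩
  filter_upwards [eventually_all.2 fun p => h p C1, hc, R.pos,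
    (RegK_cast R.hn).eventually_ge_atTop (m * (Fintype.card W : ℝ) ^ 2 / (ε / (2 * K)))]
    with j hj hc hp hn g Ω _ D hΩ hD
  have : Nonempty (Fin (n j)) := ⟨⟨0, hp.1⟩⟩
  choose err e0 e1 e2 using fun p : (Fin m → β) × (Fin m → H.Dart) =>
    hj p Ω (fun ω x => D ω fun a => x (Sum.inl a)) hΩ fun ω => root_beb ep p.1 p.2 (hD ω)
  obtain ⟨F, hF⟩ : ∃ F : (Fin m → β) → (Fin m → H.Dart) → (Fin (M j) → α → Fin (n j)) → ℝ,
      ∀ s d y, F s d y = err (s, d) y + Cnt (beb H ep s d) (sp ep y)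
        (fun x => ind (¬ ∀ l, Function.Injective fun u => x (vm H ep s d l u))) fun _ => univ :=
    ⟨_, fun _ _ _ => rfl⟩
  have F0 : ∀ s y, 0 ≤ 𝔼 d, F s d y := fun s y => expect_nonneg fun d _ => hF s d y ▸
    add_nonneg (e0 _ y) (cnt_mono _ _ (fun _ => ind_nonneg _) (fun _ => le_rfl) fun _ => le_rfl).1
  have F1 : ∀ s d, 𝔼 y, F s d y ≤ ε / K := fun s d => by
    have h1 := LF0_bad (V := Fin (n j)) (G := Fin (M j)) R.ne s d
    have h2 : (0 : ℝ) < n j := by exact_mod_cast hp.1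
    rw [Fintype.card_fin, ← mul_div_assoc] at h1
    rw [div_le_iff₀' hδ, ← div_le_iff₀ h2] at hn
    simp only [hF, expect_add_distrib]
    have h3 : ε / K = ε / (2 * K) + ε / (2 * K) := by field_simp; ring
    linarith only [hn, h1, h3, e1 (s, d)]
  refine ⟨fun y => c ^ m * ∑ s, 𝔼 d, F s d y, fun y => mul_nonneg (by positivity)
    (sum_nonneg fun s _ => F0 s y), ?_, fun y ω s T w hT hw hcut => ?_⟩
  · rw [← mul_expect, expect_sum_comm]
    have h1 : ∑ s, 𝔼 y, 𝔼 d, F s d y ≤ Fintype.card (Fin m → β) * (ε / K) :=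
      (sum_le_card_nsmul _ _ _ fun s _ => (expect_comm _ _ _).trans_le
        (ex_le (by positivity) (F1 s))).trans_eq (by rw [nsmul_eq_mul, card_univ])
    refine (mul_le_mul_of_nonneg_left h1 (by positivity)).trans ?_
    rw [← mul_assoc]
    exact (mul_le_mul_of_nonneg_right hK (by positivity)).trans_eq (mul_div_cancel₀ _ K0.ne')
  rw [lab R.bal ep R.ne g s T hT y (D ω), Fintype.card_fin, Fintype.card_fin, LF0_psi, ← mul_sub,
    ← expect_sub_distrib, abs_mul, abs_of_nonneg (pow_nonneg hc.1 m)]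
  refine mul_le_mul (pow_le_pow_left₀ hc.1 hc.2 m) ((ex_abs _).trans ((ex_mono fun d => ?_).trans
    (single_le_sum (fun s _ => F0 s y) (mem_univ s)))) (abs_nonneg _) (by positivity)
  rw [hF]
  exact LF0_split _ _ (fun x => hD ω _) _ _ (e2 (s, d) y ω (fun f => T f.1) (fun f => ord (w f.1))
    (fun f e => hw f.1 _) fun f => (hcut f.1).trans (g1 _))

theorem dt_mean (R : Reg H ep n M τ) (m : ℕ) : ∀ᶠ j in atTop, ∀ (g : Fin (M j)) (s : Fin m → β),
    τ j ^ m * (𝔼 y : Fin (M j) → α → Fin (n j), DT H ep g s (fun _ => univ) y) ≤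
      rate H (n j) (M j * Fintype.card β) (τ j) ^ m := by
  obtain ⟨c, -, hc⟩ := R.rate_bd
  filter_upwards [hc, R.pos] with j hc hp g s
  have : Nonempty (Fin (n j)) := ⟨⟨0, hp.1⟩⟩
  have h := fun y : Fin (M j) → α → Fin (n j) => lab R.bal ep R.ne g s
    (fun _ => univ.filter fun i => i.1 ≠ g) (fun _ i hi => (mem_filter.1 hi).2) y (fun _ => 1) (τ j)
  simp only [one_mul, Fintype.card_fin] at h
  simp only [LF0_dt]
  rw [ex_update g, mul_expect]
  simp only [h]
  rw [← mul_expect, expect_comm]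
  refine mul_le_of_le_one_right (pow_nonneg hc.1 m) (ex_le zero_le_one fun d => ?_)
  exact (ex_mono fun y => (cnt_mono _ _ (fun _ => ind_nonneg _) (fun _ => ind_le_one _)
    fun _ => subset_univ _).2).trans ((cnt_one _ ep R.ne fun _ => zero_le_one).trans
      (ex_le zero_le_one fun _ => le_rfl))

end Pool.Agent.Work.MP_d4a230_co.U
end

-- merged part: Pool.Agent.Work.MP_d4a230_co.U.LF
section
/-!
Laplace functional of the marked constraints.
PLAN. Let c bound the rate, X = c * b * card S * η0 + c * b + 1, choose m by exp_taylor. Put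
a C = τ * mrk C. If Acd C then C has at most one variable in g, so a C ∈ [0, τ ind (Acd ∧ Tch)]
(hypothesis hh). bonf: error es (m+1) a. For every i <= m+1 split the injective tuples in es i into
those that share no component other than g (such tuples are automatically injective as k >= 2) and
the rest; the rest is at most i^2 times the sum in ov_pair with exponent i-2 (bound the other
factors by XT; for i < 2 the rest is empty). The first part is, by multilinearity
(Finset.prod_univ_sum), the sum over (s, S) : Fin i → β × S of prod η times τ^i DT s (T ∘ S), and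
(rate * inten)^i expands in the same way; apply dt_close for each i <= m. For the remainder the first
part is at most the sum over s of τ^(m+1) DT s univ, whose mean is <= (b c)^(m+1) (dt_mean). err y
contains means over z of functions of update y g z; their mean over y is computed by ex_update.
-/

namespace Pool.Agent.Work.MP_d4a230_co.U

open Finset Filter Topology Pool.Agent.Work.MP_07f1b5_pr
open scoped BigOperators

variable {α β : Type} [Fintype α] [DecidableEq α] [Fintype β] [DecidableEq β]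
  {W : Type} [Fintype W] [DecidableEq W] {H : SimpleGraph W} [DecidableRel H.Adj]
  {ep : β → α × α} {n M : ℕ → ℕ} {τ : ℕ → ℝ}

lemma LF_pair {ι X : Type} [Fintype ι] [DecidableEq ι] [Fintype X] [DecidableEq X] {l l2 : ι}
    (h : l ≠ l2) (q : X → X → ℝ) (x : X → ℝ) :
    ∑ c : ι → X, q (c l) (c l2) * ∏ r, x (c r) =
      (∑ C1, ∑ C2, q C1 C2 * (x C1 * x C2)) * (∑ C, x C) ^ (Fintype.card ι - 2) := by
  let F : X → X → ι → X → ℝ := fun C1 C2 r C =>
    x C * (if r = l then (if C = C1 then 1 else 0) else 1) *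
      if r = l2 then (if C = C2 then 1 else 0) else 1
  have e : ∀ c : ι → X, q (c l) (c l2) * ∏ r, x (c r) =
      ∑ C1, ∑ C2, q C1 C2 * ∏ r, F C1 C2 r (c r) := by
    intro c
    simp only [F, prod_mul_distrib, prod_ite_eq', mem_univ, if_true]
    simp only [mul_ite, mul_one, mul_zero, sum_ite_eq, mem_univ, if_true]
  have e2 : ∀ C1 C2, ∑ c : ι → X, ∏ r, F C1 C2 r (c r) =
      x C1 * x C2 * (∑ C, x C) ^ (Fintype.card ι - 2) := by
    clear * - X ι l l2 h F x
    intro C1 C2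
    have h2 : l2 ∈ univ.erase l := mem_erase.2 ⟨h.symm, mem_univ _⟩
    rw [← Fintype.piFinset_univ, ← prod_univ_sum, ← mul_prod_erase _ _ (mem_univ l),
      ← mul_prod_erase _ _ h2, mul_assoc]
    have a1 : ∑ C, F C1 C2 l C = x C1 := by simp [F, h]
    have a2 : ∑ C, F C1 C2 l2 C = x C2 := by simp [F, h.symm]
    have a3 : ∏ r ∈ (univ.erase l).erase l2, ∑ C, F C1 C2 r C =
        (∑ C, x C) ^ (Fintype.card ι - 2) := by
      rw [prod_congr rfl (g := fun _ => ∑ C, x C), prod_const, card_erase_of_mem h2,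
        card_erase_of_mem (mem_univ _), card_univ, Nat.sub_sub]
      intro r hr
      simp [F, (mem_erase.1 hr).1, (mem_erase.1 (mem_erase.1 hr).2).1]
    rw [a1, a2, a3]
  simp only [e]
  rw [sum_comm, sum_mul]
  refine sum_congr rfl fun C1 _ => ?_
  rw [sum_comm, sum_mul]
  refine sum_congr rfl fun C2 _ => ?_
  rw [← mul_sum, e2, mul_assoc (q C1 C2)]

lemma LF_all {ι : Type} [Fintype ι] (q : ι → Prop) : ind (∀ l, q l) = ∏ l, ind (q l) := by
  by_cases h : ∀ l, q l
  · rw [ind_pos h]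
    exact (prod_eq_one fun l _ => ind_pos (h l)).symm
  · rw [ind_neg h]
    obtain ⟨l, hl⟩ := not_forall.1 h
    rw [prod_eq_zero (mem_univ l) (ind_neg hl)]

section det

variable {G V : Type} [Fintype G] [DecidableEq G] [Fintype V] [DecidableEq V]

/-- Sum over tuples that share no component other than `g`. -/
noncomputable def LF_P (g : G) (m : ℕ) (a : Finset (G × β) → ℝ) : ℝ :=
  ∑ c : Fin m → Finset (G × β),
    ind (∀ l l', l ≠ l' → ∀ i ∈ c l, ∀ i' ∈ c l', i.1 = i'.1 → i.1 = g) * ∏ l, a (c l)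

variable (H ep) in
/-- The overlap sum. -/
noncomputable def LF_O (t : ℝ) (g : G) (m : ℕ) (y : G → α → V) : ℝ :=
  ∑ C1 : Finset (G × β), ∑ C2 : Finset (G × β), t ^ 2 *
    ind (Acd H (sp ep y) Prod.fst C1 ∧ Acd H (sp ep y) Prod.fst C2 ∧ Tch g C1 ∧ Tch g C2 ∧
      C1 ≠ C2 ∧ ∃ i ∈ C1, ∃ i2 ∈ C2, i.1 = i2.1 ∧ i.1 ≠ g) * XT H t ep g y ^ m

lemma LF_O_nonneg {t : ℝ} (ht : 0 ≤ t) (g : G) (m : ℕ) (y : G → α → V) :
    0 ≤ LF_O H ep t g m y :=
  sum_nonneg fun _ _ => sum_nonneg fun _ _ => mul_nonneg (mul_nonneg (sq_nonneg _) (ind_nonneg _))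
    (pow_nonneg (sum_nonneg fun _ _ => mul_nonneg ht (ind_nonneg _)) _)

lemma LF_es (hk : 2 ≤ H.edgeFinset.card) {t : ℝ} (ht : 0 ≤ t) (g : G) (y : G → α → V)
    {a : Finset (G × β) → ℝ} (h0 : ∀ C, 0 ≤ a C)
    (h1 : ∀ C, a C ≤ t * ind (Acd H (sp ep y) Prod.fst C ∧ Tch g C)) (m : ℕ) :
    |es m a - LF_P g m a / m.factorial| ≤ (m : ℝ) ^ 2 * LF_O H ep t g (m - 2) y := by
  let q : Finset (G × β) → Finset (G × β) → ℝ := fun C1 C2 =>
    ind (C1 ≠ C2 ∧ ∃ i ∈ C1, ∃ i2 ∈ C2, i.1 = i2.1 ∧ i.1 ≠ g)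
  let x : Finset (G × β) → ℝ := fun C => t * ind (Acd H (sp ep y) Prod.fst C ∧ Tch g C)
  have hx : ∀ C, 0 ≤ x C := fun C => mul_nonneg ht (ind_nonneg _)
  have key : ∀ c : Fin m → Finset (G × β), |ind (Function.Injective c) * ∏ l, a (c l) -
      ind (∀ l l', l ≠ l' → ∀ i ∈ c l, ∀ i' ∈ c l', i.1 = i'.1 → i.1 = g) * ∏ l, a (c l)| ≤
      ∑ p ∈ (univ : Finset (Fin m)).offDiag, q (c p.1) (c p.2) * ∏ r, x (c r) := by
    clear * - m G β q x g hx a h0 t V W H α ep y h1 hk
    intro c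
    have hq : ∀ p : Fin m × Fin m, 0 ≤ q (c p.1) (c p.2) * ∏ r, x (c r) := fun p =>
      mul_nonneg (ind_nonneg _) (prod_nonneg fun _ _ => hx _)
    have hp : 0 ≤ ∏ l, a (c l) := prod_nonneg fun _ _ => h0 _
    by_cases hs : ∀ l l', l ≠ l' → ∀ i ∈ c l, ∀ i' ∈ c l', i.1 = i'.1 → i.1 = g
    · by_cases hi : Function.Injective c
      · rw [ind_pos hs, ind_pos hi, sub_self, abs_zero]
        exact sum_nonneg fun p _ => hq p
      · obtain ⟨l, l2, e, hl⟩ := Function.not_injective_iff.1 hi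
        have hz : a (c l) = 0 := by
          refine le_antisymm ((h1 _).trans (le_of_eq ?_)) (h0 _)
          rw [ind_neg, mul_zero]
          rintro ⟨⟨-, c1, c2⟩, -⟩
          obtain ⟨u, hu, v, hv, huv⟩ := one_lt_card.1 (show 1 < (c l).card by omega)
          exact huv (c2 hu hv ((hs l l2 hl u hu u (e ▸ hu) rfl).trans
            (hs l l2 hl v hv v (e ▸ hv) rfl).symm))
        rw [prod_eq_zero (mem_univ l) hz, mul_zero, mul_zero, sub_self, abs_zero]
        exact sum_nonneg fun p _ => hq p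
    · rw [ind_neg hs, zero_mul, sub_zero]
      by_cases hi : Function.Injective c
      · push Not at hs
        obtain ⟨l, l2, hl, i, hi1, i2, hi2, e, hg⟩ := hs
        rw [ind_pos hi, one_mul, abs_of_nonneg hp]
        refine le_trans ?_ (single_le_sum (fun p _ => hq p)
          (show (l, l2) ∈ (univ : Finset (Fin m)).offDiag from
            mem_offDiag.2 ⟨mem_univ _, mem_univ _, hl⟩))
        have : q (c l) (c l2) = 1 := ind_pos ⟨fun h => hl (hi h), i, hi1, i2, hi2, e, hg⟩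
        rw [this, one_mul]
        exact prod_le_prod (fun _ _ => h0 _) fun _ _ => h1 _
      · rw [ind_neg hi, zero_mul, abs_zero]
        exact sum_nonneg fun p _ => hq p
  have eO : (∑ C1, ∑ C2, q C1 C2 * (x C1 * x C2)) * (∑ C, x C) ^ (m - 2) =
      LF_O H ep t g (m - 2) y := by
    unfold LF_O
    rw [sum_mul]
    refine sum_congr rfl fun C1 _ => ?_
    rw [sum_mul]
    refine sum_congr rfl fun C2 _ => ?_
    simp only [q, x, XT, ind_and]
    ring
  have hO := LF_O_nonneg (H := H) (ep := ep) ht g (m - 2) y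
  have hf : (1 : ℝ) ≤ m.factorial := by exact_mod_cast Nat.factorial_pos m
  unfold es LF_P
  rw [← sub_div, abs_div, abs_of_pos (by linarith : (0 : ℝ) < m.factorial), ← sum_sub_distrib]
  refine (div_le_self (abs_nonneg _) hf).trans ((abs_sum_le_sum_abs _ _).trans
    ((sum_le_sum fun c _ => key c).trans ?_))
  rw [sum_comm, sum_congr rfl (g := fun _ => LF_O H ep t g (m - 2) y), sum_const, nsmul_eq_mul]
  · refine mul_le_mul_of_nonneg_right ?_ hO
    have : (univ : Finset (Fin m)).offDiag.card ≤ m ^ 2 := by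
      rw [offDiag_card, card_univ, Fintype.card_fin, sq]
      omega
    exact_mod_cast this
  · intro p hp
    rw [LF_pair (mem_offDiag.1 hp).2.2, Fintype.card_fin, eO]

lemma LF_exp {S : Type} [Fintype S] (t : ℝ) (g : G) (η : β → S → ℝ) (T : S → Finset (G × β))
    (y : G → α → V) (m : ℕ) :
    LF_P g m (fun C => t * mrk H ep g η T y C) = ∑ p : Fin m → β × S, (∏ l, η (p l).1 (p l).2) *
      (t ^ m * DT H ep g (fun l => (p l).1) (fun l => T (p l).2) y) := by
  have e : ∀ C, mrk H ep g η T y C = ∑ u : β × S, η u.1 u.2 *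
      ind (Acd H (sp ep y) Prod.fst C ∧ (g, u.1) ∈ C ∧ C.erase (g, u.1) ⊆ T u.2) := by
    intro C
    unfold mrk
    rw [Fintype.sum_prod_type]
    simp only [mul_sum, ind_and]
    exact sum_congr rfl fun _ _ => sum_congr rfl fun _ _ => by ring
  unfold LF_P DT
  simp only [e, mul_sum]
  rw [sum_comm]
  refine sum_congr rfl fun c _ => ?_
  rw [prod_univ_sum, Fintype.piFinset_univ, mul_sum]
  refine sum_congr rfl fun p _ => ?_
  rw [LF_all (fun l => Acd H (sp ep y) Prod.fst (c l) ∧ (g, (p l).1) ∈ c l ∧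
    (c l).erase (g, (p l).1) ⊆ T (p l).2), prod_mul_distrib, prod_mul_distrib, prod_const,
    card_univ, Fintype.card_fin]
  ring

lemma LF_mrk {S : Type} [Fintype S] (g : G) {η : β → S → ℝ} {T : S → Finset (G × β)}
    (hh : ∀ b (C : Finset (G × β)), 0 ≤ ∑ s, η b s * ind (C ⊆ T s) ∧
      ∑ s, η b s * ind (C ⊆ T s) ≤ 1) (y : G → α → V) (C : Finset (G × β)) :
    0 ≤ mrk H ep g η T y C ∧
      mrk H ep g η T y C ≤ mrk H ep g (fun _ (_ : Unit) => 1) (fun _ => univ) y C ∧
      mrk H ep g η T y C ≤ ind (Acd H (sp ep y) Prod.fst C ∧ Tch g C) := by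
  have h1 : mrk H ep g η T y C ≤ ind (Acd H (sp ep y) Prod.fst C) * ∑ j, ind ((g, j) ∈ C) :=
    mul_le_mul_of_nonneg_left
      (sum_le_sum fun j _ => mul_le_of_le_one_right (ind_nonneg _) (hh _ _).2) (ind_nonneg _)
  refine ⟨mul_nonneg (ind_nonneg _) (sum_nonneg fun j _ => mul_nonneg (ind_nonneg _) (hh _ _).1),
    h1.trans (le_of_eq ?_), h1.trans ?_⟩
  · unfold mrk
    simp [ind_pos trivial]
  · by_cases hA : Acd H (sp ep y) Prod.fst C
    · by_cases hT : Tch g C
      · obtain ⟨j, hj⟩ := hT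
        rw [ind_pos hA, ind_pos ⟨hA, j, hj⟩, one_mul, sum_eq_single j, ind_pos hj]
        · exact fun b _ hb => ind_neg fun h => hb (congrArg Prod.snd (hA.2.2 h hj rfl))
        · exact fun h => absurd (mem_univ j) h
      · rw [sum_eq_zero fun j _ => ind_neg fun h => hT ⟨j, h⟩, mul_zero]
        exact ind_nonneg _
    · rw [ind_neg hA, zero_mul]
      exact ind_nonneg _

variable (H ep) in
/-- The remainder term. -/
noncomputable def LF_R (t δ : ℝ) (g : G) (m : ℕ) (y : G → α → V) : ℝ :=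
  ∑ i ∈ range (m + 2), (i : ℝ) ^ 2 * LF_O H ep t g (i - 2) y +
    (∑ p : Fin (m + 1) → β × Unit, t ^ (m + 1) * DT H ep g (fun l => (p l).1) (fun _ => univ) y) /
      (m + 1).factorial + δ

lemma LF_det {S : Type} [Fintype S] (hk : 2 ≤ H.edgeFinset.card) {t : ℝ} (ht : 0 ≤ t) (t1 : t ≤ 1)
    (g : G) {η : β → S → ℝ} {T : S → Finset (G × β)}
    (hh : ∀ b (C : Finset (G × β)), 0 ≤ ∑ s, η b s * ind (C ⊆ T s) ∧
      ∑ s, η b s * ind (C ⊆ T s) ≤ 1) (y : G → α → V) (m : ℕ) {x δ : ℝ}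
    (hx : |Real.exp (-x) - ∑ i ∈ range (m + 1), (-1) ^ i * (x ^ i / i.factorial)| ≤ δ) :
    |∏ C, (1 - t * mrk H ep g η T y C) - Real.exp (-x) - ∑ i ∈ range (m + 1), (-1) ^ i /
      i.factorial * (LF_P g i (fun C => t * mrk H ep g η T y C) - x ^ i)| ≤ LF_R H ep t δ g m y := by
  set a : Finset (G × β) → ℝ := fun C => t * mrk H ep g η T y C with ha
  have h0 : ∀ C, 0 ≤ a C := fun C => mul_nonneg ht (LF_mrk g hh y C).1
  have h1 : ∀ C, a C ≤ t * ind (Acd H (sp ep y) Prod.fst C ∧ Tch g C) := fun C =>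
    mul_le_mul_of_nonneg_left (LF_mrk g hh y C).2.2 ht
  have hb := bonf a (fun C => ⟨h0 C, (h1 C).trans
    ((mul_le_of_le_one_right ht (ind_le_one _)).trans t1)⟩) m
  have h2 := LF_es hk ht g y h0 h1
  have h3 : |∑ i ∈ range (m + 1), (-1) ^ i * (es i a - LF_P g i a / i.factorial)| ≤
      ∑ i ∈ range (m + 1), (i : ℝ) ^ 2 * LF_O H ep t g (i - 2) y :=
    (abs_sum_le_sum_abs _ _).trans (sum_le_sum fun i _ => by
      rw [abs_mul, abs_neg_one_pow, one_mul]
      exact h2 i)
  have h4 : LF_P g (m + 1) a ≤ ∑ p : Fin (m + 1) → β × Unit,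
      t ^ (m + 1) * DT H ep g (fun l => (p l).1) (fun _ => univ) y := by
    have := LF_exp (H := H) (ep := ep) t g (fun _ (_ : Unit) => 1) (fun _ => univ) y (m + 1)
    simp only [prod_const_one, one_mul] at this
    rw [← this]
    exact sum_le_sum fun c _ => mul_le_mul_of_nonneg_left (prod_le_prod (fun _ _ => h0 _)
      fun _ _ => mul_le_mul_of_nonneg_left (LF_mrk g hh y _).2.1 ht) (ind_nonneg _)
  have h5 := div_le_div_of_nonneg_right h4 (Nat.cast_nonneg (α := ℝ) (m + 1).factorial)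
  have h6 := (abs_le.1 (h2 (m + 1))).2
  have e : ∑ i ∈ range (m + 1), (-1) ^ i / i.factorial * (LF_P g i a - x ^ i) =
      ∑ i ∈ range (m + 1), (-1) ^ i * es i a -
        ∑ i ∈ range (m + 1), (-1) ^ i * (es i a - LF_P g i a / i.factorial) -
        ∑ i ∈ range (m + 1), (-1) ^ i * (x ^ i / i.factorial) := by
    rw [← sum_sub_distrib, ← sum_sub_distrib]
    exact sum_congr rfl fun i _ => by ring
  unfold LF_R
  rw [e, sum_range_succ _ (m + 1)]
  rw [abs_le] at hb hx h3 ⊢
  constructor <;> linarith only [hx, hb, h3, h5, h6, hb.1, hb.2, hx.1, hx.2, h3.1, h3.2]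

lemma LF_R_nonneg {t δ : ℝ} (ht : 0 ≤ t) (hδ : 0 ≤ δ) (g : G) (m : ℕ) (y : G → α → V) :
    0 ≤ LF_R H ep t δ g m y :=
  add_nonneg (add_nonneg (sum_nonneg fun _ _ => mul_nonneg (sq_nonneg _) (LF_O_nonneg ht g _ y))
    (div_nonneg (sum_nonneg fun _ _ => mul_nonneg (pow_nonneg ht _) (sum_nonneg fun _ _ =>
      mul_nonneg (ind_nonneg _) (ind_nonneg _))) (Nat.cast_nonneg _))) hδ

lemma LF_mom {S : Type} [Fintype S] {t ρ η0 e : ℝ} (g : G) {η : β → S → ℝ}
    {T : S → Finset (G × β)} {w : S → Sym2 V → ℝ} (hη : ∀ b s, |η b s| ≤ η0) (y : G → α → V)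
    (D : (α → V) → ℝ) (m : ℕ)
    (h : ∀ p : Fin m → β × S, |t ^ m * (𝔼 z, D z * DT H ep g (fun l => (p l).1)
      (fun l => T (p l).2) (Function.update y g z)) -
        ρ ^ m * 𝔼 z, D z * ∏ l, psi H (w (p l).2) (sl ep z (p l).1)| ≤ e) :
    |𝔼 z, D z * (LF_P g m (fun C => t * mrk H ep g η T (Function.update y g z) C) -
      (ρ * inten H ep η w z) ^ m)| ≤ (Fintype.card (β × S) * |η0|) ^ m * e := by
  have e1 : ∀ z : α → V, D z * (LF_P g m (fun C => t * mrk H ep g η T (Function.update y g z) C) -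
      (ρ * inten H ep η w z) ^ m) = ∑ p : Fin m → β × S, (∏ l, η (p l).1 (p l).2) *
        (t ^ m * (D z * DT H ep g (fun l => (p l).1) (fun l => T (p l).2) (Function.update y g z)) -
          ρ ^ m * (D z * ∏ l, psi H (w (p l).2) (sl ep z (p l).1))) := by
    intro z
    unfold inten
    rw [LF_exp, mul_pow, ← Fintype.sum_prod_type' (fun j s => η j s * psi H (w s) (sl ep z j)),
      Fintype.sum_pow, mul_sum, ← sum_sub_distrib, mul_sum]
    refine sum_congr rfl fun p _ => ?_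
    rw [prod_mul_distrib]
    ring
  simp only [e1]
  rw [expect_sum_comm]
  refine (abs_sum_le_sum_abs _ _).trans ((sum_le_sum (g := fun _ => |η0| ^ m * e)
    fun p _ => ?_).trans (le_of_eq ?_))
  · rw [← mul_expect, expect_sub_distrib, ← mul_expect, ← mul_expect, abs_mul, abs_prod]
    refine mul_le_mul ?_ (h p) (abs_nonneg _) (pow_nonneg (abs_nonneg _) _)
    refine (prod_le_prod (fun _ _ => abs_nonneg _) fun l _ =>
      (hη _ _).trans (le_abs_self η0)).trans (le_of_eq ?_)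
    rw [prod_const, card_univ, Fintype.card_fin]
  · rw [sum_const, card_univ, Fintype.card_fun, Fintype.card_fin, nsmul_eq_mul, mul_pow, mul_assoc,
      Nat.cast_pow]

lemma LF_int {S : Type} [Fintype S] {η0 : ℝ} {η : β → S → ℝ} {w : S → Sym2 V → ℝ}
    (hη : ∀ b s, |η b s| ≤ η0) (hw : ∀ s, Unit01 (w s)) (z : α → V) :
    |inten H ep η w z| ≤ Fintype.card (β × S) * |η0| := by
  unfold inten
  rw [← Fintype.sum_prod_type' (fun j s => η j s * psi H (w s) (sl ep z j))]
  refine (abs_sum_le_sum_abs _ _).trans ((sum_le_sum (g := fun _ => |η0|)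
    fun p _ => ?_).trans (le_of_eq ?_))
  · have := psi_unit H (hw p.2) (sl ep z p.1)
    rw [abs_mul, abs_of_nonneg this.1]
    exact (mul_le_of_le_one_right (abs_nonneg _) this.2).trans ((hη _ _).trans (le_abs_self _))
  · rw [sum_const, card_univ, nsmul_eq_mul]

end det

theorem lf (R : Reg H ep n M τ) (S : Type) [Fintype S] (η0 : ℝ) {ε : ℝ} (hε : 0 < ε) :
    ∃ γ : ℝ, 0 < γ ∧ ∀ C1 : ℝ, ∀ᶠ j in atTop, ∀ (g : Fin (M j)) (Ω : Type) [Fintype Ω]
      (D : Ω → (α → Fin (n j)) → ℝ), Real.log (Fintype.card Ω) ≤ C1 * (n j + 1) →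
      (∀ ω, Unit01 (D ω)) →
      ∃ err : (Fin (M j) → α → Fin (n j)) → ℝ, (∀ y, 0 ≤ err y) ∧ 𝔼 y, err y ≤ ε ∧
        ∀ y ω (η : β → S → ℝ) (T : S → Finset (Fin (M j) × β)) (w : S → Sym2 (Fin (n j)) → ℝ),
          (∀ b s, |η b s| ≤ η0) →
          (∀ b (C : Finset (Fin (M j) × β)), 0 ≤ ∑ s, η b s * ind (C ⊆ T s) ∧
            ∑ s, η b s * ind (C ⊆ T s) ≤ 1) →
          (∀ s, ∀ i ∈ T s, i.1 ≠ g) → (∀ s, Unit01 (w s)) →
          (∀ s, cut (fun e => den (sp ep y) (T s) e - ord (w s) e) ≤ γ) →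
          |𝔼 z, D ω z * (∏ C, (1 - τ j * mrk H ep g η T (Function.update y g z) C) -
            Real.exp (-(rate H (n j) (M j * Fintype.card β) (τ j) * inten H ep η w z)))| ≤
            err y := by
  obtain ⟨c, hc, hr⟩ := R.rate_bd
  have hk : 2 ≤ H.edgeFinset.card := by
    have := R.bal.h3
    have := R.bal.hk
    omega
  set K : ℝ := Fintype.card (β × S) * |η0| with hK
  set b : ℝ := (Fintype.card (β × Unit) : ℝ) with hb
  have hK0 : 0 ≤ K := by positivity
  have hb0 : 0 ≤ b := by positivity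
  have hδ : 0 < ε / 4 := by positivity
  obtain ⟨m, hm1, hm2⟩ := (exp_taylor (c * K + c * b) hδ).exists
  set B1 : ℝ := ∑ i ∈ range (m + 1), K ^ i with hB1
  set B2 : ℝ := ∑ i ∈ range (m + 2), (i : ℝ) ^ 2 with hB2
  have p1 : 0 ≤ B1 := sum_nonneg fun _ _ => pow_nonneg hK0 _
  have p2 : 0 ≤ B2 := sum_nonneg fun _ _ => sq_nonneg _
  have sm : ∀ B : ℝ, 0 ≤ B → B * (ε / 4 / (B + 1)) ≤ ε / 4 := fun B hB => by
    rw [← mul_div_assoc, div_le_iff₀ (by linarith only [hB])]
    nlinarith only [hε]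
  choose γ hγ hcl using fun i => dt_close R i (show 0 < ε / 4 / (B1 + 1) by positivity)
  obtain ⟨i0, -, hi0⟩ := exists_min_image (range (m + 1)) γ ⟨0, mem_range.2 m.succ_pos⟩
  refine ⟨γ i0, hγ i0, fun C1 => ?_⟩
  filter_upwards [hr, R.t01, dt_mean R (m + 1),
    (eventually_all_finset (range (m + 1))).2 fun i _ => hcl i C1,
    (eventually_all_finset (range (m + 2))).2 fun i _ =>
      ov_pair R (i - 2) (show 0 < ε / 4 / (B2 + 1) by positivity)] with j hρ ht hmean hc1 hov
  intro g Ω _ D hΩ hD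
  set ρ := rate H (n j) (M j * Fintype.card β) (τ j) with hρd
  choose! er he0 he1 he2 using fun i hi => hc1 i hi g Ω D hΩ hD
  refine ⟨fun y => ∑ i ∈ range (m + 1), K ^ i * er i y +
    𝔼 z, LF_R H ep (τ j) (ε / 4) g m (Function.update y g z), fun y => add_nonneg
      (sum_nonneg fun i hi => mul_nonneg (pow_nonneg hK0 _) (he0 i hi y))
      (expect_nonneg fun z _ => LF_R_nonneg ht.1 hδ.le g m _), ?_, ?_⟩
  · rw [expect_add_distrib, ← ex_update g (LF_R H ep (τ j) (ε / 4) g m), expect_sum_comm]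
    unfold LF_R
    rw [expect_add_distrib, expect_add_distrib, expect_sum_comm, ← expect_div, expect_sum_comm]
    have a1 : ∑ i ∈ range (m + 1), 𝔼 y, K ^ i * er i y ≤ B1 * (ε / 4 / (B1 + 1)) := by
      rw [hB1, sum_mul]
      refine sum_le_sum fun i hi => ?_
      rw [← mul_expect]
      exact mul_le_mul_of_nonneg_left (he1 i hi) (pow_nonneg hK0 _)
    have a2 : ∑ i ∈ range (m + 2), 𝔼 y : Fin (M j) → α → Fin (n j),
        (i : ℝ) ^ 2 * LF_O H ep (τ j) g (i - 2) y ≤ B2 * (ε / 4 / (B2 + 1)) := by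
      rw [hB2, sum_mul]
      refine sum_le_sum fun i hi => ?_
      rw [← mul_expect]
      exact mul_le_mul_of_nonneg_left (hov i hi g) (sq_nonneg _)
    have a3 : ∑ p : Fin (m + 1) → β × Unit, 𝔼 y : Fin (M j) → α → Fin (n j),
        τ j ^ (m + 1) * DT H ep g (fun l => (p l).1) (fun _ => univ) y ≤
        (c * K + c * b) ^ (m + 1) := by
      refine (sum_le_sum (g := fun _ => c ^ (m + 1)) fun p _ => ?_).trans ?_
      · rw [← mul_expect]
        exact (hmean g _).trans (pow_le_pow_left₀ hρ.1 hρ.2 _)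
      · rw [sum_const, card_univ, Fintype.card_fun, Fintype.card_fin, nsmul_eq_mul, Nat.cast_pow,
          ← mul_pow, mul_comm]
        exact pow_le_pow_left₀ (mul_nonneg hc hb0) (le_add_of_nonneg_left (mul_nonneg hc hK0)) _
    have a4 := (div_le_div_of_nonneg_right a3 (Nat.cast_nonneg (α := ℝ) (m + 1).factorial)).trans
      hm1
    have a5 : 𝔼 _y : Fin (M j) → α → Fin (n j), ε / 4 ≤ ε / 4 := ex_le hδ.le fun _ => le_rfl
    linarith only [a1, a2, a4, a5, p1, p2, sm B1 p1, sm B2 p2]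
  · intro y ω η T w hη hh hT hw hcut
    let Q : ℕ → (α → Fin (n j)) → ℝ := fun i z =>
      LF_P g i (fun C => τ j * mrk H ep g η T (Function.update y g z) C) -
        (ρ * inten H ep η w z) ^ i
    let A : (α → Fin (n j)) → ℝ := fun z =>
      ∏ C, (1 - τ j * mrk H ep g η T (Function.update y g z) C) -
        Real.exp (-(ρ * inten H ep η w z))
    have e : ∀ z, D ω z * A z = ∑ i ∈ range (m + 1), (-1) ^ i / i.factorial * (D ω z * Q i z) +
        D ω z * (A z - ∑ i ∈ range (m + 1), (-1) ^ i / i.factorial * Q i z) := by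
      intro z
      rw [mul_sub _ (A z), mul_sum]
      simp only [mul_left_comm (D ω z)]
      ring
    show |𝔼 z, D ω z * A z| ≤ _
    simp only [e]
    rw [expect_add_distrib, expect_sum_comm]
    refine (abs_add_le _ _).trans (add_le_add ((abs_sum_le_sum_abs _ _).trans
      (sum_le_sum fun i hi => ?_)) ((ex_abs _).trans (ex_mono fun z => ?_)))
    · have hf : (1 : ℝ) ≤ i.factorial := by exact_mod_cast Nat.factorial_pos i
      rw [← mul_expect, abs_mul, abs_div, abs_neg_one_pow, abs_of_pos (by linarith only [hf])]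
      refine (mul_le_of_le_one_left (abs_nonneg _) ((div_le_one (by linarith only [hf])).2 hf)).trans ?_
      exact LF_mom g hη y (D ω) i fun p => he2 i hi y ω _ _ _ (fun l => hT _) (fun l => hw _)
        fun l => (hcut _).trans (hi0 i hi)
    · rw [abs_mul, abs_of_nonneg (hD ω z).1]
      refine (mul_le_of_le_one_left (abs_nonneg _) (hD ω z).2).trans
        (LF_det hk ht.1 ht.2 g hh _ m (hm2 _ ?_))
      rw [abs_mul, abs_of_nonneg hρ.1]
      exact (mul_le_mul hρ.2 (LF_int hη hw z) (abs_nonneg _) hc).trans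
        (le_add_of_nonneg_right (mul_nonneg hc hb0))

end Pool.Agent.Work.MP_d4a230_co.U
end

-- merged part: Pool.Agent.Work.MP_d4a230_co.U.FreeL
section
/-!
Local form of the free move lemma.
PLAN. i0 = (g, b0), ρ the rate, c its bound, zeta <= Z := exp (c 2^r). tpm with F = F1 - F2,
G = 1 + 2 Z. For σ : Fin (r+j) → sets with U (σ l) ≠ 0 (so i0 ∉ σ l): J b = replicas containing
(g,b), J b0 = ∅, J2 = update J b0 (image of castAdd), T = cav g σ, w S = wl m ep y l (T S). marks_xi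
gives the F1 term, marks (t = 1) the F2 term; if l g = false then wl m ep (update y g z) l (S.inf σ)
does not depend on z and equals wl m ep y l of the part outside g. inten (coef J2) = inten (coef J)
+ the sum in zeta (reindex subsets of the image of castAdd by Finset.map), so
exp (-ρ inten J2) = zeta * exp (-ρ inten J). If all w S are γ-close use lf twice: Ω = Unit, D = 1
with J2; Ω = β × (Finset (Fin r) → CI), D = zeta / Z with J. The rate ρ is fixed once j is fixed.
Otherwise the difference is at most 1 + Z; use outer. The mean of 2 ind (l g = false) is 1.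
-/

namespace Pool.Agent.Work.MP_d4a230_co.U

open Finset Filter Topology Pool.Agent.Work.MP_07f1b5_pr
open scoped BigOperators

variable {α β : Type} [Fintype α] [DecidableEq α] [Fintype β] [DecidableEq β]
  {W : Type} [Fintype W] [DecidableEq W] {H : SimpleGraph W} [DecidableRel H.Adj]
  {ep : β → α × α} {n M : ℕ → ℕ} {τ : ℕ → ℝ}

section aux

variable {V G : Type} [Fintype V] [DecidableEq V] [Fintype G] [DecidableEq G]

lemma FreeL_zeta {θ ρ c : ℝ} (h0 : 0 ≤ θ) (h1 : θ < 1) (hρ : 0 ≤ ρ) (hc : ρ ≤ c) {r : ℕ}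
    {w : Finset (Fin r) → Sym2 V → ℝ} (hw : ∀ S, Unit01 (w S)) (p : Sym2 V) :
    0 ≤ zeta H θ ρ w p ∧ zeta H θ ρ w p ≤ Real.exp (c * 2 ^ r) := by
  refine ⟨(Real.exp_pos _).le, Real.exp_le_exp.2 ?_⟩
  have h2 : |∑ S : Finset (Fin r), ind S.Nonempty * (-1) ^ (S.card + 1) * θ ^ S.card *
      psi H (w S) p| ≤ 2 ^ r := by
    refine (abs_sum_le_sum_abs _ _).trans ((sum_le_sum (g := fun _ => (1 : ℝ)) fun S _ => ?_).trans
      (by simp))
    rw [abs_mul, abs_mul, abs_mul, abs_pow, abs_neg, abs_one, one_pow, mul_one,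
      abs_of_nonneg (ind_nonneg _), abs_of_nonneg (pow_nonneg h0 _),
      abs_of_nonneg (psi_unit H (hw S) p).1]
    exact mul_le_one₀ (mul_le_one₀ (ind_le_one _) (pow_nonneg h0 _) (pow_le_one₀ h0 h1.le))
      (psi_unit H (hw S) p).1 (psi_unit H (hw S) p).2
  have h3 := mul_le_mul_of_nonneg_left (neg_le_of_abs_le h2) hρ
  have h4 := mul_le_mul_of_nonneg_right hc (by positivity : (0 : ℝ) ≤ 2 ^ r)
  linarith

lemma FreeL_inten (θ : ℝ) {r j : ℕ} (J : β → Finset (Fin (r + j))) (b0 : β) (hJ : J b0 = ∅)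
    (w : Finset (Fin (r + j)) → Sym2 V → ℝ) (z : α → V) :
    inten H ep (coef θ 1 (Function.update J b0 (univ.map (Fin.castAddEmb j)))) w z =
      inten H ep (coef θ 1 J) w z + ∑ S : Finset (Fin r), ind S.Nonempty * (-1) ^ (S.card + 1) *
        θ ^ S.card * psi H (w (S.map (Fin.castAddEmb j))) (sl ep z b0) := by
  unfold inten
  rw [← add_sum_erase univ _ (mem_univ b0), ← add_sum_erase univ _ (mem_univ b0)]
  have h1 : ∑ S, coef θ 1 J b0 S * psi H (w S) (sl ep z b0) = 0 :=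
    sum_eq_zero fun S _ => by
      unfold coef
      rw [hJ, ind_neg (fun h => h.1.ne_empty (subset_empty.1 h.2))]
      ring
  have h2 : ∑ b ∈ univ.erase b0, ∑ S, coef θ 1 (Function.update J b0
      (univ.map (Fin.castAddEmb j))) b S * psi H (w S) (sl ep z b) =
      ∑ b ∈ univ.erase b0, ∑ S, coef θ 1 J b S * psi H (w S) (sl ep z b) :=
    sum_congr rfl fun b hb => by
      unfold coef
      rw [Function.update_of_ne (ne_of_mem_erase hb)]
  have h3 : ∑ S : Finset (Fin r), ind S.Nonempty * (-1) ^ (S.card + 1) *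
      θ ^ S.card * psi H (w (S.map (Fin.castAddEmb j))) (sl ep z b0) =
      ∑ S, coef θ 1 (Function.update J b0 (univ.map (Fin.castAddEmb j))) b0 S *
        psi H (w S) (sl ep z b0) := by
    refine Fintype.sum_of_injective (fun S => S.map (Fin.castAddEmb j)) (Finset.map_injective _) _ _
      (fun S hS => ?_) fun S => ?_
    · unfold coef
      rw [Function.update_self, ind_neg]
      · ring
      · rintro ⟨-, h⟩
        obtain ⟨u, -, rfl⟩ := subset_map_iff.1 h
        exact hS ⟨u, rfl⟩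
    · unfold coef
      rw [Function.update_self, card_map, one_mul,
        ind_congr (and_iff_left (map_subset_map.2 (subset_univ S))), ind_congr map_nonempty]
  rw [h1, h2, h3]
  ring

lemma FreeL_wl (m : ℕ) (y : G → α → V) (g : G) (z : α → V) {l : G → Bool} (hl : l g = false)
    {r j : ℕ} (σ : Fin (r + j) → Finset (G × β)) (S : Finset (Fin r)) :
    wl m ep (Function.update y g z) l (S.inf fun l => σ (Fin.castAdd j l)) =
      wl m ep y l (cav g σ (S.map (Fin.castAddEmb j))) := by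
  have h0 : ∀ i ∈ lay β l true, i.1 ≠ g := fun i hi h => by
    have := (mem_filter.1 hi).2
    rw [h, hl] at this
    exact Bool.false_ne_true this
  have h1 : (S.inf fun l => σ (Fin.castAdd j l)) ∩ lay β l true =
      cav g σ (S.map (Fin.castAddEmb j)) ∩ lay β l true := by
    ext i
    unfold cav
    rw [inf_map, mem_inter, mem_inter, mem_filter]
    exact ⟨fun h => ⟨⟨h.1, h0 i h.2⟩, h.2⟩, fun h => ⟨h.1.1, h.2⟩⟩
  unfold wl
  rw [h1, den_congr (q := sp ep (Function.update y g z)) (q2 := sp ep y) fun i hi => by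
    unfold sp
    rw [Function.update_of_ne (h0 i (mem_inter.1 hi).2)]]

lemma FreeL_half (g : G) : 𝔼 l : G → Bool, 2 * ind (l g = false) = 1 := by
  rw [ex_update g]
  have : ∀ l : G → Bool, 𝔼 a : Bool, 2 * ind (Function.update l g a g = false) = 1 := fun l => by
    simp only [Function.update_self, Fintype.expect_eq_sum_div_card, Fintype.sum_bool,
      Fintype.card_bool]
    rw [ind_pos trivial, ind_neg (by simp)]
    norm_num
  simp only [this]
  exact Fintype.expect_const _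

lemma FreeL_pr {θ : ℝ} (h0 : 0 ≤ θ) (h1 : θ < 1) {X κ : Type} [Fintype κ] (a : Finset X)
    (q : κ → X → Prop) : 0 ≤ ∏ l, ∏ C ∈ a, (1 - θ * ind (q l C)) ∧
      ∏ l, ∏ C ∈ a, (1 - θ * ind (q l C)) ≤ 1 :=
  have h : ∀ l, 0 ≤ ∏ C ∈ a, (1 - θ * ind (q l C)) := fun _ =>
    prod_nonneg fun _ _ => (Gib_fac h0 h1 _).1.le
  ⟨prod_nonneg fun l _ => h l, prod_le_one (fun l _ => h l) fun _ _ =>
    prod_le_one (fun _ _ => (Gib_fac h0 h1 _).1.le) fun _ _ => (Gib_fac h0 h1 _).2⟩

variable (H ep) in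
/-- The weights used in the local lemma. -/
noncomputable def FreeL_D (θ ρ Z : ℝ) (m r : ℕ) (b0 : β)
    (ω : Bool × (Finset (Fin r) → CI V m)) (z : α → V) : ℝ :=
  if ω.1 then 1 else zeta H θ ρ (fun S => ck m (ω.2 S)) (sl ep z b0) / Z

lemma FreeL_det [Nonempty V] {θ t ρ c γ e1 e3 : ℝ} (h0 : 0 ≤ θ) (h1 : θ < 1) (t0 : 0 ≤ t)
    (t1 : t ≤ 1) (hρ : 0 ≤ ρ) (hc : ρ ≤ c) (he : 0 ≤ e1) (m : ℕ) (g : G) (b0 : β) {r j : ℕ}
    (σ : Fin (r + j) → Finset (G × β)) (hσ : ∀ l, (g, b0) ∉ σ l) (y : G → α → V)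
    (hlf : ∀ ω (J : β → Finset (Fin (r + j))) (w : Finset (Fin (r + j)) → Sym2 V → ℝ),
      (∀ s, Unit01 (w s)) → (∀ s, cut (fun e => den (sp ep y) (cav g σ s) e - ord (w s) e) ≤ γ) →
      |𝔼 z, FreeL_D H ep θ ρ (Real.exp (c * 2 ^ r)) m r b0 ω z *
        (∏ C, (1 - t * mrk H ep g (coef θ 1 J) (cav g σ) (Function.update y g z) C) -
          Real.exp (-(ρ * inten H ep (coef θ 1 J) w z)))| ≤ e1)
    (ho : ∀ T, 𝔼 l : G → Bool,
      ind (γ < cut fun e => den (sp ep y) T e - ord (wl m ep y l T) e) ≤ e3) :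
    |𝔼 z, E t fun a => (∏ l : Fin r, Xi H θ ep (g, b0) (Function.update y g z) a
        (σ (Fin.castAdd j l)) - 𝔼 l : G → Bool, 2 * ind (l g = false) *
          zeta H θ ρ (fun S => wl m ep (Function.update y g z) l
            (S.inf fun l => σ (Fin.castAdd j l))) (sp ep (Function.update y g z) (g, b0))) *
        ∏ l, awg H θ ep g (Function.update y g z) a (σ l)| ≤
      2 * (1 + Real.exp (c * 2 ^ r)) * (e1 + 2 ^ (r + j) * e3) := by
  obtain ⟨Z, hZ⟩ : ∃ Z, Z = Real.exp (c * 2 ^ r) := ⟨_, rfl⟩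
  have hZ0 : 0 < Z := hZ ▸ Real.exp_pos _
  rw [← hZ] at hlf ⊢
  obtain ⟨P2, hP2⟩ : ∃ P : (α → V) → ℝ, ∀ z, P z = E t fun a =>
      (∏ l : Fin r, Xi H θ ep (g, b0) (Function.update y g z) a (σ (Fin.castAdd j l))) *
        ∏ l, awg H θ ep g (Function.update y g z) a (σ l) := ⟨_, fun _ => rfl⟩
  obtain ⟨P1, hP1⟩ : ∃ P : (α → V) → ℝ, ∀ z, P z = E t fun a =>
      ∏ l, awg H θ ep g (Function.update y g z) a (σ l) := ⟨_, fun _ => rfl⟩
  obtain ⟨ζ, hζ⟩ : ∃ ζ : (G → Bool) → (α → V) → ℝ, ∀ l z, ζ l z = zeta H θ ρ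
      (fun S => wl m ep y l (cav g σ (S.map (Fin.castAddEmb j)))) (sl ep z b0) :=
    ⟨_, fun _ _ => rfl⟩
  have b1 : ∀ z, 0 ≤ P1 z ∧ P1 z ≤ 1 := fun z => by
    rw [hP1]
    exact ⟨E_nonneg t0 t1 fun a => (FreeL_pr h0 h1 a _).1,
      E_le_one t0 t1 fun a => (FreeL_pr h0 h1 a _).2⟩
  have b2 : ∀ z, 0 ≤ P2 z ∧ P2 z ≤ 1 := fun z => by
    rw [hP2]
    exact ⟨E_nonneg t0 t1 fun a => mul_nonneg (FreeL_pr h0 h1 a _).1 (FreeL_pr h0 h1 a _).1,
      E_le_one t0 t1 fun a => mul_le_one₀ (FreeL_pr h0 h1 a _).2 (FreeL_pr h0 h1 a _).1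
        (FreeL_pr h0 h1 a _).2⟩
  have b3 : ∀ l z, 0 ≤ ζ l z ∧ ζ l z ≤ Z := fun l z => by
    rw [hζ, hZ]
    exact FreeL_zeta h0 h1 hρ hc (fun S => ck_unit m _) _
  have e1' : ∀ z, (E t fun a => (∏ l : Fin r, Xi H θ ep (g, b0) (Function.update y g z) a
        (σ (Fin.castAdd j l)) - 𝔼 l : G → Bool, 2 * ind (l g = false) *
          zeta H θ ρ (fun S => wl m ep (Function.update y g z) l
            (S.inf fun l => σ (Fin.castAdd j l))) (sp ep (Function.update y g z) (g, b0))) *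
        ∏ l, awg H θ ep g (Function.update y g z) a (σ l)) =
      𝔼 l : G → Bool, 2 * ind (l g = false) * (P2 z - ζ l z * P1 z) := fun z => by
    have h2 : 𝔼 l : G → Bool, 2 * ind (l g = false) *
          zeta H θ ρ (fun S => wl m ep (Function.update y g z) l
            (S.inf fun l => σ (Fin.castAdd j l))) (sp ep (Function.update y g z) (g, b0)) =
        𝔼 l : G → Bool, 2 * ind (l g = false) * ζ l z := expect_congr rfl fun l _ => by
      by_cases hl : l g = false
      · rw [hζ]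
        simp only [FreeL_wl m y g z hl]
        unfold sp
        rw [Function.update_self]
      · rw [ind_neg hl]
        ring
    rw [h2]
    simp only [sub_mul, mul_sub, ← mul_assoc]
    rw [E_sub, E_const_mul, ← hP1, ← hP2, expect_sub_distrib, ← expect_mul, ← expect_mul,
      FreeL_half, one_mul]
  have key : ∀ l : G → Bool, |𝔼 z, (P2 z - ζ l z * P1 z)| ≤ (1 + Z) * (e1 +
      ∑ S, ind (γ < cut fun e => den (sp ep y) (cav g σ S) e -
        ord (wl m ep y l (cav g σ S)) e)) := fun l => by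
    clear * - α V P2 ζ l P1 Z e1 r j γ G β ep y g σ m b0 hσ W H θ ρ t hlf hP2 hP1 hζ hZ0 b3 b1 b2
      he c
    by_cases h : ∀ S, cut (fun e => den (sp ep y) (cav g σ S) e -
        ord (wl m ep y l (cav g σ S)) e) ≤ γ
    · obtain ⟨J, hJ⟩ : ∃ J : β → Finset (Fin (r + j)),
          J = fun b => univ.filter fun l => (g, b) ∈ σ l := ⟨_, rfl⟩
      have hJ0 : J b0 = ∅ := by
        rw [hJ]
        exact filter_eq_empty_iff.2 fun l _ => hσ l
      obtain ⟨ω, hω⟩ : ∃ ω : Finset (Fin r) → CI V m, ∀ S,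
          ck m (ω S) = wl m ep y l (cav g σ (S.map (Fin.castAddEmb j))) := ⟨_, fun _ => rfl⟩
      have k2 := hlf (true, ω) (Function.update J b0 (univ.map (Fin.castAddEmb j)))
        (fun S => wl m ep y l (cav g σ S)) (fun S => ck_unit m _) h
      have k1 := hlf (false, ω) J (fun S => wl m ep y l (cav g σ S)) (fun S => ck_unit m _) h
      have m2 : ∀ z, P2 z = ∏ C, (1 - t * mrk H ep g (coef θ 1 (Function.update J b0
          (univ.map (Fin.castAddEmb j)))) (cav g σ) (Function.update y g z) C) := fun z => by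
        rw [hP2, hJ, marks_xi θ t ep g b0 σ hσ]
      have m1 : ∀ z, P1 z = ∏ C, (1 - t * mrk H ep g (coef θ 1 J) (cav g σ)
          (Function.update y g z) C) := fun z => by
        rw [hP1, hJ, ← marks θ 1 t ep g σ, one_mul]
      simp only [← m2, FreeL_D, if_true, one_mul] at k2
      simp only [← m1, FreeL_D, Bool.false_eq_true, if_false, hω, ← hζ] at k1
      have m3 : 𝔼 z, (P2 z - ζ l z * P1 z) = (𝔼 z, (P2 z - Real.exp (-(ρ * inten H ep (coef θ 1
          (Function.update J b0 (univ.map (Fin.castAddEmb j))))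
            (fun S => wl m ep y l (cav g σ S)) z)))) - Z * 𝔼 z, ζ l z / Z * (P1 z -
              Real.exp (-(ρ * inten H ep (coef θ 1 J) (fun S => wl m ep y l (cav g σ S)) z))) := by
        rw [mul_expect, ← expect_sub_distrib]
        refine expect_congr rfl fun z _ => ?_
        rw [FreeL_inten θ J b0 hJ0, mul_add, neg_add, Real.exp_add]
        have : ζ l z = Real.exp (-(ρ * ∑ S : Finset (Fin r), ind S.Nonempty * (-1) ^ (S.card + 1) *
          θ ^ S.card * psi H (wl m ep y l (cav g σ (S.map (Fin.castAddEmb j)))) (sl ep z b0))) :=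
          hζ l z
        rw [← this]
        field_simp
        ring
      rw [m3]
      refine (abs_sub _ _).trans ?_
      rw [abs_mul, abs_of_pos hZ0]
      have h5 := mul_le_mul_of_nonneg_left k1 hZ0.le
      have h6 : 0 ≤ (1 + Z) * ∑ S, ind (γ < cut fun e => den (sp ep y) (cav g σ S) e -
        ord (wl m ep y l (cav g σ S)) e) :=
        mul_nonneg (by linarith only [hZ0]) (sum_nonneg fun _ _ => ind_nonneg _)
      linarith only [k2, h5, h6]
    · obtain ⟨S, hS⟩ := not_forall.1 h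
      have h5 := single_le_sum (f := fun S => ind (γ < cut fun e => den (sp ep y) (cav g σ S) e -
        ord (wl m ep y l (cav g σ S)) e)) (fun _ _ => ind_nonneg _) (mem_univ S)
      rw [ind_pos (not_le.1 hS)] at h5
      refine (ex_abs _).trans ((ex_le (c := 1 + Z) (by linarith) fun z => ?_).trans
        (le_mul_of_one_le_right (by linarith) (by linarith)))
      have h6 := mul_nonneg (b3 l z).1 (b1 z).1
      have h7 := mul_le_of_le_one_right (b3 l z).1 (b1 z).2
      exact abs_le.2 ⟨by linarith [(b2 z).1, (b3 l z).2], by linarith [(b2 z).2]⟩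
  simp only [e1']
  rw [expect_comm]
  simp only [← mul_expect]
  refine (ex_abs _).trans ((ex_mono (g := fun l => 2 * ((1 + Z) * (e1 +
      ∑ S, ind (γ < cut fun e => den (sp ep y) (cav g σ S) e -
        ord (wl m ep y l (cav g σ S)) e)))) fun l => ?_).trans ?_)
  · rw [abs_mul, abs_of_nonneg (mul_nonneg zero_le_two (ind_nonneg _))]
    exact mul_le_mul (by linarith [ind_le_one (l g = false)]) (key l) (abs_nonneg _) zero_le_two
  · rw [← mul_expect, ← mul_expect, expect_add_distrib, Fintype.expect_const, expect_sum_comm,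
      mul_assoc]
    refine mul_le_mul_of_nonneg_left (mul_le_mul_of_nonneg_left (add_le_add le_rfl ?_)
      (by linarith)) zero_le_two
    refine (sum_le_sum fun S _ => ho (cav g σ S)).trans (le_of_eq ?_)
    simp

end aux

lemma FreeL_one (R : Reg H ep n M τ) (r k : ℕ) {θ ε : ℝ} (h0 : 0 ≤ θ) (h1 : θ < 1) (hε : 0 < ε) :
    ∀ᶠ m in atTop, ∀ᶠ j in atTop, ∀ (g : Fin (M j)) (b0 : β),
      ∃ err : (Fin (M j) → α → Fin (n j)) → ℝ, (∀ y, 0 ≤ err y) ∧ 𝔼 y, err y ≤ ε ∧
        ∀ (y : Fin (M j) → α → Fin (n j)) (σ : Fin (r + k) → Finset (Fin (M j) × β)),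
          (∀ l, (g, b0) ∉ σ l) →
          |𝔼 z, E (τ j) fun a => (∏ l : Fin r, Xi H θ ep (g, b0) (Function.update y g z) a
            (σ (Fin.castAdd k l)) - 𝔼 l : Fin (M j) → Bool, 2 * ind (l g = false) *
              zeta H θ (rate H (n j) (M j * Fintype.card β) (τ j))
                (fun S => wl m ep (Function.update y g z) l (S.inf fun l => σ (Fin.castAdd k l)))
                (sp ep (Function.update y g z) (g, b0))) *
            ∏ l, awg H θ ep g (Function.update y g z) a (σ l)| ≤ err y := by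
  obtain ⟨c, -, hc⟩ := R.rate_bd
  obtain ⟨B, hB⟩ : ∃ B, B = 2 * (1 + Real.exp (c * 2 ^ r)) := ⟨_, rfl⟩
  have hB0 : 0 < B := by rw [hB]; positivity
  obtain ⟨γ, hγ, hlf⟩ := lf R (Finset (Fin (r + k))) 1 (ε := ε / (2 * B)) (by positivity)
  filter_upwards [outer R hγ] with m hm
  filter_upwards [hm (ε / (2 * B * 2 ^ (r + k))) (by positivity), hlf (2 ^ r * (4 * m ^ 2 + 3)), hc,
    R.t01, R.pos] with j ho hl hρ ht hp g b0
  have : Nonempty (Fin (n j)) := ⟨⟨0, hp.1⟩⟩
  obtain ⟨e3, h30, h31, h32⟩ := ho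
  obtain ⟨e1, h10, h11, h12⟩ := hl g (Bool × (Finset (Fin r) → CI (Fin (n j)) m))
    (FreeL_D H ep θ (rate H (n j) (M j * Fintype.card β) (τ j)) (Real.exp (c * 2 ^ r)) m r b0)
    (by
      clear * - n j m r
      have h2 := card_CI (V := Fin (n j)) m
      have h3 : (1 : ℝ) ≤ Fintype.card (CI (Fin (n j)) m) := Nat.one_le_cast.2 Fintype.card_pos
      rw [Fintype.card_fin] at h2
      rw [Fintype.card_prod, Fintype.card_bool, Fintype.card_fun, Fintype.card_finset,
        Fintype.card_fin]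
      push_cast
      have h4 : (2 : ℝ) * (Fintype.card (CI (Fin (n j)) m) : ℝ) ^ 2 ^ r ≤
          (2 * (Fintype.card (CI (Fin (n j)) m) : ℝ)) ^ 2 ^ r := by
        rw [mul_pow]
        exact mul_le_mul_of_nonneg_right (le_self_pow₀ one_le_two (by positivity)) (by positivity)
      refine (Real.log_le_log (by positivity) h4).trans ?_
      rw [Real.log_pow, mul_assoc]
      push_cast
      exact mul_le_mul_of_nonneg_left h2 (by positivity))
    (fun ω z => by
      unfold FreeL_D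
      split_ifs
      · exact ⟨zero_le_one, le_rfl⟩
      · have := FreeL_zeta (H := H) h0 h1 hρ.1 hρ.2 (fun S => ck_unit m (ω.2 S)) (sl ep z b0)
        exact ⟨div_nonneg this.1 (Real.exp_pos _).le,
          div_le_one_of_le₀ this.2 (Real.exp_pos _).le⟩)
  refine ⟨fun y => B * (e1 y + 2 ^ (r + k) * e3 y),
    fun y => mul_nonneg hB0.le (add_nonneg (h10 y) (mul_nonneg (by positivity) (h30 y))), ?_,
    fun y σ hσ => ?_⟩
  · rw [← mul_expect, expect_add_distrib, ← mul_expect]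
    have h4 := mul_le_mul_of_nonneg_left h31 (by positivity : (0 : ℝ) ≤ 2 ^ (r + k))
    refine (mul_le_mul_of_nonneg_left (add_le_add h11 h4) hB0.le).trans (le_of_eq ?_)
    field_simp
    ring
  · rw [hB]
    refine FreeL_det h0 h1 ht.1 ht.2 hρ.1 hρ.2 (h10 y) m g b0 σ hσ y (fun ω J w hw hcut => ?_)
      (h32 y)
    refine h12 y ω _ _ w (coef_abs h0 h1 zero_le_one le_rfl J) (fun b C => ?_)
      (fun s i hi => (mem_filter.1 hi).2) hw hcut
    have := coef_sum h0 h1 zero_le_one le_rfl J g σ b C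
    exact ⟨this.1, this.2.trans (sub_le_self _ (pow_nonneg (by linarith only [h1]) _))⟩

theorem free_loc (R : Reg H ep n M τ) (r : ℕ) {lam θ ε : ℝ} (hl : 0 ≤ lam)
    (h0 : 0 ≤ θ) (h1 : θ < 1) (hε : 0 < ε) : ∀ᶠ m in atTop, ∀ᶠ j in atTop,
    ∀ (U : Finset (Fin (M j) × β) → ℝ) (i0 : Fin (M j) × β), Good lam U →
      (∀ σ, i0 ∈ σ → U σ = 0) →
      |EG H θ (τ j) ep U r (fun (y : Fin (M j) → α → Fin (n j)) act σ =>
          ∏ l, Xi H θ ep i0 y act (σ l)) -
        EG H θ (τ j) ep U r fun (y : Fin (M j) → α → Fin (n j)) _ σ =>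
          𝔼 l : Fin (M j) → Bool, 2 * ind (l i0.1 = false) *
            zeta H θ (rate H (n j) (M j * Fintype.card β) (τ j))
              (fun S => wl m ep y l (S.inf σ)) (sp ep y i0)| ≤ ε := by
  obtain ⟨c, -, hc⟩ := R.rate_bd
  obtain ⟨B, hB⟩ : ∃ B, B = 1 + 2 * Real.exp (c * 2 ^ r) := ⟨_, rfl⟩
  have hB0 : 0 < B := by rw [hB]; positivity
  obtain ⟨d, A, hA, ht⟩ := tpm (H := H) ep r hl h0 h1 (ε := ε / (2 * B)) (by positivity)
  have h2 := eventually_all.2 fun k : Fin (d + 1) =>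
    FreeL_one R r k h0 h1 (ε := ε / (2 * (A + 1) * (d + 1))) (by positivity)
  filter_upwards [h2] with m hm
  filter_upwards [eventually_all.2 hm, hc, R.t01, R.pos] with j hj hρ h01 hp U i0 hU hi
  have : Nonempty (Fin (n j)) := ⟨⟨0, hp.1⟩⟩
  obtain ⟨g, b0⟩ := i0
  choose err e0 e1 e2 using fun k => hj k g b0
  rw [← EG_sub]
  refine (ht (n j) (M j) (τ j) g U _ (fun _ _ => B) (fun y => ∑ k, err k y) h01.1 h01.2 hU
    (fun y => sum_nonneg fun k _ => e0 k y) (fun y a σ => ?_) (fun y a a2 h => ?_)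
    fun y k hk σ hσ => ?_).trans ?_
  · have h3 := FreeL_pr h0 h1 a fun l C =>
      Acd H (sp ep y) Prod.fst C ∧ (g, b0) ∈ C ∧ C.erase (g, b0) ⊆ σ l
    have h4 : ∀ l : Fin (M j) → Bool, |2 * ind (l g = false) *
        zeta H θ (rate H (n j) (M j * Fintype.card β) (τ j)) (fun S => wl m ep y l (S.inf σ))
          (sp ep y (g, b0))| ≤ 2 * Real.exp (c * 2 ^ r) := fun l => by
      have := FreeL_zeta (H := H) h0 h1 hρ.1 hρ.2 (w := fun S => wl m ep y l (S.inf σ))
        (fun S => ck_unit m _) (sp ep y (g, b0))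
      rw [abs_of_nonneg (mul_nonneg (mul_nonneg zero_le_two (ind_nonneg _)) this.1)]
      exact mul_le_mul (by linarith only [ind_le_one (l g = false)]) this.2 this.1 zero_le_two
    rw [hB]
    exact (abs_sub _ _).trans (add_le_add (abs_le.2 ⟨neg_one_lt_zero.le.trans h3.1, h3.2⟩)
      ((ex_abs _).trans (ex_le (by positivity) h4)))
  · classical
    funext σ
    congr 1
    refine prod_congr rfl fun l _ => ?_
    have h3 : ∀ a, Xi H θ ep (g, b0) y a (σ l) = Xi H θ ep (g, b0) y (a.filter (Tch g)) (σ l) :=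
      fun a => (prod_filter_of_ne fun C _ hC => by
        by_contra h4
        exact hC (by rw [ind_neg fun h5 => h4 ⟨b0, h5.2.1⟩, mul_zero, sub_zero])).symm
    rw [h3 a, h3 a2]
    congr 1
    ext C
    rw [mem_filter, mem_filter]
    exact ⟨fun h4 => ⟨(h C h4.2).1 h4.1, h4.2⟩, fun h4 => ⟨(h C h4.2).2 h4.1, h4.2⟩⟩
  · exact (e2 ⟨k, Nat.lt_succ_of_le hk⟩ y σ fun l h => hσ l (hi _ h)).trans
      (single_le_sum (f := fun k => err k y) (fun k _ => e0 k y) (mem_univ _))
  · simp only [E_const]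
    rw [Fintype.expect_const, expect_sum_comm]
    have h3 : ∑ k, 𝔼 y, err k y ≤ ε / (2 * (A + 1)) := by
      refine (sum_le_sum fun k _ => e1 k).trans (le_of_eq ?_)
      rw [sum_const, card_univ, Fintype.card_fin, nsmul_eq_mul]
      push_cast
      field_simp
    have h4 := mul_le_mul (le_add_of_nonneg_right zero_le_one : A ≤ A + 1) h3
      (sum_nonneg fun k _ => expect_nonneg fun y _ => e0 k y) (by positivity)
    have h5 : (A + 1) * (ε / (2 * (A + 1))) = ε / 2 := by field_simp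
    have h6 : ε / (2 * B) * B = ε / 2 := by field_simp
    linarith only [h4, h5, h6]

end Pool.Agent.Work.MP_d4a230_co.U
end

-- merged part: Pool.Agent.Work.MP_d4a230_co.U.Free
section
/-!
Moving free variables into the slots of a pattern.
PLAN. Big pattern epS ep, R2 : Reg H (epS ep) n M τ by R.change (simple if ep is). For on ⊆ G × (β ⊕ β)
let P on be the set of present variables: slots (inl) in on and pool variables (inr) not in on.
Φ u = Ex (fun _ => u) (fun on => FE (fug * ind (σ ⊆ P on))). Φ 1 = FE ep, Φ 0 = FE (epM β) by Ex_one,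
Ex_zero, fe_sub. russo gives the derivative; by log_var each term is, up to sign, the mean of
log (1 + lam x), x = the one-replica Gibbs average of Xi i in the system without i, so
|Φ'| <= 2 N log (1 + lam) on [0,1]. For u ∈ [η, 1-η]: Ex_erase (and its mirror for the pool) rewrites
the terms as Ex of ind (i absent) / (1-u) (or / u) times the mean of log (1 + lam x); poly_approx on
[0,1], x^r = gib r of the product (gib_prod), free_loc for each r <= d with a common m. It remains to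
bound, for fixed on and r, EG of the mean over l of Y (y, l, ω) = sum over absent slots i of
2 ind (l i.1 = false) ζ_ω (sp y i) / (1-u) minus the same over absent pool variables / u, where
ω : Finset (Fin r) → CI: pseudo (for the two fixed sets of variables, den_ord, ξ = ord ζ_ω) reduces it
to mean ζ_ω times the difference of the normalised cardinalities, which is small in mean over l
(lay_close with abs_ex_le_cut, ex_den) and over on (Ex_abs_lin). Mean value inequality on the three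
intervals (Convex.norm_image_sub_le_of_norm_hasDerivWithin_le).
-/

namespace Pool.Agent.Work.MP_d4a230_co.U

open Finset Filter Topology Pool.Agent.Work.MP_07f1b5_pr
open scoped BigOperators

variable {α β : Type} [Fintype α] [DecidableEq α] [Fintype β] [DecidableEq β]
  {W : Type} [Fintype W] [DecidableEq W] {H : SimpleGraph W} [DecidableRel H.Adj]
  {ep : β → α × α} {n M : ℕ → ℕ} {τ : ℕ → ℝ}

lemma Free_ie {I : Type} [DecidableEq I] (i : I) (ω : Finset I) :
    insert i (ω.erase i) = insert i ω := by grind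

lemma Free_mvt {Φ D : ℝ → ℝ} (hd : ∀ u, HasDerivAt Φ (D u) u) {η A B : ℝ} (h0 : 0 < η)
    (h2 : η ≤ 1 / 2) (hA : ∀ u ∈ Set.Icc (0 : ℝ) 1, |D u| ≤ A)
    (hB : ∀ u ∈ Set.Icc η (1 - η), |D u| ≤ B) : |Φ 1 - Φ 0| ≤ 2 * η * A + B := by
  have key : ∀ a b c : ℝ, a ≤ b → (∀ u ∈ Set.Icc a b, |D u| ≤ c) → |Φ b - Φ a| ≤ c * (b - a) :=
    fun a b c hab h => by
      have := (convex_Icc a b).norm_image_sub_le_of_norm_hasDerivWithin_le (f := Φ) (f' := D)
        (fun x _ => (hd x).hasDerivWithinAt) h (Set.left_mem_Icc.2 hab) (Set.right_mem_Icc.2 hab)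
      rwa [Real.norm_eq_abs, Real.norm_eq_abs, abs_of_nonneg (sub_nonneg.2 hab)] at this
  have k1 := key 0 η A h0.le fun u hu => hA u ⟨hu.1, by linarith [hu.2]⟩
  have k2 := key η (1 - η) B (by linarith) hB
  have k3 := key (1 - η) 1 A (by linarith) fun u hu => hA u ⟨by linarith [hu.1], hu.2⟩
  have hB0 : 0 ≤ B := (abs_nonneg _).trans (hB (1 / 2) ⟨h2, by linarith⟩)
  have t1 := abs_sub_le (Φ 1) (Φ (1 - η)) (Φ 0)
  have t2 := abs_sub_le (Φ (1 - η)) (Φ η) (Φ 0)
  nlinarith only [k1, k2, k3, t1, t2, hB0, h0, mul_nonneg hB0 h0.le]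

/-- The interpolation between two complementary sets of the same size. -/
lemma Free_abs {I : Type} [Fintype I] [DecidableEq I] (f : Finset I → ℝ) {A B : Finset I}
    (hAB : ∀ i, i ∈ A ↔ i ∉ B) (hc : A.card = B.card) {η L e K : ℝ} (h0 : 0 < η)
    (h2 : η ≤ 1 / 2) (hK : 0 ≤ K) (hL : ∀ ω i, i ∉ ω → |f (insert i ω) - f ω| ≤ L)
    (hP : ∀ ω (a : I → ℝ), (∀ i, |a i| ≤ 1 / η) → (∀ i ∈ ω, a i = 0) →
      |∑ i, a i * (f (insert i ω) - f ω)| ≤ e + K * |∑ i, a i|) :
    |f A - f B| ≤ 2 * η * (Fintype.card I * L) + (e + K * (Real.sqrt (Fintype.card I) / η)) := by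
  set q : I → ℝ := fun i => ind (i ∈ A) - ind (i ∈ B) with hq
  set p : ℝ → I → ℝ := fun u i => ind (i ∈ B) + u * q i with hp
  have hpq : ∀ u i, (p u i = u ∧ q i = 1) ∨ (p u i = 1 - u ∧ q i = -1) := fun u i => by
    by_cases h : i ∈ B
    · right
      simp only [hp, hq, ind_pos h, ind_neg fun x => (hAB i).1 x h]
      constructor <;> ring
    · left
      simp only [hp, hq, ind_neg h, ind_pos ((hAB i).2 h)]
      constructor <;> ring
  have hq1 : ∀ i, |q i| = 1 := fun i => by rcases hpq 0 i with h | h <;> simp [h.2]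
  have hq0 : ∑ i, q i = 0 := by simp only [hq, sum_sub_distrib, P1_sum_mem, hc, sub_self]
  have hadm : ∀ u ∈ Set.Icc (0 : ℝ) 1, Adm (p u) := fun u hu i => by
    rcases hpq u i with h | h <;> rw [h.1] <;> constructor <;> linarith only [hu.1, hu.2]
  have hd := fun u => russo (fun i => ind (i ∈ B)) q (fun _ => f) (fun _ => 0) u
    fun ω => hasDerivAt_const u (f ω)
  simp only [Ex_const, add_zero] at hd
  have key := Free_mvt hd h0 h2 (A := Fintype.card I * L)
    (B := e + K * (Real.sqrt (Fintype.card I) / η)) (fun u hu => ?_) fun u hu => ?_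
  · have e1 : (fun i => ind (i ∈ B) + 1 * q i) = fun i => ind (i ∈ A) := by
      funext i; simp only [hq]; ring
    have e0 : (fun i => ind (i ∈ B) + 0 * q i) = fun i => ind (i ∈ B) := by
      funext i; ring
    rwa [e1, e0, Ex_det, Ex_det] at key
  · refine (abs_sum_le_sum_abs _ _).trans ?_
    rw [← card_univ, ← nsmul_eq_mul]
    refine sum_le_card_nsmul _ _ _ fun i _ => ?_
    rw [abs_mul, hq1, one_mul]
    refine (Ex_abs (hadm u hu) _).trans ((Ex_mono (hadm u hu) fun ω => ?_).trans_eq (Ex_const _ L))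
    have := hL (ω.erase i) i (notMem_erase i ω)
    rwa [Free_ie] at this
  · have hu1 : u ∈ Set.Icc (0 : ℝ) 1 := ⟨by linarith only [h0, hu.1], by linarith [hu.2]⟩
    have hge : ∀ i, η ≤ 1 - p u i := fun i => by
      rcases hpq u i with h | h <;> rw [h.1] <;> linarith only [hu.1, hu.2]
    have hpos : ∀ i, 0 < 1 - p u i := fun i => h0.trans_le (hge i)
    set c : I → ℝ := fun i => q i / (1 - p u i) with hcd
    have hc1 : ∀ i, |c i| ≤ 1 / η := fun i => by
      rw [hcd, abs_div, hq1, abs_of_pos (hpos i)]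
      exact one_div_le_one_div_of_le h0 (hge i)
    have e1 : ∑ i, q i * (Ex (p u) fun ω => f (insert i ω) - f (ω.erase i)) =
        Ex (p u) fun ω => ∑ i, c i * ind (i ∉ ω) * (f (insert i ω) - f ω) := by
      rw [Ex_sum]
      refine sum_congr rfl fun i _ => ?_
      have := Ex_erase (p u) i fun ω => f (insert i ω) - f ω
      simp only [Free_ie] at this
      simp only [mul_assoc, Ex_const_mul, ← this, hcd]
      field_simp [(hpos i).ne']
    have e2 : ∀ ω : Finset I, |∑ i, c i * ind (i ∉ ω)| = |∑ i, c i * (ind (i ∈ ω) - p u i)| :=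
      fun ω => by
        rw [← abs_neg, ← zero_add (-_), ← hq0, ← sum_neg_distrib, ← sum_add_distrib]
        congr 1
        refine sum_congr rfl fun i _ => ?_
        rw [ind_not, hcd]
        field_simp [(hpos i).ne']
        ring
    have e3 : Real.sqrt (∑ i, c i ^ 2) ≤ Real.sqrt (Fintype.card I) / η := by
      rw [← Real.sqrt_sq h0.le, ← Real.sqrt_div (Nat.cast_nonneg _)]
      refine Real.sqrt_le_sqrt ?_
      rw [← card_univ, div_eq_mul_one_div, ← nsmul_eq_mul]
      refine sum_le_card_nsmul _ _ _ fun i _ => ?_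
      rw [← sq_abs, ← one_pow 2, ← div_pow]
      exact pow_le_pow_left₀ (abs_nonneg _) (hc1 i) 2
    refine (congrArg abs e1).trans_le ((Ex_abs (hadm u hu1) _).trans
      ((Ex_mono (hadm u hu1) fun ω => hP ω (fun i => c i * ind (i ∉ ω)) (fun i => ?_)
        fun i hi => ?_).trans ?_))
    · rw [abs_mul, abs_of_nonneg (ind_nonneg _)]
      exact (mul_le_of_le_one_right (abs_nonneg _) (ind_le_one _)).trans (hc1 i)
    · rw [ind_neg (not_not.2 hi), mul_zero]
    · simp only [Ex_add, Ex_const, Ex_const_mul, e2]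
      have := (Ex_abs_lin (hadm u hu1) c).trans e3
      gcongr

section fin

variable {G V : Type} [Fintype G] [DecidableEq G] [Fintype V] [DecidableEq V]

lemma Free_aw (θ : ℝ) (i : G × β) (y : G → α → V) (act : Finset (Finset (G × β)))
    {σ : Finset (G × β)} (h : i ∉ σ) : aw H θ (sp ep y) Prod.fst act (insert i σ) =
      aw H θ (sp ep y) Prod.fst act σ * Xi H θ ep i y act σ := by
  unfold aw Xi
  rw [← prod_mul_distrib]
  refine prod_congr rfl fun C _ => ?_
  by_cases hi : i ∈ C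
  · rw [ind_neg (q := _ ∧ C ⊆ σ) fun x => h (x.2 hi), mul_zero, sub_zero, one_mul,
      ind_congr (r := _ ∧ i ∈ C ∧ C.erase i ⊆ σ)
        (and_congr_right fun _ => by rw [subset_insert_iff, and_iff_right hi])]
  · rw [ind_neg (q := _ ∧ i ∈ C ∧ _) fun x => hi x.2.1, mul_zero, sub_zero, mul_one,
      subset_insert_iff_of_notMem hi]

lemma Free_Xi {θ : ℝ} (h0 : 0 ≤ θ) (h1 : θ < 1) (i : G × β) (y : G → α → V)
    (act : Finset (Finset (G × β))) (σ : Finset (G × β)) :
    0 ≤ Xi H θ ep i y act σ ∧ Xi H θ ep i y act σ ≤ 1 :=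
  ⟨prod_nonneg fun _ _ => (Gib_fac h0 h1 _).1.le,
    prod_le_one (fun _ _ => (Gib_fac h0 h1 _).1.le) fun _ _ => (Gib_fac h0 h1 _).2⟩

/-- The weight with the variables in `on` present. -/
noncomputable def Free_U (lam : ℝ) (on σ : Finset (G × β)) : ℝ := fug lam σ * ind (σ ⊆ on)

lemma Free_EE {τ c : ℝ} (t0 : 0 ≤ τ) (t1 : τ ≤ 1) (hc : 0 ≤ c)
    {F : (G → α → V) → Finset (Finset (G × β)) → ℝ} (h : ∀ y a, |F y a| ≤ c) :
    |𝔼 y, E τ (F y)| ≤ c :=
  (ex_abs _).trans (ex_le hc fun y =>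
    (abs_E_le t0 t1 _).trans ((E_mono t0 t1 (h y)).trans_eq (E_const c)))

lemma Free_poly {lam θ τ e : ℝ} (hl : 0 ≤ lam) (h0 : 0 ≤ θ) (h1 : θ < 1) (t0 : 0 ≤ τ) (t1 : τ ≤ 1)
    {d : ℕ} {c : ℕ → ℝ} (hc : ∀ x ∈ Set.Icc (0 : ℝ) 1,
      |Real.log (1 + lam * x) - ∑ r ∈ range d, c r * x ^ r| ≤ e)
    {on : Finset (G × β)} {i : G × β} (hi : i ∉ on) :
    |FE H V θ τ ep (Free_U lam (insert i on)) - FE H V θ τ ep (Free_U lam on) -
      ∑ r ∈ range d, c r * EG H θ τ ep (Free_U lam on) r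
        fun (y : G → α → V) act σ => ∏ l, Xi H θ ep i y act (σ l)| ≤ e := by
  have he : 0 ≤ e := (abs_nonneg _).trans (hc 0 ⟨le_rfl, zero_le_one⟩)
  unfold FE LZ EG
  simp only [mul_expect, ← expect_sum_comm, ← expect_sub_distrib, ← E_const_mul, ← E_sum, ← E_sub]
  refine Free_EE t0 t1 he fun y a => ?_
  have g1 : Good lam (Free_U lam (insert i on)) := good_pres hl _
  have g0 : Good lam (Free_U lam on) := good_pres hl _
  have hw : ∀ σ, ind (i ∉ σ) * Wt H θ ep (Free_U lam (insert i on)) y a σ =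
      Wt H θ ep (Free_U lam on) y a σ := fun σ => by
    unfold Wt Free_U
    by_cases h : i ∈ σ
    · rw [ind_neg (not_not.2 h), ind_neg (q := σ ⊆ on) fun x => hi (x h)]; ring
    · rw [ind_pos h, subset_insert_iff_of_notMem h, one_mul]
  have key := log_var (w := Wt H θ ep (Free_U lam (insert i on)) y a) (g := Xi H θ ep i y a) hl i
    (Wt_nonneg h0 h1 ep g1 y a) (mul_pos g1.2.1 (aw_bd h0 h1 _ _ _ _).1)
    (fun σ => (Free_Xi h0 h1 i y a σ).1) fun σ h => by
      unfold Wt Free_U fug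
      rw [Free_aw θ i y a h, card_insert_of_notMem h,
        ind_congr (q := insert i σ ⊆ insert i on) (r := σ ⊆ insert i on) (by grind)]
      ring
  simp only [hw] at key
  simp only [gib_prod]
  have hZ := Wt_sum_pos (H := H) h0 h1 ep g0 y a
  refine (congrArg (fun x => |x - _|) key).trans_le (hc _ ⟨?_, ?_⟩)
  · exact div_nonneg (sum_nonneg fun σ _ =>
      mul_nonneg (Wt_nonneg h0 h1 ep g0 y a σ) (Free_Xi h0 h1 i y a σ).1) hZ.le
  · exact (div_le_one hZ).2 (sum_le_sum fun σ _ =>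
      mul_le_of_le_one_right (Wt_nonneg h0 h1 ep g0 y a σ) (Free_Xi h0 h1 i y a σ).2)

lemma Free_zeta {θ ρ c : ℝ} (h0 : 0 ≤ θ) (h1 : θ < 1) (r0 : 0 ≤ ρ) (r1 : ρ ≤ c) {r d : ℕ}
    (hr : r ≤ d) {w : Finset (Fin r) → Sym2 V → ℝ} (hw : ∀ S, Unit01 (w S)) (p : Sym2 V) :
    0 ≤ zeta H θ ρ w p ∧ zeta H θ ρ w p ≤ Real.exp (c * 2 ^ d) := by
  refine ⟨(Real.exp_pos _).le, Real.exp_le_exp.2 ((neg_le_abs _).trans ?_)⟩
  rw [abs_mul, abs_of_nonneg r0]
  refine mul_le_mul r1 ((abs_sum_le_sum_abs _ _).trans ?_) (abs_nonneg _) (r0.trans r1)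
  refine (sum_le_card_nsmul _ _ 1 fun S _ => ?_).trans ?_
  · rw [abs_mul, abs_mul, abs_mul, abs_pow, abs_neg, abs_one, one_pow, mul_one,
      abs_of_nonneg (ind_nonneg _), abs_of_nonneg (pow_nonneg h0 _),
      abs_of_nonneg (psi_unit H (hw S) p).1]
    exact mul_le_one₀ (mul_le_one₀ (ind_le_one _) (pow_nonneg h0 _) (pow_le_one₀ h0 h1.le))
      (psi_unit H (hw S) p).1 (psi_unit H (hw S) p).2
  · simp only [card_univ, Fintype.card_finset, Fintype.card_fin, nsmul_eq_mul, mul_one]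
    exact_mod_cast Nat.pow_le_pow_right two_pos hr

variable [Nonempty G] [Nonempty β] [Nonempty V]

lemma Free_max (hne : ∀ j, (ep j).1 ≠ (ep j).2) {Ω : Type} [Fintype Ω] (ζ : Ω → Sym2 V → ℝ)
    {B Z δ : ℝ} (hB : 0 < B) (hZ : 0 < Z) (hδ : 0 < δ) (hζ : ∀ ω p, 0 ≤ ζ ω p ∧ ζ ω p ≤ Z)
    (h : Real.log (2 * Fintype.card Ω) ≤ δ ^ 2 * Fintype.card G) {a : G × β → ℝ}
    (ha : ∀ i, |a i| ≤ B) : ∃ err : (G → α → V) → (G → Bool) → ℝ,
      𝔼 y, 𝔼 l, err y l ≤ 8 * δ * B * Z ∧ ∀ y l ω,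
        |∑ i, a i * (2 * ind (l i.1 = false) * ζ ω (sp ep y i))| ≤
          Fintype.card (G × β) * err y l + Z * |∑ i, a i| := by
  obtain ⟨err, -, h2, h3⟩ := Lay_max (fun (ω : Ω) (i : G × β) (z : (α → V) × Bool) =>
    a i * (2 * ind (z.2 = false) * ζ ω (sl ep z.1 i.2)) + B * (2 * Z)) (c := 4 * B * Z)
    (by positivity) hδ (fun ω i z => by
      clear * - α V z ζ ω β ep G i Z hζ B a ha hB h
      have t := Lay_mul (Lay_ind (z.2 = false)) (hζ ω (sl ep z.1 i.2))
      have u := abs_le.1 (ha i)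
      constructor <;> nlinarith only [hB, t, u, t.1, t.2, u.1, u.2]) h
  refine ⟨fun y l => err fun g => (y g, l g), ?_, fun y l ω => ?_⟩
  · rw [← ex_prod fun p : (G → α → V) × (G → Bool) => err fun g => (p.1 g, p.2 g)]
    refine le_of_eq_of_le ?_ (h2.trans_eq (by ring))
    exact Fintype.expect_equiv (Equiv.arrowProdEquivProdArrow G (fun _ => α → V)
      fun _ => Bool).symm _ _ fun _ => rfl
  · have hN : (0 : ℝ) < Fintype.card (G × β) := Nat.cast_pos.2 Fintype.card_pos
    have hb : 2 * 𝔼 b : Bool, ind (b = false) = 1 := by simpa using Lay_one (L := Bool) false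
    have h4 : ∀ i : G × β, 𝔼 z : (α → V) × Bool,
        (a i * (2 * ind (z.2 = false) * ζ ω (sl ep z.1 i.2)) + B * (2 * Z)) =
          a i * 𝔼 e, ord (ζ ω) e + B * (2 * Z) := fun i => by
      rw [expect_add_distrib, Fintype.expect_const, ← mul_expect, ex_prod]
      simp only [← expect_mul, ← mul_expect, hb, one_mul, sl, ex_ord (hne i.2)]
    have h5 := h3 (fun g => (y g, l g)) ω
    simp only [h4, sum_add_distrib, ← sum_mul] at h5
    rw [← sub_div, abs_div, abs_of_pos hN, div_le_iff₀ hN, add_sub_add_right_eq_sub] at h5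
    have h6 : |(∑ i, a i) * 𝔼 e, ord (ζ ω) e| ≤ Z * |∑ i, a i| := by
      rw [abs_mul, mul_comm]
      refine mul_le_mul_of_nonneg_right ((ex_abs _).trans (ex_le hZ.le fun e => ?_)) (abs_nonneg _)
      exact (abs_of_nonneg (hζ ω _).1).trans_le (hζ ω _).2
    have h7 := abs_sub_abs_le_abs_sub
      (∑ i, a i * (2 * ind (l i.1 = false) * ζ ω (sp ep y i))) ((∑ i, a i) * 𝔼 e, ord (ζ ω) e)
    simp only [sp] at h7 ⊢
    linarith

lemma Free_main (hne : ∀ j, (ep j).1 ≠ (ep j).2) {lam θ τ ρ c B δ : ℝ} (h0 : 0 ≤ θ) (h1 : θ < 1)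
    (t0 : 0 ≤ τ) (t1 : τ ≤ 1) (r0 : 0 ≤ ρ) (r1 : ρ ≤ c) (hB : 0 < B) (hδ : 0 < δ) {r d m : ℕ}
    (hr : r ≤ d) (h : Real.log (2 * Fintype.card (Finset (Fin r) → CI V m)) ≤
      δ ^ 2 * Fintype.card G) {U : Finset (G × β) → ℝ} (hU : Good lam U) {a : G × β → ℝ}
    (ha : ∀ i, |a i| ≤ B) :
    |∑ i, a i * EG H θ τ ep U r fun (y : G → α → V) _ σ => 𝔼 l : G → Bool,
      2 * ind (l i.1 = false) * zeta H θ ρ (fun S => wl m ep y l (S.inf σ)) (sp ep y i)| ≤
      Real.exp (c * 2 ^ d) * (Fintype.card (G × β) * (8 * δ * B) + |∑ i, a i|) := by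
  obtain ⟨err, h2, h3⟩ := Free_max hne
    (fun ω : Finset (Fin r) → CI V m => zeta H θ ρ fun S => ck m (ω S)) hB (Real.exp_pos _) hδ
    (fun ω p => Free_zeta h0 h1 r0 r1 hr (fun S => ck_unit m _) p) h ha
  simp only [← EG_mul]
  rw [← EG_sum]
  refine (EG_abs h0 h1 t0 t1 hU).trans ((EG_mono h0 h1 t0 t1 hU (F2 := fun y _ _ =>
    𝔼 l, (Fintype.card (G × β) * err y l + Real.exp (c * 2 ^ d) * |∑ i, a i|))
      fun y _ σ _ => ?_).trans ?_)
  · simp only [mul_expect, ← expect_sum_comm]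
    exact (ex_abs _).trans (ex_mono fun l => h3 y l fun S => best m _)
  · rw [EG_pos h0 h1 hU]
    simp only [expect_add_distrib, Fintype.expect_const, ← mul_expect]
    nlinarith only [h2, mul_le_mul_of_nonneg_left h2 (Nat.cast_nonneg (α := ℝ) (Fintype.card (G × β)))]

lemma Free_pt (hne : ∀ j, (ep j).1 ≠ (ep j).2) {lam θ τ ρ c0 B δ e1 e2 : ℝ} (hl : 0 ≤ lam)
    (h0 : 0 ≤ θ) (h1 : θ < 1) (t0 : 0 ≤ τ) (t1 : τ ≤ 1) (r0 : 0 ≤ ρ) (r1 : ρ ≤ c0) (hB : 0 < B)
    (hδ : 0 < δ) {d m : ℕ} {c : ℕ → ℝ} (hc : ∀ x ∈ Set.Icc (0 : ℝ) 1,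
      |Real.log (1 + lam * x) - ∑ r ∈ range d, c r * x ^ r| ≤ e1)
    (h : ∀ r ∈ range d, Real.log (2 * Fintype.card (Finset (Fin r) → CI V m)) ≤
      δ ^ 2 * Fintype.card G)
    (hloc : ∀ r ∈ range d, ∀ (U : Finset (G × β) → ℝ) (i0 : G × β), Good lam U →
      (∀ σ, i0 ∈ σ → U σ = 0) →
      |EG H θ τ ep U r (fun (y : G → α → V) act σ => ∏ l, Xi H θ ep i0 y act (σ l)) -
        EG H θ τ ep U r fun (y : G → α → V) _ σ => 𝔼 l : G → Bool, 2 * ind (l i0.1 = false) *
          zeta H θ ρ (fun S => wl m ep y l (S.inf σ)) (sp ep y i0)| ≤ e2)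
    (on : Finset (G × β)) (a : G × β → ℝ) (ha : ∀ i, |a i| ≤ B) (ha0 : ∀ i ∈ on, a i = 0) :
    |∑ i, a i * (FE H V θ τ ep (Free_U lam (insert i on)) - FE H V θ τ ep (Free_U lam on))| ≤
      Fintype.card (G × β) * B * (e1 + (∑ r ∈ range d, |c r|) *
        (e2 + Real.exp (c0 * 2 ^ d) * (8 * δ))) +
      (∑ r ∈ range d, |c r|) * Real.exp (c0 * 2 ^ d) * |∑ i, a i| := by
  have g0 : Good lam (Free_U lam on) := good_pres hl _
  set T : ℕ → G × β → ℝ := fun r i => EG H θ τ ep (Free_U lam on) r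
    fun (y : G → α → V) _ σ => 𝔼 l : G → Bool, 2 * ind (l i.1 = false) *
      zeta H θ ρ (fun S => wl m ep y l (S.inf σ)) (sp ep y i) with hT
  set g : G × β → ℝ := fun i =>
    FE H V θ τ ep (Free_U lam (insert i on)) - FE H V θ τ ep (Free_U lam on) with hg
  have k1 : ∀ i ∉ on, |g i - ∑ r ∈ range d, c r * T r i| ≤ e1 + (∑ r ∈ range d, |c r|) * e2 :=
    fun i hi => by
      refine (abs_sub_le _ _ _).trans (add_le_add (Free_poly hl h0 h1 t0 t1 hc hi) ?_)
      rw [← sum_sub_distrib, sum_mul]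
      refine (abs_sum_le_sum_abs _ _).trans (sum_le_sum fun r hr => ?_)
      rw [← mul_sub, abs_mul]
      refine mul_le_mul_of_nonneg_left (hloc r hr _ i g0 fun σ hσ => ?_) (abs_nonneg _)
      rw [Free_U, ind_neg fun x => hi (x hσ), mul_zero]
  have he : 0 ≤ e1 + (∑ r ∈ range d, |c r|) * e2 := by
    have : 0 ≤ e1 := (abs_nonneg _).trans (hc 0 ⟨le_rfl, zero_le_one⟩)
    rw [sum_mul]
    refine add_nonneg this (sum_nonneg fun r hr => mul_nonneg (abs_nonneg _) ?_)
    exact (abs_nonneg _).trans (hloc r hr _ (Classical.arbitrary _) (good_pres hl ∅) fun σ hσ => by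
      rw [ind_neg fun x => notMem_empty _ (x hσ), mul_zero])
  have k2 : |∑ i, a i * (g i - ∑ r ∈ range d, c r * T r i)| ≤
      Fintype.card (G × β) * (B * (e1 + (∑ r ∈ range d, |c r|) * e2)) := by
    refine (abs_sum_le_sum_abs _ _).trans ?_
    rw [← card_univ, ← nsmul_eq_mul]
    refine sum_le_card_nsmul _ _ _ fun i _ => ?_
    by_cases hi : i ∈ on
    · rw [ha0 i hi, zero_mul, abs_zero]; positivity
    · rw [abs_mul]
      exact mul_le_mul (ha i) (k1 i hi) (abs_nonneg _) hB.le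
  have k3 : |∑ r ∈ range d, c r * ∑ i, a i * T r i| ≤ (∑ r ∈ range d, |c r|) *
      (Real.exp (c0 * 2 ^ d) * (Fintype.card (G × β) * (8 * δ * B) + |∑ i, a i|)) := by
    rw [sum_mul]
    refine (abs_sum_le_sum_abs _ _).trans (sum_le_sum fun r hr => ?_)
    rw [abs_mul]
    exact mul_le_mul_of_nonneg_left (Free_main hne h0 h1 t0 t1 r0 r1 hB hδ (mem_range.1 hr).le
      (h r hr) g0 ha) (abs_nonneg _)
  have k4 : ∑ i, a i * g i = ∑ i, a i * (g i - ∑ r ∈ range d, c r * T r i) +
      ∑ r ∈ range d, c r * ∑ i, a i * T r i := by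
    simp only [mul_sub, sum_sub_distrib, mul_sum]
    rw [sum_comm (s := range d)]
    simp only [mul_left_comm, sub_add_cancel]
  refine (congrArg abs k4).trans_le ((abs_add_le _ _).trans ((add_le_add k2 k3).trans_eq ?_))
  ring

end fin

lemma Free_card {V : Type} [Fintype V] [DecidableEq V] (r m : ℕ) :
    Real.log (2 * Fintype.card (Finset (Fin r) → CI V m)) ≤
      2 ^ r * (4 * m ^ 2 + 3) * ((Fintype.card V : ℝ) + 1) := by
  have h := card_CI (V := V) m
  have hp : (1 : ℝ) ≤ Fintype.card (CI V m) := Nat.one_le_cast.2 Fintype.card_pos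
  rw [Fintype.card_fun, Fintype.card_finset, Fintype.card_fin, mul_assoc]
  push_cast
  refine le_trans ?_ (mul_le_mul_of_nonneg_left h (by positivity))
  rw [show (2 : ℝ) ^ r = (2 ^ r : ℕ) by norm_cast, ← Real.log_pow]
  refine Real.log_le_log (by positivity) ?_
  rw [mul_pow]
  gcongr
  exact le_self_pow₀ (by norm_num) (by positivity)

lemma Free_reg (R : Reg H ep n M τ) : Reg H (epS ep) n M τ := by
  have := R.nb
  refine R.change (fun j => ?_) (R.sm.imp_left fun h j k e => ?_) (.of_forall fun j => ?_)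
  · rcases j with j | j <;> simp [epS, R.ne]
  · rcases j with j | j <;> rcases k with k | k <;> simp only [epS, Sum.elim_inl, Sum.elim_inr,
      Sym2.eq_iff, Sum.inl.injEq, Sum.inr.injEq, Prod.mk.injEq, reduceCtorEq] at e ⊢
    · exact h (Sym2.eq_iff.2 e)
    all_goals tauto
  · rw [Fintype.card_sum]
    constructor <;> nlinarith only [Nat.zero_le (M j * Fintype.card β)]

theorem free (R : Reg H ep n M τ) {lam θ ε : ℝ} (hl : 0 ≤ lam) (h0 : 0 ≤ θ) (h1 : θ < 1)
    (hε : 0 < ε) : ∀ᶠ j in atTop,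
    |FE H (Fin (n j)) θ (τ j) ep (fug lam : Finset (Fin (M j) × β) → ℝ) -
      FE H (Fin (n j)) θ (τ j) (epM β) (fug lam : Finset (Fin (M j) × β) → ℝ)| ≤
      ε * (M j * Fintype.card β : ℕ) := by
  have := R.nb
  have R2 := Free_reg R
  obtain ⟨c0, -, hrate⟩ := R2.rate_bd
  have hL0 : 0 ≤ Real.log (1 + lam) := Real.log_nonneg (by linarith)
  obtain ⟨η1, η10, hη1⟩ := exists_pos_mul_lt (show 0 < ε / 8 by positivity) (Real.log (1 + lam))
  obtain ⟨η, η0, η2, hη⟩ : ∃ η : ℝ, 0 < η ∧ η ≤ 1 / 2 ∧ η * Real.log (1 + lam) ≤ ε / 8 :=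
    ⟨min η1 (1 / 2), by positivity, min_le_right _ _,
      (mul_le_mul_of_nonneg_right (min_le_left _ _) hL0).trans ((mul_comm _ _).trans_le hη1.le)⟩
  have hs : 0 < ε * η / 16 := by positivity
  obtain ⟨d, c, hc⟩ := poly_approx (fun x => Real.log (1 + lam * x)) 0 1
    (ContinuousOn.log (by fun_prop) fun x hx => by nlinarith only [η0, η2, hl, mul_nonneg hl hx.1]) hs
  set C := ∑ r ∈ range (d + 1), |c r| with hC
  set Z := Real.exp (c0 * 2 ^ (d + 1)) with hZ
  have hK : 0 ≤ C * Z := by positivity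
  obtain ⟨e2, e20, he2⟩ := exists_pos_mul_lt hs C
  obtain ⟨δ, δ0, hδ⟩ := exists_pos_mul_lt hs (C * Z * 8)
  obtain ⟨m, hm⟩ := ((eventually_all_finset (range (d + 1))).2 fun r _ =>
    free_loc R2 r hl h0 h1 e20).exists
  filter_upwards [(eventually_all_finset (range (d + 1))).2 hm, hrate, R.t01, R.pos,
    (eventually_all_finset (range (d + 1))).2 fun r _ =>
      R.lin (2 ^ r * (4 * m ^ 2 + 3)) (pow_pos δ0 2),
    (RegK_cast R.top).eventually_ge_atTop ((C * Z / (ε * η / 16)) ^ 2)] with j hloc hr ht hp hlin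
      hbig
  have : Nonempty (Fin (n j)) := ⟨⟨0, hp.1⟩⟩
  have : Nonempty (Fin (M j)) := ⟨⟨0, hp.1.trans_le hp.2⟩⟩
  have key := Free_abs (fun on => FE H (Fin (n j)) θ (τ j) (epS ep) (Free_U lam on))
    (A := univ.filter fun i : Fin (M j) × (β ⊕ β) => i.2 ∈ univ.map Function.Embedding.inl)
    (B := univ.filter fun i => i.2 ∈ univ.map Function.Embedding.inr)
    (L := Real.log (1 + lam)) (by rintro ⟨g, b | b⟩ <;> simp)
    (card_nbij' (fun i => (i.1, i.2.swap)) (fun i => (i.1, i.2.swap))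
      (by rintro ⟨g, b | b⟩ <;> simp) (by rintro ⟨g, b | b⟩ <;> simp) (by simp [Set.LeftInvOn])
      (by simp [Set.RightInvOn, Set.LeftInvOn])) η0 η2 hK
    (fun ω i hi => by
      clear * - M j α β W H n θ τ ep lam i ω c hl h0 h1 ht η η0 η2 hi d this
      have := Free_poly (H := H) (V := Fin (n j)) (ep := epS ep) hl h0 h1 ht.1 ht.2 (d := 0)
        (c := c) (e := Real.log (1 + lam)) (fun x hx => by
          have := mul_nonneg hl hx.1
          rw [range_zero, sum_empty, sub_zero, abs_of_nonneg (Real.log_nonneg (by linarith only [this]))]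
          exact Real.log_le_log (by linarith only [η0, η2, this]) (by nlinarith only [hl, hx.2])) hi
      rwa [range_zero, sum_empty, sub_zero] at this)
    (Free_pt R2.ne hl h0 h1 ht.1 ht.2 hr.1 hr.2 (one_div_pos.2 η0) δ0 hc
      (fun r hr => (Free_card r m).trans (by simpa using hlin r hr)) hloc)
  unfold Free_U at key
  rw [fe_sub θ (τ j) lam (epS ep) ep Function.Embedding.inl _ fun _ => rfl,
    fe_sub θ (τ j) lam (epS ep) (epM β) Function.Embedding.inr _ fun _ => rfl, ← hC, ← hZ] at key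
  refine key.trans ?_
  have hN : (Fintype.card (Fin (M j) × (β ⊕ β)) : ℝ) = 2 * (M j * Fintype.card β : ℕ) := by
    simp only [Fintype.card_prod, Fintype.card_fin, Fintype.card_sum]
    push_cast
    ring
  rw [hN]
  have hMN : (M j : ℝ) ≤ 2 * (M j * Fintype.card β : ℕ) := by
    push_cast
    nlinarith only [RegK_b R, Nat.cast_nonneg (α := ℝ) (M j)]
  generalize ((M j * Fintype.card β : ℕ) : ℝ) = N at hMN ⊢
  have hN0 : 0 ≤ 2 * N := (Nat.cast_nonneg _).trans hMN
  have b1 : C * Z ≤ ε * η / 16 * Real.sqrt (2 * N) := by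
    rw [← div_le_iff₀' hs]
    exact Real.le_sqrt_of_sq_le (hbig.trans hMN)
  have b2 : C * Z * (Real.sqrt (2 * N) / η) ≤ ε / 16 * (2 * N) := by
    clear * - C Z N η ε η0 b1 η2 hs hN0
    rw [← mul_div_assoc, div_le_iff₀ η0]
    nlinarith only [b1, η0, η2, hs, hN0, mul_le_mul_of_nonneg_right b1 (Real.sqrt_nonneg (2 * N)), Real.mul_self_sqrt hN0]
  have b3 : 2 * N * (1 / η) * (ε * η / 16 + C * (e2 + Z * (8 * δ))) ≤ 3 * ε / 16 * (2 * N) := by
    clear * - N η ε η0 hε C e2 Z δ he2 hδ hN0 this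
    have : 2 * N * (1 / η) * (3 * (ε * η / 16)) = 3 * ε / 16 * (2 * N) := by field_simp
    rw [← this]
    exact mul_le_mul_of_nonneg_left (by linarith only [he2, hδ]) (by positivity)
  clear * - η N lam ε C e2 Z δ b2 b3 hη hN0
  nlinarith only [b2, b3, hη, hN0, mul_le_mul_of_nonneg_right hη hN0]

end Pool.Agent.Work.MP_d4a230_co.U
end

-- merged part: Pool.Agent.Work.MP_d4a230_co.U.LF1
section
/-!
Derivative of the Laplace functional in one coefficient.
PLAN. Fix a small h <= h0. Apply lf (Ω = Unit, D = 1, bound η0 + 1, accuracy ε h / 8) to η and to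
η2 = η + h at the entry (b0, s0). Then mrk η2 C = mrk η C + h * m1 C with
m1 C = ind (Acd C ∧ (g,b0) ∈ C ∧ C.erase (g,b0) ⊆ T s0), and inten η2 = inten η + h psi (w s0). Use
prod_fd (the sum of τ h m1 is at most h XT; xt_pow with m = 2 and ex_update) and exp_fd (the rate and
inten are bounded).
-/

namespace Pool.Agent.Work.MP_d4a230_co.U

open Finset Filter Topology Pool.Agent.Work.MP_07f1b5_pr
open scoped BigOperators

variable {α β : Type} [Fintype α] [DecidableEq α] [Fintype β] [DecidableEq β]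
  {W : Type} [Fintype W] [DecidableEq W] {H : SimpleGraph W} [DecidableRel H.Adj]
  {ep : β → α × α} {n M : ℕ → ℕ} {τ : ℕ → ℝ}

lemma LF1_one {S : Type} [Fintype S] (s0 : S) (F : S → ℝ) : ∑ s, ind (s = s0) * F s = F s0 := by
  rw [sum_eq_single s0 (fun s _ h => by rw [ind_neg h, zero_mul]) (by simp), ind_pos rfl, one_mul]

lemma LF1_sum {S : Type} [Fintype S] (s0 : S) (u F : S → ℝ) (h : ℝ) :
    ∑ s, (u s + h * ind (s = s0)) * F s = ∑ s, u s * F s + h * F s0 := by
  simp only [add_mul, sum_add_distrib, mul_assoc, ← mul_sum, LF1_one]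

section aux

variable {V G S : Type} [Fintype V] [DecidableEq V] [Fintype G] [DecidableEq G] [Fintype S]

lemma LF1_mrk (g : G) {η : β → S → ℝ} {T : S → Finset (G × β)}
    (h : ∀ b (C : Finset (G × β)), 0 ≤ ∑ s, η b s * ind (C ⊆ T s) ∧
      ∑ s, η b s * ind (C ⊆ T s) ≤ 1) (y : G → α → V) (C : Finset (G × β)) :
    0 ≤ mrk H ep g η T y C ∧ mrk H ep g η T y C ≤ 1 := by
  refine ⟨mul_nonneg (ind_nonneg _) (sum_nonneg fun b _ => mul_nonneg (ind_nonneg _) (h _ _).1), ?_⟩
  unfold mrk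
  by_cases hA : Acd H (sp ep y) Prod.fst C
  swap
  · rw [ind_neg hA, zero_mul]
    exact zero_le_one
  rw [ind_pos hA, one_mul]
  by_cases hb : ∃ b, (g, b) ∈ C
  · obtain ⟨b, hb⟩ := hb
    rw [sum_eq_single b (fun b' _ e => by
      rw [ind_neg fun hb' : (g, b') ∈ C => e (Prod.ext_iff.1 (hA.2.2 hb' hb rfl)).2, zero_mul]) (by simp),
      ind_pos hb, one_mul]
    exact (h _ _).2
  · rw [sum_eq_zero fun b _ => by rw [ind_neg fun hb' => hb ⟨b, hb'⟩, zero_mul]]
    exact zero_le_one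

lemma LF1_mrk2 (g : G) (η : β → S → ℝ) (T : S → Finset (G × β)) (y : G → α → V)
    (C : Finset (G × β)) (h : ℝ) (b0 : β) (s0 : S) :
    mrk H ep g (fun b s => η b s + h * ind (b = b0) * ind (s = s0)) T y C = mrk H ep g η T y C +
      h * ind (Acd H (sp ep y) Prod.fst C ∧ (g, b0) ∈ C ∧ C.erase (g, b0) ⊆ T s0) := by
  simp only [mrk, LF1_sum, mul_add, sum_add_distrib]
  rw [ind_and, ind_and, ← LF1_one b0 fun b => ind ((g, b) ∈ C) * ind (C.erase (g, b) ⊆ T s0),
    mul_left_comm h, mul_sum _ _ h]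
  congr 2
  exact sum_congr rfl fun b _ => by ring

lemma LF1_int (η : β → S → ℝ) (w : S → Sym2 V → ℝ) (z : α → V) (h : ℝ) (b0 : β) (s0 : S) :
    inten H ep (fun b s => η b s + h * ind (b = b0) * ind (s = s0)) w z =
      inten H ep η w z + h * psi H (w s0) (sl ep z b0) := by
  simp only [inten, LF1_sum, sum_add_distrib]
  simp only [mul_assoc, ← mul_sum]
  rw [LF1_one b0 fun b => psi H (w s0) (sl ep z b)]

lemma LF1_bd {η : β → S → ℝ} {η0 : ℝ} (h : ∀ b s, |η b s| ≤ η0) {w : S → Sym2 V → ℝ}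
    (hw : ∀ s, Unit01 (w s)) (z : α → V) :
    |inten H ep η w z| ≤ Fintype.card β * (Fintype.card S * η0) := by
  rw [← nsmul_eq_mul, ← nsmul_eq_mul, ← card_univ, ← card_univ, ← sum_const, ← sum_const]
  refine (abs_sum_le_sum_abs _ _).trans (sum_le_sum fun b _ =>
    (abs_sum_le_sum_abs _ _).trans (sum_le_sum fun s _ => ?_))
  have := psi_unit H (hw s) (sl ep z b)
  rw [abs_mul, abs_of_nonneg this.1]
  exact (mul_le_of_le_one_right (abs_nonneg _) this.2).trans (h b s)

end aux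

theorem lf1 (R : Reg H ep n M τ) (S : Type) [Fintype S] (η0 : ℝ) {h0 ε : ℝ} (hh : 0 < h0)
    (hε : 0 < ε) : ∃ γ : ℝ, 0 < γ ∧ ∀ᶠ j in atTop, ∀ g : Fin (M j),
      ∃ err : (Fin (M j) → α → Fin (n j)) → ℝ, (∀ y, 0 ≤ err y) ∧ 𝔼 y, err y ≤ ε ∧
        ∀ y (η : β → S → ℝ) (T : S → Finset (Fin (M j) × β)) (w : S → Sym2 (Fin (n j)) → ℝ)
          (b0 : β) (s0 : S), (∀ b s, |η b s| ≤ η0) →
          (∀ b (C : Finset (Fin (M j) × β)), 0 ≤ ∑ s, η b s * ind (C ⊆ T s) ∧
            ∑ s, η b s * ind (C ⊆ T s) ≤ 1 - h0) →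
          (∀ s, ∀ i ∈ T s, i.1 ≠ g) → (∀ s, Unit01 (w s)) →
          (∀ s, cut (fun e => den (sp ep y) (T s) e - ord (w s) e) ≤ γ) →
          |𝔼 z, ((∑ C : Finset (Fin (M j) × β), τ j *
              ind (Acd H (sp ep (Function.update y g z)) Prod.fst C ∧ (g, b0) ∈ C ∧
                C.erase (g, b0) ⊆ T s0) *
              ∏ C2 ∈ univ.erase C, (1 - τ j * mrk H ep g η T (Function.update y g z) C2)) -
            rate H (n j) (M j * Fintype.card β) (τ j) * psi H (w s0) (sl ep z b0) *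
              Real.exp (-(rate H (n j) (M j * Fintype.card β) (τ j) * inten H ep η w z)))| ≤
            err y := by
  obtain ⟨c, c0, hc⟩ := R.rate_bd
  obtain ⟨K, K0, hK⟩ := xt_pow R 2
  obtain ⟨k, hk⟩ : ∃ k, k = c ^ 2 * Real.exp (c * (Fintype.card β * (Fintype.card S * η0))) :=
    ⟨_, rfl⟩
  have k0 : 0 ≤ k := by
    rw [hk]
    positivity
  obtain ⟨h, p0, p1, p2, p3, p4⟩ : ∃ h : ℝ, 0 < h ∧ h ≤ h0 ∧ h ≤ 1 ∧ h ≤ 1 / (c + 1) ∧
      h ≤ ε / (2 * (K + k + 1)) :=
    ⟨min (min h0 1) (min (1 / (c + 1)) (ε / (2 * (K + k + 1)))), by positivity,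
      (min_le_left _ _).trans (min_le_left _ _), (min_le_left _ _).trans (min_le_right _ _),
      (min_le_right _ _).trans (min_le_left _ _), (min_le_right _ _).trans (min_le_right _ _)⟩
  rw [le_div_iff₀ (by positivity)] at p3 p4
  obtain ⟨γ, γ0, hγ⟩ := lf R S (η0 + 1) (ε := ε * h / 4) (by positivity)
  refine ⟨γ, γ0, ?_⟩
  filter_upwards [hγ 0, hc, hK, R.t01] with j j1 j2 j3 j4 g
  obtain ⟨err, e0, e1, e2⟩ := j1 g Unit (fun _ _ => 1) (by simp) fun _ => Cut_unit
  refine ⟨fun y => 2 / h * err y +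
    h * 𝔼 z, (XT H (τ j) ep g (Function.update y g z) ^ 2 + k), fun y => ?_, ?_, ?_⟩
  · exact add_nonneg (mul_nonneg (by positivity) (e0 y))
      (mul_nonneg p0.le (expect_nonneg fun _ _ => by positivity))
  · rw [expect_add_distrib, ← mul_expect, ← mul_expect,
      ← ex_update g fun y => XT H (τ j) ep g y ^ 2 + k, expect_add_distrib]
    have a1 := ex_le (X := Fin (M j) → α → Fin (n j)) (f := fun _ => k) k0 fun _ => le_rfl
    have a2 : 2 / h * 𝔼 y, err y ≤ ε / 2 :=
      (mul_le_mul_of_nonneg_left e1 (by positivity)).trans_eq (by field_simp; norm_num)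
    clear * - h M j α n err β W H τ ep g k ε K p0 p4 a2 j3 a1
    nlinarith only [p0, p4, a2, a1, mul_le_mul_of_nonneg_left (add_le_add (j3 g) a1) p0.le]
  intro y η T w b0 s0 q1 q2 q3 q4 q5
  have q6 : ∀ b (C : Finset (Fin (M j) × β)), 0 ≤ ∑ s, η b s * ind (C ⊆ T s) ∧
      ∑ s, η b s * ind (C ⊆ T s) ≤ 1 := fun b C => ⟨(q2 b C).1, by linarith [(q2 b C).2]⟩
  have u1 : ∀ p q : Prop, 0 ≤ h * ind p * ind q ∧ h * ind p * ind q ≤ h := fun p q =>
    ⟨mul_nonneg (mul_nonneg p0.le (ind_nonneg _)) (ind_nonneg _), by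
      rw [mul_assoc, ← ind_and]
      exact mul_le_of_le_one_right p0.le (ind_le_one _)⟩
  have q7 : ∀ b (C : Finset (Fin (M j) × β)),
      0 ≤ ∑ s, (η b s + h * ind (b = b0) * ind (s = s0)) * ind (C ⊆ T s) ∧
      ∑ s, (η b s + h * ind (b = b0) * ind (s = s0)) * ind (C ⊆ T s) ≤ 1 := fun b C => by
    rw [LF1_sum]
    have := u1 (b = b0) (C ⊆ T s0)
    constructor <;> linarith only [this, p1, q2 b C]
  have f1 := e2 y () η T w (fun b s => by linarith [q1 b s]) q6 q3 q4 q5
  have f2 := e2 y () (fun b s => η b s + h * ind (b = b0) * ind (s = s0)) T w (fun b s => by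
    have := u1 (b = b0) (s = s0)
    exact (abs_add_le _ _).trans (add_le_add (q1 b s) (by rw [abs_of_nonneg this.1]; linarith)))
    q7 q3 q4 q5
  simp only [one_mul] at f1 f2
  generalize rate H (n j) (M j * Fintype.card β) (τ j) = ρ at *
  have key : ∀ z, |(∏ C, (1 - τ j * mrk H ep g (fun b s => η b s + h * ind (b = b0) * ind (s = s0))
      T (Function.update y g z) C) - Real.exp (-(ρ * inten H ep
        (fun b s => η b s + h * ind (b = b0) * ind (s = s0)) w z))) -
      (∏ C, (1 - τ j * mrk H ep g η T (Function.update y g z) C) -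
        Real.exp (-(ρ * inten H ep η w z))) + h * ((∑ C : Finset (Fin (M j) × β), τ j *
          ind (Acd H (sp ep (Function.update y g z)) Prod.fst C ∧ (g, b0) ∈ C ∧
            C.erase (g, b0) ⊆ T s0) *
          ∏ C2 ∈ univ.erase C, (1 - τ j * mrk H ep g η T (Function.update y g z) C2)) -
        ρ * psi H (w s0) (sl ep z b0) * Real.exp (-(ρ * inten H ep η w z)))| ≤
      h ^ 2 * (XT H (τ j) ep g (Function.update y g z) ^ 2 + k) := fun z => by
    clear * - M j β τ n α W H S ep g η T y z h b0 s0 j4 q6 p0 q7 w q4 ρ c j2 η0 q1 c0 p3 k hk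
    generalize Function.update y g z = x
    have g1 := prod_fd (fun C => τ j * mrk H ep g η T x C)
      (fun C => h * (τ j * ind (Acd H (sp ep x) Prod.fst C ∧ (g, b0) ∈ C ∧ C.erase (g, b0) ⊆ T s0)))
      (fun C => mul_nonneg j4.1 (LF1_mrk g q6 x C).1)
      (fun C => mul_nonneg p0.le (mul_nonneg j4.1 (ind_nonneg _))) fun C => by
        rw [mul_left_comm h, ← mul_add, ← LF1_mrk2]
        exact mul_le_one₀ j4.2 (LF1_mrk g q7 x C).1 (LF1_mrk g q7 x C).2
    have g2 : (∑ C, h * (τ j * ind (Acd H (sp ep x) Prod.fst C ∧ (g, b0) ∈ C ∧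
        C.erase (g, b0) ⊆ T s0))) ^ 2 ≤ (h * XT H (τ j) ep g x) ^ 2 := by
      refine pow_le_pow_left₀ (sum_nonneg fun C _ =>
        mul_nonneg p0.le (mul_nonneg j4.1 (ind_nonneg _))) ?_ 2
      rw [← mul_sum]
      exact mul_le_mul_of_nonneg_left (sum_le_sum fun C _ => mul_le_mul_of_nonneg_left
        (ind_mono fun e => ⟨e.1, b0, e.2.1⟩) j4.1) p0.le
    replace g1 := g1.trans g2
    have g3 := psi_unit H (q4 s0) (sl ep z b0)
    have g4 : 0 ≤ h * (ρ * psi H (w s0) (sl ep z b0)) := mul_nonneg p0.le (mul_nonneg j2.1 g3.1)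
    have g5 : h * (ρ * psi H (w s0) (sl ep z b0)) ≤ h * c :=
      mul_le_mul_of_nonneg_left ((mul_le_of_le_one_right j2.1 g3.2).trans j2.2) p0.le
    have g6 := exp_fd (x := ρ * inten H ep η w z) (h := h * (ρ * psi H (w s0) (sl ep z b0)))
      (X := c * (Fintype.card β * (Fintype.card S * η0)))
      (by
        rw [abs_mul, abs_of_nonneg j2.1]
        exact mul_le_mul j2.2 (LF1_bd q1 q4 z) (abs_nonneg _) c0)
      (by
        rw [abs_of_nonneg g4]
        linarith)
    have g7 := g6.trans (mul_le_mul_of_nonneg_right (pow_le_pow_left₀ g4 g5 2) (Real.exp_pos _).le)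
    rw [mul_pow, mul_assoc (h ^ 2), ← hk] at g7
    simp only [LF1_mrk2, LF1_int, mul_add, mul_left_comm (τ j) h, mul_left_comm ρ h]
    simp only [mul_assoc h, ← mul_sum] at g1 g7
    rw [abs_le] at g1 g7 ⊢
    constructor <;> linarith only [g1, g7, g1.1, g1.2, g7.1, g7.2, mul_pow h (XT H (τ j) ep g x) 2]
  have k1 := (ex_abs _).trans (ex_mono key)
  rw [expect_add_distrib, expect_sub_distrib, ← mul_expect, ← mul_expect] at k1
  refine le_of_mul_le_mul_left ?_ p0
  rw [← abs_of_pos p0, ← abs_mul, abs_of_pos p0, mul_add, ← mul_assoc, ← mul_assoc,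
    mul_div_cancel₀ _ p0.ne', ← sq]
  rw [abs_le] at f1 f2 k1 ⊢
  constructor <;> linarith only [f1, f2, k1, f1.1, f1.2, f2.1, f2.2, k1.1, k1.2]

end Pool.Agent.Work.MP_d4a230_co.U
end
end
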